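import Pool.Agent.Work.MP_8c679b_co.Six.GNorm
import Pool.Agent.Work.MP_8c679b_co.Six.Cut
import Pool.Agent.Work.MP_8c679b_co.T2

-- merged part: Pool.Agent.Work.MP_8c679b_co.Six.Meng
section
/-!
Menger's theorem for vertex separators, and fans from a set.
-/

set_option autoImplicit false

namespace Pool.Agent.Work.MP_8c679b_co

open Finset

namespace SG

variable {V E : Type} [Fintype V] [DecidableEq V] [DecidableEq E] {G : SG V E}

private theorem avo_je {S : Finset E} {M : Finset V} {e : E} {a b : V} (hj : G.Je e a b) :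
    e ∈ G.avo S M ↔ e ∈ S ∧ a ∉ M ∧ b ∉ M := by
  rw [mem_avo]
  rcases hj with ⟨rfl, rfl⟩ | ⟨rfl, rfl⟩ <;> tauto

private theorem je_ends {e : E} {a b x y : V} (h : G.Je e a b) (h' : G.Je e x y) :
    (a = x ∧ b = y) ∨ (a = y ∧ b = x) := by
  rcases h with ⟨rfl, rfl⟩ | ⟨rfl, rfl⟩ <;> rcases h' with ⟨rfl, rfl⟩ | ⟨rfl, rfl⟩ <;> tauto

private theorem rch_tail {S : Finset E} {e : E} {a b c : V} (h : G.Rch S a b) (he : e ∈ S)
    (hj : G.Je e b c) : G.Rch S a c := Relation.ReflTransGen.tail h (adj_iff.2 ⟨e, he, hj⟩)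

/-- a walk avoids `e` or is split by it -/
private theorem rch_split {S : Finset E} {M : Finset V} {e : E} {a b : V}
    (h : G.Rch (G.avo S M) a b) : G.Rch (G.avo (S.erase e) M) a b ∨ ∃ x y, G.Je e x y ∧ x ∉ M ∧
      y ∉ M ∧ G.Rch (G.avo (S.erase e) M) a x ∧ G.Rch (G.avo (S.erase e) M) y b := by
  induction h with
  | refl => exact .inl (Rch.refl ..)
  | @tail z w _ hzw ih =>
    obtain ⟨f, hf, hj⟩ := adj_iff.1 hzw
    obtain ⟨f1, f2, f3⟩ := (avo_je hj).1 hf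
    by_cases hfe : f = e
    · subst hfe
      rcases ih with ih | ⟨x, y, j, hx, hy, r1, -⟩
      · exact .inr ⟨z, w, hj, f2, f3, ih, Rch.refl ..⟩
      · rcases je_ends hj j with ⟨-, rfl⟩ | ⟨-, rfl⟩
        · exact .inr ⟨x, w, j, hx, hy, r1, Rch.refl ..⟩
        · exact .inl r1
    · have k : f ∈ G.avo (S.erase e) M := (avo_je hj).2 ⟨mem_erase.2 ⟨hfe, f1⟩, f2, f3⟩
      rcases ih with ih | ⟨x, y, j, hx, hy, r1, r2⟩
      · exact .inl (rch_tail ih k hj)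
      · exact .inr ⟨x, y, j, hx, hy, r1, rch_tail r2 k hj⟩

/-- separators between `A` and the separator with one end of the edge -/
private theorem half {S : Finset E} {A B M T : Finset V} {e : E} {x y a b b0 : V}
    (sep : ∀ a ∈ A, ∀ b ∈ B, a ∉ M → b ∉ M → ¬ G.Rch (G.avo (S.erase e) M) a b)
    (hj : G.Je e x y) (hb0 : b0 ∈ B) (hb0' : b0 ∉ M) (hy : G.Rch (G.avo (S.erase e) M) y b0)
    (ha : a ∈ A) (hb : b ∈ B) (ha' : a ∉ T) (h : G.Rch (G.avo S T) a b) :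
    ∃ m ∈ insert x M, m ∉ T ∧ G.Rch (G.avo (S.erase e) T) a m := by
  by_cases h0 : a ∈ insert x M
  · exact ⟨a, h0, ha', Rch.refl ..⟩
  have a1 : a ∉ M := fun k => h0 (mem_insert_of_mem k)
  have key : ∀ z, G.Rch (G.avo S T) a z →
      (∃ m ∈ insert x M, m ∉ T ∧ G.Rch (G.avo (S.erase e) T) a m) ∨ (z ∉ insert x M ∧
        G.Rch (G.avo (S.erase e) T) a z ∧ G.Rch (G.avo (S.erase e) M) a z) := fun z hz => by
    induction hz with
    | refl => exact .inr ⟨h0, Rch.refl .., Rch.refl ..⟩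
    | @tail z w _ hzw ih =>
      rcases ih with ih | ⟨z1, r1, r2⟩
      · exact .inl ih
      obtain ⟨f, hf, j⟩ := adj_iff.1 hzw
      obtain ⟨f1, f2, f3⟩ := (avo_je j).1 hf
      have hfe : f ≠ e := by
        rintro rfl
        rcases je_ends j hj with ⟨rfl, -⟩ | ⟨rfl, -⟩
        · exact z1 (mem_insert_self ..)
        · exact sep a ha b0 hb0 a1 hb0' (r2.trans hy)
      have k : f ∈ S.erase e := mem_erase.2 ⟨hfe, f1⟩
      have r3 := rch_tail r1 ((avo_je j).2 ⟨k, f2, f3⟩) j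
      by_cases hw : w ∈ insert x M
      · exact .inl ⟨w, hw, f3, r3⟩
      · exact .inr ⟨hw, r3, rch_tail r2 ((avo_je j).2 ⟨k, fun q => z1 (mem_insert_of_mem q),
          fun q => hw (mem_insert_of_mem q)⟩) j⟩
  rcases key b h with k | ⟨k1, -, k2⟩
  · exact k
  · exact absurd k2 (sep a ha b hb a1 fun q => k1 (mem_insert_of_mem q))

/-- a segment of a path that avoids `M` -/
private theorem seg {S : Finset E} {M : Finset V} {n i j : ℕ} {v : ℕ → V} {g : ℕ → E}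
    (hp : G.Pth S n v g) (hij : i ≤ j) (hj : j ≤ n) (h : ∀ l, i ≤ l → l ≤ j → v l ∉ M) :
    G.Rch (G.avo S M) (v i) (v j) := by
  induction j, hij using Nat.le_induction with
  | base => exact Rch.refl ..
  | succ j hij ih =>
    have q := hp.jn j (by omega)
    exact rch_tail (ih (by omega) fun l a b => h l a (by omega)) ((avo_je q).2
      ⟨hp.mem j (by omega), h j hij (by omega), h (j + 1) (by omega) le_rfl⟩) q

private theorem pv_mem {n l : ℕ} (v : ℕ → V) (h : l ≤ n) : v l ∈ pv n v := mem_pv.2 ⟨l, h, rfl⟩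

/-- Menger's theorem.
HINT (Göring's proof): induction on `S.card`, for all `A, B`.  If `S` has no non-loop edge the
hypothesis with `M = A ∩ B` gives `k` trivial paths.  Otherwise take an edge `e = xy`.  If the
hypothesis holds for `S.erase e` use induction.  Otherwise there is `M`, `|M| < k`, separating
`A` from `B` in `S.erase e`; then `|M| = k - 1`, `x, y ∉ M`, and (after renaming) `x` is reached
from `A`, `y` reaches `B`.  Every `A`-`(M ∪ {x})` separator and every `(M ∪ {y})`-`B` separator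
of `S.erase e` separates `A` from `B` in `S`; apply induction twice and concatenate. -/
theorem menger (S : Finset E) (A B : Finset V) (k : ℕ) (e0 : E)
    (h : ∀ M : Finset V, M.card < k →
      ∃ a ∈ A, ∃ b ∈ B, a ∉ M ∧ b ∉ M ∧ G.Rch (G.avo S M) a b) :
    ∃ (n : Fin k → ℕ) (v : Fin k → ℕ → V) (g : Fin k → ℕ → E),
      (∀ i, G.Pth S (n i) (v i) (g i) ∧ v i 0 ∈ A ∧ v i (n i) ∈ B ∧
        (∀ l, 0 < l → l ≤ n i → v i l ∉ A) ∧ ∀ l < n i, v i l ∉ B) ∧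
      ∀ i j, i ≠ j → Disjoint (pv (n i) (v i)) (pv (n j) (v j)) := by
  classical
  induction S using Finset.strongInduction generalizing A B with
  | H S ih =>
  rcases S.eq_empty_or_nonempty with rfl | ⟨e, he⟩
  · have hk : k ≤ (A ∩ B).card := by
      by_contra hc
      obtain ⟨a, ha, b, hb, a1, -, r⟩ := h (A ∩ B) (not_le.1 hc)
      have : a = b := by
        rcases r.cases_head with q | ⟨c, q, -⟩
        · exact q
        · obtain ⟨f, hf, -⟩ := adj_iff.1 q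
          simp [avo] at hf
      exact a1 (mem_inter.2 ⟨ha, this ▸ hb⟩)
    obtain ⟨f, hf⟩ : ∃ f : Fin k ↪ V, ∀ i, f i ∈ A ∩ B := by
      obtain ⟨T, hT, rfl⟩ := exists_subset_card_eq hk
      exact ⟨T.equivFin.symm.toEmbedding.trans (Function.Embedding.subtype _),
        fun i => hT (T.equivFin.symm i).2⟩
    refine ⟨fun _ => 0, fun i _ => f i, fun _ _ => e0, fun i => ⟨pth_zero .., (mem_inter.1 (hf i)).1,
      (mem_inter.1 (hf i)).2, fun l a b => absurd b (not_le.2 a),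
      fun l a => absurd a (Nat.not_lt_zero _)⟩, fun i j hij => ?_⟩
    refine disjoint_left.2 fun x h1 h2 => ?_
    obtain ⟨_, -, rfl⟩ := mem_pv.1 h1
    obtain ⟨_, -, q⟩ := mem_pv.1 h2
    exact hij (f.injective q).symm
  have hS : S.erase e ⊂ S := erase_ssubset he
  by_cases hc : ∀ M : Finset V, M.card < k →
      ∃ a ∈ A, ∃ b ∈ B, a ∉ M ∧ b ∉ M ∧ G.Rch (G.avo (S.erase e) M) a b
  · obtain ⟨n, v, g, h1, h2⟩ := ih _ hS A B hc
    exact ⟨n, v, g, fun i => ⟨(h1 i).1.mono fun l hl => hS.1 ((h1 i).1.mem l hl), (h1 i).2⟩, h2⟩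
  push Not at hc
  obtain ⟨M, hM, sep⟩ := hc
  obtain ⟨a0, ha0, b0, hb0, a0M, b0M, r0⟩ := h M hM
  obtain ⟨x, y, hj, xM, yM, rx, ry⟩ :=
    (rch_split (e := e) r0).resolve_left (sep a0 ha0 b0 hb0 a0M b0M)
  have hy : k ≤ (insert y M).card := by
    by_contra q
    obtain ⟨a, ha, b, hb, a1, b1, r⟩ := h _ (not_le.1 q)
    refine sep a ha b hb (fun q => a1 (mem_insert_of_mem q)) (fun q => b1 (mem_insert_of_mem q))
      (r.mono fun f hf => ?_)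
    obtain ⟨f1, f2, f3⟩ := mem_avo.1 hf
    refine mem_avo.2 ⟨mem_erase.2 ⟨?_, f1⟩, fun q => f2 (mem_insert_of_mem q),
      fun q => f3 (mem_insert_of_mem q)⟩
    rintro rfl
    exact ((avo_je hj).1 hf).2.2 (mem_insert_self ..)
  obtain ⟨n, v, g, h1, h2⟩ := ih _ hS A (insert x M) fun T hT => by
    obtain ⟨a, ha, b, hb, a1, -, r⟩ := h T hT
    obtain ⟨m, m1, m2, m3⟩ := half sep hj hb0 b0M ry ha hb a1 r
    exact ⟨a, ha, m, m1, a1, m2, m3⟩
  obtain ⟨m, u, f, k1, k2⟩ := ih _ hS (insert y M) B fun T hT => by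
    obtain ⟨a, ha, b, hb, -, b1, r⟩ := h T hT
    obtain ⟨m, m1, m2, m3⟩ := half (A := B) (B := A)
      (fun b hb a ha b1 a1 q => sep a ha b hb a1 b1 q.symm) hj.symm ha0 a0M rx.symm hb ha b1 r.symm
    exact ⟨m, m1, b, hb, m2, b1, m3.symm⟩
  have pa : ∀ i l, l ≤ n i → v i l ∉ M → v i 0 ∉ M ∧
      G.Rch (G.avo (S.erase e) M) (v i 0) (v i l) := fun i l hl q => by
    have : ∀ l', l' ≤ l → v i l' ∉ M := fun l' a => by
      rcases a.lt_or_eq with a | rfl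
      · exact fun c => (h1 i).2.2.2.2 l' (by omega) (mem_insert_of_mem c)
      · exact q
    exact ⟨this 0 (Nat.zero_le _), seg (h1 i).1 (Nat.zero_le _) hl fun l' _ a => this l' a⟩
  have pb : ∀ j l, l ≤ m j → u j l ∉ M → u j (m j) ∉ M ∧
      G.Rch (G.avo (S.erase e) M) (u j l) (u j (m j)) := fun j l hl q => by
    have : ∀ l', l ≤ l' → l' ≤ m j → u j l' ∉ M := fun l' a b => by
      rcases a.lt_or_eq with a | rfl
      · exact fun c => (k1 j).2.2.2.1 l' (by omega) b (mem_insert_of_mem c)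
      · exact q
    exact ⟨this _ hl le_rfl, seg (k1 j).1 hl le_rfl this⟩
  have nB : ∀ i l, l ≤ n i → v i l ∉ M → v i l ∉ B := fun i l hl q c =>
    sep _ (h1 i).2.1 _ c (pa i l hl q).1 q (pa i l hl q).2
  have far : ∀ j l, l ≤ m j → u j l ∉ M → u j l ∉ A ∧ ∀ i, u j l ∉ pv (n i) (v i) :=
    fun j l hl q => ⟨fun c => sep _ c _ (k1 j).2.2.1 q (pb j l hl q).1 (pb j l hl q).2,
      fun i c => by
        obtain ⟨l', a, b⟩ := mem_pv.1 c
        have := pa i l' a (b ▸ q)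
        exact sep _ (h1 i).2.1 _ (k1 j).2.2.1 this.1 (pb j l hl q).1
          (this.2.trans (b ▸ (pb j l hl q).2))⟩
  have sur : ∀ w ∈ insert y M, ∃ j, u j 0 = w := fun w hw => by
    have inj : Function.Injective fun j => u j 0 := fun j j' q => by
      by_contra c
      exact disjoint_left.1 (k2 j j' c) (pv_mem _ (Nat.zero_le _))
        ((show u j 0 = u j' 0 from q) ▸ pv_mem _ (Nat.zero_le _))
    have e1 : univ.image (fun j => u j 0) = insert y M := eq_of_subset_of_card_le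
      (fun w hw => by
        obtain ⟨j, -, rfl⟩ := mem_image.1 hw
        exact (k1 j).2.1) (by
        rw [card_image_of_injective _ inj, card_univ, Fintype.card_fin, card_insert_of_notMem yM]
        omega)
    obtain ⟨j, -, q⟩ := mem_image.1 (e1 ▸ hw)
    exact ⟨j, q⟩
  have ex : ∀ i, ∃ j r w c, G.Pth S r w c ∧ w 0 = v i (n i) ∧ w r ∈ B ∧ (∀ l < r, w l ∉ B) ∧
      (∀ l, 0 < l → l ≤ r → ∃ l' ≤ m j, w l = u j l' ∧ u j l' ∉ M) ∧
      (u j 0 = v i (n i) ∧ u j 0 ∈ M ∨ u j 0 = y ∧ v i (n i) = x) := fun i => by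
    have mono : ∀ j, G.Pth S (m j) (u j) (f j) := fun j =>
      (k1 j).1.mono fun l hl => hS.1 ((k1 j).1.mem l hl)
    have out : ∀ j l, 0 < l → l ≤ m j → u j l ∉ M := fun j l a b c =>
      (k1 j).2.2.2.1 l a b (mem_insert_of_mem c)
    rcases mem_insert.1 (h1 i).2.2.1 with q | q
    · obtain ⟨j, hj'⟩ := sur y (mem_insert_self ..)
      have all : ∀ l ≤ m j, u j l ∉ M := fun l b => by
        rcases Nat.eq_zero_or_pos l with rfl | a
        · rwa [hj']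
        · exact out j l a b
      refine ⟨j, _, _, _, (mono j).cons (x := x) he (hj' ▸ hj) fun c => ?_, by simp [q],
        by simpa using (k1 j).2.2.1, fun l hl => ?_, fun l a b => ⟨l - 1, by omega,
          if_neg (by omega), all _ (by omega)⟩, .inr ⟨hj', q⟩⟩
      · obtain ⟨l, a, b⟩ := mem_pv.1 c
        exact (far j l a (all l a)).2 i (by rw [b, ← q]; exact pv_mem _ le_rfl)
      · split_ifs with c
        · exact q ▸ nB i _ le_rfl (q ▸ xM)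
        · exact (k1 j).2.2.2.2 _ (by omega)
    · obtain ⟨j, hj'⟩ := sur _ (mem_insert_of_mem q)
      exact ⟨j, _, _, _, mono j, hj', (k1 j).2.2.1, (k1 j).2.2.2.2,
        fun l a b => ⟨l, b, rfl, out j l a b⟩, .inl ⟨hj', hj' ▸ q⟩⟩
  choose σ r w c c1 c2 c3 c4 c5 c6 using ex
  have fr : ∀ i l, 0 < l → l ≤ r i → w i l ∉ A ∧ (∀ i', w i l ∉ pv (n i') (v i')) ∧
      w i l ∈ pv (m (σ i)) (u (σ i)) := fun i l a b => by
    obtain ⟨l', a', b', c'⟩ := c5 i l a b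
    rw [b']
    exact ⟨(far _ _ a' c').1, (far _ _ a' c').2, pv_mem _ a'⟩
  have si : ∀ i i', i ≠ i' → σ i ≠ σ i' := fun i i' q c' => by
    refine disjoint_left.1 (h2 i i' q) (pv_mem _ le_rfl) ((?_ : v i' (n i') = v i (n i)) ▸
      pv_mem _ le_rfl)
    have a1 := c6 i
    have a2 := c6 i'
    rw [c'] at a1
    rcases a1 with ⟨a1, a3⟩ | ⟨a1, a3⟩ <;> rcases a2 with ⟨a2, a4⟩ | ⟨a2, a4⟩
    · rw [← a1, a2]
    · exact absurd (a2 ▸ a3) yM
    · exact absurd (a1 ▸ a4) yM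
    · rw [a3, a4]
  have mm : ∀ i z, z ∈ pv (n i + r i) (catV (n i) (v i) (w i)) →
      z ∈ pv (n i) (v i) ∨ ∃ l, 0 < l ∧ l ≤ r i ∧ w i l = z := fun i z hz => by
    rcases (mem_pv_cat (c2 i).symm).1 hz with q | q
    · exact .inl q
    · obtain ⟨l, a, rfl⟩ := mem_pv.1 q
      rcases Nat.eq_zero_or_pos l with rfl | b
      · exact .inl (c2 i ▸ pv_mem _ le_rfl)
      · exact .inr ⟨l, b, a, rfl⟩
  refine ⟨fun i => n i + r i, fun i => catV (n i) (v i) (w i), fun i => catE (n i) (g i) (c i),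
    fun i => ⟨Pth.cat ((h1 i).1.mono fun l hl => hS.1 ((h1 i).1.mem l hl)) (c1 i) (c2 i).symm
      fun l a l' b q => ?_, by simpa [catV] using (h1 i).2.1, ?_, fun l a b => ?_,
      fun l a => ?_⟩, fun i j hij => disjoint_left.2 fun z z1 z2 => ?_⟩
  · by_contra c'
    exact (fr i l' (Nat.pos_of_ne_zero c') b).2.1 i (q ▸ pv_mem _ a)
  · simp only [catV]
    split_ifs with q
    · have := c3 i
      rwa [show r i = 0 by omega, c2, ← show n i + r i = n i by omega] at this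
    · simpa using c3 i
  · simp only [catV]
    split_ifs with q
    · exact (h1 i).2.2.2.1 l a q
    · exact (fr i _ (by omega) (by simp only at b; omega)).1
  · simp only [catV]
    split_ifs with q
    · rcases q.lt_or_eq with q | rfl
      · exact nB i l q.le fun c' => (h1 i).2.2.2.2 l q (mem_insert_of_mem c')
      · exact c2 i ▸ c4 i 0 (by simpa using a)
    · exact c4 i _ (by simp only at a; omega)
  · rcases mm i z z1 with q | ⟨l, a, b, rfl⟩ <;> rcases mm j _ z2 with q' | ⟨l', a', b', q'⟩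
    · exact disjoint_left.1 (h2 i j hij) q q'
    · exact (fr j l' a' b').2.1 i (q' ▸ q)
    · exact (fr i l a b).2.1 j q'
    · exact disjoint_left.1 (k2 _ _ (si i j hij)) (fr i l a b).2.2 (q' ▸ (fr j l' a' b').2.2)

/-- A fan from the set `Z` to `B`: the paths start in `Z`, leave it at once, and are disjoint
outside `Z`.  HINT: `menger` in `avo S Z` from the set of neighbours of `Z`; prepend an edge. -/
theorem fan_set (S : Finset E) (Z B : Finset V) (k : ℕ) (e0 : E) (hd : Disjoint Z B)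
    (h : ∀ M : Finset V, M.card < k → Disjoint M Z →
      ∃ z ∈ Z, ∃ b ∈ B, b ∉ M ∧ G.Rch (G.avo S M) z b) :
    ∃ (n : Fin k → ℕ) (v : Fin k → ℕ → V) (g : Fin k → ℕ → E),
      (∀ i, G.Pth S (n i) (v i) (g i) ∧ 1 ≤ n i ∧ v i 0 ∈ Z ∧ v i (n i) ∈ B ∧
        (∀ l, 0 < l → l ≤ n i → v i l ∉ Z) ∧ ∀ l < n i, v i l ∉ B) ∧
      ∀ i j, i ≠ j → ∀ l, 0 < l → l ≤ n i → ∀ l', 0 < l' → l' ≤ n j → v i l ≠ v j l' := by
  classical
  obtain ⟨n, v, g, h1, h2⟩ := menger (G := G) (G.avo S Z)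
    (univ.filter fun y => y ∉ Z ∧ ∃ z ∈ Z, ∃ e ∈ S, G.Je e z y) B k e0 fun M hM => by
      obtain ⟨z, hz, b, hb, -, r⟩ := h (M \ Z) ((card_le_card sdiff_subset).trans_lt hM)
        sdiff_disjoint
      have key : ∀ x, G.Rch (G.avo S (M \ Z)) z x → x ∈ Z ∨ (x ∉ Z ∧ x ∉ M ∧
          ∃ a, (a ∉ Z ∧ ∃ z ∈ Z, ∃ e ∈ S, G.Je e z a) ∧ a ∉ M ∧
            G.Rch (G.avo (G.avo S Z) M) a x) := fun x hx => by
        induction hx with
        | refl => exact .inl hz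
        | @tail x y _ hxy ih =>
          obtain ⟨f, hf, j⟩ := adj_iff.1 hxy
          obtain ⟨f1, -, f3⟩ := (avo_je j).1 hf
          by_cases hy : y ∈ Z
          · exact .inl hy
          have y1 : y ∉ M := fun c => f3 (mem_sdiff.2 ⟨c, hy⟩)
          refine .inr ⟨hy, y1, ?_⟩
          rcases ih with ih | ⟨x1, x2, a, a1, a2, r⟩
          · exact ⟨y, ⟨hy, x, ih, f, f1, j⟩, y1, Rch.refl ..⟩
          · exact ⟨a, a1, a2, rch_tail r ((avo_je j).2 ⟨(avo_je j).2 ⟨f1, x1, hy⟩, x2, y1⟩) j⟩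
      obtain ⟨-, b1, a, a1, a2, r'⟩ := (key b r).resolve_left (disjoint_right.1 hd hb)
      exact ⟨a, mem_filter.2 ⟨mem_univ _, a1⟩, b, hb, a2, b1, r'⟩
  have out : ∀ i l, l ≤ n i → v i l ∉ Z := fun i l hl => by
    rcases l with _ | l
    · exact (mem_filter.1 (h1 i).2.1).2.1
    · exact ((avo_je ((h1 i).1.jn l hl)).1 ((h1 i).1.mem l hl)).2.2
  choose z z1 e e1 e2 using fun i => (mem_filter.1 (h1 i).2.1).2.2
  refine ⟨fun i => n i + 1, fun i l => if l = 0 then z i else v i (l - 1),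
    fun i l => if l = 0 then e i else g i (l - 1), fun i => ⟨Pth.cons
      ((h1 i).1.mono fun l hl => (mem_avo.1 ((h1 i).1.mem l hl)).1) (e1 i) (e2 i) fun c => ?_,
      Nat.succ_pos _, by simpa using z1 i, by simpa using (h1 i).2.2.1, fun l a b => ?_,
      fun l a => ?_⟩, fun i j hij l a b l' a' b' c => ?_⟩
  · obtain ⟨l, a, b⟩ := mem_pv.1 c
    exact out i l a (b ▸ z1 i)
  · simp only [if_neg a.ne']
    exact out i _ (by simp only at b; omega)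
  · simp only
    split_ifs with c
    · exact disjoint_left.1 hd (z1 i)
    · exact (h1 i).2.2.2.2 _ (by simp only at a; omega)
  · simp only [if_neg a.ne', if_neg a'.ne'] at c b b'
    exact disjoint_left.1 (h2 i j hij) (pv_mem _ (by omega : l - 1 ≤ n i))
      (c ▸ pv_mem _ (by omega : l' - 1 ≤ n j))

/-- the ear with different ends -/
private theorem ear0 (S : Finset E) (B : Finset V) {c : V} (e0 : E) (hc : c ∉ B)
    (h : ∀ M : Finset V, M.card < 2 → c ∉ M → ∃ b ∈ B, b ∉ M ∧ G.Rch (G.avo S M) c b) :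
    ∃ n v g, G.Pth S n v g ∧ v 0 ∈ B ∧ v n ∈ B ∧ c ∈ pv n v ∧ 2 ≤ n ∧
      ∀ l, 0 < l → l < n → v l ∉ B := by
  obtain ⟨n, v, g, h1, h2⟩ := fan_set (G := G) S {c} B 2 e0 (disjoint_singleton_left.2 hc)
    fun M hM hd => by
      obtain ⟨b, hb, b1, r⟩ := h M hM (disjoint_singleton_right.1 hd)
      exact ⟨c, mem_singleton_self _, b, hb, b1, r⟩
  obtain ⟨p0, n0, s0, t0, a0, b0⟩ := h1 0
  obtain ⟨p1, n1, s1, t1, a1, b1⟩ := h1 1
  rw [mem_singleton] at s0 s1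
  have h3 := h2 0 1 (by decide)
  generalize n 0 = n, n 1 = m, v 0 = v, v 1 = u, g 0 = g, g 1 = f at *
  have e : (fun k => v (n - k)) n = u 0 := by simp only [Nat.sub_self, s0, s1]
  have c1 : c ∈ pv m u := by
    rw [← s1]
    exact pv_mem _ (Nat.zero_le _)
  refine ⟨n + m, _, _, Pth.cat p0.rev p1 e fun i hi k hk q => ?_, by simpa [catV] using t0, ?_,
    (mem_pv_cat (v := fun k => v (n - k)) e).2 (.inr c1), by omega, fun l a b => ?_⟩
  · by_contra c'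
    rcases Nat.eq_zero_or_pos (n - i) with z | z
    · simp only [z] at q
      exact a1 k (by omega) hk (mem_singleton.2 (q.symm.trans s0))
    · exact h3 _ z (by omega) k (by omega) hk q
  · simpa [catV, show ¬ n + m ≤ n by omega] using t1
  · simp only [catV]
    split_ifs with q
    · exact b0 _ (by omega)
    · exact b1 _ (by omega)

/-- a path between two vertices through a third one -/
theorem pth_through (S : Finset E) {a b c : V} (e0 : E) (hab : a ≠ b) (hca : c ≠ a) (hcb : c ≠ b)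
    (h : ∀ M : Finset V, M.card < 2 → c ∉ M →
      (a ∉ M ∧ G.Rch (G.avo S M) c a) ∨ (b ∉ M ∧ G.Rch (G.avo S M) c b)) :
    ∃ n v g, G.Pth S n v g ∧ v 0 = a ∧ v n = b ∧ c ∈ pv n v := by
  obtain ⟨n, v, g, p, s, t, hc, hn, -⟩ := ear0 (G := G) S {a, b} e0 (c := c) (by simp [hca, hcb])
    fun M hM hc => by
      rcases h M hM hc with ⟨h1, h2⟩ | ⟨h1, h2⟩
      · exact ⟨a, by simp, h1, h2⟩
      · exact ⟨b, by simp, h1, h2⟩
  have ne : v 0 ≠ v n := fun q => by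
    have := p.inj 0 (Nat.zero_le _) n le_rfl q
    omega
  simp only [mem_insert, mem_singleton] at s t
  rcases s with s | s <;> rcases t with t | t
  · exact absurd (s.trans t.symm) ne
  · exact ⟨n, v, g, p, s, t, hc⟩
  · exact ⟨n, _, _, p.rev, by simpa using t, by simpa using s, by rwa [pv_rev]⟩
  · exact absurd (s.trans t.symm) ne

/-- an ear through `c` with both ends in `B` -/
theorem ear_through (S : Finset E) (B : Finset V) {c : V} (e0 : E) (hc : c ∉ B)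
    (h : ∀ M : Finset V, M.card < 2 → c ∉ M → ∃ b ∈ B, b ∉ M ∧ G.Rch (G.avo S M) c b) :
    ∃ n v g, G.Pth S n v g ∧ v 0 ∈ B ∧ v n ∈ B ∧ c ∈ pv n v ∧ 2 ≤ n ∧
      ∀ l, 0 < l → l < n → v l ∉ B := by
  exact ear0 S B e0 hc h

/-- Three paths to a path with one marked position `k`: two of them end on the same side. -/
theorem three_side {n k : ℕ} (p : Fin 3 → ℕ) (hn : ∀ i, p i ≤ n) (hk : ∀ i, p i ≠ k)
    (hi : ∀ i j, i ≠ j → p i ≠ p j) :
    ∃ i j, i ≠ j ∧ p i < p j ∧ (p j < k ∨ k < p i) := by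
  have a := hk 0
  have b := hk 1
  have c := hk 2
  have d := hi 0 1 (by decide)
  have e := hi 0 2 (by decide)
  have f := hi 1 2 (by decide)
  by_contra q
  push Not at q
  have q1 := q 0 1 (by decide)
  have q2 := q 1 0 (by decide)
  have q3 := q 0 2 (by decide)
  have q4 := q 2 0 (by decide)
  have q5 := q 1 2 (by decide)
  have q6 := q 2 1 (by decide)
  omega

/-- In an edge set with all degrees at most three a small vertex separator gives a small edge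
cut.  HINT: let `Z` be the set reached from `A` in `avo S M`; add the vertices of `M` with at
most one edge of `S` leaving `Z ∪ {m}`. -/
theorem sep_cut (S : Finset E) (A B M : Finset V) (hdeg : ∀ x, G.deg S x ≤ 3)
    (hA : Disjoint M A) (hAB : Disjoint A B)
    (hB : ∀ x ∈ B, ∀ Z : Finset V, Disjoint Z B → (G.crs S Z ∩ G.crs S {x}).card ≤ 1)
    (h : ∀ a ∈ A, ∀ b ∈ B, b ∉ M → ¬ G.Rch (G.avo S M) a b) :
    ∃ X : Finset V, A ⊆ X ∧ Disjoint X B ∧ (G.crs S X).card ≤ M.card ∧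
      ∀ x ∈ X, ∃ a ∈ A, G.Rch S a x := by
  classical
  set Z : Finset V := univ.filter fun x => ∃ a ∈ A, G.Rch (G.avo S M) a x with hZ
  have mZ : ∀ x, x ∈ Z ↔ ∃ a ∈ A, G.Rch (G.avo S M) a x := fun x => by simp [hZ]
  have zM : ∀ x ∈ Z, x ∉ M := fun x hx => by
    obtain ⟨a, ha, r⟩ := (mZ x).1 hx
    rcases r.cases_tail with rfl | ⟨c, -, q⟩
    · exact disjoint_right.1 hA ha
    · obtain ⟨f, hf, j⟩ := adj_iff.1 q
      exact ((avo_je j).1 hf).2.2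
  have zB : Disjoint Z B := disjoint_left.2 fun x hx hb => by
    obtain ⟨a, ha, r⟩ := (mZ x).1 hx
    exact h a ha x hb (zM x hx) r
  have stp : ∀ e ∈ S, ∀ x y, G.Je e x y → x ∈ Z → y ∉ M → y ∈ Z := fun e he x y j hx hy => by
    obtain ⟨a, ha, r⟩ := (mZ x).1 hx
    exact (mZ y).2 ⟨a, ha, rch_tail r ((avo_je j).2 ⟨he, zM x hx, hy⟩) j⟩
  have cj : ∀ e ∈ S, ∀ (X : Finset V) x y, G.Je e x y → x ∈ X → y ∉ X → e ∈ G.crs S X :=
    fun e he X x y j hx hy => by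
      rw [mem_crs]
      rcases j with ⟨rfl, rfl⟩ | ⟨rfl, rfl⟩ <;> tauto
  have jc : ∀ (X : Finset V), ∀ e ∈ G.crs S X, e ∈ S ∧ ∃ x y, G.Je e x y ∧ x ∈ X ∧ y ∉ X :=
    fun X e he => by
      obtain ⟨h1, h2⟩ := mem_crs.1 he
      by_cases c : G.s e ∈ X
      · exact ⟨h1, _, _, .inl ⟨rfl, rfl⟩, c, by tauto⟩
      · exact ⟨h1, _, _, .inr ⟨rfl, rfl⟩, by tauto, c⟩
  set M2 := M.filter fun m => 2 ≤ (G.crs S Z ∩ G.crs S {m}).card with hM2
  refine ⟨Z ∪ M2, fun a ha => mem_union_left _ ((mZ a).2 ⟨a, ha, Rch.refl ..⟩),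
    disjoint_union_left.2 ⟨zB, disjoint_left.2 fun m hm hb => ?_⟩, ?_, fun x hx => ?_⟩
  · have := hB m hb Z zB
    have := (mem_filter.1 hm).2
    omega
  · have sub : G.crs S (Z ∪ M2) ⊆ M.biUnion fun m =>
        if m ∈ M2 then G.crs S {m} \ G.crs S Z else G.crs S Z ∩ G.crs S {m} := fun e he => by
      obtain ⟨h1, x, y, j, hx, hy⟩ := jc _ e he
      have xy : y ≠ x := fun q => hy (q ▸ hx)
      have y1 : y ∉ Z := fun q => hy (mem_union_left _ q)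
      rcases mem_union.1 hx with hx | hx
      · refine mem_biUnion.2 ⟨y, by_contra fun q => y1 (stp e h1 x y j hx q), ?_⟩
        rw [if_neg fun q => hy (mem_union_right _ q)]
        exact mem_inter.2 ⟨cj e h1 _ x y j hx y1, cj e h1 _ y x j.symm (mem_singleton_self _)
          (by simpa using xy.symm)⟩
      · refine mem_biUnion.2 ⟨x, (mem_filter.1 hx).1, ?_⟩
        rw [if_pos hx]
        refine mem_sdiff.2 ⟨cj e h1 _ x y j (mem_singleton_self _) (by simpa using xy), fun q => ?_⟩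
        obtain ⟨-, x', y', j', hx', -⟩ := jc _ e q
        rcases je_ends j j' with ⟨rfl, -⟩ | ⟨-, rfl⟩
        · exact zM _ hx' (mem_filter.1 hx).1
        · exact y1 hx'
    refine (card_le_card sub).trans (card_biUnion_le.trans ?_)
    rw [card_eq_sum_ones M]
    refine sum_le_sum fun m hm => ?_
    split_ifs with c
    · have d1 : (G.crs S {m}).card ≤ G.deg S m := by
        refine le_trans ?_ (deg_mono (filter_subset _ _ : G.crs S {m} ⊆ S))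
        rw [card_eq_sum_ones]
        refine sum_le_sum fun e he => inc_pos.2 ?_
        obtain ⟨-, x, y, j, hx, -⟩ := jc _ e he
        exact j.at_iff.2 (.inl (mem_singleton.1 hx).symm)
      have d2 := card_sdiff_add_card_inter (G.crs S {m}) (G.crs S Z)
      have d3 := (mem_filter.1 c).2
      have d4 := hdeg m
      rw [inter_comm] at d3
      omega
    · have : ¬ 2 ≤ (G.crs S Z ∩ G.crs S {m}).card := fun q => c (mem_filter.2 ⟨hm, q⟩)
      omega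
  · have sub : G.avo S M ⊆ S := filter_subset _ _
    rcases mem_union.1 hx with hx | hx
    · obtain ⟨a, ha, r⟩ := (mZ x).1 hx
      exact ⟨a, ha, r.mono sub⟩
    · obtain ⟨x1, x2⟩ := mem_filter.1 hx
      obtain ⟨e, he⟩ := card_pos.1 (lt_of_lt_of_le two_pos x2)
      obtain ⟨h1, z, y, j, hz, -⟩ := jc _ e (mem_inter.1 he).1
      obtain ⟨-, x', y', j', hx', -⟩ := jc _ e (mem_inter.1 he).2
      obtain ⟨a, ha, r⟩ := (mZ z).1 hz
      rw [mem_singleton.1 hx'] at j'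
      rcases je_ends j j' with ⟨rfl, -⟩ | ⟨-, rfl⟩
      · exact absurd x1 (zM _ hz)
      · exact ⟨a, ha, rch_tail (r.mono sub) h1 j⟩

/-- A fan in an edge set with degrees at most three, from an edge condition.  The condition
`hB` says that every vertex of `B` has at most one edge leaving `B`. -/
theorem fan_cub (S : Finset E) (Z B : Finset V) (k : ℕ) (e0 : E) (hdeg : ∀ x, G.deg S x ≤ 3)
    (hd : Disjoint Z B) (hB : ∀ x ∈ B, (G.crs S B ∩ G.crs S {x}).card ≤ 1)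
    (h : ∀ X : Finset V, Z ⊆ X → Disjoint X B → (∀ x ∈ X, ∃ z ∈ Z, G.Rch S z x) →
      k ≤ (G.crs S X).card) :
    ∃ (n : Fin k → ℕ) (v : Fin k → ℕ → V) (g : Fin k → ℕ → E),
      (∀ i, G.Pth S (n i) (v i) (g i) ∧ 1 ≤ n i ∧ v i 0 ∈ Z ∧ v i (n i) ∈ B ∧
        (∀ l, 0 < l → l ≤ n i → v i l ∉ Z) ∧ ∀ l < n i, v i l ∉ B) ∧
      ∀ i j, i ≠ j → ∀ l, 0 < l → l ≤ n i → ∀ l', 0 < l' → l' ≤ n j → v i l ≠ v j l' := by
  refine fan_set S Z B k e0 hd fun M hM hMZ => by_contra fun c => ?_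
  obtain ⟨X, x1, x2, x3, x4⟩ := sep_cut S Z B M hdeg hMZ hd (fun x hx Y hY => by
    refine le_trans (card_le_card fun e he => ?_) (hB x hx)
    obtain ⟨e1, e2⟩ := mem_inter.1 he
    refine mem_inter.2 ⟨?_, e2⟩
    have a1 := @disjoint_left.1 hY (G.s e)
    have a2 := @disjoint_left.1 hY (G.t e)
    simp only [mem_crs, mem_singleton] at e1 e2 ⊢
    refine ⟨e1.1, fun q => ?_⟩
    by_cases s : G.s e = x
    · have := s ▸ hx
      tauto
    · have t : G.t e = x := by (clear * - a1 a2 e1 e2 q s; grind)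
      have := t ▸ hx
      tauto) fun a ha b hb b1 r => c ⟨a, ha, b, hb, b1, r⟩
  have := h X x1 x2 x4
  omega

end SG

end Pool.Agent.Work.MP_8c679b_co
end

-- merged part: Pool.Agent.Work.MP_8c679b_co.Six.GMin
section
/-!
Circuits through prescribed vertices.
-/

set_option autoImplicit false

namespace Pool.Agent.Work.MP_8c679b_co

open Finset

namespace SG

variable {V E : Type} [Fintype V] [DecidableEq V] [DecidableEq E] {G : SG V E}
  {T S W : Finset V} {a b c d : E}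

/-- a shortest arc between two marked vertices that avoids two given vertices -/
theorem GMin_arc (hc : G.Cub) {C : Finset E} (hA : C ⊆ G.A) (cC : G.Cc C) (M N : V → Prop)
    (h : ∃ p q J, M p ∧ M q ∧ J ⊆ C ∧ G.Jn J p q ∧ ∀ u ∈ G.vs J, N u) :
    ∃ p q J, M p ∧ M q ∧ J ⊆ C ∧ G.Jn J p q ∧ (∀ u ∈ G.vs J, N u) ∧
      ∀ u ∈ G.vs J, M u → u = p ∨ u = q := by
  obtain ⟨p, q, J, h⟩ := h
  induction hn : J.card using Nat.strong_induction_on generalizing p q J with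
  | _ n ih =>
    obtain ⟨h1, h2, h3, h4, h5⟩ := h
    by_cases k : ∀ u ∈ G.vs J, M u → u = p ∨ u = q
    · exact ⟨p, q, J, h1, h2, h3, h4, h5, k⟩
    push Not at k
    obtain ⟨u, k1, k2, k3, k4⟩ := k
    obtain ⟨B, b1, b2, b3, -, -⟩ := cC.split hc hA h3 h4 k1 k3 k4
    have k5 := card_sdiff_add_card_eq_card b1
    have k6 := b3.nonempty.card_pos
    exact ih B.card (by omega) p u B
      ⟨h1, k2, b1.trans h3, b2, fun x hx => h5 x (vs_mono b1 hx)⟩ rfl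

/-- two inner vertices of an arc are joined by an arc that avoids the ends -/
theorem GMin_inner (hc : G.Cub) {C B : Finset E} (hA : C ⊆ G.A) (cC : G.Cc C) (hB : B ⊆ C)
    {x y p q : V} (jB : G.Jn B x y) (hp : p ∈ G.vs B) (hq : q ∈ G.vs B) (hpq : p ≠ q)
    (h1 : p ≠ x ∧ p ≠ y) (h2 : q ≠ x ∧ q ≠ y) :
    ∃ J ⊆ C, G.Jn J p q ∧ ∀ u ∈ G.vs J, u ≠ x ∧ u ≠ y := by
  obtain ⟨J, j1, j2⟩ := (jB.2.2 p hp q hq).jn hpq
  have k : ∀ {x y : V}, G.Jn B x y → p ≠ x → q ≠ x → x ∉ G.vs J := by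
    intro x y k1 k2 k3 k4
    have k5 := deg_mono (G := G) (v := x) j1
    rw [cC.deg_end hc hA hB k1,
      deg2_of_dg hc (j1.trans (hB.trans hA)) k4 (j2.2.1.other k2.symm k3.symm)] at k5
    omega
  exact ⟨J, j1.trans hB, j2, fun u hu => ⟨fun e => k jB h1.1 h2.1 (e ▸ hu),
    fun e => k jB.symm h1.2 h2.2 (e ▸ hu)⟩⟩

/-- rerouting a circuit through a component of the remainder with three attachments -/
theorem GMin_step (hc : G.Cub) {C : Finset E} (hC : C ⊆ G.ins S) (cC : G.Cc C) {x y : V}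
    (hx : x ∈ G.vs C) (hy : y ∈ G.vs C) (hxy : x ≠ y) (ex : G.Ex S x) (ey : G.Ex S y)
    {K : Finset V} (hK : K ⊆ S \ G.vs C) (k0 : G.crs (G.ins (S \ G.vs C)) K = ∅)
    (kc : G.Cn K (G.ins K)) (k3 : 3 ≤ (G.crs (G.ins S) K).card) :
    ∃ C' ⊆ G.ins S, G.Cc C' ∧ x ∈ G.vs C' ∧ y ∈ G.vs C' ∧ K \ G.vs C' ⊂ K ∧
      G.crs (G.ins (S \ G.vs C')) (K \ G.vs C') = ∅ := by
  classical
  have hA := hC.trans ins_sub_A
  have nC : ∀ e, ∀ u ∈ K, G.At e u → e ∉ C := fun e u hu h1 h2 =>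
    (mem_sdiff.1 (hK hu)).2 (mem_vs.2 ⟨e, h2, h1⟩)
  have att : ∀ e ∈ G.ins S, ∀ u w, G.Je e u w → u ∈ K → w ∉ K → w ∈ G.vs C := by
    intro e he u w hj hu hw
    by_contra k
    have h1 : w ∈ S := ((Pth_ends hj).1 (mem_ins.1 he).2).2
    have h2 : e ∈ G.crs (G.ins (S \ G.vs C)) K := by
      refine mem_crs.2 ⟨Cut_je_ins (ins_sub_A he) hj (hK hu) (mem_sdiff.2 ⟨h1, k⟩), ?_⟩
      rcases hj with ⟨rfl, rfl⟩ | ⟨rfl, rfl⟩ <;> simp [hu, hw]
    rw [k0] at h2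
    exact notMem_empty _ h2
  let M : V → Prop := fun w => w ∈ G.vs C ∧ ∃ e ∈ G.ins S, ∃ u ∈ K, G.Je e u w
  have cK : ∀ e ∈ G.crs (G.ins S) K, e ∈ G.cut K := fun e he =>
    mem_cut.2 ⟨ins_sub_A (mem_crs.1 he).1, (mem_crs.1 he).2⟩
  have mM : ∀ e ∈ G.crs (G.ins S) K, M (G.oe K e) := fun e he =>
    ⟨att e (mem_crs.1 he).1 _ _ je_ie_oe (Spl_ie (cK e he)) (oe_not_mem (cK e he)), e,
      (mem_crs.1 he).1, _, Spl_ie (cK e he), je_ie_oe⟩
  have mx : ∀ w, M w → w ≠ x ∧ w ≠ y := by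
    rintro w ⟨h1, e, h2, u, h3, h4⟩
    have h5 : G.Br S C w := ⟨h1, e, h2, nC e u h3 (h4.at_iff.2 (Or.inl rfl)),
      h4.at_iff.2 (Or.inr rfl)⟩
    exact ⟨fun k => not_br_of_ex hc hC cC.2.1 ex (k ▸ h5),
      fun k => not_br_of_ex hc hC cC.2.1 ey (k ▸ h5)⟩
  obtain ⟨B, b1, b2⟩ := cC.arc hx hy hxy
  obtain ⟨e, he, f, hf, hef, hb⟩ := exists_ne_map_eq_of_card_lt_of_maps_to
    (s := G.crs (G.ins S) K) (t := (univ : Finset Bool)) (by rw [card_univ, Fintype.card_bool]; omega)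
    (f := fun e => decide (G.oe K e ∈ G.vs B)) fun _ _ => mem_univ _
  have hne : G.oe K e ≠ G.oe K f := fun k => hef (third_unique hc hA (mM f hf).1 (cC.2.1 _)
    (mem_cut.1 (cK f hf)).1 (mem_cut.1 (cK e he)).1 (nC f _ (Spl_ie (cK f hf)) ie_at)
    (nC e _ (Spl_ie (cK e he)) ie_at) oe_at (k ▸ oe_at))
  obtain ⟨p, q, J, ⟨mp, e1, p1, u1, p2, p3⟩, ⟨mq, e2, q1, u2, q2, q3⟩, j1, j2, j3, j4⟩ :=
    GMin_arc hc hA cC M (fun u => u ≠ x ∧ u ≠ y) (by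
      rw [decide_eq_decide] at hb
      by_cases k : G.oe K e ∈ G.vs B
      · obtain ⟨J, j⟩ := GMin_inner hc hA cC b1 b2 k (hb.1 k) hne (mx _ (mM e he)) (mx _ (mM f hf))
        exact ⟨_, _, J, mM e he, mM f hf, j⟩
      · obtain ⟨J, j⟩ := GMin_inner hc hA cC sdiff_subset (cC.compl hc hA b1 b2)
          (((vs_split b1).1 (mM e he).1).resolve_left k)
          (((vs_split b1).1 (mM f hf).1).resolve_left fun k' => k (hb.2 k')) hne
          (mx _ (mM e he)) (mx _ (mM f hf))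
        exact ⟨_, _, J, mM e he, mM f hf, j⟩)
  have hr : G.Rch (G.ins S ∩ G.tch K) p q := by
    have r1 : G.Rch (G.ins S ∩ G.tch K) p u1 := rch_at (mem_inter.2 ⟨p1, Cut_tch (ins_sub_A p1)
      (p3.at_iff.2 (Or.inl rfl)) p2⟩) (p3.at_iff.2 (Or.inr rfl)) (p3.at_iff.2 (Or.inl rfl))
    have r2 : G.Rch (G.ins S ∩ G.tch K) u2 q := rch_at (mem_inter.2 ⟨q1, Cut_tch (ins_sub_A q1)
      (q3.at_iff.2 (Or.inl rfl)) q2⟩) (q3.at_iff.2 (Or.inl rfl)) (q3.at_iff.2 (Or.inr rfl))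
    exact (r1.trans ((kc u1 p2 u2 q2).mono (subset_inter (ins_mono (hK.trans sdiff_subset))
      ins_sub_tch))).trans r2
  obtain ⟨F, f1, f2⟩ := hr.jn j2.1
  have tF : ∀ g ∈ F, ∃ u ∈ K, G.At g u := fun g hg =>
    ⟨_, ie_mem (mem_inter.1 (f1 hg)).2, ie_at⟩
  have dF : Disjoint F C := disjoint_left.2 fun g hg => by
    obtain ⟨u, h1, h2⟩ := tF g hg
    exact nC g u h1 h2
  have sJ : ∀ u ∈ G.vs C, u ∉ G.vs J → u ∈ G.vs ((C \ J) ∪ F) := fun u h1 h2 =>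
    vs_mono subset_union_left (((vs_split j1).1 h1).resolve_left h2)
  refine ⟨(C \ J) ∪ F, union_subset (sdiff_subset.trans hC) (f1.trans inter_subset_left),
    cC.reroute hc hA j1 j2 f2 dF, sJ x hx fun k => (j3 x k).1 rfl,
    sJ y hy fun k => (j3 y k).2 rfl, ?_, ?_⟩
  · obtain ⟨g, hg⟩ := f2.nonempty
    obtain ⟨u, h1, h2⟩ := tF g hg
    exact (ssubset_iff_of_subset sdiff_subset).2 ⟨u, h1, fun k =>
      (mem_sdiff.1 k).2 (mem_vs.2 ⟨g, mem_union_right _ hg, h2⟩)⟩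
  · refine eq_empty_of_forall_notMem fun g hg => ?_
    obtain ⟨g1, g2⟩ := mem_crs.1 hg
    have g3 : g ∈ G.cut (K \ G.vs ((C \ J) ∪ F)) := mem_cut.2 ⟨ins_sub_A g1, g2⟩
    have g4 := je_ie_oe (G := G) (X := K \ G.vs ((C \ J) ∪ F)) (e := g)
    have g5 := mem_sdiff.1 ((Pth_ends g4).1 (mem_ins.1 g1).2).2
    have g6 := (mem_sdiff.1 (Spl_ie g3)).1
    have g7 : g ∈ G.ins S := ins_mono sdiff_subset g1
    have g8 := att g g7 _ _ g4 g6 fun k => oe_not_mem g3 (mem_sdiff.2 ⟨k, g5.2⟩)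
    have g9 : G.oe (K \ G.vs ((C \ J) ∪ F)) g ∈ G.vs J := by
      by_contra k
      exact g5.2 (sJ _ g8 k)
    rcases j4 _ g9 ⟨g8, g, g7, _, g6, g4⟩ with k | k
    · exact g5.2 (k ▸ vs_mono subset_union_right f2.left_mem)
    · exact g5.2 (k ▸ vs_mono subset_union_right f2.right_mem)

/-- A circuit through the terminals of `a, b` whose remainder does not connect the terminals of
`c, d`.
HINT: among the circuits through `ta, tb` (`Two.cc_through`) minimise the component `K` of the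
remainder that contains both `tc` and `td`.  Use the index form (`Cc.cyc` with start `ta`, `tb` at
position `k`).  If two edges from `K` end on the same side of `k`, take consecutive ones and
reroute through `K` (`Cyc.rr`): the dropped vertices have no edge to `K`, so `K` shrinks.
Otherwise `cut K` has at most four edges, hence exactly four, and `S \ K` is a split. -/
theorem mink (hc : G.Cub) (hT : G.HT T) (hS : S ⊆ T) (hq : G.Q4 S a b c d) (h2 : 2 < S.card)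
    (hN : G.NC S a b) : ∃ C ⊆ G.ins S, G.Cc C ∧ G.ie S a ∈ G.vs C ∧ G.ie S b ∈ G.vs C ∧
      ∃ Y ⊆ S \ G.vs C, G.crs (G.ins (S \ G.vs C)) Y = ∅ ∧ d ∉ G.tch Y ∧
        c ∉ G.tch ((S \ G.vs C) \ Y) := by
  obtain ⟨ha, hb, hc', hd⟩ := hq.mem
  have hab : G.ie S a ≠ G.ie S b := hT.f2 hc hS hq.card h2 ha hb hq.2.1
  have hcd : G.ie S c ≠ G.ie S d := hT.f2 hc hS hq.card h2 hc' hd hq.2.2.2.2.2.2
  have nt : ∀ e ∈ G.cut S, ∀ Y ⊆ S, G.ie S e ∉ Y → e ∉ G.tch Y := fun e he Y hY h1 h3 =>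
    h1 ((cut_of_sub hY he h3).2 ▸ ie_mem h3)
  obtain ⟨C, h1, h3, h4, h5⟩ := (hT.f3 hS hq.card h2).cc_through Subset.rfl (Spl_ie ha)
    (Spl_ie hb) hab
  induction hn : (G.cmp (S \ G.vs C) (G.ie S c)).card using Nat.strong_induction_on
    generalizing C with
  | _ n ih =>
    by_cases k1 : G.ie S c ∈ G.vs C
    · exact ⟨C, h1, h3, h4, h5, ∅, empty_subset _, by simp [crs], nt d hd _ (empty_subset _)
        (notMem_empty _), nt c hc' _ (sdiff_subset.trans sdiff_subset) fun k =>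
          (mem_sdiff.1 (mem_sdiff.1 k).1).2 k1⟩
    obtain ⟨c1, c2, c3, c4⟩ := cmp_spec (G := G) (mem_sdiff.2 ⟨Spl_ie hc', k1⟩)
    by_cases k2 : G.ie S d ∈ G.cmp (S \ G.vs C) (G.ie S c)
    swap
    · exact ⟨C, h1, h3, h4, h5, _, c2, c3, nt d hd _ (c2.trans sdiff_subset) k2,
        nt c hc' _ (sdiff_subset.trans sdiff_subset) fun k => (mem_sdiff.1 k).2 c1⟩
    have c5 := c2.trans sdiff_subset
    have k3 := Spl_three hT hS hq h2 hN (X := S \ G.cmp (S \ G.vs C) (G.ie S c)) sdiff_subset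
      (fun k => (mem_sdiff.1 (k.ge (Spl_ie hc'))).2 c1)
      (mem_sdiff.2 ⟨Spl_ie ha, fun k => (mem_sdiff.1 (c2 k)).2 h4⟩)
      (mem_sdiff.2 ⟨Spl_ie hb, fun k => (mem_sdiff.1 (c2 k)).2 h5⟩)
      (fun k => hcd (mem_singleton.1 (k.le (mem_sdiff.2
        ⟨Spl_ie hd, fun k' => (mem_sdiff.1 k').2 k2⟩))).symm)
      (fun k => hcd (mem_singleton.1 (k.le (mem_sdiff.2
        ⟨Spl_ie hc', fun k' => (mem_sdiff.1 k').2 c1⟩))))
    rw [crs_sdiff c5] at k3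
    obtain ⟨C', d1, d2, d3, d4, d5, d6⟩ := GMin_step hc h1 h3 h4 h5 hab
      ⟨Spl_ie ha, a, ha, ie_at⟩ ⟨Spl_ie hb, b, hb, ie_at⟩ c2 c3 c4 k3
    by_cases k4 : G.ie S c ∈ G.vs C'
    · exact ⟨C', d1, d2, d3, d4, ∅, empty_subset _, by simp [crs], nt d hd _ (empty_subset _)
        (notMem_empty _), nt c hc' _ (sdiff_subset.trans sdiff_subset) fun k =>
          (mem_sdiff.1 (mem_sdiff.1 k).1).2 k4⟩
    exact ih _ (hn ▸ card_lt_card ((cmp_min (mem_sdiff.2 ⟨c1, k4⟩) d6).trans_ssubset d5)) C' d1 d2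
      d3 d4 rfl

/-- An odd circuit through a prescribed vertex.  HINT: `exists_odd_cc`, `fan` with
`x1 = x2 = v`, `P = ∅`, then the arc of the right parity (`Cc.arc`, `Cc.compl`, `Jn.cc`). -/
theorem oddc (hc : G.Cub) (h2 : G.Two W (G.ins W)) (hU : ¬ G.Bal (G.ins W)) {v : V} (hv : v ∈ W) :
    ∃ C ⊆ G.ins W, G.Cc C ∧ G.par C = 1 ∧ v ∈ G.vs C := by
  obtain ⟨C, h1, h3, h4⟩ := exists_odd_cc hU
  by_cases k : v ∈ G.vs C
  · exact ⟨C, h1, h3, h4, k⟩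
  have hA := h1.trans ins_sub_A
  obtain ⟨p, q, F, f1, f2, f3, f4, f5, f6, -⟩ := fan hc hA h3 (S := G.ins W) (P := ∅) ins_sub_A
    (od_self.2 ev_empty) (disjoint_empty_left _) (by simp [vs]) k k fun X hX => by
      by_cases k1 : v ∈ X
      · have e : G.crs (G.ins W) X = G.crs (G.ins W) (X ∩ W) := by
          refine filter_congr fun e he => ?_
          have := mem_ins.1 he
          simp [this.2.1, this.2.2]
        obtain ⟨e0, h0⟩ := h3.1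
        have := h2 _ inter_subset_right ⟨v, mem_inter.2 ⟨k1, hv⟩⟩ fun k2 =>
          disjoint_left.1 hX (mem_inter.1 (k2.ge (mem_ins.1 (h1 h0)).2.1)).1 (s_mem_vs h0)
        rw [e]
        simpa [iv, k1] using this
      · simp [iv, k1]
  rw [union_empty] at f4
  obtain ⟨B, b1, b2⟩ := h3.arc f1 f2 f3.1
  have d1 : Disjoint B F := f5.symm.mono_left b1
  have d2 : Disjoint (C \ B) F := f5.symm.mono_left sdiff_subset
  rcases z2 (G.par B + G.par F) with k1 | k1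
  · refine ⟨(C \ B) ∪ F, union_subset (sdiff_subset.trans h1) f4,
      (h3.compl hc hA b1 b2).cc f3 d2, ?_, vs_mono subset_union_right f6⟩
    rw [par_union d2, par_sdiff b1, h4, add_assoc, k1, add_zero]
  · exact ⟨B ∪ F, union_subset (b1.trans h1) f4, b2.cc f3 d1, (par_union d1).trans k1,
      vs_mono subset_union_right f6⟩

/-- a circuit through two vertices with leaving edges -/
theorem uu_plain (hc : G.Cub) (hT : G.HT T) (hW : W ⊆ T) (h2 : G.Two W (G.ins W))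
    (h1 : 2 ≤ W.card) : ∃ C ⊆ G.ins W, G.Cc C ∧ ∃ g1 ∈ G.cut W, ∃ g2 ∈ G.cut W, g1 ≠ g2 ∧
      g1 ∈ G.cut (G.vs C) ∧ g2 ∈ G.cut (G.vs C) := by
  obtain ⟨g1, m1, g2, m2, hne⟩ := one_lt_card.1
    (lt_of_lt_of_le (by norm_num) (hT.mono3 hW (card_pos.1 (by omega))))
  have hd : G.ie W g1 ≠ G.ie W g2 := fun k => by
    have k1 := Cut_two m1 m2 hne k
    have k2 := h2 {G.ie W g1} (singleton_subset_iff.2 (Spl_ie m1)) (singleton_nonempty _)
      fun k3 => by rw [← k3, card_singleton] at h1; omega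
    rw [crs_ins (singleton_subset_iff.2 (Spl_ie m1))] at k2
    have k3 := card_sdiff_add_card_inter (G.cut {G.ie W g1}) (G.cut W)
    rw [(hT.vtx hc (hW (Spl_ie m1))).1] at k3
    omega
  obtain ⟨C, c1, c2, c3, c4⟩ := h2.cc_through Subset.rfl (Spl_ie m1) (Spl_ie m2) hd
  have c5 := (sub_ins_iff.1 c1).2
  exact ⟨C, c1, c2, g1, m1, g2, m2, hne,
    (cut_of_sub c5 m1 (Cut_tch (mem_cut.1 m1).1 ie_at c3)).1,
    (cut_of_sub c5 m2 (Cut_tch (mem_cut.1 m2).1 ie_at c4)).1⟩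

end SG

end Pool.Agent.Work.MP_8c679b_co
end

-- merged part: Pool.Agent.Work.MP_8c679b_co.Six.GFan
section
/-!
Circuits in the quotient of a two-edge-connected region by its boxes
(PROOF.md, lemmas FANBOX and UUC).
-/

set_option autoImplicit false

namespace Pool.Agent.Work.MP_8c679b_co

open Finset

namespace SG

variable {V E : Type} [Fintype V] [DecidableEq V] [DecidableEq E] {G : SG V E}
  {T S W : Finset V} {a b c d : E} {Bs : Finset (Finset V)}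

/-- an ear can be put into a circuit without losing the first vertex -/
theorem GFan_rr {F : Finset E} {n l : ℕ} {w u : ℕ → V} {g h : ℕ → E} (hp : G.Cyc F n w g)
    (he : G.Pth F l u h) (h0 : u 0 ∈ pv n w) (hl : u l ∈ pv n w) (h2 : 2 ≤ l)
    (hi : ∀ k, 0 < k → k < l → u k ∉ pv n w) :
    ∃ n' w' g', G.Cyc F n' w' g' ∧ w' 0 = w 0 ∧ pv l u ⊆ pv n' w' := by
  have key : ∀ {u : ℕ → V} {h : ℕ → E} {i j : ℕ}, G.Pth F l u h → i < j → j ≤ n → u 0 = w i →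
      u l = w j → (∀ k, 0 < k → k < l → u k ∉ pv n w) →
      ∃ n' w' g', G.Cyc F n' w' g' ∧ w' 0 = w 0 ∧ pv l u ⊆ pv n' w' := by
    intro u h i j he hij hj h0 hl hi
    refine ⟨_, _, _, hp.rr he hij hj h0 hl
      (fun k k1 k2 m hm _ e => hi k k1 k2 (mem_pv.2 ⟨m, hm, e.symm⟩)) fun k hk e => ?_,
      Pth_rr1 i.zero_le, fun x hx => (mem_pv_rr hij.le hj h0 hl).2 (Or.inr (Or.inl hx))⟩
    have h1 : ∀ x, x = u k ∨ x = u (k + 1) → x ∈ pv n w := fun x hx => by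
      rcases hp.cj.at_iff.1 (e ▸ (he.jn k hk).at_iff.2 hx) with rfl | rfl
      exacts [mem_pv.2 ⟨n, le_rfl, rfl⟩, mem_pv.2 ⟨0, n.zero_le, rfl⟩]
    rcases k.eq_zero_or_pos with rfl | k1
    · exact hi 1 one_pos h2 (h1 _ (Or.inr rfl))
    · exact hi k k1 hk (h1 _ (Or.inl rfl))
  obtain ⟨i, hi', e0⟩ := mem_pv.1 h0
  obtain ⟨j, hj, el⟩ := mem_pv.1 hl
  rcases lt_trichotomy i j with k | rfl | k
  · exact key he k hj e0.symm el.symm hi
  · exact absurd (he.inj 0 l.zero_le l le_rfl (e0.symm.trans el)) (by omega)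
  · rw [← pv_rev]
    exact key he.rev k hi' el.symm (by rw [Nat.sub_self, e0]) fun k k1 k2 =>
      hi _ (by omega) (by omega)

/-- two leaving edges of `W` have different inner ends -/
theorem GFan_two (hc : G.Cub) (hT : G.HT T) (hW : W ⊆ T) (h2 : G.Two W (G.ins W))
    (h1 : 2 ≤ W.card) {X : Finset V} (hX : X ⊆ W) (h : 2 ≤ (G.cut X ∩ G.cut W).card) :
    ∃ y1 ∈ X, ∃ y2 ∈ X, y1 ≠ y2 ∧ (∃ e ∈ G.cut W, G.At e y1) ∧ ∃ e ∈ G.cut W, G.At e y2 := by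
  obtain ⟨e, he, f, hf, hef⟩ := one_lt_card.1 h
  have key : ∀ e ∈ G.cut X ∩ G.cut W, G.ie W e ∈ X ∧ G.At e (G.ie W e) := fun e he => by
    have k1 := (mem_cut.1 (mem_inter.1 he).1).2
    have k2 := (mem_cut.1 (mem_inter.1 he).2).2
    have k3 := @hX (G.s e)
    have k4 := @hX (G.t e)
    unfold ie
    split_ifs with k
    · exact ⟨by (clear * - k k1 k2 k3 k4; tauto), Or.inl rfl⟩
    · exact ⟨by tauto, Or.inr rfl⟩
  refine ⟨_, (key e he).1, _, (key f hf).1, fun k => ?_, ⟨e, (mem_inter.1 he).2, (key e he).2⟩,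
    f, (mem_inter.1 hf).2, (key f hf).2⟩
  have k1 := Cut_two (mem_inter.1 he).2 (mem_inter.1 hf).2 hef k
  have k2 : {G.ie W e} ⊆ W := singleton_subset_iff.2 (hX (key e he).1)
  have k3 := h2 _ k2 (singleton_nonempty _) fun k => by
    rw [← k, card_singleton] at h1
    omega
  have k4 := (hT.vtx hc (hW (hX (key e he).1))).1
  have k5 := card_sdiff_add_card_inter (G.cut {G.ie W e}) (G.cut W)
  rw [crs_ins k2] at k3
  omega

/-- A set of nodes that hangs on one node `m`: then `m` is a box, and the set has two vertices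
with a leaving edge. -/
theorem GFan_sep (hc : G.Cub) (hT : G.HT T) (hW : W ⊆ T) (h2 : G.Two W (G.ins W))
    (h1 : 2 ≤ W.card) (hB : G.Bx G.AU W ∅ Bs) {Z : Finset (Finset V)} {m : Finset V} {v0 v1 : V}
    (hm : m ∉ Z) (hL : ∀ e ∈ (G.quo W Bs).crs (G.quo W Bs).A Z, (G.quo W Bs).At e m)
    (h0 : v0 ∈ W) (h0' : nd Bs v0 ∈ Z) (hv : v1 ∈ W) (hv' : nd Bs v1 ∉ insert m Z) :
    m ∈ Bs ∧ ∃ y1 ∈ W, ∃ y2 ∈ W, y1 ≠ y2 ∧ (∃ e ∈ G.cut W, G.At e y1) ∧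
      (∃ e ∈ G.cut W, G.At e y2) ∧ nd Bs y1 ∈ Z ∧ nd Bs y2 ∈ Z := by
  have k0 : ∀ Y : Finset (Finset V), Z ⊆ Y → Y ⊆ insert m Z →
      un W Bs Y ⊂ W ∧ 2 ≤ ((G.quo W Bs).crs (G.quo W Bs).A Y).card := fun Y a1 a2 => by
    have : un W Bs Y ≠ W := fun k => hv' (a2 (mem_un.1 (k.symm ▸ hv : v1 ∈ un W Bs Y)).2)
    refine ⟨ssubset_of_ne_of_subset this (filter_subset _ _), ?_⟩
    rw [quo_crs]
    exact h2 _ (filter_subset _ _) ⟨v0, mem_un.2 ⟨h0, a1 h0'⟩⟩ this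
  have k1 := (k0 Z subset_rfl (subset_insert _ _)).2
  obtain ⟨k2, k3⟩ := k0 _ (subset_insert _ _) subset_rfl
  obtain ⟨e, he⟩ := card_pos.1 (lt_of_lt_of_le two_pos k1)
  obtain ⟨x, hx, rfl⟩ : ∃ x ∈ W, nd Bs x = m := by
    have := mem_ins.1 (mem_quo.1 (mem_crs.1 he).1).1
    exact (hL e he).elim (fun k => ⟨_, this.2.1, k⟩) fun k => ⟨_, this.2.2, k⟩
  have k4 : (G.quo W Bs).crs (G.quo W Bs).A Z ∪
      (G.quo W Bs).crs (G.quo W Bs).A (insert (nd Bs x) Z) ⊆ G.cut (nd Bs x) := fun f hf => by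
    refine ((quo_at (Y := W) hB.2.1).1 ?_).2
    have := hL f
    simp only [mem_union, mem_crs, mem_insert, At] at hf this ⊢
    (clear * - hf this; tauto)
  have k5 : Disjoint ((G.quo W Bs).crs (G.quo W Bs).A Z)
      ((G.quo W Bs).crs (G.quo W Bs).A (insert (nd Bs x) Z)) := disjoint_left.2 fun f a1 a2 => by
    have := hL f a1
    simp only [mem_crs, mem_insert, At] at a1 a2 this
    grind
  have k6 := card_le_card k4
  rw [card_union_of_disjoint k5] at k6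
  rcases nd_cases hB.2.1 x with k | k
  · have k7 : (G.cut (nd Bs x)).card = 4 := (hB.1 _ k).1.1
    have k8 := hT.four hW k2 (one_lt_card.2 ⟨v0, mem_un.2 ⟨h0, mem_insert_of_mem h0'⟩, x,
      mem_un.2 ⟨hx, mem_insert_self _ _⟩, fun k => hm (k ▸ h0')⟩)
    have k9 := card_sdiff_add_card_inter (G.cut (un W Bs (insert (nd Bs x) Z))) (G.cut W)
    rw [quo_crs (insert _ _), crs_ins k2.1] at k6
    obtain ⟨y1, a1, y2, a2, a3, a4, a5⟩ := GFan_two hc hT hW h2 h1 k2.1 (by omega)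
    have key : ∀ y ∈ un W Bs (insert (nd Bs x) Z), (∃ e ∈ G.cut W, G.At e y) → nd Bs y ∈ Z :=
      fun y hy ⟨f, b1, b2⟩ => (mem_insert.1 (mem_un.1 hy).2).resolve_left fun b3 =>
        hB.not_mem k b1 (notMem_empty f) b2 (b3 ▸ mem_nd_self)
    exact ⟨k, y1, k2.1 a1, y2, k2.1 a2, a3, a4, a5, key y1 a1 a4, key y2 a2 a5⟩
  · have k7 := (hT.vtx hc (hW hx)).1
    rw [← k.2] at k7
    omega

theorem fanbox (hc : G.Cub) (hT : G.HT T) (hW : W ⊆ T) (h2 : G.Two W (G.ins W))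
    (hB : G.Bx G.AU W ∅ Bs) (hne : Bs.Nonempty) {y : V} {e : E} (hy : y ∈ W) (he : e ∈ G.cut W)
    (hat : G.At e y) : ∃ n w g, (G.quo W Bs).Cyc (G.quo W Bs).A n w g ∧ {y} ∈ pv n w ∧
      ∃ j ≤ n, w j ∈ Bs := by
  obtain ⟨B, hBs⟩ := hne
  have hY : ∀ N ∈ Bs, N ⊆ W := fun N hN => (hB.1 N hN).2.1
  have hn : ∀ N ∈ Bs, y ∉ N := fun N hN => hB.not_mem hN he (notMem_empty e) hat
  obtain ⟨x, hx⟩ : B.Nonempty := card_pos.1
    (lt_of_lt_of_le (by norm_num) (hT.us_card hc ((hY B hBs).trans hW) (hB.1 B hBs).1))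
  obtain ⟨C, hC, cC, c1, c2⟩ := cc_through (G := G.quo W Bs) (G.quo W Bs).A (c := {y}) (c' := B)
    (fun k => hn B hBs (k ▸ mem_singleton_self y)) fun Z z1 z2 => quo_crs (G := G) Z ▸
      h2 _ (filter_subset _ _) ⟨y, mem_un.2 ⟨hy, (nd_of_not hn).symm ▸ z1⟩⟩ fun k =>
        z2 (nd_of_mem hB.2.1 hBs hx ▸ (mem_un.1 (k.symm ▸ hY B hBs hx : x ∈ un W Bs Z)).2)
  obtain ⟨f, hf, hf'⟩ := mem_vs.1 c1
  obtain ⟨n, w, g, hp, h0, -⟩ := Pth_cyc cC.2.1 (quo_noloop (hC hf)) hf hf'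
  have hp' := hp.mono fun i hi => hC (hp.cc.2.2.1 (mem_pe.2 ⟨i, Nat.lt_succ_of_le hi, rfl⟩))
  have hy' : {y} ∈ pv n w := mem_pv.2 ⟨0, n.zero_le, h0⟩
  refine ⟨n, w, g, hp', hy', by_contra fun hN => ?_⟩
  have key : ∀ f ∈ C, ∀ N ∈ pv n w, (G.quo W Bs).At f N → f ∈ pe (n + 1) g := fun f hf N hN' k => by
    obtain ⟨j, hj, rfl⟩ := mem_pv.1 hN'
    obtain ⟨v, hv, ev⟩ := quo_cyc_node hp' j hj
    have k1 := (nd_cases hB.2.1 v).resolve_left fun k => hN ⟨j, hj, ev ▸ k⟩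
    have k2 := quo_deg (v := v) hB.2.1 hC
    have k3 := card_le_card (inter_subset_right (s₁ := C) (s₂ := G.cut (nd Bs v)))
    have k4 := (hT.vtx hc (hW hv)).1
    have k5 := dg_eq_zero.1 (cC.2.1 (w j))
    have k6 := deg_sdiff (G := G.quo W Bs) (v := w j) hp.cc.2.2.1
    rw [← k1.2] at k4
    rw [← ev] at k2 k3 k4
    rw [hp.cc.2.2.2.2 j hj] at k6
    by_contra k7
    have k8 := deg_pos.2 (mem_vs.2 ⟨f, mem_sdiff.2 ⟨hf, k7⟩, k⟩)
    rw [Nat.even_iff] at k5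
    omega
  obtain ⟨j, hj, k⟩ := mem_pv.1 ((cC.2.2 _ c1 _ c2).closed (P := (· ∈ pv n w)) (fun f hf =>
    ⟨fun k => hp.cc.2.1 ▸ t_mem_vs (key f hf _ k (Or.inl rfl)),
      fun k => hp.cc.2.1 ▸ s_mem_vs (key f hf _ k (Or.inr rfl))⟩) hy')
  exact hN ⟨j, hj, k ▸ hBs⟩

theorem uuc (hc : G.Cub) (hT : G.HT T) (hW : W ⊆ T) (h2 : G.Two W (G.ins W)) (h1 : 2 ≤ W.card)
    (hB : G.Bx G.AU W ∅ Bs) : ∃ n w g k y1 y2, (G.quo W Bs).Cyc (G.quo W Bs).A n w g ∧ 0 < k ∧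
      k ≤ n ∧ w 0 = {y1} ∧ w k = {y2} ∧ y1 ∈ W ∧ y2 ∈ W ∧ (∃ e ∈ G.cut W, G.At e y1) ∧
      ∃ e ∈ G.cut W, G.At e y2 := by
  have hY : ∀ N ∈ Bs, N ⊆ W := fun N hN => (hB.1 N hN).2.1
  have hn : ∀ y, (∃ e ∈ G.cut W, G.At e y) → nd Bs y = {y} ∧ nd Bs y ∉ Bs := fun y ⟨e, a1, a2⟩ =>
    ⟨nd_of_not fun N hN => hB.not_mem hN a1 (notMem_empty e) a2,
      fun k => hB.not_mem k a1 (notMem_empty e) a2 mem_nd_self⟩
  suffices H : ∀ Z : Finset (Finset V), ∀ s ∉ Z,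
      (∀ e ∈ (G.quo W Bs).crs (G.quo W Bs).A Z, (G.quo W Bs).At e s) →
      (∃ y1 ∈ W, ∃ y2 ∈ W, y1 ≠ y2 ∧ (∃ e ∈ G.cut W, G.At e y1) ∧
        (∃ e ∈ G.cut W, G.At e y2) ∧ nd Bs y1 ∈ Z ∧ nd Bs y2 ∈ Z) → _ by
    have k0 : ∀ v, nd Bs v ∈ univ.erase (∅ : Finset V) := fun v =>
      mem_erase.2 ⟨ne_empty_of_mem mem_nd_self, mem_univ _⟩
    have k1 := hT.mono3 hW (card_pos.1 (lt_of_lt_of_le two_pos h1))
    obtain ⟨y1, a1, y2, a2, a3, a4, a5⟩ := GFan_two hc hT hW h2 h1 subset_rfl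
      (by rw [inter_self]; omega)
    exact H _ ∅ (notMem_erase _ _) (fun e he => absurd (iff_of_true (k0 _) (k0 _)) (mem_crs.1 he).2)
      ⟨y1, a1, y2, a2, a3, a4, a5, k0 _, k0 _⟩
  intro Z
  induction Z using Finset.strongInduction with
  | H Z ih =>
  rintro s hs hL ⟨y1, a1, y2, a2, a3, a4, a5, a6, a7⟩
  have fin : ∀ n w g, (G.quo W Bs).Cyc (G.quo W Bs).A n w g → w 0 = nd Bs y1 →
      nd Bs y2 ∈ pv n w → ∃ n w g k y1 y2, (G.quo W Bs).Cyc (G.quo W Bs).A n w g ∧ 0 < k ∧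
        k ≤ n ∧ w 0 = {y1} ∧ w k = {y2} ∧ y1 ∈ W ∧ y2 ∈ W ∧ (∃ e ∈ G.cut W, G.At e y1) ∧
        ∃ e ∈ G.cut W, G.At e y2 := fun n w g hp h0 hk => by
    obtain ⟨k, hk, ek⟩ := mem_pv.1 hk
    rw [(hn _ a4).1] at h0
    rw [(hn _ a5).1] at ek
    refine ⟨n, w, g, k, y1, y2, hp, Nat.pos_of_ne_zero fun e => a3 ?_, hk, h0, ek, a1, a2, a4, a5⟩
    exact singleton_injective (h0.symm.trans (e ▸ ek))
  obtain ⟨n, w, g, hp, h0⟩ := quo_cyc hB.2.1 hY h2 a1 fun k => by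
    rw [← k, (hn _ a4).1, card_singleton] at h1
    omega
  by_cases hk : nd Bs y2 ∈ pv n w
  · exact fin n w g hp h0 hk
  by_cases hM : ∀ M : Finset (Finset V), M.card < 2 → nd Bs y2 ∉ M → ∃ b ∈ pv n w, b ∉ M ∧
      (G.quo W Bs).Rch ((G.quo W Bs).avo (G.quo W Bs).A M) (nd Bs y2) b
  · obtain ⟨l, u, h, b1, b2, b3, b4, b5, b6⟩ := ear_through _ _ (g 0) hk hM
    obtain ⟨n', w', g', c1, c2, c3⟩ := GFan_rr hp b1 b2 b3 b5 b6
    exact fin n' w' g' c1 (c2.trans h0) (c3 b4)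
  push Not at hM
  obtain ⟨M, m1, m2, m3⟩ := hM
  obtain ⟨Zc, z1, z2, z3, z4, z5⟩ := quo_comp (G := G) M a2 m2
  obtain ⟨m, m4, m5⟩ : ∃ m, M ⊆ {m} ∧ m ∉ Zc := by
    rcases M.eq_empty_or_nonempty with rfl | ⟨m, hm⟩
    · refine ⟨∅, empty_subset _, fun k => ?_⟩
      obtain ⟨x, -, k⟩ := z4 _ k
      exact notMem_empty x (k ▸ mem_nd_self)
    · exact ⟨m, fun x hx => mem_singleton.2 (card_le_one.1 (by omega) x hx m hm),
        fun k => disjoint_left.1 z2 k hm⟩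
  have z6 : ∀ e ∈ (G.quo W Bs).crs (G.quo W Bs).A Zc, (G.quo W Bs).At e m := fun e he =>
    (z5 e (quo_crs (G := G) Zc ▸ he)).imp (fun k => mem_singleton.1 (m4 k))
      fun k => mem_singleton.1 (m4 k)
  have z7 : ∀ i ≤ n, w i ∉ Zc := fun i hi k =>
    m3 _ (mem_pv.2 ⟨i, hi, rfl⟩) (disjoint_left.1 z2 k) ((z3 _).1 k)
  have z8 : nd Bs y1 ∉ Zc := h0 ▸ z7 0 n.zero_le
  have z9 : nd Bs y1 ≠ m := fun k => by
    obtain ⟨v, hv, ev⟩ := quo_cyc_node hp 1 hp.pos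
    refine (hn _ a4).2 (k ▸ (GFan_sep hc hT hW h2 h1 hB m5 z6 a2 z1 hv fun k' => ?_).1)
    rcases mem_insert.1 (ev ▸ k') with k' | k'
    · exact one_ne_zero (hp.pth.inj 1 hp.pos 0 n.zero_le (k'.trans (h0.trans k).symm))
    · exact z7 1 hp.pos k'
  by_cases hs' : s ∈ Zc
  · have b1 : m ∉ Z \ insert m Zc := fun k => (mem_sdiff.1 k).2 (mem_insert_self _ _)
    have b2 : ∀ e ∈ (G.quo W Bs).crs (G.quo W Bs).A (Z \ insert m Zc), (G.quo W Bs).At e m :=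
      fun e he => by
        have c1 := hL e
        have c2 := z6 e
        simp only [mem_crs, mem_sdiff, mem_insert, At] at he c1 c2 ⊢
        (clear * - a4 a5 c1 c2 he hs hs' z3 z4; grind)
    refine ih _ (ssubset_of_ne_of_subset (fun k => ?_) sdiff_subset) m b1 b2
      (GFan_sep hc hT hW h2 h1 hB b1 b2 a1 (mem_sdiff.2 ⟨a6, by simp [z8, z9]⟩) a2 fun k => ?_).2
    · exact (mem_sdiff.1 (k.symm ▸ a7)).2 (mem_insert_of_mem z1)
    · exact (mem_insert.1 k).elim (fun k => m5 (k ▸ z1))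
        fun k => (mem_sdiff.1 k).2 (mem_insert_of_mem z1)
  · have b1 : m ∉ Z ∩ Zc := fun k => m5 (mem_inter.1 k).2
    have b2 : ∀ e ∈ (G.quo W Bs).crs (G.quo W Bs).A (Z ∩ Zc), (G.quo W Bs).At e m :=
      fun e he => by
        have c1 := hL e
        have c2 := z6 e
        simp only [mem_crs, mem_inter, At] at he c1 c2 ⊢
        (clear * - a4 a5 c1 c2 he hs hs' z3; grind)
    exact ih _ (ssubset_of_ne_of_subset (fun k => z8 (mem_inter.1 (k.symm ▸ a6)).2)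
      inter_subset_left) m b1 b2 (GFan_sep hc hT hW h2 h1 hB b1 b2 a2 (mem_inter.2 ⟨a7, z1⟩) a1
        fun k => (mem_insert.1 k).elim z9 fun k => z8 (mem_inter.1 k).2).2

end SG

end Pool.Agent.Work.MP_8c679b_co
end

-- merged part: Pool.Agent.Work.MP_8c679b_co.Six.GO3
section
/-!
Paths in the quotient of a side by its boxes (PROOF.md, lemmas QP0 and O3).
-/

set_option autoImplicit false

namespace Pool.Agent.Work.MP_8c679b_co

open Finset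

namespace SG

variable {V E : Type} [Fintype V] [DecidableEq V] [DecidableEq E] {G : SG V E}
  {T S W : Finset V} {a b c d : E} {Bs : Finset (Finset V)}

omit [Fintype V] [DecidableEq E] in
theorem GO3_je {A : Finset E} {M : Finset V} {e : E} {x y : V} (hj : G.Je e x y) :
    e ∈ G.avo A M ↔ e ∈ A ∧ x ∉ M ∧ y ∉ M := by
  rw [avo, mem_filter]
  rcases hj with ⟨rfl, rfl⟩ | ⟨rfl, rfl⟩
  · rfl
  · rw [and_comm (a := G.s e ∉ M)]

theorem GO3_tail {A : Finset E} {e : E} {x y z : V} (h : G.Rch A x y) (he : e ∈ A)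
    (hj : G.Je e y z) : G.Rch A x z :=
  Relation.ReflTransGen.tail h (adj_iff.2 ⟨e, he, hj⟩)

theorem GO3_loc {A : Finset E} {M Y : Finset V} {x y : V}
    (hY : ∀ z, G.Rch (G.avo A M) x z → z ∈ Y) (h : G.Rch (G.avo A M) x y) :
    G.Rch (G.avo A Yᶜ) x y := by
  induction h with
  | refl => exact Rch.refl _ _
  | tail h1 h2 ih =>
    obtain ⟨e, he, hj⟩ := adj_iff.1 h2
    exact GO3_tail ih ((GO3_je hj).2 ⟨(mem_avo.1 he).1, notMem_compl.2 (hY _ h1),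
      notMem_compl.2 (hY _ (GO3_tail h1 he hj))⟩) hj

theorem GO3_mono {A : Finset E} {M M' : Finset V} (h : M' ⊆ M) : G.avo A M ⊆ G.avo A M' :=
  fun _ he => mem_avo.2 ⟨(mem_avo.1 he).1, fun k => (mem_avo.1 he).2.1 (h k),
    fun k => (mem_avo.1 he).2.2 (h k)⟩

/-- two paths of a fan joined inside `Z` -/
theorem GO3_ear {A : Finset E} {Z B : Finset V} {m1 m2 : ℕ} {v1 v2 : ℕ → V} {h1 h2 : ℕ → E}
    (hd : Disjoint Z B) (p1 : G.Pth A m1 v1 h1) (p2 : G.Pth A m2 v2 h2) (hz : v1 0 ∈ Z)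
    (hr : G.Rch (G.avo A Zᶜ) (v1 0) (v2 0)) (a1 : ∀ l, 0 < l → l ≤ m1 → v1 l ∉ Z)
    (a2 : ∀ l, 0 < l → l ≤ m2 → v2 l ∉ Z) (b1 : ∀ l < m1, v1 l ∉ B) (b2 : ∀ l < m2, v2 l ∉ B)
    (hx : ∀ l, 0 < l → l ≤ m1 → ∀ l', 0 < l' → l' ≤ m2 → v1 l ≠ v2 l') :
    ∃ m u h, G.Pth A m u h ∧ u 0 = v1 m1 ∧ u m = v2 m2 ∧ v1 0 ∈ pv m u ∧ v2 0 ∈ pv m u ∧
      ∀ l, 0 < l → l < m → u l ∉ B := by
  obtain ⟨r, u, f, hp, h0, hr'⟩ := hr.pth (h1 0)
  have hs : ∀ l ≤ r, u l ∈ Z := by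
    rintro (_ | l) hl
    · exact h0 ▸ hz
    · exact notMem_compl.1 ((GO3_je (hp.jn l hl)).1 (hp.mem l hl)).2.2
  have hp' : G.Pth A r u f := hp.mono fun i hi => (mem_avo.1 (hp.mem i hi)).1
  have c1 := hp'.cat p2 hr' fun i hi k hk e => by
    by_contra k0
    exact a2 k (Nat.pos_of_ne_zero k0) hk (e ▸ hs i hi)
  have e1 : (fun k => v1 (m1 - k)) m1 = catV r u v2 0 := by
    rw [Pth_catL (Nat.zero_le r), h0]
    exact congrArg v1 (Nat.sub_self _)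
  have c2 := p1.rev.cat c1 e1 fun i hi k hk e => by
    rcases le_or_gt k r with k1 | k1
    · rw [Pth_catL k1] at e
      have k2 : m1 - i = 0 := by
        by_contra k0
        exact a1 _ (Nat.pos_of_ne_zero k0) (Nat.sub_le _ _) (e ▸ hs k k1)
      rw [k2, ← h0] at e
      exact (hp.inj 0 (Nat.zero_le r) k k1 e).symm
    · rw [Pth_catR hr' k1.le] at e
      rcases Nat.eq_zero_or_pos (m1 - i) with k2 | k2
      · rw [k2] at e
        exact (a2 (k - r) (by omega) (by omega) (e ▸ hz)).elim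
      · exact (hx _ k2 (Nat.sub_le _ _) (k - r) (by omega) (by omega) e).elim
  refine ⟨_, _, _, c2, Pth_catL (Nat.zero_le _), ?_,
    (mem_pv_cat (v := fun k => v1 (m1 - k)) e1).2 (Or.inr ?_),
    (mem_pv_cat (v := fun k => v1 (m1 - k)) e1).2 (Or.inr ?_), fun l l0 l1 => ?_⟩
  · rw [Pth_catR (v := fun k => v1 (m1 - k)) e1 (Nat.le_add_right _ _), Pth_catR hr' (by omega)]
    congr 1
    omega
  · exact (mem_pv_cat hr').2 (Or.inl (mem_pv.2 ⟨0, Nat.zero_le _, h0⟩))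
  · exact (mem_pv_cat hr').2 (Or.inr (mem_pv.2 ⟨0, Nat.zero_le _, rfl⟩))
  · rcases le_or_gt l m1 with k1 | k1
    · rw [Pth_catL k1]
      exact b1 _ (by omega)
    · rw [Pth_catR (v := fun k => v1 (m1 - k)) e1 k1.le]
      rcases le_or_gt (l - m1) r with k2 | k2
      · rw [Pth_catL k2]
        exact disjoint_left.1 hd (hs _ k2)
      · rw [Pth_catR hr' k2.le]
        exact b2 _ (by omega)

/-- rerouting a path with a marked position along a three-fan from a connected set -/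
theorem GO3_fan {A : Finset E} {Z D : Finset V} {n k : ℕ} {w : ℕ → V} {g : ℕ → E} {x y0 : V}
    (hp : G.Pth A n w g) (hk : k ≤ n) (h1 : ∀ e ∈ A, ∀ y ∉ pv n w, ¬ G.Je e y (w k))
    (hd : Disjoint Z (pv n w)) (hZ : ∀ z ∈ Z, G.Rch (G.avo A Zᶜ) x z)
    (h4 : ∀ e ∈ A, ∀ z ∈ Z, ∀ y ∉ Z, G.Je e z y → z ∈ D ∨ y = y0)
    (h3 : ∀ M : Finset V, M.card < 3 → Disjoint M Z →
      ∃ z ∈ Z, ∃ b ∈ pv n w, b ∉ M ∧ G.Rch (G.avo A M) z b) :
    ∃ n' w' g', G.Pth A n' w' g' ∧ w' 0 = w 0 ∧ w' n' = w n ∧ w k ∈ pv n' w' ∧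
      ∃ j ≤ n', w' j ∈ D := by
  obtain ⟨m, v, h, f1, f2⟩ := fan_set A Z (pv n w) 3 (g 0) hd h3
  choose p hp1 hp2 using fun i => mem_pv.1 (f1 i).2.2.2.1
  obtain ⟨i, j, hij, hlt, hs⟩ := three_side (k := k) p hp1 (fun i e => by
      obtain ⟨l, hl⟩ : ∃ l, m i = l + 1 := ⟨m i - 1, by have := (f1 i).2.1; omega⟩
      refine h1 _ ((f1 i).1.mem l (by omega)) _ ((f1 i).2.2.2.2.2 l (by omega)) ?_
      rw [← e, hp2, hl]
      exact (f1 i).1.jn l (by omega))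
    fun i j hij e => f2 i j hij _ (f1 i).2.1 le_rfl _ (f1 j).2.1 le_rfl (by rw [← hp2, ← hp2, e])
  obtain ⟨r, u, f, q1, q2, q3, q4, q5, q6⟩ := GO3_ear hd (f1 i).1 (f1 j).1 (f1 i).2.2.1
    ((hZ _ (f1 i).2.2.1).symm.trans (hZ _ (f1 j).2.2.1)) (f1 i).2.2.2.2.1 (f1 j).2.2.2.2.1
    (f1 i).2.2.2.2.2 (f1 j).2.2.2.2.2 (f2 i j hij)
  rw [← hp2] at q2 q3
  have hj := hp1 j
  refine ⟨_, _, _, hp.rr q1 hlt hj q2 q3 fun l l0 l1 l' l2 _ e =>
    q6 l l0 l1 (mem_pv.2 ⟨l', l2, e.symm⟩), Pth_rr1 (Nat.zero_le _), ?_,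
    (mem_pv_rr hlt.le hj q2 q3).2 ?_, ?_⟩
  · rw [Pth_rr3 q2 q3 (Nat.le_add_right _ _)]
    congr 1
    omega
  · rcases hs with hs | hs
    · exact Or.inr (Or.inr ⟨k, hs.le, hk, rfl⟩)
    · exact Or.inl ⟨k, hs.le, rfl⟩
  · have key : ∀ i, v i 0 ∈ D ∨ v i 1 = y0 := fun i => h4 _ ((f1 i).1.mem 0 (f1 i).2.1) _
      (f1 i).2.2.1 _ ((f1 i).2.2.2.2.1 1 one_pos (f1 i).2.1) ((f1 i).1.jn 0 (f1 i).2.1)
    obtain ⟨z, z1, z2⟩ : ∃ z ∈ pv r u, z ∈ D := by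
      rcases key i with k1 | k1
      · exact ⟨_, q4, k1⟩
      rcases key j with k2 | k2
      · exact ⟨_, q5, k2⟩
      · exact (f2 i j hij 1 one_pos (f1 i).2.1 1 one_pos (f1 j).2.1 (k1.trans k2.symm)).elim
    obtain ⟨l, l1, l2⟩ := mem_pv.1 ((mem_pv_rr hlt.le hj q2 q3).2 (Or.inr (Or.inl z1)))
    exact ⟨l, l1, l2 ▸ z2⟩

omit [Fintype V] in
theorem GO3_cut {X : Finset V} {e : E} {x y : V} (hj : G.Je e x y) :
    e ∈ G.cut X ↔ e ∈ G.A ∧ ¬ (x ∈ X ↔ y ∈ X) := by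
  rw [mem_cut]
  rcases hj with ⟨rfl, rfl⟩ | ⟨rfl, rfl⟩
  · rfl
  · rw [Iff.comm (a := G.s e ∈ X)]

/-- a set with few neighbours has an extension with a small cut -/
theorem GO3_count (hc : G.Cub) (hT : G.HT T) (hS : S ⊆ T) {U Y : Finset V} (hU : U ⊆ S)
    (hY : Y ⊆ S \ U) (h : ∀ e ∈ G.A, ∀ x ∈ U, ∀ y ∈ S \ U, G.Je e x y → y ∈ Y) :
    ∃ X, U ⊆ X ∧ X ⊆ S ∧ (G.cut X).card ≤ (G.cut U ∩ G.cut S).card + Y.card := by
  let Y' := Y.filter fun y => 2 ≤ (G.cut {y} ∩ G.cut U).card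
  let F : V → Finset E := fun y => if y ∈ Y' then G.cut {y} \ G.cut U else G.cut {y} ∩ G.cut U
  have hF : ∀ y ∈ Y, (F y).card ≤ 1 := by
    intro y hy
    have h3 := (hT.vtx hc (hS (mem_sdiff.1 (hY hy)).1)).1
    have h4 := card_sdiff_add_card_inter (G.cut {y}) (G.cut U)
    simp only [F]
    split_ifs with k
    · have := (mem_filter.1 k).2
      omega
    · have : ¬ 2 ≤ (G.cut {y} ∩ G.cut U).card := fun k' => k (mem_filter.2 ⟨hy, k'⟩)
      omega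
  refine ⟨U ∪ Y', subset_union_left,
    union_subset hU ((filter_subset _ _).trans (hY.trans sdiff_subset)), ?_⟩
  refine le_trans (card_le_card (t := G.cut U ∩ G.cut S ∪ Y.biUnion F) fun e he => ?_)
    ((card_union_le _ _).trans (Nat.add_le_add_left ?_ _))
  · have j := je_ie_oe (G := G) (X := U ∪ Y') (e := e)
    have k1 := ie_mem (cut_sub_tch he)
    have k2 := oe_not_mem he
    have k3 := (mem_cut.1 he).1
    generalize G.ie (U ∪ Y') e = x at j k1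
    generalize G.oe (U ∪ Y') e = y at j k2
    rw [mem_union, not_or] at k2
    rcases mem_union.1 k1 with k1 | k1
    · have k4 : e ∈ G.cut U := (GO3_cut j).2 ⟨k3, fun k => k2.1 (k.1 k1)⟩
      by_cases k5 : y ∈ S
      · refine mem_union_right _ (mem_biUnion.2 ⟨y, h e k3 x k1 y (mem_sdiff.2 ⟨k5, k2.1⟩) j, ?_⟩)
        simp only [F, if_neg k2.2]
        refine mem_inter.2 ⟨(GO3_cut j).2 ⟨k3, fun k => k2.1 ?_⟩, k4⟩
        exact mem_singleton.1 (k.2 (mem_singleton_self y)) ▸ k1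
      · exact mem_union_left _ (mem_inter.2 ⟨k4, (GO3_cut j).2 ⟨k3, fun k => k5 (k.1 (hU k1))⟩⟩)
    · have k4 := (mem_filter.1 k1).1
      refine mem_union_right _ (mem_biUnion.2 ⟨x, k4, ?_⟩)
      simp only [F, if_pos k1]
      refine mem_sdiff.2 ⟨(GO3_cut j).2 ⟨k3, fun k => k2.2 ?_⟩, fun k => ((GO3_cut j).1 k).2
        (iff_of_false (mem_sdiff.1 (hY k4)).2 k2.1)⟩
      exact (mem_singleton.1 (k.1 (mem_singleton_self x))).symm ▸ k1
  · simpa using card_biUnion_le_card_mul Y F 1 hF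

omit [Fintype V] in
theorem GO3_ni {e : E} (he : e ∈ G.cut S) : e ∉ G.ins S := fun k =>
  (mem_cut.1 he).2 (iff_of_true (mem_ins.1 k).2.1 (mem_ins.1 k).2.2)

theorem GO3_prop {p q r s t u : Prop}
    (h : (p → ¬ q → s) ∧ (q → ¬ p → r) ∧ (p → ¬ r) ∧ (q → ¬ s) ∧ t ∧ u) :
    (¬ (p ↔ q) → ¬ ¬ (t ∧ ¬ p ∧ ¬ r ↔ u ∧ ¬ q ∧ ¬ s)) ∧ (¬ (p ↔ q) → ¬ (r ↔ s)) ∧
      (¬ (t ∧ ¬ p ∧ ¬ r ↔ u ∧ ¬ q ∧ ¬ s) → ¬ (r ↔ s)) := by
  (clear * - h; grind)

theorem GO3_ab (hc : G.Cub) (hT : G.HT T) (hS : S ⊆ T) (hq : G.Q4 S a b c d) (h2 : 2 < S.card)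
    (hN : G.NC S a b) (hB : G.Bx G.AU S {a, b} Bs) : nd Bs (G.ie S a) ≠ nd Bs (G.ie S b) := by
  intro e
  rcases Quo_mem_nd.1 ((nd_eq_iff hB.2.1).1 e) with k | ⟨B, k1, k2, k3⟩
  · exact hT.f2 hc hS hq.card h2 hq.mem.1 hq.mem.2.1 hq.2.1 k
  · obtain ⟨k4, k5, k6⟩ := hB.1 B k1
    refine hN B ⟨k5, k4.1, Subset.antisymm (fun e he => ?_) ?_⟩
    · exact (mem_union.1 (k6 (mem_inter.1 he).1)).resolve_left (GO3_ni (mem_inter.1 he).2)
    · exact insert_subset (mem_inter.2 ⟨(Spl_cut_of k5 hq.mem.1 k3).1, hq.mem.1⟩)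
        (singleton_subset_iff.2 (mem_inter.2 ⟨(Spl_cut_of k5 hq.mem.2.1 k2).1, hq.mem.2.1⟩))

/-- No node separates a node from both terminals.
HINT: `quo_comp`; let `Z` be the vertex set of the component and `s` the separating node.
A single vertex `s` contradicts `HT.f3`.  For a box `s`: not both `ta, tb` lie in `s` (`NC`),
so `Z' = S \ Z \ s` is nonempty, both `Z` and `Z'` send exactly two edges to `s`, `ta, tb ∈ Z'`,
and `NC.three` applied to `Z'` gives a contradiction. -/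
theorem quo_two (hc : G.Cub) (hT : G.HT T) (hS : S ⊆ T) (hq : G.Q4 S a b c d) (h2 : 2 < S.card)
    (hN : G.NC S a b) (hB : G.Bx G.AU S {a, b} Bs) {x : V} (hx : x ∈ S)
    (M : Finset (Finset V)) (hM : M.card < 2) (hxM : nd Bs x ∉ M) :
    (nd Bs (G.ie S a) ∉ M ∧ (G.quo S Bs).Rch ((G.quo S Bs).avo (G.quo S Bs).A M) (nd Bs x)
        (nd Bs (G.ie S a))) ∨
      (nd Bs (G.ie S b) ∉ M ∧ (G.quo S Bs).Rch ((G.quo S Bs).avo (G.quo S Bs).A M) (nd Bs x)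
        (nd Bs (G.ie S b))) := by
    by_contra hn
    rw [not_or] at hn
    obtain ⟨Zc, z1, z2, z3, -, z5⟩ := quo_comp (G := G) M hx hxM
    have hsub : ∀ N ∈ Bs, N ⊆ S := fun N hN => (hB.1 N hN).2.1
    have na : G.ie S a ∉ un S Bs Zc := fun k =>
      hn.1 ⟨disjoint_left.1 z2 (mem_un.1 k).2, (z3 _).1 (mem_un.1 k).2⟩
    have nb : G.ie S b ∉ un S Bs Zc := fun k =>
      hn.2 ⟨disjoint_left.1 z2 (mem_un.1 k).2, (z3 _).1 (mem_un.1 k).2⟩
    have sa := Spl_ie hq.mem.1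
    have sb := Spl_ie hq.mem.2.1
    have hxZ : x ∈ un S Bs Zc := mem_un.2 ⟨hx, z1⟩
    have hZS : un S Bs Zc ⊆ S := filter_subset _ _
    have f3 := hT.f3 hS hq.card h2
    have c1 := f3 _ hZS ⟨x, hxZ⟩ fun k => na (k.symm ▸ sa)
    have z6 : ∀ e ∈ G.ins S, ∀ p ∈ un S Bs Zc, ∀ q ∉ un S Bs Zc, G.Je e p q → nd Bs q ∈ M := by
      intro e he p hp q hq' j
      have k := disjoint_left.1 z2 (mem_un.1 hp).2
      rcases j with ⟨rfl, rfl⟩ | ⟨rfl, rfl⟩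
      · exact (z5 e (mem_crs.2 ⟨he, fun k => hq' (k.1 hp)⟩)).resolve_left k
      · exact (z5 e (mem_crs.2 ⟨he, fun k => hq' (k.2 hp)⟩)).resolve_right k
    have z7 : ∀ p ∈ un S Bs Zc, nd Bs p ∉ M := fun p hp => disjoint_left.1 z2 (mem_un.1 hp).2
    generalize un S Bs Zc = Z at *
    obtain ⟨v, hv, hvM⟩ : ∃ v ∈ S, nd Bs v ∈ M := by
      obtain ⟨e, he⟩ := card_pos.1 (lt_of_lt_of_le two_pos c1)
      have k := mem_ins.1 (mem_crs.1 he).1
      exact (z5 e he).elim (fun h => ⟨_, k.2.1, h⟩) fun h => ⟨_, k.2.2, h⟩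
    have hM' : ∀ p, nd Bs p ∈ M ↔ p ∈ nd Bs v := fun p => by
      rw [← nd_eq_iff hB.2.1]
      exact ⟨fun k => card_le_one.1 (Nat.le_of_lt_succ hM) _ k _ hvM, fun k => k ▸ hvM⟩
    simp only [hM'] at z6 z7
    have s4 : (G.cut (nd Bs v)).card ≤ 4 := by
      rcases nd_cases hB.2.1 v with k | k
      · exact (hB.1 _ k).1.1.le
      · rw [k.2, (hT.vtx hc (hS hv)).1]
        omega
    have sab : ¬ (G.ie S a ∈ nd Bs v ∧ G.ie S b ∈ nd Bs v) := fun k =>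
      GO3_ab hc hT hS hq h2 hN hB
        (((nd_eq_iff hB.2.1).2 k.1).trans ((nd_eq_iff hB.2.1).2 k.2).symm)
    have sS := nd_sub hsub hv
    have sv : v ∈ nd Bs v := mem_nd_self
    generalize nd Bs v = s at *
    have m : ∀ p, p ∈ S \ (Z ∪ s) ↔ p ∈ S ∧ p ∉ Z ∧ p ∉ s := fun p => by
      rw [mem_sdiff, mem_union, not_or]
    have ne : S \ (Z ∪ s) ≠ S := fun k => ((m x).1 (k.symm ▸ hx)).2.1 hxZ
    have c2 := f3 (S \ (Z ∪ s)) sdiff_subset (by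
      by_cases k : G.ie S a ∈ s
      · exact ⟨_, (m _).2 ⟨sb, nb, fun k' => sab ⟨k, k'⟩⟩⟩
      · exact ⟨_, (m _).2 ⟨sa, na, k⟩⟩) ne
    have pt : ∀ e ∈ G.ins S, (G.s e ∈ Z → G.t e ∉ Z → G.t e ∈ s) ∧
        (G.t e ∈ Z → G.s e ∉ Z → G.s e ∈ s) ∧ (G.s e ∈ Z → G.s e ∉ s) ∧ (G.t e ∈ Z → G.t e ∉ s) ∧
        G.s e ∈ S ∧ G.t e ∈ S := fun e he =>
      ⟨fun k k' => z6 e he _ k _ k' (Or.inl ⟨rfl, rfl⟩),
        fun k k' => z6 e he _ k _ k' (Or.inr ⟨rfl, rfl⟩), z7 _, z7 _, (mem_ins.1 he).2⟩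
    have d1 : Disjoint (G.crs (G.ins S) Z) (G.crs (G.ins S) (S \ (Z ∪ s))) := by
      refine disjoint_left.2 fun e k1 k2 => ?_
      rw [mem_crs, m, m] at k2
      exact (GO3_prop (pt e k2.1)).1 (mem_crs.1 k1).2 k2.2
    have d2 : G.crs (G.ins S) Z ∪ G.crs (G.ins S) (S \ (Z ∪ s)) ⊆ G.cut s ∩ G.ins S := by
      intro e he
      rw [mem_union, mem_crs, mem_crs, m, m] at he
      rcases he with k | k
      · exact mem_inter.2 ⟨mem_cut.2 ⟨ins_sub_A k.1, (GO3_prop (pt e k.1)).2.1 k.2⟩, k.1⟩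
      · exact mem_inter.2 ⟨mem_cut.2 ⟨ins_sub_A k.1, (GO3_prop (pt e k.1)).2.2 k.2⟩, k.1⟩
    have d3 := card_le_card d2
    rw [card_union_of_disjoint d1] at d3
    have d4 : G.cut s ∩ G.ins S = G.cut s := eq_of_subset_of_card_le inter_subset_left (by omega)
    have d5 : ∀ e ∈ G.cut S, G.ie S e ∉ s := fun e he k =>
      GO3_ni he (mem_inter.1 (d4.symm ▸ (Spl_cut_of sS he k).1 : e ∈ G.cut s ∩ G.ins S)).2
    have ma := (m _).2 ⟨sa, na, d5 a hq.mem.1⟩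
    have mb := (m _).2 ⟨sb, nb, d5 b hq.mem.2.1⟩
    have n1 : ∀ y, S \ (Z ∪ s) ≠ {y} := fun y k =>
      hT.f2 hc hS hq.card h2 hq.mem.1 hq.mem.2.1 hq.2.1
        ((mem_singleton.1 (k ▸ ma)).trans (mem_singleton.1 (k ▸ mb)).symm)
    have n2 : ∀ y, S \ (S \ (Z ∪ s)) ≠ {y} := fun y k => by
      have k1 : x ∈ S \ (S \ (Z ∪ s)) := mem_sdiff.2 ⟨hx, fun k => ((m _).1 k).2.1 hxZ⟩
      have k2 : v ∈ S \ (S \ (Z ∪ s)) := mem_sdiff.2 ⟨hv, fun k => ((m _).1 k).2.2 sv⟩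
      rw [k, mem_singleton] at k1 k2
      exact z7 x hxZ (k1.trans k2.symm ▸ sv)
    have := NC.three hc hT hS hq h2 hN sdiff_subset ⟨_, ma⟩ ne (n1 _) (n1 _) (n2 _) (n2 _)
    rw [iv, if_neg (not_not.2 (iff_of_true ma mb))] at this
    rw [d4] at d3
    omega

theorem nd_term (hc : G.Cub) (hT : G.HT T) (hS : S ⊆ T) (hq : G.Q4 S a b c d) (h2 : 2 < S.card)
    (hN : G.NC S a b) (hB : G.Bx G.AU S {a, b} Bs) :
    nd Bs (G.ie S a) ≠ nd Bs (G.ie S b) ∧ nd Bs (G.ie S c) = {G.ie S c} ∧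
      nd Bs (G.ie S d) = {G.ie S d} ∧ nd Bs (G.ie S a) ≠ {G.ie S c} ∧
      nd Bs (G.ie S b) ≠ {G.ie S c} := by
    have k1 : a ≠ c ∧ b ≠ c ∧ a ≠ d ∧ b ≠ d := ⟨hq.2.2.1, hq.2.2.2.2.1, hq.2.2.2.1, hq.2.2.2.2.2.1⟩
    refine ⟨GO3_ab hc hT hS hq h2 hN hB, nd_of_not fun B k => hB.not_mem k hq.mem.2.2.1 ?_ ie_at,
      nd_of_not fun B k => hB.not_mem k hq.mem.2.2.2 ?_ ie_at, fun k => ?_, fun k => ?_⟩
    · simp [k1.1.symm, k1.2.1.symm]
    · simp [k1.2.2.1.symm, k1.2.2.2.symm]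
    · exact hT.f2 hc hS hq.card h2 hq.mem.1 hq.mem.2.2.1 k1.1 (mem_singleton.1 (k ▸ mem_nd_self))
    · exact hT.f2 hc hS hq.card h2 hq.mem.2.1 hq.mem.2.2.1 k1.2.1
        (mem_singleton.1 (k ▸ mem_nd_self))

theorem qp0 (hc : G.Cub) (hT : G.HT T) (hS : S ⊆ T) (hq : G.Q4 S a b c d) (h2 : 2 < S.card)
    (hN : G.NC S a b) (hB : G.Bx G.AU S {a, b} Bs) :
    ∃ n w g, (G.quo S Bs).Pth (G.quo S Bs).A n w g ∧ w 0 = nd Bs (G.ie S a) ∧
      w n = nd Bs (G.ie S b) ∧ {G.ie S c} ∈ pv n w := by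
    obtain ⟨k1, k2, -, k3, k4⟩ := nd_term hc hT hS hq h2 hN hB
    refine pth_through _ a k1 k3.symm k4.symm fun M hM hx => ?_
    rw [← k2] at hx ⊢
    exact quo_two hc hT hS hq h2 hN hB (Spl_ie hq.mem.2.2.1) M hM hx

/-- the three-object lemma -/
theorem o3 (hc : G.Cub) (hT : G.HT T) (hS : S ⊆ T) (hq : G.Q4 S a b c d) (h2 : 2 < S.card)
    (hN : G.NC S a b) (hB : G.Bx G.AU S {a, b} Bs) (hne : Bs.Nonempty) :
    ∃ n w g, (G.quo S Bs).Pth (G.quo S Bs).A n w g ∧ w 0 = nd Bs (G.ie S a) ∧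
      w n = nd Bs (G.ie S b) ∧ {G.ie S c} ∈ pv n w ∧ ∃ j ≤ n, w j ∈ Bs := by
    classical
    obtain ⟨n, w, g, hp, h0, hn, hk⟩ := qp0 hc hT hS hq h2 hN hB
    by_cases hb : ∃ j ≤ n, w j ∈ Bs
    · exact ⟨n, w, g, hp, h0, hn, hk, hb⟩
    have hb' : ∀ N ∈ Bs, N ∉ pv n w := fun N k1 k2 =>
      let ⟨j, j1, j2⟩ := mem_pv.1 k2
      hb ⟨j, j1, j2 ▸ k1⟩
    obtain ⟨t1, t2, -, t3, t4⟩ := nd_term hc hT hS hq h2 hN hB
    obtain ⟨k, k1, k2⟩ := mem_pv.1 hk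
    have h1 : ∀ e ∈ (G.quo S Bs).A, ∀ y ∉ pv n w, ¬ (G.quo S Bs).Je e y (w k) := by
      intro e he y hy j
      obtain ⟨l, rfl⟩ : ∃ l, k = l + 1 := by
        rcases k with _ | l
        · exact (t3 (h0.symm.trans k2)).elim
        · exact ⟨l, rfl⟩
      have k3 : l + 1 < n := lt_of_le_of_ne k1 fun k => t4 (by rw [← hn, ← k, k2])
      have q : ∀ i < n, e ≠ g i := fun i hi k => by
        rcases (hp.jn i hi).at_iff.1 (k ▸ j.at_iff.2 (Or.inl rfl)) with k | k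
        · exact hy (mem_pv.2 ⟨i, hi.le, k.symm⟩)
        · exact hy (mem_pv.2 ⟨i + 1, hi, k.symm⟩)
      have q1 : g l ≠ g (l + 1) := fun k => by
        have := hp.einj (by omega) k3 k
        omega
      have q2 : ∀ f ∈ (G.quo S Bs).A, c ≠ f := fun f hf k =>
        GO3_ni hq.mem.2.2.1 (k ▸ (mem_quo.1 hf).1)
      have m1 := hp.mem l (by omega)
      have m2 := hp.mem (l + 1) k3
      have q3 : ({c, e, g l, g (l + 1)} : Finset E) ⊆ G.cut {G.ie S c} := by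
        refine insert_subset (mem_inter.1 (Cut_ie hq.mem.2.2.1 rfl)).1 ?_
        rw [← k2]
        exact insert_subset (quo_je_inv hB.2.1 he j).2.1 (insert_subset
          (quo_je_inv hB.2.1 m1 (hp.jn l (by omega))).2.1
          (singleton_subset_iff.2 (quo_je_inv hB.2.1 m2 (hp.jn (l + 1) k3)).1))
      have q4 := card_le_card q3
      rw [(hT.vtx hc (hS (Spl_ie hq.mem.2.2.1))).1,
        card_insert_of_notMem (by simp [q2 _ he, q2 _ m1, q2 _ m2]),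
        card_insert_of_notMem (by simp [q l (by omega), q _ k3]), card_pair q1] at q4
      omega
    obtain ⟨B, hB0⟩ := hne
    have hB1 := hB.1 B hB0
    have hB4 := hT.us_card hc (hB1.2.1.trans hS) hB1.1
    obtain ⟨x, hx⟩ : B.Nonempty := card_pos.1 (by omega)
    have hxB := nd_of_mem hB.2.1 hB0 hx
    obtain ⟨Z, hZ, hmax⟩ := exists_max_image (univ.filter fun Z : Finset (Finset V) =>
        B ∈ Z ∧ Disjoint Z (pv n w) ∧
        (∀ z ∈ Z, (G.quo S Bs).Rch ((G.quo S Bs).avo (G.quo S Bs).A Zᶜ) B z) ∧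
        ∃ y0, ∀ e ∈ (G.quo S Bs).A, ∀ z ∈ Z, ∀ y ∉ Z, (G.quo S Bs).Je e z y → z ∈ Bs ∨ y = y0)
      card ⟨{B}, mem_filter.2 ⟨mem_univ _, mem_singleton_self B,
        disjoint_singleton_left.2 (hb' B hB0), fun z hz => mem_singleton.1 hz ▸ Rch.refl _ _,
        B, fun e _ z hz _ _ _ => Or.inl (mem_singleton.1 hz ▸ hB0)⟩⟩
    obtain ⟨-, z0, z1, z2, y0, z3⟩ := mem_filter.1 hZ
    rw [← h0, ← hn, ← k2]
    refine GO3_fan hp k1 h1 z1 z2 z3 fun M hM hd => ?_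
    by_contra hf
    obtain ⟨C, c1, c2, c3, -, -⟩ := quo_comp (G := G) (Ns := Bs) M (hB1.2.1 hx)
      (hxB.symm ▸ disjoint_right.1 hd z0)
    rw [hxB] at c1 c3
    have c4 : Disjoint C (pv n w) := disjoint_left.2 fun y y1 y2 =>
      hf ⟨B, z0, y, y2, disjoint_left.1 c2 y1, (c3 y).1 y1⟩
    have c5 : ∀ e ∈ (G.quo S Bs).A, ∀ z ∈ C, ∀ y ∉ C, (G.quo S Bs).Je e z y → y ∈ M := by
      intro e he z hz y hy j
      by_contra k
      exact hy ((c3 y).2 (GO3_tail ((c3 z).1 hz)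
        ((GO3_je j).2 ⟨he, disjoint_left.1 c2 hz, k⟩) j))
    by_cases hs : ∃ e ∈ (G.quo S Bs).A, ∃ z ∈ C, ∃ s ∉ C, (G.quo S Bs).Je e z s ∧ s ∈ Bs
    · obtain ⟨e, he, z, hz, s, s1, j, s2⟩ := hs
      have s3 := c5 e he z hz s s1 j
      obtain ⟨y1, hy1⟩ : ∃ y1, ∀ y ∈ M.erase s, y = y1 := by
        have : (M.erase s).card ≤ 1 := by rw [card_erase_of_mem s3]; omega
        obtain ⟨y1, k⟩ := card_le_one_iff_subset_singleton.1 this
        exact ⟨y1, fun y hy => mem_singleton.1 (k hy)⟩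
      have r : ∀ y ∈ C, (G.quo S Bs).Rch ((G.quo S Bs).avo (G.quo S Bs).A (insert s C)ᶜ) B y :=
        fun y hy => GO3_loc (fun u hu => mem_insert_of_mem ((c3 u).2 hu)) ((c3 y).1 hy)
      have k3 := hmax (insert s C) (mem_filter.2 ⟨mem_univ _, mem_insert_of_mem c1,
        disjoint_insert_left.2 ⟨hb' s s2, c4⟩, fun y hy => ?_, y1, fun f hf u hu y hy j' => ?_⟩)
      · have : Z ⊆ C := fun u hu => (c3 u).2 ((z2 u hu).mono
          (GO3_mono fun y hy => mem_compl.2 (disjoint_left.1 hd hy)))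
        have := card_le_card this
        rw [card_insert_of_notMem s1] at k3
        omega
      · rcases mem_insert.1 hy with rfl | hy
        · exact GO3_tail (r z hz) ((GO3_je j).2 ⟨he, notMem_compl.2 (mem_insert_of_mem hz),
            notMem_compl.2 (mem_insert_self _ _)⟩) j
        · exact r y hy
      · rw [mem_insert, not_or] at hy
        rcases mem_insert.1 hu with rfl | hu
        · exact Or.inl s2
        · exact Or.inr (hy1 y (mem_erase.2 ⟨hy.1, c5 f hf u hu y hy.2 j'⟩))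
    · have hU : un S Bs C ⊆ S := filter_subset _ _
      obtain ⟨X, x1, x2, x3⟩ := GO3_count hc hT hS hU
        (Y := (S \ un S Bs C).filter fun y => {y} ∈ M) (filter_subset _ _) fun e he p hp y hy j => by
          have y1 := mem_sdiff.1 hy
          have y2 : nd Bs y ∉ C := fun k => y1.2 (mem_un.2 ⟨y1.1, k⟩)
          have y3 := Cut_je_ins he j (hU hp) y1.1
          have y4 := quo_je (Ns := Bs) y3 j
          have y5 : e ∈ (G.quo S Bs).A := mem_quo.2 ⟨y3, fun k => y2 (by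
            rcases j with ⟨rfl, rfl⟩ | ⟨rfl, rfl⟩
            · exact k ▸ (mem_un.1 hp).2
            · exact k ▸ (mem_un.1 hp).2)⟩
          have y6 := c5 e y5 _ (mem_un.1 hp).2 _ y2 y4
          rcases nd_cases hB.2.1 y with k | k
          · exact (hs ⟨e, y5, _, (mem_un.1 hp).2, _, y2, y4, k⟩).elim
          · exact mem_filter.2 ⟨hy, k.2 ▸ y6⟩
      have x4 : ((S \ un S Bs C).filter fun y => {y} ∈ M).card ≤ M.card :=
        card_le_card_of_injOn (fun y => {y}) (fun y hy => (mem_filter.1 hy).2)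
          fun _ _ _ _ k => singleton_injective k
      have x5 : G.cut (un S Bs C) ∩ G.cut S ⊆ {d} := by
        intro e he
        obtain ⟨e1, e2⟩ := mem_inter.1 he
        have e3 : nd Bs (G.ie S e) ∉ pv n w := by
          rw [← eq_ie e2 (hU (ie_mem (cut_sub_tch e1))) ie_at]
          exact disjoint_left.1 c4 (mem_un.1 (ie_mem (cut_sub_tch e1))).2
        rcases (Spl_mem hq e).1 e2 with rfl | rfl | rfl | rfl
        · exact (e3 (mem_pv.2 ⟨0, Nat.zero_le _, h0⟩)).elim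
        · exact (e3 (mem_pv.2 ⟨n, le_rfl, hn⟩)).elim
        · exact (e3 (t2.symm ▸ hk)).elim
        · exact mem_singleton_self _
      have x6 := card_le_card x5
      have x7 : B ⊆ X := ((un_dich hB.2.1 (fun N hN => (hB.1 N hN).2.1) hB0 ⟨x, hx⟩).1 c1).trans x1
      have x8 := hT.four' hS hq.card x2 (le_trans (by omega) (card_le_card x7))
      rw [card_singleton] at x6
      omega

end SG

end Pool.Agent.Work.MP_8c679b_co
end

-- merged part: Pool.Agent.Work.MP_8c679b_co.Six.Nu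
section
/-!
Isolated odd circuits and their number modulo two.
-/

set_option autoImplicit false

namespace Pool.Agent.Work.MP_8c679b_co

open Finset

namespace SG

variable {V E : Type} [Fintype V] [DecidableEq V] [DecidableEq E] {G : SG V E}
  {T W W' X S : Finset V} {C C' : Finset E}

theorem mem_oc {e : E} :
    e ∈ G.oc W ↔ ∃ C ⊆ G.ins W, G.Cc C ∧ G.par C = 1 ∧ e ∈ C := by
  classical
  unfold oc
  rw [mem_filter]
  exact ⟨fun h => h.2, fun ⟨C, h1, h2, h3, h4⟩ => ⟨h1 h4, C, h1, h2, h3, h4⟩⟩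

theorem Iso.mono (h : G.Iso W C) (hW : W' ⊆ W) : G.Iso W' C := by
  exact fun D hD => h D (hD.trans (ins_mono hW))

theorem FH.mono (h : G.FH W') (hW : W' ⊆ W) : G.FH W := by
  obtain ⟨C, h1, h2, h3, h4⟩ := h
  exact ⟨C, h1.trans (ins_mono hW), h2, h3, fun k => h4 (k.mono hW)⟩

theorem nu_bal (h : G.Bal (G.ins W)) : G.nu W = 0 ∧ ¬ G.FH W := by
  refine ⟨?_, fun ⟨C, h1, h2, h3, _⟩ => h2.not_bal h3 h1 h⟩
  refine sum_eq_zero fun e he => ?_
  obtain ⟨C, h1, h2, h3, -⟩ := mem_oc.1 he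
  exact absurd h (h2.not_bal h3 h1)

/-- if every odd circuit of `W` lies in `W'` the numbers agree -/
theorem nu_eq (hW : W' ⊆ W)
    (h : ∀ C ⊆ G.ins W, G.Cc C → G.par C = 1 → C ⊆ G.ins W') : G.nu W' = G.nu W := by
  refine congrArg G.par (Finset.ext fun e => ?_)
  rw [mem_oc, mem_oc]
  exact ⟨fun ⟨C, h1, h2⟩ => ⟨C, h1.trans (ins_mono hW), h2⟩,
    fun ⟨C, h1, h2, h3, h4⟩ => ⟨C, h C h1 h2 h3, h2, h3, h4⟩⟩

/-- even sets do not use a bridge -/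
theorem cc_split (hX : X ⊆ W) (h1 : (G.crs (G.ins W) X).card ≤ 1) (hC : C ⊆ G.ins W)
    (cC : G.Cc C) : C ⊆ G.ins X ∨ C ⊆ G.ins (W \ X) := by
  obtain ⟨a, ha⟩ := Sol_vs_nonempty cC
  have cl := fun e (he : e ∈ C) => Sol_no_cross h1 hC cC.2.1 he
  obtain ⟨hA, hv⟩ := sub_ins_iff.1 hC
  by_cases hx : a ∈ X
  · exact Or.inl (sub_ins_iff.2 ⟨hA, fun v hv =>
      (cC.2.2 a ha v hv).closed (P := fun u => u ∈ X) cl hx⟩)
  · exact Or.inr (sub_ins_iff.2 ⟨hA, fun v hv' => mem_sdiff.2 ⟨hv hv', fun k =>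
      hx ((cC.2.2 v hv' a ha).closed (P := fun u => u ∈ X) cl k)⟩⟩)

theorem Nu_iso (h1 : (G.crs (G.ins W) X).card ≤ 1) (hC : C ⊆ G.ins X) (h : G.Iso X C) :
    G.Iso W C := by
  intro D hD hE e he v hv ha
  have cl := fun e (he : e ∈ D) => Sol_no_cross h1 hD hE he
  have hA := hD.trans ins_sub_A
  have hx := (sub_ins_iff.1 hC).2 hv
  refine h (D ∩ G.ins X) inter_subset_right (Sol_ev_inter hA hE cl) e
    (mem_inter.2 ⟨he, mem_ins.2 ⟨hA he, ?_⟩⟩) v hv ha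
  rcases ha with rfl | rfl
  exacts [⟨hx, (cl e he).1 hx⟩, ⟨(cl e he).2 hx, hx⟩]

theorem fh_split (hX : X ⊆ W) (h1 : (G.crs (G.ins W) X).card ≤ 1) :
    (G.FH W ↔ G.FH X ∨ G.FH (W \ X)) ∧ G.nu W = G.nu X + G.nu (W \ X) := by
  refine ⟨⟨fun ⟨C, k1, k2, k3, k4⟩ => ?_, fun k => k.elim (·.mono hX) (·.mono sdiff_subset)⟩, ?_⟩
  · exact (cc_split hX h1 k1 k2).imp (fun k => ⟨C, k, k2, k3, fun k5 => k4 (Nu_iso h1 k k5)⟩)
      fun k => ⟨C, k, k2, k3, fun k5 => k4 (Nu_iso (by rwa [crs_sdiff hX]) k k5)⟩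
  · rw [nu, nu, nu, ← par_union]
    · refine congrArg G.par (Finset.ext fun e => ?_)
      rw [mem_union, mem_oc, mem_oc, mem_oc]
      refine ⟨fun ⟨C, k1, k2, k3⟩ => (cc_split hX h1 k1 k2).imp (fun k => ⟨C, k, k2, k3⟩)
        fun k => ⟨C, k, k2, k3⟩, ?_⟩
      rintro (⟨C, k1, k2⟩ | ⟨C, k1, k2⟩)
      exacts [⟨C, k1.trans (ins_mono hX), k2⟩, ⟨C, k1.trans (ins_mono sdiff_subset), k2⟩]
    · refine disjoint_left.2 fun e k1 k2 => ?_
      obtain ⟨C, k3, -, -, k4⟩ := mem_oc.1 k1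
      obtain ⟨D, k5, -, -, k6⟩ := mem_oc.1 k2
      exact (mem_sdiff.1 (mem_ins.1 (k5 k6)).2.1).2 (mem_ins.1 (k3 k4)).2.1

theorem Nu_sub (hI : G.Iso W C) (hC' : C' ⊆ G.ins W) (cC' : G.Cc C') {v : V} (h1 : v ∈ G.vs C')
    (h2 : v ∈ G.vs C) : C' ⊆ C := by
  have k := hI C' hC' cC'.2.1
  refine fun e he => k e he (G.s e) ?_ (Or.inl rfl)
  exact (cC'.2.2 v h1 _ (s_mem_vs he)).closed (P := fun v => v ∈ G.vs C)
    (fun x hx => ⟨fun k1 => t_mem_vs (k x hx _ k1 (Or.inl rfl)),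
      fun k1 => s_mem_vs (k x hx _ k1 (Or.inr rfl))⟩) h2

theorem Nu_of (h : ¬ G.FH W) (hC : C ⊆ G.ins W) (cC : G.Cc C) (oC : G.par C = 1) : G.Iso W C :=
  by_contra fun k => h ⟨C, hC, cC, oC, k⟩

theorem Nu_ins (hC : C ⊆ G.ins W) (cC : G.Cc C) (hI : G.Iso W C) : G.ins (G.vs C) = C := by
  refine Subset.antisymm (fun e he => by_contra fun k => ?_) (sub_ins_vs (hC.trans ins_sub_A))
  have h1 : {e} ⊆ G.ins W := singleton_subset_iff.2 (ins_mono (sub_ins_iff.1 hC).2 he)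
  have h2 : G.Od {e} (G.s e) (G.t e) := od_edge (Or.inl ⟨rfl, rfl⟩)
  obtain ⟨-, h3, h4⟩ := mem_ins.1 he
  rw [← hI.eq_of_od hC cC h3 h4 h1 (disjoint_singleton_left.2 k) h2] at h2
  exact k (hI _ h1 (od_self.1 h2) e (mem_singleton_self e) _ h3 (Or.inl rfl))

/-- two odd circuits of a set without `FH` are equal or disjoint -/
theorem iso_disj (hc : G.Cub) (h : ¬ G.FH W) (hC : C ⊆ G.ins W) (cC : G.Cc C) (oC : G.par C = 1)
    (hC' : C' ⊆ G.ins W) (cC' : G.Cc C') : C' = C ∨ Disjoint (G.vs C') (G.vs C) := by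
  refine or_iff_not_imp_right.2 fun k => ?_
  obtain ⟨v, h1, h2⟩ := not_disjoint_iff.1 k
  exact cC.min hc (hC.trans ins_sub_A) (Nu_sub (Nu_of h hC cC oC) hC' cC' h1 h2) cC'.2.1 cC'.1

/-- an isolated circuit in a two-edge-connected set is everything -/
theorem iso_two (h2 : G.Two W (G.ins W)) (hC : C ⊆ G.ins W) (cC : G.Cc C) (hI : G.Iso W C) :
    G.ins W = C ∧ G.vs C = W := by
  have h1 := (sub_ins_iff.1 hC).2
  have h3 : G.vs C = W := by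
    refine Subset.antisymm h1 fun v hv => by_contra fun k => ?_
    obtain ⟨a, ha⟩ := Sol_vs_nonempty cC
    obtain ⟨D, k1, k2, k3, k4⟩ := h2.cc_through Subset.rfl (h1 ha) hv fun e => k (e ▸ ha)
    exact k (vs_mono (Nu_sub hI k1 k2 k3 ha) k4)
  exact ⟨h3 ▸ Nu_ins hC cC hI, h3⟩

theorem nu_circuit (hc : G.Cub) (hC : G.ins W = C) (cC : G.Cc C) (oC : G.par C = 1) :
    G.nu W = 1 ∧ ¬ G.FH W := by
  refine ⟨?_, fun ⟨D, h1, h2, _, h4⟩ => h4 fun F hF _ e he _ _ _ => ?_⟩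
  · rw [← oC]
    refine congrArg G.par (Finset.ext fun e => ?_)
    rw [mem_oc, hC]
    exact ⟨fun ⟨D, h1, _, _, h2⟩ => h1 h2, fun he => ⟨C, Subset.rfl, cC, oC, he⟩⟩
  · rw [cC.min hc (hC ▸ ins_sub_A) (hC ▸ h1) h2.2.1 h2.1, ← hC]
    exact hF he

/-- a two-edge-connected unbalanced set with a vertex of inner degree three -/
theorem fh_of_two (hc : G.Cub) (h2 : G.Two W (G.ins W)) (hU : ¬ G.Bal (G.ins W))
    (hN : ∃ v ∈ W, G.deg (G.ins W) v = 3) : G.FH W := by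
  by_contra h
  obtain ⟨C, h1, h3, h4⟩ := exists_odd_cc hU
  obtain ⟨v, -, hv⟩ := hN
  have h5 := dg_eq_zero.1 (h3.2.1 v)
  rw [← (iso_two h2 h1 h3 (Nu_of h h1 h3 h4)).1, hv] at h5
  exact absurd h5 (by decide)

theorem FH.str (hc : G.Cub) (h : G.FH W) :
    ¬ G.Bal (G.ins W) ∧ ∃ v ∈ W, G.deg (G.ins W) v = 3 := by
  obtain ⟨C, h1, h2, h3, h4⟩ := h
  refine ⟨h2.not_bal h3 h1, by_contra fun k => h4 fun D hD _ e he v hv ha => ?_⟩
  have h5 := hc.le3 (ins_sub_A (W := W)) v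
  have h6 := deg2_of_dg hc (h1.trans ins_sub_A) hv (h2.2.1 v)
  have h7 : G.deg (G.ins W) v ≠ 3 := fun k1 => k ⟨v, (sub_ins_iff.1 h1).2 hv, k1⟩
  exact mem_of_deg_le h1 (by omega) (hD he) ha

/-- an unbalanced side inside a set without `FH` is an isolated four-cycle -/
theorem us_iso (hc : G.Cub) (hT : G.HT T) (hW : W ⊆ T) (h : ¬ G.FH W) (hS : S ⊆ W)
    (hu : G.US S) : G.Cc (G.ins S) ∧ G.par (G.ins S) = 1 ∧ G.vs (G.ins S) = S ∧ S.card = 4 ∧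
      G.Iso W (G.ins S) := by
  obtain ⟨C, h1, h3, h4⟩ := exists_odd_cc hu.2
  have h5 := hT.us_card hc (hS.trans hW) hu
  have h6 := Nu_of h (h1.trans (ins_mono hS)) h3 h4
  obtain ⟨h7, h8⟩ := iso_two (hT.f3 (hS.trans hW) hu.1 (by omega)) h1 h3 (h6.mono hS)
  rw [h7]
  refine ⟨h3, h4, h8, le_antisymm ?_ h5, h6⟩
  rw [← hu.1]
  refine (card_le_card fun v hv => ?_).trans (card_image_le (f := G.ie S))
  obtain ⟨e, k1, k2, k3⟩ := third_exists hc (h1.trans ins_sub_A) (h8 ▸ hv) (h3.2.1 v)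
  have k4 := (mem_tch_iff.1 (sol1_at_tch k1 hv k3)).resolve_left (h7 ▸ k2)
  exact mem_image.2 ⟨e, k4, (eq_ie k4 hv k3).symm⟩

/-- a region that contains a box has `FH` -/
theorem fh_of_box (hc : G.Cub) (hT : G.HT T) (hW : W ⊆ T) (h2 : G.Two W (G.ins W)) (hS : S ⊆ W)
    (hu : G.US S) (hin : G.cut S ⊆ G.ins W) : G.FH W := by
  by_contra h
  obtain ⟨h1, -, -, -, h3⟩ := us_iso hc hT hW h hS hu
  obtain ⟨e, he⟩ := card_pos.1 (show 0 < (G.cut S).card by rw [hu.1]; decide)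
  exact not_ins_of_cut he ((iso_two h2 (ins_mono hS) h1 h3).1 ▸ hin he)

/-- removing an isolated odd circuit -/
theorem nu_remove (hc : G.Cub) (h : ¬ G.FH W) (hC : C ⊆ G.ins W) (cC : G.Cc C)
    (oC : G.par C = 1) : G.nu W = G.nu (W \ G.vs C) + 1 := by
  rw [← oC, nu, nu, ← par_union]
  · refine congrArg G.par (Finset.ext fun e => ?_)
    rw [mem_union, mem_oc, mem_oc]
    constructor
    · rintro ⟨D, h1, h2, h3, h4⟩
      rcases iso_disj hc h hC cC oC h1 h2 with rfl | k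
      · exact Or.inr h4
      · obtain ⟨k1, k2⟩ := sub_ins_iff.1 h1
        exact Or.inl ⟨D, sub_ins_iff.2 ⟨k1, subset_sdiff.2 ⟨k2, k⟩⟩, h2, h3, h4⟩
    · rintro (⟨D, h1, h2⟩ | k)
      exacts [⟨D, h1.trans (ins_mono sdiff_subset), h2⟩, ⟨C, hC, cC, oC, k⟩]
  · refine disjoint_left.2 fun e k1 k2 => ?_
    obtain ⟨D, k5, -, -, k6⟩ := mem_oc.1 k1
    exact (mem_sdiff.1 (mem_ins.1 (k5 k6)).2.1).2 (s_mem_vs k2)

/-- The parts hanging at different vertices of an isolated circuit are not connected. -/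
theorem iso_branch (hc : G.Cub) (hC : C ⊆ G.ins W) (cC : G.Cc C) (hI : G.Iso W C) {e f : E}
    (he : e ∈ G.cut (G.vs C)) (hf : f ∈ G.cut (G.vs C)) (he' : e ∈ G.ins W) (hf' : f ∈ G.ins W)
    (h : G.Rch (G.ins (W \ G.vs C)) (G.oe (G.vs C) e) (G.oe (G.vs C) f)) : e = f := by
  obtain ⟨P, h1, h2⟩ := h.od
  have hn : ∀ x ∈ G.cut (G.vs C), x ∉ C := fun x hx k =>
    not_ins_of_cut hx (sub_ins_vs (hC.trans ins_sub_A) k)
  have h3 := ((od_edge (je_ie_oe (X := G.vs C) (e := e))).symmDiff h2).symmDiff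
    (od_edge (je_ie_oe (X := G.vs C) (e := f))).symm
  have h4 : symmDiff (symmDiff {e} P) {f} ⊆ G.ins W \ C :=
    symmDiff_subset_union.trans (union_subset (symmDiff_subset_union.trans (union_subset
      (singleton_subset_iff.2 (mem_sdiff.2 ⟨he', hn e he⟩)) fun x hx => mem_sdiff.2
        ⟨ins_mono sdiff_subset (h1 hx), fun k =>
          (mem_sdiff.1 (mem_ins.1 (h1 hx)).2.1).2 (s_mem_vs k)⟩))
      (singleton_subset_iff.2 (mem_sdiff.2 ⟨hf', hn f hf⟩)))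
  have h5 := ie_mem (cut_sub_tch hf)
  have h6 := hI.eq_of_od hC cC (ie_mem (cut_sub_tch he)) h5 (h4.trans sdiff_subset)
    (sdiff_disjoint.mono_left h4) h3
  exact third_unique hc (hC.trans ins_sub_A) h5 (cC.2.1 _) (ins_sub_A hf') (ins_sub_A he')
    (hn f hf) (hn e he) ie_at (h6 ▸ ie_at)

/-- an isolated circuit has no chord -/
theorem iso_ins (hC : C ⊆ G.ins W) (cC : G.Cc C) (hI : G.Iso W C) : G.ins (G.vs C) = C := by
  exact Nu_ins hC cC hI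

/-- a circuit inside `T` with an unbalanced surrounding has at least four vertices -/
theorem cc_card (hc : G.Cub) (hT : G.HT T) (hS : S ⊆ T) (h4 : (G.cut S).card = 4)
    (hC : C ⊆ G.ins S) (cC : G.Cc C) : 4 ≤ (G.cut (G.vs C)).card := by
  obtain ⟨e, he⟩ := cC.1
  obtain ⟨h1, h2⟩ := sub_ins_iff.1 hC
  exact hT.four' hS h4 h2 (one_lt_card.2 ⟨_, s_mem_vs he, _, t_mem_vs he,
    hT.noloop hc (ins_sub_tch (ins_mono hS (hC he)))⟩)

end SG

end Pool.Agent.Work.MP_8c679b_co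
end

-- merged part: Pool.Agent.Work.MP_8c679b_co.Six.GIso
section
/-!
Rerouting a path through an isolated odd circuit (PROOF.md, lemma ISOR).
-/

set_option autoImplicit false

namespace Pool.Agent.Work.MP_8c679b_co

open Finset

namespace SG

variable {V E : Type} [Fintype V] [DecidableEq V] [DecidableEq E] {G : SG V E}
  {T S W : Finset V} {a b c d : E}

theorem GIso_cat {D : Finset E} {n m : ℕ} {v u : ℕ → V} {g h : ℕ → E} (h1 : G.Pth D n v g)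
    (h2 : G.Pth D m u h) (he : v n = u 0) (hd : ∀ x ∈ pv n v, x ∈ pv m u → x = u 0) :
    ∃ n' v' g', G.Pth D n' v' g' ∧ v' 0 = v 0 ∧ v' n' = u m ∧
      (∀ x, x ∈ pv n' v' ↔ x ∈ pv n v ∨ x ∈ pv m u) ∧
      G.par (pe n' g') = G.par (pe n g) + G.par (pe m h) := by
  have k := h1.cat h2 he fun i hi k hk e => h2.inj k hk 0 (Nat.zero_le _)
    (hd _ (e ▸ mem_pv.2 ⟨i, hi, rfl⟩) (mem_pv.2 ⟨k, hk, rfl⟩))
  refine ⟨_, _, _, k, Pth_catL (Nat.zero_le _), ?_, fun x => mem_pv_cat he, ?_⟩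
  · rw [Pth_catR he (Nat.le_add_right _ _), Nat.add_sub_cancel_left]
  · rw [k.par, h1.par, h2.par, sum_range_add]
    congr 1
    · exact sum_congr rfl fun i hi => by rw [Pth_ceL (mem_range.1 hi)]
    · exact sum_congr rfl fun i _ => by
        rw [Pth_ceR (Nat.le_add_right _ _), Nat.add_sub_cancel_left]

theorem GIso_one {D : Finset E} {e : E} {x y : V} (he : e ∈ D) (hj : G.Je e x y) (hxy : x ≠ y) :
    ∃ n v g, G.Pth D n v g ∧ v 0 = x ∧ v n = y ∧ ∀ z ∈ pv n v, z = x ∨ z = y := by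
  refine ⟨_, _, _, pth_one he hj hxy, rfl, rfl, fun z hz => ?_⟩
  obtain ⟨i, -, rfl⟩ := mem_pv.1 hz
  split_ifs
  exacts [Or.inl rfl, Or.inr rfl]

theorem GIso_base {Y : Finset V} {x y : V} (h : x ∈ G.cmp Y y) : y ∈ Y := by
  obtain ⟨h1, h2⟩ := mem_cmp.1 h
  by_cases k : y = x
  · exact k ▸ h1
  · exact (sub_ins_iff.1 Subset.rfl).2 (h2.mem_vs k)

theorem GIso_arc (hc : G.Cub) {C : Finset E} (hA : C ⊆ G.A) (cC : G.Cc C) (oC : G.par C = 1)
    (hl : ∀ f ∈ C, G.s f ≠ G.t f) {x y : V} (hx : x ∈ G.vs C) (hy : y ∈ G.vs C) (hxy : x ≠ y)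
    (ε : ZMod 2) : ∃ m u h, G.Pth C m u h ∧ u 0 = x ∧ u m = y ∧ pv m u ⊆ G.vs C ∧
      G.par (pe m h) = ε := by
  obtain ⟨e, he⟩ := cC.1
  obtain ⟨n, v, g, h1, -, -, h2⟩ := cC.cyc hc hA hl he (Or.inl rfl)
  obtain ⟨-, h3, -, h4, -⟩ := h1.cc
  rw [h2] at h3 h4
  rw [h3] at hx hy ⊢
  obtain ⟨i, hi, rfl⟩ := mem_pv.1 hx
  obtain ⟨j, hj, rfl⟩ := mem_pv.1 hy
  obtain ⟨m, u, h, k1, k2, k3, k4, -, k5⟩ :=
    h1.arcs hi hj (fun k => hxy (k ▸ rfl)) ε (h4 ▸ oC)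
  exact ⟨m, u, h, k1, k2, k3, k4, k5⟩

variable (G) in
/-- `y` is an attachment on `P` of the branch that starts with the edge `f` at `Z` -/
def GIso_At (S P Z : Finset V) (f : E) (y : V) : Prop :=
  y ∈ P ∧ ∃ x ∈ G.ins S, ∃ w, G.Je x w y ∧
    ((x = f ∧ w = G.ie Z f) ∨ w ∈ G.cmp ((S \ P) \ Z) (G.oe Z f))

theorem GIso_br (hc : G.Cub) {C : Finset E} (hC : C ⊆ G.ins W) (cC : G.Cc C) (hI : G.Iso W C)
    {e f : E} (he : e ∈ G.cut (G.vs C)) (hf : f ∈ G.cut (G.vs C)) {x : V}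
    (h1 : x ∈ G.cmp (W \ G.vs C) (G.oe (G.vs C) e))
    (h2 : x ∈ G.cmp (W \ G.vs C) (G.oe (G.vs C) f)) : e = f := by
  have hZ := (sub_ins_iff.1 hC).2
  exact iso_branch hc hC cC hI he hf
    (Cut_je_ins (mem_cut.1 he).1 je_ie_oe (hZ (ie_mem (cut_sub_tch he)))
      (mem_sdiff.1 (GIso_base h1)).1)
    (Cut_je_ins (mem_cut.1 hf).1 je_ie_oe (hZ (ie_mem (cut_sub_tch hf)))
      (mem_sdiff.1 (GIso_base h2)).1)
    ((mem_cmp.1 h1).2.trans (mem_cmp.1 h2).2.symm)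

omit [Fintype V] in
theorem GIso_end {e : E} {x : V} (he : e ∈ G.ins S) (hx : G.At e x) : x ∈ S := by
  rcases hx with rfl | rfl
  exacts [(mem_ins.1 he).2.1, (mem_ins.1 he).2.2]

omit [Fintype V] in
theorem GIso_cut {e : E} {x y : V} (he : e ∈ G.A) (hj : G.Je e x y) (hx : x ∈ W) (hy : y ∉ W) :
    e ∈ G.cut W := by
  refine mem_cut.2 ⟨he, fun k => ?_⟩
  rcases hj with ⟨rfl, rfl⟩ | ⟨rfl, rfl⟩
  exacts [hy (k.1 hx), hy (k.2 hx)]

theorem GIso_step (hc : G.Cub) {P : Finset V} {C D : Finset E} (hC : C ⊆ G.ins (S \ P))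
    (cC : G.Cc C) (hI : G.Iso (S \ P) C) {f : E} (hf : f ∈ G.cut (G.vs C)) (hD : D ⊆ G.ins S)
    (hfD : f ∈ D) (h : G.oe (G.vs C) f ∈ (S \ P) \ G.vs C →
      (G.crs D (G.cmp ((S \ P) \ G.vs C) (G.oe (G.vs C) f))).card ≠ 1) :
    ∃ y, G.GIso_At S P (G.vs C) f y ∧ ∃ x ∈ D, G.At x y := by
  by_cases h1 : G.oe (G.vs C) f ∈ P
  · exact ⟨_, ⟨h1, f, hD hfD, _, je_ie_oe, Or.inl ⟨rfl, rfl⟩⟩, f, hfD, oe_at⟩
  have h2 : G.oe (G.vs C) f ∈ (S \ P) \ G.vs C :=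
    mem_sdiff.2 ⟨mem_sdiff.2 ⟨GIso_end (hD hfD) oe_at, h1⟩, oe_not_mem hf⟩
  obtain ⟨h3, h4, -, -⟩ := cmp_spec (G := G) h2
  generalize hK : G.cmp ((S \ P) \ G.vs C) (G.oe (G.vs C) f) = K at h h3 h4
  have h5 : f ∈ G.crs D K := mem_crs.2 ⟨hfD, (mem_cut.1 (GIso_cut (mem_cut.1 hf).1
    (je_ie_oe (X := G.vs C)).symm h3 fun k =>
      (mem_sdiff.1 (h4 k)).2 (ie_mem (cut_sub_tch hf)))).2⟩
  obtain ⟨x, h6, h7⟩ : ∃ x ∈ G.crs D K, x ≠ f := by
    by_contra k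
    push Not at k
    exact h h2 (card_eq_one.2 ⟨f, eq_singleton_iff_unique_mem.2 ⟨h5, k⟩⟩)
  obtain ⟨h8, h9⟩ := mem_crs.1 h6
  have k1 : x ∈ G.cut K := mem_cut.2 ⟨ins_sub_A (hD h8), h9⟩
  have k2 := ie_mem (cut_sub_tch k1)
  by_cases k3 : G.oe K x ∈ P
  · exact ⟨_, ⟨k3, x, hD h8, _, je_ie_oe, Or.inr (hK ▸ k2)⟩, x, h8, oe_at⟩
  exfalso
  by_cases k4 : G.oe K x ∈ G.vs C
  · have k5 : x ∈ G.cut (G.vs C) := GIso_cut (ins_sub_A (hD h8)) (je_ie_oe (X := K)).symm k4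
      (mem_sdiff.1 (h4 k2)).2
    have k6 := eq_oe k5 (mem_sdiff.1 (h4 k2)).2 ie_at
    exact h7 (GIso_br hc hC cC hI k5 hf (x := G.ie K x) (k6 ▸ (cmp_spec (h4 k2)).1)
      (by rwa [hK]))
  · have k5 : G.oe K x ∈ (S \ P) \ G.vs C :=
      mem_sdiff.2 ⟨mem_sdiff.2 ⟨GIso_end (hD h8) oe_at, k3⟩, k4⟩
    refine oe_not_mem k1 ?_
    have k6 := (mem_cmp.1 (hK ▸ k2 :
      G.ie K x ∈ G.cmp ((S \ P) \ G.vs C) (G.oe (G.vs C) f))).2
    have k7 := mem_cmp.2 ⟨k5, k6.trans (rch_at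
      (Cut_je_ins (ins_sub_A (hD h8)) je_ie_oe (h4 k2) k5) ie_at oe_at)⟩
    rwa [hK] at k7

theorem GIso_pth {P Z : Finset V} (hZ : Z ⊆ S \ P) {f : E} (hf : f ∈ G.cut Z) (hS : f ∈ G.ins S)
    {y : V} (h : G.GIso_At S P Z f y) : ∃ m u g, G.Pth (G.ins S) m u g ∧ u 0 = G.ie Z f ∧
      u m = y ∧ ∀ x ∈ pv m u, x = G.ie Z f ∨ x = y ∨ x ∈ G.cmp ((S \ P) \ Z) (G.oe Z f) := by
  obtain ⟨h1, x, h2, w, h3, h4⟩ := h
  have h5 := ie_mem (cut_sub_tch hf)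
  have h6 : G.ie Z f ≠ y := fun k => (mem_sdiff.1 (hZ h5)).2 (k ▸ h1)
  rcases h4 with ⟨rfl, rfl⟩ | h4
  · obtain ⟨m, u, g, k1, k2, k3, k4⟩ := GIso_one h2 h3 h6
    exact ⟨m, u, g, k1, k2, k3, fun z hz => (k4 z hz).imp_right Or.inl⟩
  obtain ⟨h7, h8, -, h9⟩ := cmp_spec (G := G) (GIso_base h4)
  generalize G.cmp ((S \ P) \ Z) (G.oe Z f) = K at h4 h7 h8 h9 ⊢
  have l1 : G.ie Z f ∉ K := fun k => (mem_sdiff.1 (h8 k)).2 h5
  have l2 : y ∉ K := fun k => (mem_sdiff.1 (mem_sdiff.1 (h8 k)).1).2 h1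
  obtain ⟨m, u, g, k1, k2, k3⟩ := (h9 _ h7 _ h4).pth f
  have k4 := k1.sub_of_ins (k2 ▸ h7)
  have k5 : G.Pth (G.ins S) m u g := k1.mono fun i hi =>
    ins_mono (h8.trans (sdiff_subset.trans sdiff_subset)) (k1.mem i hi)
  obtain ⟨m1, u1, g1, a1, a2, a3, a4⟩ := GIso_one hS (je_ie_oe (X := Z)) fun k => l1 (k ▸ h7)
  obtain ⟨m2, u2, g2, b1, b2, b3, b4⟩ := GIso_one h2 h3 fun k => l2 (k ▸ h4)
  obtain ⟨m3, u3, g3, c1, c2, c3, c4, -⟩ := GIso_cat a1 k5 (a3.trans k2.symm) fun z hz hz' =>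
    (a4 z hz).elim (fun k => absurd (k ▸ k4 hz') l1) fun k => k.trans k2.symm
  have c5 : ∀ z ∈ pv m3 u3, z = G.ie Z f ∨ z ∈ K := fun z hz => ((c4 z).1 hz).elim
    (fun k => (a4 z k).imp_right fun k' : z = _ => k' ▸ h7) fun k => Or.inr (k4 k)
  obtain ⟨m4, u4, g4, d1, d2, d3, d4, -⟩ := GIso_cat c1 b1 (c3.trans (k3.trans b2.symm))
    fun z hz hz' => (b4 z hz').elim (fun k => k.trans b2.symm) fun k =>
      (c5 z hz).elim (fun k' => absurd (k'.symm.trans k) h6) fun k' => absurd (k ▸ k') l2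
  refine ⟨m4, u4, g4, d1, d2.trans (c2.trans a2), d3.trans b3, fun z hz => ?_⟩
  rcases (d4 z).1 hz with k | k
  · exact (c5 z k).imp_right Or.inr
  · exact Or.inr ((b4 z k).symm.imp_right fun k' : z = _ => k' ▸ h4)

theorem GIso_uniq (hc : G.Cub) {P : Finset V} {C : Finset E} (hC : C ⊆ G.ins (S \ P))
    (cC : G.Cc C) (hI : G.Iso (S \ P) C) {e f : E} (he : e ∈ G.cut (G.vs C))
    (hf : f ∈ G.cut (G.vs C)) {y : V}
    (H : ∀ x ∈ G.ins S, ∀ x' ∈ G.ins S, x ∉ G.ins P → x' ∉ G.ins P → G.At x y → G.At x' y →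
      x = x')
    (h1 : G.GIso_At S P (G.vs C) e y) (h2 : G.GIso_At S P (G.vs C) f y) : e = f := by
  have hZ := (sub_ins_iff.1 hC).2
  obtain ⟨hy, x, a1, w, a2, a3⟩ := h1
  obtain ⟨-, x', b1, w', b2, b3⟩ := h2
  have a4 : w ∉ P := by
    rcases a3 with ⟨-, rfl⟩ | a3
    exacts [(mem_sdiff.1 (hZ (ie_mem (cut_sub_tch he)))).2,
      (mem_sdiff.1 (mem_sdiff.1 (mem_cmp.1 a3).1).1).2]
  have b4 : w' ∉ P := by
    rcases b3 with ⟨-, rfl⟩ | b3
    exacts [(mem_sdiff.1 (hZ (ie_mem (cut_sub_tch hf)))).2,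
      (mem_sdiff.1 (mem_sdiff.1 (mem_cmp.1 b3).1).1).2]
  have k1 : x = x' := H x a1 x' b1 (fun k => a4 (GIso_end k (a2.at_iff.2 (Or.inl rfl))))
    (fun k => b4 (GIso_end k (b2.at_iff.2 (Or.inl rfl)))) (a2.at_iff.2 (Or.inr rfl))
    (b2.at_iff.2 (Or.inr rfl))
  subst k1
  have k2 : w = w' := (b2.at_iff.1 (a2.at_iff.2 (Or.inl rfl))).resolve_right
    fun k => a4 (k ▸ hy)
  subst k2
  rcases a3 with ⟨a3, a5⟩ | a3 <;> rcases b3 with ⟨b3, b5⟩ | b3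
  · exact a3.symm.trans b3
  · exact absurd (a5 ▸ ie_mem (cut_sub_tch he)) (mem_sdiff.1 (mem_cmp.1 b3).1).2
  · exact absurd (b5 ▸ ie_mem (cut_sub_tch hf)) (mem_sdiff.1 (mem_cmp.1 a3).1).2
  · exact GIso_br hc hC cC hI he hf a3 b3

theorem GIso_avoid (hc : G.Cub) {P U : Finset V} {C : Finset E} (hC : C ⊆ G.ins (S \ P))
    (cC : G.Cc C) (hI : G.Iso (S \ P) C) (hU : U ⊆ S) {z : V} (hz : z ∈ G.vs C) (hz' : z ∉ U)
    (h : ∀ f ∈ G.cut (G.vs C), f ∈ G.ins S → ∀ y, G.GIso_At S P (G.vs C) f y → y ∉ U) :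
    G.nu (U \ G.vs C) = G.nu U := by
  refine nu_eq sdiff_subset fun D hD cD _ => ?_
  obtain ⟨h1, h2⟩ := sub_ins_iff.1 hD
  refine sub_ins_iff.2 ⟨h1, subset_sdiff.2 ⟨h2, cC.avoid hc (hC.trans ins_sub_A) cD.2.1
    (fun f hf x hx ha => by_contra fun k => ?_) hz fun k => hz' (h2 k)⟩⟩
  have h3 : f ∈ G.cut (G.vs C) := (mem_tch_iff.1 (Cut_tch (h1 hf) ha hx)).resolve_left
    (by rwa [Nu_ins hC cC hI])
  have h4 := hD.trans (ins_mono hU)
  obtain ⟨y, h5, x', h6, h7⟩ := GIso_step hc hC cC hI h3 h4 hf fun _ k' =>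
    absurd (k' ▸ cD.2.1.even_crs _) (by decide)
  exact h f h3 (h4 hf) y h5 (GIso_end (hD h6) h7)

theorem GIso_deg (hc : G.Cub) {n : ℕ} {v : ℕ → V} {g : ℕ → E} (hp : G.Pth (G.ins S) n v g)
    (ha : a ∈ G.cut S) (hb : b ∈ G.cut S) (hab : a ≠ b) (h0 : v 0 = G.ie S a)
    (hn : v n = G.ie S b) {y : V} (hy : y ∈ pv n v) :
    ∀ x ∈ G.ins S, ∀ x' ∈ G.ins S, x ∉ G.ins (pv n v) → x' ∉ G.ins (pv n v) → G.At x y →
      G.At x' y → x = x' := by
  obtain ⟨l, hl, rfl⟩ := mem_pv.1 hy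
  have h1 : Disjoint (pe n g) {a, b} := disjoint_right.2 fun x hx k => by
    rcases mem_insert.1 hx with rfl | hx
    · exact not_ins_of_cut ha (hp.pe_sub k)
    · exact not_ins_of_cut hb (mem_singleton.1 hx ▸ hp.pe_sub k)
  have h2 : pe n g ∪ {a, b} ⊆ G.A := union_subset (hp.pe_sub.trans ins_sub_A)
    (insert_subset (mem_cut.1 ha).1 (singleton_subset_iff.2 (mem_cut.1 hb).1))
  have h3 : 2 ≤ G.deg (pe n g ∪ {a, b}) (v l) := by
    rw [deg_union h1, hp.deg hl, deg, sum_pair hab]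
    have k1 : l = 0 → 0 < G.inc a (v l) := fun k => inc_pos.2 (by rw [k, h0]; exact ie_at)
    have k2 : l = n → 0 < G.inc b (v l) := fun k => inc_pos.2 (by rw [k, hn]; exact ie_at)
    unfold iv
    split_ifs <;> omega
  have h4 := deg_sdiff (G := G) (v := v l) h2
  have h5 := hc.le3 Subset.rfl (v l)
  have h6 : ∀ x ∈ G.ins S, x ∉ G.ins (pv n v) → x ∈ G.A \ (pe n g ∪ {a, b}) := fun x hx k =>
    mem_sdiff.2 ⟨ins_sub_A hx, fun k' => by
      rcases mem_union.1 k' with k1 | k1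
      · obtain ⟨i, hi, rfl⟩ := mem_pe.1 k1
        exact k (Pth_ins hp ins_sub_A hi)
      · rcases mem_insert.1 k1 with rfl | k1
        · exact not_ins_of_cut ha hx
        · exact not_ins_of_cut hb (mem_singleton.1 k1 ▸ hx)⟩
  exact fun x hx x' hx' k k' l1 l2 =>
    eq_of_deg_le_one (by omega) (h6 x' hx' k') (h6 x hx k) l2 l1

theorem GIso_min (A : E → ℕ → Prop) (k : ℕ) (hu : ∀ e f l, A e l → A f l → e = f)
    (h3 : ∃ e1 e2 e3, (∃ l, A e1 l) ∧ (∃ l, A e2 l) ∧ (∃ l, A e3 l) ∧ e1 ≠ e2 ∧ e1 ≠ e3 ∧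
      e2 ≠ e3) : ∃ e f i j, e ≠ f ∧ A e i ∧ A f j ∧ i < j ∧ (j ≤ k ∨ k ≤ i) ∧
      ∀ x l, A x l → l ≤ i ∨ j ≤ l := by
  classical
  have two : ∀ e f i j, e ≠ f → A e i → A f j → ((i ≤ k ∧ j ≤ k) ∨ (k ≤ i ∧ k ≤ j)) →
      ∃ r e f i j, e ≠ f ∧ A e i ∧ A f j ∧ i < j ∧ (j ≤ k ∨ k ≤ i) ∧ j - i = r := by
    intro e f i j h1 h2 h3 h4
    rcases lt_trichotomy i j with h | h | h
    · exact ⟨_, e, f, i, j, h1, h2, h3, h, by omega, rfl⟩
    · exact absurd (hu e f j (h ▸ h2) h3) h1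
    · exact ⟨_, f, e, j, i, h1.symm, h3, h2, h, by omega, rfl⟩
  have hex : ∃ r e f i j, e ≠ f ∧ A e i ∧ A f j ∧ i < j ∧ (j ≤ k ∨ k ≤ i) ∧ j - i = r := by
    obtain ⟨e1, e2, e3, ⟨l1, a1⟩, ⟨l2, a2⟩, ⟨l3, a3⟩, b1, b2, b3⟩ := h3
    by_cases c1 : (l1 ≤ k ∧ l2 ≤ k) ∨ (k ≤ l1 ∧ k ≤ l2)
    · exact two _ _ _ _ b1 a1 a2 c1
    by_cases c2 : (l1 ≤ k ∧ l3 ≤ k) ∨ (k ≤ l1 ∧ k ≤ l3)
    · exact two _ _ _ _ b2 a1 a3 c2
    · exact two _ _ _ _ b3 a2 a3 (by omega)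
  obtain ⟨e, f, i, j, h1, h2, h4, h5, h6, h7⟩ := Nat.find_spec hex
  refine ⟨e, f, i, j, h1, h2, h4, h5, h6, fun x l hx => by_contra fun k1 => ?_⟩
  by_cases k2 : e = x
  · exact Nat.find_min hex (m := j - l) (by omega)
      ⟨x, f, l, j, k2 ▸ h1, hx, h4, by omega, by omega, rfl⟩
  · exact Nat.find_min hex (m := l - i) (by omega)
      ⟨e, x, i, l, k2, h2, hx, by omega, by omega, rfl⟩

theorem isor (hc : G.Cub) (hT : G.HT T) (hS : S ⊆ T) (hq : G.Q4 S a b c d) (h2 : 2 < S.card)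
    {n : ℕ} {v : ℕ → V} {g : ℕ → E} (hp : G.Pth (G.ins S) n v g) (h0 : v 0 = G.ie S a)
    (hn : v n = G.ie S b) (hcm : G.ie S c ∈ pv n v) (hF : ¬ G.FH (S \ pv n v))
    (hB : ¬ G.Bal (G.ins (S \ pv n v))) :
    ∃ (n' : ZMod 2 → ℕ) (v' : ZMod 2 → ℕ → V) (g' : ZMod 2 → ℕ → E),
      (∀ ε, G.Pth (G.ins S) (n' ε) (v' ε) (g' ε) ∧ v' ε 0 = G.ie S a ∧
        v' ε (n' ε) = G.ie S b ∧ G.ie S c ∈ pv (n' ε) (v' ε) ∧ G.par (pe (n' ε) (g' ε)) = ε) ∧
      G.nu (S \ pv (n' 0) (v' 0)) = G.nu (S \ pv (n' 1) (v' 1)) := by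
  obtain ⟨C, hC, cC, oC⟩ := exists_odd_cc hB
  have hI := Nu_of hF hC cC oC
  obtain ⟨ha, hb, hc', -⟩ := hq.mem
  obtain ⟨hA, hZ⟩ := sub_ins_iff.1 hC
  have hZS := hZ.trans sdiff_subset
  have h4 := cc_card hc hT hS hq.card (hC.trans (ins_mono sdiff_subset)) cC
  have hF3 : 2 < (G.cut (G.vs C) ∩ G.ins S).card := by
    have k1 : G.cut (G.vs C) ⊆ insert d (G.cut (G.vs C) ∩ G.ins S) := fun e he => by
      rcases mem_tch_iff.1 (tch_mono hZS (cut_sub_tch he)) with k | k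
      · exact mem_insert_of_mem (mem_inter.2 ⟨he, k⟩)
      have k2 := (mem_sdiff.1 (hZ (ie_mem (cut_sub_tch he)))).2
      rw [(cut_of_sub hZS k (cut_sub_tch he)).2] at k2
      rw [hq.1] at k
      simp only [mem_insert, mem_singleton] at k
      rcases k with rfl | rfl | rfl | rfl
      · exact absurd (mem_pv.2 ⟨0, Nat.zero_le _, h0⟩) k2
      · exact absurd (mem_pv.2 ⟨n, le_rfl, hn⟩) k2
      · exact absurd hcm k2
      · exact mem_insert_self _ _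
    have k2 := (card_le_card k1).trans (card_insert_le _ _)
    omega
  have hatt : ∀ f ∈ G.cut (G.vs C) ∩ G.ins S, ∃ l, f ∈ G.cut (G.vs C) ∩ G.ins S ∧ l ≤ n ∧
      G.GIso_At S (pv n v) (G.vs C) f (v l) := fun f hf => by
    obtain ⟨y, k1, -⟩ := GIso_step hc hC cC hI (mem_inter.1 hf).1 Subset.rfl (mem_inter.1 hf).2
      fun k => by
        obtain ⟨k2, k3, -, -⟩ := cmp_spec (G := G) k
        have k4 := hT.f3 hS hq.card h2 _ (k3.trans (sdiff_subset.trans sdiff_subset)) ⟨_, k2⟩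
          fun k5 => (mem_sdiff.1 (mem_sdiff.1 (k3 (k5.symm ▸ ie_mem (cut_sub_tch hc')))).1).2 hcm
        omega
    obtain ⟨l, hl, rfl⟩ := mem_pv.1 k1.1
    exact ⟨l, hf, hl, k1⟩
  obtain ⟨kc, hkc, hkc'⟩ := mem_pv.1 hcm
  obtain ⟨e, f, i, j, hef, ⟨he, hi, Ae⟩, ⟨hf, hj, Af⟩, hij, hk, hmin⟩ := GIso_min
    (fun f l => f ∈ G.cut (G.vs C) ∩ G.ins S ∧ l ≤ n ∧ G.GIso_At S (pv n v) (G.vs C) f (v l)) kc
    (fun e f l k1 k2 => GIso_uniq hc hC cC hI (mem_inter.1 k1.1).1 (mem_inter.1 k2.1).1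
      (GIso_deg hc hp ha hb hq.2.1 h0 hn k1.2.2.1) k1.2.2 k2.2.2)
    (by
      obtain ⟨e1, e2, e3, k1, k2, k3, k4⟩ := two_lt_card_iff.1 hF3
      exact ⟨e1, e2, e3, hatt _ k1, hatt _ k2, hatt _ k3, k4⟩)
  obtain ⟨he, heS⟩ := mem_inter.1 he
  obtain ⟨hf, hfS⟩ := mem_inter.1 hf
  obtain ⟨m1, u1, g1, a1, a2, a3, a4⟩ := GIso_pth hZ he heS Ae
  obtain ⟨m2, u2, g2, b1, b2, b3, b4⟩ := GIso_pth hZ hf hfS Af
  have ze := ie_mem (cut_sub_tch he)
  have zf := ie_mem (cut_sub_tch hf)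
  have hnC : ∀ x ∈ G.cut (G.vs C), x ∉ C := fun x hx k => not_ins_of_cut hx (sub_ins_vs hA k)
  have hne : G.ie (G.vs C) e ≠ G.ie (G.vs C) f := fun k => hef
    (third_unique hc hA zf (cC.2.1 _) (mem_cut.1 hf).1 (mem_cut.1 he).1 (hnC f hf) (hnC e he)
      ie_at (k ▸ ie_at))
  have hPZ : ∀ l ≤ n, v l ∉ G.vs C := fun l hl k =>
    (mem_sdiff.1 (hZ k)).2 (mem_pv.2 ⟨l, hl, rfl⟩)
  have hPK : ∀ l ≤ n, ∀ x, v l ∉ G.cmp ((S \ pv n v) \ G.vs C) x := fun l hl x k =>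
    (mem_sdiff.1 (mem_sdiff.1 (mem_cmp.1 k).1).1).2 (mem_pv.2 ⟨l, hl, rfl⟩)
  have hKZ : ∀ x y, y ∈ G.cmp ((S \ pv n v) \ G.vs C) x → y ∉ G.vs C := fun x y k =>
    (mem_sdiff.1 (mem_cmp.1 k).1).2
  have key : ∀ ε : ZMod 2, ∃ n' v' g', (G.Pth (G.ins S) n' v' g' ∧ v' 0 = G.ie S a ∧
      v' n' = G.ie S b ∧ G.ie S c ∈ pv n' v' ∧ G.par (pe n' g') = ε) ∧
      (∀ x ∉ G.vs C, x ∈ pv n' v' ↔ (∃ k ≤ i, v k = x) ∨ (x ∈ pv m1 u1 ∨ x ∈ pv m2 u2) ∨
        ∃ k, j ≤ k ∧ k ≤ n ∧ v k = x) ∧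
      G.nu ((S \ pv n' v') \ G.vs C) = G.nu (S \ pv n' v') := by
    intro ε
    obtain ⟨m3, u3, g3, c1, c2, c3, c4, c5⟩ := GIso_arc hc hA cC oC
      (fun x hx => hT.noloop hc (ins_sub_tch (ins_mono (sdiff_subset.trans hS) (hC hx)))) ze zf hne
      (ε + (G.par (pe n g) + ∑ k ∈ Ico i j, G.n (g k) + G.par (pe m1 g1) + G.par (pe m2 g2)))
    have c6 : G.Pth (G.ins S) m3 u3 g3 := c1.mono fun l hl =>
      ins_mono sdiff_subset (hC (c1.mem l hl))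
    obtain ⟨m4, u4, g4, d1, d2, d3, d4, d5⟩ := GIso_cat a1.rev c6
      (by simp only [Nat.sub_self, a2, c2]) fun z hz hz' => by
        rw [pv_rev] at hz
        rcases a4 z hz with k | k | k
        · exact k.trans c2.symm
        · exact absurd (k ▸ c4 hz') (hPZ i hi)
        · exact absurd (c4 hz') (hKZ _ _ k)
    rw [pv_rev] at d4
    rw [pe_rev] at d5
    obtain ⟨m5, u5, g5, e1, e2, e3, e4, e5⟩ := GIso_cat d1 b1 (d3.trans (c3.trans b2.symm))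
      fun z hz hz' => by
        rcases b4 z hz' with k | k | k
        · exact k.trans b2.symm
        · exfalso
          subst k
          rcases (d4 _).1 hz with k1 | k1
          · rcases a4 _ k1 with k2 | k2 | k2
            · exact hPZ j hj (k2 ▸ ze)
            · exact hij.ne' (hp.inj j hj i hi k2)
            · exact hPK j hj _ k2
          · exact hPZ j hj (c4 k1)
        · exfalso
          rcases (d4 _).1 hz with k1 | k1
          · rcases a4 _ k1 with k2 | k2 | k2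
            · exact hKZ _ _ k (k2 ▸ ze)
            · exact hPK i hi _ (k2 ▸ k)
            · exact hef (GIso_br hc hC cC hI he hf k2 k)
          · exact hKZ _ _ k (c4 k1)
    have s0 : u5 0 = v i := by
      rw [e2, d2]
      simpa only [Nat.sub_zero] using a3
    have s1 : u5 m5 = v j := e3.trans b3
    have hd : ∀ k, 0 < k → k < m5 → ∀ l ≤ n, (l ≤ i ∨ j ≤ l) → u5 k ≠ v l := by
      intro k k1 k2 l hl _ k3
      have k4 : v l = v i ∨ v l = v j := by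
        rcases (e4 _).1 (mem_pv.2 ⟨k, k2.le, k3⟩) with k5 | k5
        · rcases (d4 _).1 k5 with k6 | k6
          · rcases a4 _ k6 with k7 | k7 | k7
            · exact absurd (k7 ▸ ze) (hPZ l hl)
            · exact Or.inl k7
            · exact absurd k7 (hPK l hl _)
          · exact absurd (c4 k6) (hPZ l hl)
        · rcases b4 _ k5 with k7 | k7 | k7
          · exact absurd (k7 ▸ zf) (hPZ l hl)
          · exact Or.inr k7
          · exact absurd k7 (hPK l hl _)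
      rcases k4 with k4 | k4
      · exact k1.ne' (e1.inj k k2.le 0 (Nat.zero_le _) (k3.trans (k4.trans s0.symm)))
      · exact k2.ne (e1.inj k k2.le m5 le_rfl (k3.trans (k4.trans s1.symm)))
    have hm := fun x => mem_pv_rr (n := n) (x := x) hij.le hj s0 s1
    refine ⟨_, _, _, ⟨hp.rr e1 hij hj s0 s1 hd, (Pth_rr1 (Nat.zero_le _)).trans h0, ?_, ?_, ?_⟩,
      fun x hx => ?_, GIso_avoid hc hC cC hI sdiff_subset ze (fun k => (mem_sdiff.1 k).2 ?_)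
        fun x hx hx' y hy k => (mem_sdiff.1 k).2 ?_⟩
    · rw [Pth_rr3 s0 s1 (Nat.le_add_right _ _), ← hn]
      exact congrArg v (by omega)
    · rcases hk with k | k
      exacts [(hm _).2 (Or.inr (Or.inr ⟨kc, k, hkc, hkc'⟩)), (hm _).2 (Or.inl ⟨kc, k, hkc'⟩)]
    · rw [hp.par_rr e1 hij hj s0 s1 hd, e5, d5, c5]
      linear_combination z2_add_self (G.par (pe n g) + ∑ k ∈ Ico i j, G.n (g k) +
        G.par (pe m1 g1) + G.par (pe m2 g2))
    · rw [hm, e4, d4, or_iff_left fun k => hx (c4 k)]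
    · exact (hm _).2 (Or.inr (Or.inl ((e4 _).2 (Or.inl ((d4 _).2
        (Or.inr (mem_pv.2 ⟨0, Nat.zero_le _, c2⟩)))))))
    · obtain ⟨l, hl, rfl⟩ := mem_pv.1 hy.1
      rcases hmin x l ⟨mem_inter.2 ⟨hx, hx'⟩, hl, hy⟩ with k1 | k1
      exacts [(hm _).2 (Or.inl ⟨l, k1, rfl⟩), (hm _).2 (Or.inr (Or.inr ⟨l, k1, hl, rfl⟩))]
  choose n' v' g' k1 k2 k3 using key
  refine ⟨n', v', g', k1, ?_⟩
  rw [← k3 0, ← k3 1]
  refine congrArg G.nu (Finset.ext fun x => ?_)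
  simp only [mem_sdiff]
  exact and_congr_left fun hx => by rw [k2 0 x hx, k2 1 x hx]

end SG

end Pool.Agent.Work.MP_8c679b_co
end

-- merged part: Pool.Agent.Work.MP_8c679b_co.Six.GCpq
section
/-!
Rerouting a circuit through an isolated four-cycle (PROOF.md, lemma CPQ).
-/

set_option autoImplicit false

namespace Pool.Agent.Work.MP_8c679b_co

open Finset

namespace SG

variable {V E : Type} [Fintype V] [DecidableEq V] [DecidableEq E] {G : SG V E}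
  {T S W : Finset V} {a b c d : E} {Bs Ds : Finset (Finset V)}

theorem GCpq_ear {S : Finset E} {B : Finset V} {n m : ℕ} {v u : ℕ → V} {g f : ℕ → E}
    (p0 : G.Pth S n v g) (p1 : G.Pth S m u f) (s : v 0 = u 0) (n0 : 1 ≤ n) (n1 : 1 ≤ m)
    (h3 : ∀ l, 0 < l → l ≤ n → ∀ l', 0 < l' → l' ≤ m → v l ≠ u l') (b0 : ∀ l < n, v l ∉ B)
    (b1 : ∀ l < m, u l ∉ B) : ∃ r z h, G.Pth S r z h ∧ z 0 = v n ∧ z r = u m ∧ u 0 ∈ pv r z ∧
      2 ≤ r ∧ ∀ l, 0 < l → l < r → z l ∉ B := by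
  have e : (fun k => v (n - k)) n = u 0 := by simp only [Nat.sub_self, s]
  refine ⟨n + m, _, _, Pth.cat p0.rev p1 e fun i hi k hk q => ?_, by simp [catV], ?_,
    (mem_pv_cat (v := fun k => v (n - k)) e).2 (.inr (mem_pv.2 ⟨0, Nat.zero_le _, rfl⟩)),
    by omega, fun l a b => ?_⟩
  · by_contra c'
    rcases Nat.eq_zero_or_pos (n - i) with z | z
    · simp only [z] at q
      exact c' (p1.inj k hk 0 (Nat.zero_le _) (q.symm.trans s))
    · exact h3 _ z (by omega) k (by omega) hk q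
  · simp [catV, show ¬ n + m ≤ n by omega]
  · simp only [catV]
    split_ifs with q
    · exact b0 _ (by omega)
    · exact b1 _ (by omega)

theorem GCpq_rr {S : Finset E} {n k : ℕ} {w : ℕ → V} {g : ℕ → E} {c : V} (hp : G.Cyc S n w g)
    (hk : k ≤ n) (hc : c ∉ pv n w)
    (h : ∀ M : Finset V, M.card < 3 → c ∉ M → ∃ b ∈ pv n w, b ∉ M ∧ G.Rch (G.avo S M) c b) :
    ∃ n' w' g' k', G.Cyc S n' w' g' ∧ k' ≤ n' ∧ w' 0 = w 0 ∧ w' k' = w k ∧ c ∈ pv n' w' := by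
  obtain ⟨m, v, f, h1, h2⟩ := fan_set (G := G) S {c} (pv n w) 3 (g 0)
    (disjoint_singleton_left.2 hc) fun M hM hd => by
      obtain ⟨b, hb, b1, r⟩ := h M hM (disjoint_singleton_right.1 hd)
      exact ⟨c, mem_singleton_self _, b, hb, b1, r⟩
  choose p p1 p2 using fun i => mem_pv.1 (h1 i).2.2.2.1
  have p3 : ∀ i j, i ≠ j → p i ≠ p j := fun i j hij q =>
    h2 i j hij _ (h1 i).2.1 le_rfl _ (h1 j).2.1 le_rfl (by rw [← p2, ← p2, q])
  obtain ⟨i, j, hij, q1, q2⟩ : ∃ i j, i ≠ j ∧ p i < p j ∧ (p j ≤ k ∨ k ≤ p i) := by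
    have d := p3 0 1 (by decide)
    have e := p3 0 2 (by decide)
    have f := p3 1 2 (by decide)
    by_contra q
    push Not at q
    have q1 := q 0 1 (by decide)
    have q2 := q 1 0 (by decide)
    have q3 := q 0 2 (by decide)
    have q4 := q 2 0 (by decide)
    have q5 := q 1 2 (by decide)
    have q6 := q 2 1 (by decide)
    omega
  have s0 := mem_singleton.1 (h1 i).2.2.1
  have s1 := mem_singleton.1 (h1 j).2.2.1
  obtain ⟨r, z, e, a1, a2, a3, a4, a5, a6⟩ := GCpq_ear (h1 i).1 (h1 j).1 (s0.trans s1.symm)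
    (h1 i).2.1 (h1 j).2.1 (h2 i j hij) (h1 i).2.2.2.2.2 (h1 j).2.2.2.2.2
  rw [← p2] at a2 a3
  have a7 := hp.rr a1 q1 (p1 j) a2 a3
    (fun l l1 l2 l' l3 _ q => a6 l l1 l2 (mem_pv.2 ⟨l', l3, q.symm⟩)) fun l hl q => by
      have k1 : ∀ x, G.At (e l) x → x ∈ pv n w := fun x hx => by
        rcases hp.cj.at_iff.1 (q ▸ hx) with rfl | rfl
        exacts [mem_pv.2 ⟨n, le_rfl, rfl⟩, mem_pv.2 ⟨0, Nat.zero_le _, rfl⟩]
      rcases Nat.eq_zero_or_pos l with rfl | l0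
      · exact a6 1 one_pos a5 (k1 _ ((a1.jn 0 hl).at_iff.2 (.inr rfl)))
      · exact a6 l l0 hl (k1 _ ((a1.jn l hl).at_iff.2 (.inl rfl)))
  have a8 := (mem_pv_rr q1.le (p1 j) a2 a3).2 (.inr (.inl (s1 ▸ a4)))
  rcases q2 with q2 | q2
  · refine ⟨_, _, _, p i + r + (k - p j), a7, by omega, Pth_rr1 (Nat.zero_le _), ?_, a8⟩
    rw [Pth_rr3 a2 a3 (by omega), Nat.add_sub_cancel_left, Nat.sub_add_cancel q2]
  · exact ⟨_, _, _, k, a7, by omega, Pth_rr1 (Nat.zero_le _), Pth_rr1 q2, a8⟩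

theorem GCpq_one {Ns : Finset (Finset V)} {n : ℕ} {w : ℕ → Finset V} {g : ℕ → E} (hpd : PD Ns)
    (hp : (G.quo W Ns).Cyc (G.quo W Ns).A n w g) {y y' x x' : V} {f f' : E}
    (h3 : (G.cut (nd Ns y) ∩ G.ins W).card ≤ 3) (hy : nd Ns y ∈ pv n w) (hy' : nd Ns y' = nd Ns y)
    (hx : nd Ns x ∉ pv n w) (hx' : nd Ns x' ∉ pv n w) (hf : f ∈ G.ins W) (hf' : f' ∈ G.ins W)
    (hj : G.Je f x y) (hj' : G.Je f' x' y') : f = f' := by
  obtain ⟨-, c1, c2, -, c3⟩ := hp.cc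
  obtain ⟨i, hi, e⟩ := mem_pv.1 hy
  have c4 := c3 i hi
  rw [e, quo_deg hpd c2] at c4
  have c5 : pe (n + 1) g ∩ G.cut (nd Ns y) ⊆ G.cut (nd Ns y) ∩ G.ins W := fun a ha =>
    mem_inter.2 ⟨(mem_inter.1 ha).2, (mem_quo.1 (c2 (mem_inter.1 ha).1)).1⟩
  have c6 := card_sdiff_add_card_eq_card c5
  have key : ∀ {x y' : V} {f : E}, nd Ns y' = nd Ns y → nd Ns x ∉ pv n w → f ∈ G.ins W →
      G.Je f x y' → f ∈ (G.cut (nd Ns y) ∩ G.ins W) \ (pe (n + 1) g ∩ G.cut (nd Ns y)) := by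
    intro x y' f hy' hx hf hj
    have k1 := quo_je (Ns := Ns) hf hj
    have k2 : f ∈ (G.quo W Ns).A := mem_quo.2 ⟨hf, fun q => hx (by
      rcases hj with ⟨rfl, rfl⟩ | ⟨rfl, rfl⟩
      · rwa [q, hy']
      · rwa [← q, hy'])⟩
    refine mem_sdiff.2 ⟨mem_inter.2 ⟨((quo_at hpd).1 ⟨k2, k1.at_iff.2 (.inr hy'.symm)⟩).2, hf⟩,
      fun q => hx (c1 ▸ mem_vs.2 ⟨f, (mem_inter.1 q).1, k1.at_iff.2 (.inl rfl)⟩)⟩
  exact card_le_one.1 (by omega) _ (key rfl hx hf hj) _ (key hy' hx' hf' hj')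

theorem cpq (hc : G.Cub) (hT : G.HT T) (hW : W ⊆ T) (h2 : G.Two W (G.ins W))
    (hB : G.Bx G.AU W ∅ Bs) (hD : G.VD W ∅ Ds) (hne : Bs.Nonempty) {n k : ℕ} {w : ℕ → Finset V}
    {g : ℕ → E} (hp : (G.quo W (Bs ∪ Ds)).Cyc (G.quo W (Bs ∪ Ds)).A n w g) (hk : k ≤ n)
    (hs : ∀ i, i = 0 ∨ i = k → (G.cut (w i) ∩ G.ins W).card = 2) (hno : ∀ i ≤ n, w i ∉ Bs)
    (hF : ¬ G.FH (W \ bu n w)) :
    ∃ n' w' g' k', (G.quo W (Bs ∪ Ds)).Cyc (G.quo W (Bs ∪ Ds)).A n' w' g' ∧ k' ≤ n' ∧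
      w' 0 = w 0 ∧ w' k' = w k ∧ ∃ j ≤ n', w' j ∈ Bs := by
  have _ := hs
  obtain ⟨Q, hQ⟩ := hne
  have hpd := (hB.pd hD).1
  have hY : ∀ N ∈ Bs ∪ Ds, N ⊆ W := fun N hN =>
    (mem_union.1 hN).elim (fun h => (hB.1 N h).2.1) fun h => (hD.2 N h).1
  have h4 : ∀ N ∈ Bs ∪ Ds, (G.cut N).card = 4 := fun N hN =>
    (mem_union.1 hN).elim (fun h => (hB.1 N h).1.1) fun h => by
      obtain ⟨u, v, m, a, b, c, d, -, -, -, -, q, -⟩ := (hD.2 N h).str hc hT hW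
      exact q.card
  have h3 : ∀ y ∈ W, nd (Bs ∪ Ds) y ∈ pv n w →
      (G.cut (nd (Bs ∪ Ds) y) ∩ G.ins W).card ≤ 3 := fun y hy h => by
    obtain ⟨i, hi, e⟩ := mem_pv.1 h
    rcases nd_cases hpd y with q | ⟨-, q⟩
    · obtain ⟨u, v, m, a, b, c, d, -, -, -, -, -, q, -⟩ :=
        (hD.2 _ ((mem_union.1 q).resolve_left (e ▸ hno i hi))).str hc hT hW
      exact (congrArg card q).le.trans (card_le_two.trans (by decide))
    · rw [q]
      exact (card_le_card inter_subset_left).trans (hT.vtx hc (hW hy)).1.le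
  rw [(trk_of_cyc hpd hY hp).2.2] at hF
  have hQN : Q ∈ Bs ∪ Ds := mem_union_left _ hQ
  have hQp : Q ∉ pv n w := fun h => by
    obtain ⟨i, hi, e⟩ := mem_pv.1 h
    exact hno i hi (e ▸ hQ)
  have hcut : G.cut Q ⊆ G.ins W := by simpa using (hB.1 Q hQ).2.2
  have hUS := (hB.1 Q hQ).1
  suffices h : ∀ M : Finset (Finset V), M.card < 3 → Q ∉ M → ∃ b ∈ pv n w, b ∉ M ∧
      (G.quo W (Bs ∪ Ds)).Rch ((G.quo W (Bs ∪ Ds)).avo (G.quo W (Bs ∪ Ds)).A M) Q b by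
    obtain ⟨n', w', g', k', a1, a2, a3, a4, a5⟩ := GCpq_rr hp hk hQp h
    obtain ⟨j, hj, e⟩ := mem_pv.1 a5
    exact ⟨n', w', g', k', a1, a2, a3, a4, j, hj, e ▸ hQ⟩
  generalize Bs ∪ Ds = Ns at *
  have nQ : ∀ x ∈ Q, nd Ns x = Q := fun x hx => nd_of_mem hpd hQN hx
  have mR : ∀ x, x ∈ W \ un W Ns (pv n w) ↔ x ∈ W ∧ nd Ns x ∉ pv n w := fun x => by
    rw [mem_sdiff, mem_un]
    tauto
  have hQR : Q ⊆ W \ un W Ns (pv n w) := fun x hx =>
    (mR x).2 ⟨hY Q hQN hx, (nQ x hx).symm ▸ hQp⟩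
  obtain ⟨c1, -, c2, -, c3⟩ := us_iso hc hT (sdiff_subset.trans hW) hF hQR hUS
  have br := fun e f => iso_branch (e := e) (f := f) hc (ins_mono hQR) c1 c3
  rw [c2] at br
  obtain ⟨Y, hYd⟩ : ∃ Y, Y = (W \ un W Ns (pv n w)) \ Q := ⟨_, rfl⟩
  rw [← hYd] at br
  have mY : ∀ x, x ∈ Y ↔ (x ∈ W ∧ nd Ns x ∉ pv n w) ∧ x ∉ Q := fun x => by
    rw [hYd, mem_sdiff, mR]
  have iQ : ∀ e ∈ G.cut Q, G.ie Q e ∈ Q := fun e he => ie_mem (cut_sub_tch he)
  have same : ∀ e ∈ G.cut Q, ∀ f ∈ G.cut Q, G.oe Q e ∈ Y → ∀ x, G.Rch (G.ins Y) (G.oe Q e) x →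
      G.oe Q f ∈ Y → G.Rch (G.ins Y) (G.oe Q f) x → e = f := fun e he f hf h1 x r1 h2 r2 =>
    br e f he hf (Cut_je_ins (mem_cut.1 he).1 je_ie_oe (hQR (iQ e he)) ((mR _).2 ((mY _).1 h1).1))
      (Cut_je_ins (mem_cut.1 hf).1 je_ie_oe (hQR (iQ f hf)) ((mR _).2 ((mY _).1 h2).1))
      (r1.trans r2.symm)
  have node : ∀ x ∈ Y, ∀ x', nd Ns x' = nd Ns x → G.Rch (G.ins Y) x x' := fun x hx x' e => by
    have e' := (nd_eq_iff hpd).1 e
    obtain ⟨⟨x1, x2⟩, x3⟩ := (mY x).1 hx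
    rcases nd_cases hpd x with q | ⟨-, q⟩
    · refine (hT.cn4 hc ((hY _ q).trans hW) (h4 _ q) x mem_nd_self x' e').mono
        (ins_mono fun y hy => (mY y).2 ⟨⟨hY _ q hy, ?_⟩, fun y1 => x3 ?_⟩)
      · rwa [(nd_eq_iff hpd).2 hy]
      · rw [← nQ y y1, (nd_eq_iff hpd).2 hy]
        exact mem_nd_self
    · rw [q, mem_singleton] at e'
      exact e' ▸ Rch.refl _ _
  have atW : ∀ f ∈ G.ins W, ∀ x, G.At f x → x ∈ W := fun f hf x hx => by
    rcases hx with rfl | rfl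
    exacts [(mem_ins.1 hf).2.1, (mem_ins.1 hf).2.2]
  have ex : ∀ e ∈ G.cut Q, ∃ f x y, f ∈ G.ins W ∧ nd Ns y ∈ pv n w ∧ G.Je f x y ∧
      ((f = e ∧ x = G.ie Q e) ∨ (G.oe Q e ∈ Y ∧ x ∈ G.cmp Y (G.oe Q e))) := fun e he => by
    by_cases h : nd Ns (G.oe Q e) ∈ pv n w
    · exact ⟨e, _, _, hcut he, h, je_ie_oe, .inl ⟨rfl, rfl⟩⟩
    have h1 : G.oe Q e ∈ Y := (mY _).2 ⟨⟨atW e (hcut he) _ oe_at, h⟩, oe_not_mem he⟩
    obtain ⟨k1, k2, k3, -⟩ := cmp_spec (G := G) h1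
    obtain ⟨f, hf, hfe⟩ := exists_mem_ne (h2 _ (fun x hx => ((mY x).1 (k2 hx)).1.1) ⟨_, k1⟩
      fun q => ((mY _).1 (k2 (q ▸ hY Q hQN (iQ e he)))).2 (iQ e he)) e
    obtain ⟨f1, f2⟩ := mem_crs.1 hf
    have f3 : f ∈ G.cut (G.cmp Y (G.oe Q e)) := mem_cut.2 ⟨ins_sub_A f1, f2⟩
    have f4 := ie_mem (cut_sub_tch f3)
    refine ⟨f, _, _, f1, by_contra fun q => ?_, je_ie_oe, .inr ⟨h1, f4⟩⟩
    by_cases q' : G.oe (G.cmp Y (G.oe Q e)) f ∈ Q
    · have f5 := ((mY _).1 (k2 f4)).2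
      have f6 : f ∈ G.cut Q := mem_cut.2 ⟨ins_sub_A f1, by
        rcases je_ie_oe (G := G) (X := G.cmp Y (G.oe Q e)) (e := f) with ⟨r1, r2⟩ | ⟨r1, r2⟩ <;>
          rw [r1, r2] <;> (clear * - f2 f5 q'; tauto)⟩
      have f7 := eq_oe f6 f5 ie_at
      exact hfe (same e he f f6 h1 _ (mem_cmp.1 f4).2 (f7 ▸ k2 f4) (f7 ▸ Rch.refl _ _)).symm
    · have f5 : f ∈ G.crs (G.ins Y) (G.cmp Y (G.oe Q e)) := mem_crs.2
        ⟨Cut_je_ins (ins_sub_A f1) je_ie_oe (k2 f4) ((mY _).2 ⟨⟨atW f f1 _ oe_at, q⟩, q'⟩), f2⟩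
      exact notMem_empty _ (k3 ▸ f5)
  have : Nonempty V := ⟨G.s (g 0)⟩
  choose! f x y f1 f2 f3 f4 using ex
  have xp : ∀ e ∈ G.cut Q, nd Ns (x e) ∉ pv n w := fun e he => by
    rcases f4 e he with ⟨-, q⟩ | ⟨-, q⟩
    · rwa [q, nQ _ (iQ e he)]
    · exact ((mY _).1 (mem_cmp.1 q).1).1.2
  intro M hM hQM
  obtain ⟨e, he, hD⟩ : ∃ e ∈ G.cut Q, ∀ N ∈ M, ¬ (N = nd Ns (y e) ∨
      (G.oe Q e ∈ Y ∧ ∃ z ∈ G.cmp Y (G.oe Q e), N = nd Ns z)) := by
    by_contra q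
    simp only [not_exists, not_and, not_forall, not_not] at q
    choose! m m1 m2 using q
    have := card_le_card_of_injOn (s := G.cut Q) (t := M) m m1 fun e he e' he' r => by
      rcases m2 e he with a | ⟨a, z, z1, z2⟩ <;> rcases m2 e' he' with b | ⟨b, z', z1', z2'⟩
      · have r' : nd Ns (y e') = nd Ns (y e) := by rw [← a, ← b, r]
        have ff := GCpq_one hpd hp (h3 _ (atW _ (f1 e he) _ ((f3 e he).at_iff.2 (.inr rfl)))
          (f2 e he)) (f2 e he) r' (xp e he) (xp e' he') (f1 e he) (f1 e' he') (f3 e he) (f3 e' he')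
        have xx : x e = x e' := by
          refine ((f3 e' he').at_iff.1 (ff ▸ (f3 e he).at_iff.2 (.inl rfl))).resolve_right
            fun q => xp e he (q ▸ f2 e' he')
        rcases f4 e he with ⟨u1, u2⟩ | ⟨u1, u2⟩ <;> rcases f4 e' he' with ⟨v1, v2⟩ | ⟨v1, v2⟩
        · rw [← u1, ff, v1]
        · exact absurd (xx ▸ u2 ▸ iQ e he) ((mY _).1 (mem_cmp.1 v2).1).2
        · exact absurd (xx ▸ v2 ▸ iQ e' he') ((mY _).1 (mem_cmp.1 u2).1).2
        · exact same e he e' he' u1 _ (mem_cmp.1 u2).2 v1 (xx ▸ (mem_cmp.1 v2).2)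
      · exact absurd (z2' ▸ r ▸ a ▸ f2 e he) ((mY _).1 (mem_cmp.1 z1').1).1.2
      · exact absurd (z2 ▸ r ▸ b ▸ f2 e' he') ((mY _).1 (mem_cmp.1 z1).1).1.2
      · exact same e he e' he' a z' ((mem_cmp.1 z1).2.trans
          (node z (mem_cmp.1 z1).1 z' (by rw [← z2, ← z2', r]))) b (mem_cmp.1 z1').2
    have := hUS.1
    omega
  have yM : nd Ns (y e) ∉ M := fun q => hD _ q (.inl rfl)
  have iM : nd Ns (G.ie Q e) ∉ M := by rwa [nQ _ (iQ e he)]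
  have yW := atW _ (f1 e he) _ ((f3 e he).at_iff.2 (.inr rfl))
  have step : ∀ {g : E} {a b : V}, g ∈ G.ins W → G.Je g a b → nd Ns a ∉ M → nd Ns b ∉ M →
      (G.quo W Ns).Rch ((G.quo W Ns).avo (G.quo W Ns).A M) (nd Ns a) (nd Ns b) := by
    intro g a b hg hj ha hb
    have k1 := hj.at_iff.2 (.inl rfl)
    have k2 := hj.at_iff.2 (.inr rfl)
    refine quo_rch_avo (U := {a, b}) (Cut_pair (atW g hg a k1) (atW g hg b k2)) ?_
      (rch_at (Cut_je_ins (ins_sub_A hg) hj (by simp) (by simp)) k1 k2)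
    simp [ha, hb]
  refine ⟨_, f2 e he, yM, ?_⟩
  rw [← nQ _ (iQ e he)]
  rcases f4 e he with ⟨-, q⟩ | ⟨q1, q2⟩
  · exact q ▸ step (f1 e he) (f3 e he) (q ▸ iM) yM
  · obtain ⟨k1, k2, -, k4⟩ := cmp_spec (G := G) q1
    have k5 : ∀ z ∈ G.cmp Y (G.oe Q e), nd Ns z ∉ M := fun z hz q => hD _ q (.inr ⟨q1, z, hz, rfl⟩)
    exact ((step (hcut he) je_ie_oe iM (k5 _ k1)).trans
      (quo_rch_avo (fun x hx => ((mY x).1 (k2 hx)).1.1) k5 (k4 _ k1 _ q2))).trans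
      (step (f1 e he) (f3 e he) (k5 _ q2) yM)

end SG

end Pool.Agent.Work.MP_8c679b_co
end

-- merged part: Pool.Agent.Work.MP_8c679b_co.ND.D
section
/-!
Three-sides without two disjoint odd circuits: definitions.  See `PROOF.md` in this folder.
The vertices `v` with `G.Ex T v` are the three terminals.
-/

set_option autoImplicit false

namespace Pool.Agent.Work.MP_8c679b_co

open Finset

namespace SG

variable {V E : Type} [Fintype V] [DecidableEq V] [DecidableEq E] (G : SG V E)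

/-- the standing hypotheses -/
structure NCx (T : Finset V) : Prop where
  hc : G.Cub
  hT : G.HT T
  h3 : (G.cut T).card = 3
  hK : G.K1 T
  hF : ∀ z, ¬ G.Bal ((G.ins T).erase z)

/-- a solution on `W` with the values `y` on the edges leaving `T` -/
def Sv (T : Finset V) (y : E → ZMod 3) (W : Finset V) (ε : ZMod 2) : Prop :=
  ∃ (O : Finset E) (φ : E → ZMod 3), O ⊆ G.ins W ∧ G.Ev O ∧ G.par O = ε ∧
    (∀ v ∈ W, G.bd φ v = 0) ∧ (∀ e, e ∉ O → φ e ≠ 0) ∧ ∀ e ∈ G.cut T, φ e = y e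

/-- no two terminals are connected inside `W` -/
def Gd2 (T W : Finset V) : Prop :=
  ∀ s s', G.Ex T s → G.Ex T s' → s ∈ W → s' ∈ W → G.Rch (G.ins W) s s' → s = s'

/-- unions of components of `W` -/
def Cls (W J : Finset V) : Prop := J ⊆ W ∧ G.crs (G.ins W) J = ∅

/-- edge sets that meet no terminal -/
def Tf (T : Finset V) (Z : Finset E) : Prop := ∀ v ∈ G.vs Z, ¬ G.Ex T v

/-- at most one edge leads from `Y` to the vertices of `B` -/
def One (Y : Finset V) (B : Finset E) : Prop :=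
  ∀ e ∈ G.cut Y, ∀ e' ∈ G.cut Y, ∀ u ∈ G.vs B, ∀ u' ∈ G.vs B, G.At e u → G.At e' u' → e = e'

/-- `d` and `d'` are not connected in `Y` without the vertices of `F` -/
def Sep (Y : Finset V) (F : Finset E) (d d' : V) : Prop :=
  d ∈ G.vs F ∨ d' ∈ G.vs F ∨ ¬ G.Rch (G.ins (Y \ G.vs F)) d d'

/-- a ring with four arcs and two crossing paths; all four triangles are odd -/
structure K4 (T : Finset V) (ρ : Finset E) (a a' b b' : V) (A1 A2 A3 A4 Z Z' : Finset E) :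
    Prop where
  eq : ρ = A1 ∪ A2 ∪ (A3 ∪ A4)
  sub : ρ ⊆ G.ins T
  j1 : G.Jn A1 a a'
  j2 : G.Jn A2 a' b
  j3 : G.Jn A3 b b'
  j4 : G.Jn A4 b' a
  d12 : Disjoint A1 A2
  d13 : Disjoint A1 A3
  d14 : Disjoint A1 A4
  d23 : Disjoint A2 A3
  d24 : Disjoint A2 A4
  d34 : Disjoint A3 A4
  sz : Z ⊆ G.ins T
  sz' : Z' ⊆ G.ins T
  jz : G.Jn Z a b
  jz' : G.Jn Z' a' b'
  dz : Disjoint Z ρ
  dz' : Disjoint Z' ρ
  dzz : Disjoint (G.vs Z) (G.vs Z')
  o1 : G.par A1 + G.par A2 + G.par Z = 1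
  o2 : G.par A2 + G.par A3 + G.par Z' = 1
  o3 : G.par A3 + G.par A4 + G.par Z = 1

/-- a ring with two crossing negative chords -/
def Kch (T : Finset V) (ρ : Finset E) : Prop :=
  ∃ a a' b b' A1 A2 A3 A4 z z', G.K4 T ρ a a' b b' A1 A2 A3 A4 {z} {z'}

/-- a ring with two crossing negative paths without terminals -/
def Kpa (T : Finset V) : Prop :=
  ∃ ρ a a' b b' A1 A2 A3 A4 Z Z', G.K4 T ρ a a' b b' A1 A2 A3 A4 Z Z' ∧ G.Tf T Z ∧ G.Tf T Z'

/-- the ear `F` from `w` to `k` is negative with respect to the ring -/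
def Ng (ρ F : Finset E) (w k : V) : Prop :=
  ∃ q : V → ZMod 2, (∀ e ∈ ρ, G.sw q e = 0) ∧ G.par F + q w + q k = 1

/-- `N` stays connected through `F` when a vertex outside `Y` is deleted -/
def RC (Y N : Finset V) (F : Finset E) : Prop :=
  ∀ y, y ∉ Y → ∀ v ∈ N, ∀ v' ∈ N, v ≠ y → v' ≠ y → G.Rch (G.avo F {y}) v v'

/-- a ring with two paths outside `Y` and an anchor `F` through `Y` between protected parts -/
structure Anc (T Y N1 N3 : Finset V) (E1 E3 F : Finset E) (w k : V) (ρ : Finset E)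
    (a a' b b' : V) (A1 A2 A3 A4 Z Z' : Finset E) : Prop where
  k4 : G.K4 T ρ a a' b b' A1 A2 A3 A4 Z Z'
  tf : G.Tf T Z
  tf' : G.Tf T Z'
  dy : Disjoint (G.vs Z) Y
  dy' : Disjoint (G.vs Z') Y
  e1 : E1 ⊆ A1
  v1 : G.vs E1 ⊆ N1
  n1 : N1 ⊆ G.vs A1
  r1 : G.RC Y N1 E1
  e3 : E3 ⊆ A3
  v3 : G.vs E3 ⊆ N3
  n3 : N3 ⊆ G.vs A3
  r3 : G.RC Y N3 E3
  mw : w ∈ N1
  mk' : k ∈ N3
  jf : G.Jn F w k
  sf : F ⊆ G.ins T
  tc : F ⊆ G.tch Y
  vf : ∀ v ∈ G.vs F, v ∈ Y ∨ v = w ∨ v = k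
  df : Disjoint F ρ
  ng : G.Ng ρ F w k
  ry : ∀ v ∈ G.vs ρ, v ∈ Y → v ∈ N1 ∨ v ∈ N3
  ex : ∀ e ∈ G.cut Y, e ∈ G.ins T → ∀ n, G.At e n → n ∉ Y →
    ∃ x, (x ∈ N1 ∨ x ∈ N3) ∧ G.Rch (G.ins (T \ Y) \ (Z ∪ Z')) n x

/-- some anchored ring of total path size less than `m` exists -/
def AncS (T Y N1 N3 : Finset V) (E1 E3 F : Finset E) (w k : V) (m : ℕ) : Prop :=
  ∃ ρ a a' b b' A1 A2 A3 A4 Z Z',
    G.Anc T Y N1 N3 E1 E3 F w k ρ a a' b b' A1 A2 A3 A4 Z Z' ∧ Z.card + Z'.card < m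

/-- a ring with two chords that meets `Y` exactly in the ear `F` and contains `w` -/
def Fin2 (T Y : Finset V) (F : Finset E) (w : V) : Prop :=
  ∃ ρ, G.Kch T ρ ∧ G.vs F ⊆ G.vs ρ ∧ w ∈ G.vs ρ ∧ ∀ v ∈ G.vs ρ, v ∈ Y → v ∈ G.vs F

/-- an ear from `x` to `x'` through `Y` -/
structure EarY (T Y : Finset V) (F : Finset E) (x x' : V) : Prop where
  jn : G.Jn F x x'
  sub : F ⊆ G.ins T
  tc : F ⊆ G.tch Y
  nx : x ∉ Y
  nx' : x' ∉ Y
  vf : ∀ v ∈ G.vs F, v ∈ Y ∨ v = x ∨ v = x'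
  cn : G.Cn (G.vs F ∩ Y) (F ∩ G.ins Y)

/-- the cube without a vertex, with three odd faces -/
def Cube (T : Finset V) : Prop :=
  ∃ (p : V → ZMod 2) (a b x y t1 t2 t3 : V) (z f g1 g2 g3 g4 g5 g6 g7 : E),
    T = {a, b, x, y, t1, t2, t3} ∧ T.card = 7 ∧ G.Ex T t1 ∧ G.Ex T t2 ∧ G.Ex T t3 ∧
    (z ∈ G.A ∧ f ∈ G.A ∧ g1 ∈ G.A ∧ g2 ∈ G.A ∧ g3 ∈ G.A ∧ g4 ∈ G.A ∧ g5 ∈ G.A ∧ g6 ∈ G.A ∧
      g7 ∈ G.A) ∧
    (G.Je z a b ∧ G.Je f x t1 ∧ G.Je g1 t1 y ∧ G.Je g2 a t2 ∧ G.Je g3 t2 x ∧ G.Je g4 x b ∧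
      G.Je g5 b y ∧ G.Je g6 y t3 ∧ G.Je g7 t3 a) ∧
    G.sw p z = 1 ∧ G.sw p f = 1 ∧ G.sw p g1 = 0 ∧ G.sw p g2 = 0 ∧ G.sw p g3 = 0 ∧
      G.sw p g4 = 0 ∧ G.sw p g5 = 0 ∧ G.sw p g6 = 0 ∧ G.sw p g7 = 0

end SG

end Pool.Agent.Work.MP_8c679b_co
end

-- merged part: Pool.Agent.Work.MP_8c679b_co.Six.GXb
section
/-!
Paths in a two-side (PROOF.md, lemmas XB).  `X` has the two leaving edges `a, b` and all proper
subsets have at least three leaving edges.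
-/

set_option autoImplicit false

namespace Pool.Agent.Work.MP_8c679b_co

open Finset

namespace SG

variable {V E : Type} [Fintype V] [DecidableEq V] [DecidableEq E] {G : SG V E}
  {T X : Finset V} {a b : E}

omit [Fintype V] [DecidableEq V] [DecidableEq E] in
theorem GXb_iff {e : E} {x y : V} {U : Finset V} (h : G.Je e x y) (h' : G.s e ∈ U ↔ G.t e ∈ U) :
    x ∈ U ↔ y ∈ U := by
  rcases h with ⟨rfl, rfl⟩ | ⟨rfl, rfl⟩
  exacts [h', h'.symm]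

omit [Fintype V] in
theorem GXb_je {e : E} {x y : V} {U : Finset V} (h : G.Je e x y) :
    e ∈ G.cut U ↔ e ∈ G.A ∧ ¬ (x ∈ U ↔ y ∈ U) := by
  rw [mem_cut]
  rcases h with ⟨rfl, rfl⟩ | ⟨rfl, rfl⟩
  · rfl
  · rw [@iff_comm (G.s e ∈ U)]

theorem GXb_jn {e : E} {x y : V} (h : G.Je e x y) (hxy : x ≠ y) : G.Jn {e} x y := by
  rcases h with ⟨rfl, rfl⟩ | ⟨rfl, rfl⟩
  exacts [jn_edge hxy, (jn_edge hxy.symm).symm]

theorem GXb_ta (hX : G.cut X = {a, b}) : G.ie X a ∈ X :=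
  ie_mem (cut_sub_tch (hX ▸ mem_insert_self a {b}))

theorem GXb_nt (hX : G.cut X = {a, b}) (ha : a ∉ G.tch T) : G.ie X a ∉ T := fun h =>
  ha (Cut_tch (mem_cut.1 (hX ▸ mem_insert_self a {b})).1 ie_at h)

theorem GXb_vtx (hc : G.Cub) (hX : G.cut X = {a, b}) (hab : a ≠ b)
    (h3 : ∀ Y ⊂ X, Y.Nonempty → 3 ≤ (G.cut Y).card) {v : V} (hv : v ∈ X) :
    v ∈ G.vs G.A ∧ (G.cut {v}).card = 3 ∧ G.ins {v} = ∅ := by
  have h1 : (G.cut {v}).card = 2 ∨ 3 ≤ (G.cut {v}).card := by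
    by_cases h : {v} = X
    · exact Or.inl (by rw [h, hX, card_pair hab])
    · exact Or.inr (h3 _ (Finset.ssubset_iff_subset_ne.2 ⟨singleton_subset_iff.2 hv, h⟩)
        (singleton_nonempty v))
  obtain ⟨e, he⟩ : (G.cut {v}).Nonempty := card_pos.1 (by omega)
  have h2 : v ∈ G.vs G.A := mem_vs.2 ⟨e, (mem_cut.1 he).1,
    mem_singleton.1 (ie_mem (cut_sub_tch he)) ▸ ie_at⟩
  have h4 := deg_sum hc (singleton_subset_iff.2 h2)
  rw [card_singleton] at h4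
  exact ⟨h2, by omega, card_eq_zero.1 (by omega)⟩

/-- the component of an odd vertex -/
theorem GXb_cmp {R : Finset E} {x y : V} (hR : R ⊆ G.ins X) (h : G.Od R x y) (hx : x ∈ X) :
    ∃ U P, U ⊆ X ∧ G.Pp U P x y ∧ P ⊆ R ∧ (∀ e ∈ R, G.s e ∈ U ↔ G.t e ∈ U) ∧
      ∀ e ∈ R, G.s e ∈ U → e ∈ P := by
  classical
  obtain ⟨K, h1, h2, h3, -, h4⟩ := exists_cmp (G := G) R x
  have hm : ∀ v, v ∈ univ.filter (G.Rch R x) ↔ G.Rch R x v := fun v => by simp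
  have h5 : ∀ e ∈ R, G.s e ∈ univ.filter (G.Rch R x) ↔ G.t e ∈ univ.filter (G.Rch R x) :=
    fun e he => by
      rw [hm, hm]
      exact ⟨fun h => h.trans (rch_edge he), fun h => h.trans (rch_edge he).symm⟩
  refine ⟨univ.filter (G.Rch R x), K, fun v hv => ((hm v).1 hv).closed (P := (· ∈ X))
    (fun e he => iff_of_true (mem_ins.1 (hR he)).2.1 (mem_ins.1 (hR he)).2.2) hx,
    ⟨fun e he => ?_, cn_of_base fun v hv => h4 v ((hm v).1 hv), fun v => ?_,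
      (hm x).2 (Rch.refl R x), (hm y).2 h.rch⟩, h1, h5, fun e he h' => (h2 e he).2 ((hm _).1 h')⟩
  · have h6 := (hm _).2 ((h2 e (h1 he)).1 he)
    exact mem_ins.2 ⟨ins_sub_A (hR (h1 he)), h6, (h5 e (h1 he)).1 h6⟩
  · rw [h3]
    split_ifs with h6
    · exact h v
    · have h7 : v ≠ x := fun e => h6 (e ▸ Rch.refl R v)
      have h8 : v ≠ y := fun e => h6 (e ▸ h.rch)
      simp [iv, h7, h8]

/-- an ear through a connected set -/
theorem GXb_ear {K : Finset V} {S : Finset E} {f f' : E} {x x' y y' : V} (hK : G.Cn K (G.ins K))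
    (hS : G.ins K ⊆ S) (hf : f ∈ S) (hf' : f' ∈ S) (j : G.Je f y x) (j' : G.Je f' y' x')
    (hx : x ∈ K) (hx' : x' ∈ K) (hy : y ∉ K) (hy' : y' ∉ K) (hne : y ≠ y') :
    ∃ m w h, G.Pth S m w h ∧ w 0 = y ∧ w m = y' ∧ 2 ≤ m ∧ ∀ k, 0 < k → k < m → w k ∈ K := by
  obtain ⟨m, w, h, hp, h0, hm⟩ := (hK x hx x' hx').pth f
  have h1 := hp.sub_of_ins (h0 ▸ hx)
  have h2 := (hp.mono fun i hi => hS (hp.mem i hi)).snoc hf' (hm ▸ j'.symm) fun h => hy' (h1 h)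
  refine ⟨_, _, _, h2.cons (x := y) hf (by simpa [h0] using j) fun h => ?_, rfl, by simp, by omega,
    fun k k1 k2 => ?_⟩
  · obtain ⟨i, -, hi⟩ := mem_pv.1 h
    split_ifs at hi with h3
    · exact hy (h1 (mem_pv.2 ⟨i, h3, hi⟩))
    · exact hne hi.symm
  · rw [if_neg k1.ne', if_pos (by omega)]
    exact h1 (mem_pv.2 ⟨k - 1, by omega, rfl⟩)

/-- rerouting between two consecutive attachments -/
theorem GXb_rr {W K : Finset V} {n : ℕ} {v : ℕ → V} {g : ℕ → E} (hp : G.Pth (G.ins W) n v g)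
    (k2 : K ⊆ W \ pv n v) (k3 : G.crs (G.ins (W \ pv n v)) K = ∅) (k4 : G.Cn K (G.ins K))
    (h : ∀ i ≤ n, ∃ z ∈ pv n v, z ≠ v i ∧ ∃ f ∈ G.ins W, ∃ x ∈ K, G.Je f z x) :
    ∃ n' v' g', G.Pth (G.ins W) n' v' g' ∧ v' 0 = v 0 ∧ v' n' = v n ∧ (∃ x ∈ K, x ∈ pv n' v') ∧
      ∀ e ∈ G.ins (W \ pv n' v'), G.s e ∈ K \ pv n' v' ↔ G.t e ∈ K \ pv n' v' := by
  classical
  let A : ℕ → Prop := fun l => l ≤ n ∧ ∃ f ∈ G.ins W, ∃ x ∈ K, G.Je f (v l) x
  have h1 : ∀ i ≤ n, ∃ l, l ≠ i ∧ A l := fun i hi => by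
    obtain ⟨z, hz, h2, h3⟩ := h i hi
    obtain ⟨l, hl, rfl⟩ := mem_pv.1 hz
    exact ⟨l, fun e => h2 (e ▸ rfl), hl, h3⟩
  have h2 : ∃ l, A l := (h1 0 n.zero_le).imp fun _ h => h.2
  have h3 := Nat.find_spec h2
  have h4 : ∃ l, Nat.find h2 < l ∧ A l := (h1 _ h3.1).imp fun l hl =>
    ⟨lt_of_le_of_ne (Nat.find_min' h2 hl.2) hl.1.symm, hl.2⟩
  obtain ⟨h5, h6, f', hf', x', hx', j'⟩ := Nat.find_spec h4
  have h7 : ∀ l, Nat.find h2 < l → l < Nat.find h4 → ¬ A l := fun l l1 l2 l3 =>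
    Nat.find_min h4 l2 ⟨l1, l3⟩
  obtain ⟨h8, f, hf, x, hx, j⟩ := h3
  have hK : ∀ l ≤ n, v l ∉ K := fun l hl h => (mem_sdiff.1 (k2 h)).2 (mem_pv.2 ⟨l, hl, rfl⟩)
  obtain ⟨m, w, g', p1, p2, p3, p4, p5⟩ := GXb_ear k4 (ins_mono (k2.trans sdiff_subset)) hf hf' j j'
    hx hx' (hK _ h8) (hK _ h6) fun e => h5.ne (hp.inj _ h8 _ h6 e)
  have hm := fun x => mem_pv_rr (x := x) h5.le h6 p2 p3
  have cl : ∀ e ∈ G.ins (W \ pv (Nat.find h2 + m + (n - Nat.find h4))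
      (rrV (Nat.find h2) (Nat.find h4) m v w)), ∀ y z, G.Je e y z →
      y ∈ K \ pv (Nat.find h2 + m + (n - Nat.find h4)) (rrV (Nat.find h2) (Nat.find h4) m v w) →
      z ∈ K \ pv (Nat.find h2 + m + (n - Nat.find h4)) (rrV (Nat.find h2) (Nat.find h4) m v w) := by
    intro e he y z j1 hy
    have h9 := ((Pth_ends j1).1 (mem_ins.1 he).2).2
    refine mem_sdiff.2 ⟨by_contra fun h10 => ?_, (mem_sdiff.1 h9).2⟩
    by_cases h11 : z ∈ pv n v
    · obtain ⟨l, hl, rfl⟩ := mem_pv.1 h11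
      refine h7 l (not_le.1 fun h => ?_) (not_le.1 fun h => ?_)
        ⟨hl, e, ins_mono sdiff_subset he, y, (mem_sdiff.1 hy).1, j1.symm⟩
      · exact (mem_sdiff.1 h9).2 ((hm _).2 (Or.inl ⟨l, h, rfl⟩))
      · exact (mem_sdiff.1 h9).2 ((hm _).2 (Or.inr (Or.inr ⟨l, h, hl, rfl⟩)))
    · have h12 : e ∈ G.ins (W \ pv n v) := Cut_je_ins (ins_sub_A he) j1 (k2 (mem_sdiff.1 hy).1)
        (mem_sdiff.2 ⟨(mem_sdiff.1 h9).1, h11⟩)
      exact h10 ((GXb_iff j1 (not_not.1 (filter_eq_empty_iff.1 k3 h12))).1 (mem_sdiff.1 hy).1)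
  refine ⟨_, _, _, hp.rr p1 h5 h6 p2 p3 fun k q1 q2 l hl _ e => hK l hl (e ▸ p5 k q1 q2),
    Pth_rr1 (Nat.zero_le _), ?_, ⟨w 1, p5 1 one_pos p4,
      (hm _).2 (Or.inr (Or.inl (mem_pv.2 ⟨1, by omega, rfl⟩)))⟩, fun e he =>
    ⟨cl e he _ _ (Or.inl ⟨rfl, rfl⟩), cl e he _ _ (Or.inr ⟨rfl, rfl⟩)⟩⟩
  rw [Pth_rr3 p2 p3 (Nat.le_add_right _ _), Nat.add_sub_cancel_left, Nat.sub_add_cancel h6]

theorem xb_dv (hc : G.Cub) (hX : G.cut X = {a, b}) (hab : a ≠ b)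
    (h3 : ∀ Y ⊂ X, Y.Nonempty → 3 ≤ (G.cut Y).card) : G.Dv X a b ∧ X ⊆ G.vs G.A ∧
      (∀ e ∈ G.tch X, G.s e ≠ G.t e) ∧ G.Two X (G.ins X) := by
  have h2 : (G.cut X).card = 2 := by rw [hX, card_pair hab]
  have ha : a ∈ G.cut X := by rw [hX]; simp
  have hb : b ∈ G.cut X := by rw [hX]; simp
  have htwo : G.Two X (G.ins X) := fun Y hY hn hne => by
    have h4 := cut_add (G := G) hY
    have h5 := h3 Y (Finset.ssubset_iff_subset_ne.2 ⟨hY, hne⟩) hn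
    have h6 := h3 (X \ Y) (sdiff_ssubset hY hn)
      (sdiff_nonempty.2 fun h => hne (Subset.antisymm hY h))
    omega
  refine ⟨fun h => ?_, fun v hv => (GXb_vtx hc hX hab h3 hv).1, fun e he h => ?_, htwo⟩
  · have h4 := ie_mem (cut_sub_tch ha)
    obtain ⟨-, h5, -⟩ := GXb_vtx hc hX hab h3 h4
    have h6 := htwo {G.ie X a} (singleton_subset_iff.2 h4) (singleton_nonempty _)
      fun e => by rw [e] at h5; omega
    have h7 := Cut_two ha hb hab h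
    have h8 := card_sdiff_add_card_inter (G.cut {G.ie X a}) (G.cut X)
    rw [crs_ins (singleton_subset_iff.2 h4)] at h6
    omega
  · have h4 : G.s e ∈ X := (mem_tch.1 he).2.elim id fun h' => h ▸ h'
    have h5 : e ∈ G.ins {G.s e} :=
      mem_ins.2 ⟨(mem_tch.1 he).1, mem_singleton_self _, mem_singleton.2 h.symm⟩
    rw [(GXb_vtx hc hX hab h3 h4).2.2] at h5
    exact notMem_empty e h5

theorem GXb_cut (hc : G.Cub) (hX : G.cut X = {a, b}) (hab : a ≠ b)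
    (h3 : ∀ Y ⊂ X, Y.Nonempty → 3 ≤ (G.cut Y).card) {v : V} {Z : Finset V} (hv : v ∈ X)
    (hZ : v ∉ Z) : iv (G.ie X a ∈ Z) + iv (G.ie X b ∈ Z) + 1 ≤ (G.crs (G.ins X) Z).card ∨
      iv (G.ie X a ∈ Z) + iv (G.ie X b ∈ Z) = 0 := by
  have h1 : G.crs (G.ins X) (X ∩ Z) = G.crs (G.ins X) Z := filter_congr fun e he => by
    simp [(mem_ins.1 he).2.1, (mem_ins.1 he).2.2]
  have ta := GXb_ta hX
  have tb := GXb_ta (hX.trans (pair_comm a b))
  have h2 := fun hn => (xb_dv hc hX hab h3).2.2.2 (X ∩ Z) inter_subset_left hn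
    fun e => hZ (mem_inter.1 (e.symm ▸ hv)).2
  rw [h1] at h2
  by_cases ha : G.ie X a ∈ Z <;> by_cases hb : G.ie X b ∈ Z
  · have h4 := h3 (X \ (X ∩ Z)) (sdiff_ssubset inter_subset_left ⟨_, mem_inter.2 ⟨ta, ha⟩⟩)
      ⟨v, mem_sdiff.2 ⟨hv, fun h => hZ (mem_inter.1 h).2⟩⟩
    have h5 : G.cut (X \ (X ∩ Z)) \ G.cut X = G.cut (X \ (X ∩ Z)) :=
      Finset.sdiff_eq_self_iff_disjoint.2 (disjoint_left.2 fun e h6 h7 => by
        have h8 := ie_mem (cut_sub_tch h6)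
        rw [(cut_of_sub sdiff_subset h7 (cut_sub_tch h6)).2] at h8
        refine (mem_sdiff.1 h8).2 (mem_inter.2 ⟨(mem_sdiff.1 h8).1, ?_⟩)
        rw [hX] at h7
        rcases mem_insert.1 h7 with rfl | h7
        · exact ha
        · exact mem_singleton.1 h7 ▸ hb)
    rw [← h5, ← crs_ins sdiff_subset, crs_sdiff inter_subset_left, h1] at h4
    exact Or.inl (by simpa [iv, ha, hb] using h4)
  · exact Or.inl (by simpa [iv, ha, hb] using h2 ⟨_, mem_inter.2 ⟨ta, ha⟩⟩)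
  · exact Or.inl (by simpa [iv, ha, hb] using h2 ⟨_, mem_inter.2 ⟨tb, hb⟩⟩)
  · exact Or.inr (by simp [iv, ha, hb])

theorem GXb_pair (hc : G.Cub) (hX : G.cut X = {a, b}) (hab : a ≠ b)
    (h3 : ∀ Y ⊂ X, Y.Nonempty → 3 ≤ (G.cut Y).card) (hT : T ⊆ X) (hT3 : T.card = 3)
    {x y : V} (hx : x ∈ T) (hy : y ∈ T) (hxy : x ≠ y) : (G.ins {x, y}).card ≤ 1 := by
  have h1 := deg_sum hc ((Cut_pair (hT hx) (hT hy)).trans (xb_dv hc hX hab h3).2.1)
  have h2 := h3 {x, y} (Finset.ssubset_of_ssubset_of_subset (Finset.ssubset_iff_subset_ne.2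
    ⟨Cut_pair hx hy, fun e => by rw [← e, card_pair hxy] at hT3; omega⟩) hT) (insert_nonempty _ _)
  rw [card_pair hxy] at h1
  omega

/-- the triangle -/
theorem GXb_cc (hc : G.Cub) (hX : G.cut X = {a, b}) (hab : a ≠ b)
    (h3 : ∀ Y ⊂ X, Y.Nonempty → 3 ≤ (G.cut Y).card) (hT : T ⊆ X) (hT3 : T.card = 3)
    (hc3 : (G.cut T).card = 3) : G.Cc (G.ins T) ∧ G.vs (G.ins T) = T ∧
      ∀ x ∈ T, ∀ y ∈ T, x ≠ y → ∃ e ∈ G.ins T, G.Je e x y := by
  obtain ⟨-, d1, d2, -⟩ := xb_dv hc hX hab h3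
  have h1 := deg_sum hc (hT.trans d1)
  have key : ∀ x ∈ T, ∀ y ∈ T, x ≠ y → ∃ e ∈ G.ins T, G.Je e x y := fun x hx y hy hxy => by
    obtain ⟨z, hz, hz'⟩ := exists_mem_notMem_of_card_lt_card (s := {x, y}) (t := T)
      (by rw [card_pair hxy]; omega)
    have h4 : insert z {x, y} = T := eq_of_subset_of_card_le (insert_subset hz (Cut_pair hx hy))
      (by rw [card_insert_of_notMem hz', card_pair hxy, hT3])
    have h5 := GXb_pair hc hX hab h3 hT hT3 hz hx fun h => hz' (by simp [h])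
    have h6 := GXb_pair hc hX hab h3 hT hT3 hz hy fun h => hz' (by simp [h])
    obtain ⟨e, he, he'⟩ := exists_mem_notMem_of_card_lt_card
      (s := G.ins {z, x} ∪ G.ins {z, y}) (t := G.ins T)
      ((card_union_le _ _).trans_lt (by omega))
    have h7 := d2 e (tch_mono hT (ins_sub_tch he))
    refine ⟨e, he, ?_⟩
    obtain ⟨h8, h9, h10⟩ := mem_ins.1 he
    rw [← h4] at h9 h10
    simp only [mem_union, mem_ins, mem_insert, mem_singleton, h8, true_and] at he' h9 h10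
    unfold Je
    grind
  obtain ⟨x, y, z, hxy, hxz, hyz, hT'⟩ := card_eq_three.1 hT3
  have hx : x ∈ T := by simp [hT']
  have hy : y ∈ T := by simp [hT']
  have hz : z ∈ T := by simp [hT']
  obtain ⟨e1, m1, j1⟩ := key x hx y hy hxy
  obtain ⟨e2, m2, j2⟩ := key y hy z hz hyz
  obtain ⟨e3, m3, j3⟩ := key x hx z hz hxz
  have n1 : e1 ≠ e2 := Cut_je_ne j1 j2 hxy hxz
  have n2 : e1 ≠ e3 := Cut_je_ne j1.symm j3 hxy.symm hyz
  have n3 : e2 ≠ e3 := Cut_je_ne j2 j3 hxy.symm hyz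
  have h4 : Disjoint ({e1} ∪ {e2} : Finset E) {e3} := by simp [n2.symm, n3.symm]
  have h5 : ({e1} ∪ {e2} : Finset E) ∪ {e3} = G.ins T := eq_of_subset_of_card_le
    (union_subset (union_subset (singleton_subset_iff.2 m1) (singleton_subset_iff.2 m2))
      (singleton_subset_iff.2 m3)) (by
      rw [card_union_of_disjoint h4, card_union_of_disjoint (disjoint_singleton.2 n1)]
      simp only [card_singleton]
      omega)
  refine ⟨h5 ▸ ((GXb_jn j1 hxy).union (GXb_jn j2 hyz) (disjoint_singleton.2 n1) hxz).cc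
    (GXb_jn j3 hxz) h4, Subset.antisymm (sub_ins_iff.1 Subset.rfl).2 fun v hv => ?_, key⟩
  by_cases h : v = x
  · exact mem_vs.2 ⟨e1, m1, j1.at_iff.2 (Or.inl h)⟩
  · obtain ⟨e, he, j⟩ := key v hv x hx h
    exact mem_vs.2 ⟨e, he, j.at_iff.2 (Or.inl rfl)⟩

/-- a closed set with two outer ends has two attachments -/
theorem GXb_att (hc : G.Cub) (hX : G.cut X = {a, b}) (hab : a ≠ b)
    (h3 : ∀ Y ⊂ X, Y.Nonempty → 3 ≤ (G.cut Y).card) (hT : T ⊆ X) (hc3 : (G.cut T).card = 3)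
    {U K : Finset V} (hU : U ⊆ X \ T) (ta : G.ie X a ∈ U) (tb : G.ie X b ∈ U)
    (k2 : K ⊆ (X \ T) \ U) (k3 : G.crs (G.ins ((X \ T) \ U)) K = ∅) {e e' : E} (he : e ∈ G.cut T)
    (he' : e' ∈ G.cut T) (hne : e' ≠ e) (h1 : G.oe T e ∈ K) (h2 : G.oe T e' ∈ K) {y : V}
    (hy : y ∈ U) : ∃ z ∈ U, z ≠ y ∧ ∃ f ∈ G.ins (X \ T), ∃ x ∈ K, G.Je f z x := by
  have hY : K ∪ T ⊆ X := union_subset (k2.trans (sdiff_subset.trans sdiff_subset)) hT
  have hn : ∀ u ∈ U, u ∉ K ∪ T := fun u hu h => (mem_union.1 h).elim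
    (fun h => (mem_sdiff.1 (k2 h)).2 hu) (mem_sdiff.1 (hU hu)).2
  have hyX := (mem_sdiff.1 (hU hy)).1
  have h4 := h3 (K ∪ T) ((ssubset_iff_of_subset hY).2 ⟨y, hyX, hn y hy⟩) ⟨_, mem_union_left _ h1⟩
  have h5 := h3 (K ∪ T ∪ {y}) ((ssubset_iff_of_subset (union_subset hY
    (singleton_subset_iff.2 hyX))).2 (by
      by_cases h : G.ie X a = y
      · exact ⟨_, (mem_sdiff.1 (hU tb)).1, fun h' => (mem_union.1 h').elim (hn _ tb) fun h' =>
          (xb_dv hc hX hab h3).1 (h.trans (mem_singleton.1 h').symm)⟩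
      · exact ⟨_, (mem_sdiff.1 (hU ta)).1, fun h' => (mem_union.1 h').elim (hn _ ta) fun h' =>
          h (mem_singleton.1 h')⟩)) ⟨y, by simp⟩
  have hd : Disjoint (K ∪ T) {y} := disjoint_singleton_right.2 (hn y hy)
  have h6 := cut_submod (G := G) (X := K ∪ T) (Y := {y})
  rw [Finset.sdiff_eq_self_iff_disjoint.2 hd, Finset.sdiff_eq_self_iff_disjoint.2 hd.symm,
    (GXb_vtx hc hX hab h3 hyX).2.1] at h6
  have h7 := card_sdiff_add_card_inter (G.cut (K ∪ T)) (G.cut {y})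
  obtain ⟨f, hf, hf'⟩ := exists_mem_notMem_of_card_lt_card (s := G.cut T \ {e', e})
    (t := G.cut (K ∪ T) \ G.cut {y}) (by
      rw [card_sdiff_of_subset (insert_subset he' (singleton_subset_iff.2 he)), card_pair hne]
      omega)
  obtain ⟨f1, f2⟩ := mem_sdiff.1 hf
  have fA := (mem_cut.1 f1).1
  have f3 : f ∉ G.cut T := fun h => hf' (mem_sdiff.2 ⟨h, fun h' =>
    ((GXb_je (je_ie_oe (X := T))).1 f1).2 (iff_of_true
      (mem_union_right _ (ie_mem (cut_sub_tch h))) (mem_union_left _ (by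
        rcases mem_insert.1 h' with rfl | h'
        · exact h2
        · exact mem_singleton.1 h' ▸ h1)))⟩)
  have j : G.Je f (G.ie (K ∪ T) f) (G.oe (K ∪ T) f) := je_ie_oe
  have x1 := ie_mem (cut_sub_tch f1)
  have z1 := oe_not_mem f1
  have z2 : G.oe (K ∪ T) f ∉ T := fun h => z1 (mem_union_right _ h)
  have x2 : G.ie (K ∪ T) f ∈ K := (mem_union.1 x1).resolve_right fun h =>
    f3 ((GXb_je j).2 ⟨fA, fun h' => z2 (h'.1 h)⟩)
  have z3 : G.oe (K ∪ T) f ∈ X := by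
    by_contra h
    have h8 : f ∈ G.cut X := (GXb_je j).2 ⟨fA, fun h' => h (h'.1 (hY x1))⟩
    rw [(cut_of_sub hY h8 (cut_sub_tch f1)).2] at x1
    rw [hX] at h8
    rcases mem_insert.1 h8 with rfl | h8
    · exact hn _ ta x1
    · exact hn _ tb (mem_singleton.1 h8 ▸ x1)
  refine ⟨G.oe (K ∪ T) f, by_contra fun h => ?_, fun h => f2 ((GXb_je j).2 ⟨fA, fun h' => ?_⟩), f,
    Cut_je_ins fA j (mem_sdiff.1 (k2 x2)).1 (mem_sdiff.2 ⟨z3, z2⟩), _, x2, j.symm⟩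
  · exact z1 (mem_union_left _ ((GXb_iff j (not_not.1 (filter_eq_empty_iff.1 k3
      (Cut_je_ins fA j (k2 x2) (mem_sdiff.2 ⟨mem_sdiff.2 ⟨z3, z2⟩, h⟩))))).1 x2))
  · exact hn y hy (mem_singleton.1 (h'.2 (mem_singleton.2 h)) ▸ x1)

/-- HINT: `two_paths` from the terminals to `{v}` in `(ins X).erase e1`. -/
theorem xb0 (hc : G.Cub) (hX : G.cut X = {a, b}) (hab : a ≠ b)
    (h3 : ∀ Y ⊂ X, Y.Nonempty → 3 ≤ (G.cut Y).card) {v : V} (hv : v ∈ X) (h1 : v ≠ G.ie X a)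
    (h2 : v ≠ G.ie X b) (e1 : E) :
    ∃ U P, U ⊆ X ∧ G.Pp U P (G.ie X a) (G.ie X b) ∧ v ∈ U ∧ e1 ∉ P := by
  obtain ⟨p, hp, q, hq, R, hR, k1, -, k3⟩ := two_paths (G := G) ((G.ins X).erase e1) {v}
    (G.ie X a) (G.ie X b) (fun h => h1 (mem_singleton.1 h).symm)
    (fun h => h2 (mem_singleton.1 h).symm) fun Z hZ => by
      have h4 := GXb_cut hc hX hab h3 hv (disjoint_singleton_right.1 hZ)
      have h5 : G.crs ((G.ins X).erase e1) Z = (G.crs (G.ins X) Z).erase e1 := by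
        ext e
        simp only [mem_crs, mem_erase, and_assoc]
      have h6 := pred_card_le_card_erase (s := G.crs (G.ins X) Z) (a := e1)
      rw [h5]
      omega
  rw [mem_singleton.1 hp, mem_singleton.1 hq] at k1 k3
  obtain ⟨U, P, k4, k5, k6, k7, -⟩ := GXb_cmp (hR.trans (erase_subset _ _))
    (fun x => by rw [k1, z2_add_self, add_zero]) (GXb_ta hX)
  refine ⟨U, P, k4, k5, ?_, fun h => notMem_erase _ _ (hR (k6 h))⟩
  by_contra h
  simpa [iv, h, k5.2.2.2.1] using k3 U k7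

/-- HINT: the triangle is a circuit; `fan` with `x1 = x2 = ie X a`; close the ear by one edge. -/
theorem xb1 (hc : G.Cub) (hX : G.cut X = {a, b}) (hab : a ≠ b)
    (h3 : ∀ Y ⊂ X, Y.Nonempty → 3 ≤ (G.cut Y).card) (hT : T ⊆ X) (hT3 : T.card = 3)
    (hc3 : (G.cut T).card = 3) (ha : a ∉ G.tch T) (hb : b ∉ G.tch T) :
    ∃ C ⊆ G.ins X, G.Cc C ∧ G.ie X a ∈ G.vs C ∧ (C ∩ G.ins T).card = 1 := by
  obtain ⟨t1, t2, t3⟩ := GXb_cc hc hX hab h3 hT hT3 hc3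
  obtain ⟨z, hz⟩ : T.Nonempty := card_pos.1 (by omega)
  have h4 := GXb_nt hX ha
  obtain ⟨p, q, F, hp, hq, k1, k2, k3, k4, -⟩ := fan hc ins_sub_A t1 (ins_sub_A (W := X))
    (od_self.2 ev_empty) (disjoint_empty_left _) (by simp [vs]) (by rwa [t2]) (by rwa [t2])
    fun Z hZ => by
      have h5 := GXb_cut hc hX hab h3 (hT hz) (disjoint_right.1 hZ (t2.symm ▸ hz))
      by_cases h : G.ie X a ∈ Z <;> by_cases h' : G.ie X b ∈ Z <;> simp [iv, h, h'] at h5 ⊢ <;>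
        omega
  rw [t2] at hp hq
  rw [union_empty] at k2
  obtain ⟨e, he, hj⟩ := t3 p hp q hq k1.1
  refine ⟨F ∪ {e}, union_subset k2 (singleton_subset_iff.2 (ins_mono hT he)),
    k1.cc (GXb_jn hj k1.1) (disjoint_singleton_right.2 (disjoint_right.1 k3 he)),
    vs_mono subset_union_left k4, ?_⟩
  rw [union_inter_distrib_right, disjoint_iff_inter_eq_empty.1 k3, empty_union,
    singleton_inter_of_mem he, card_singleton]

/-- HINT: two disjoint paths from the terminals to the triangle (`menger` or `two_paths`),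
joined through the third vertex of the triangle. -/
theorem xb2 (hc : G.Cub) (hX : G.cut X = {a, b}) (hab : a ≠ b)
    (h3 : ∀ Y ⊂ X, Y.Nonempty → 3 ≤ (G.cut Y).card) (hT : T ⊆ X) (hT3 : T.card = 3)
    (hc3 : (G.cut T).card = 3) (ha : a ∉ G.tch T) (hb : b ∉ G.tch T) :
    ∃ U P, U ⊆ X ∧ G.Pp U P (G.ie X a) (G.ie X b) ∧ T ⊆ U ∧ (P ∩ G.ins T).card = 2 := by
  obtain ⟨t1, t2, t3⟩ := GXb_cc hc hX hab h3 hT hT3 hc3
  obtain ⟨z, hz⟩ : T.Nonempty := card_pos.1 (by omega)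
  have h4 := GXb_nt hX ha
  have h5 := GXb_nt (hX.trans (pair_comm a b)) hb
  obtain ⟨p, hp, q, hq, R, hR, k1, k2, k3⟩ := two_paths (G := G) (G.ins X) T (G.ie X a) (G.ie X b)
    h4 h5 fun Z hZ => by
      have h6 := GXb_cut hc hX hab h3 (hT hz) (disjoint_right.1 hZ hz)
      omega
  have hd : ∀ e ∈ G.ins T, e ∉ R := fun e he h => k2 e h (mem_ins.1 he).2
  have hpq : p ≠ q := by
    rintro rfl
    have h6 : p ≠ G.ie X a := fun h => h4 (h ▸ hp)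
    have h7 : p ≠ G.ie X b := fun h => h5 (h ▸ hp)
    have h8 : Even (G.deg R p) := dg_eq_zero.1 (by rw [k1, z2_add_self]; simp [iv, h6, h7])
    have h9 : G.deg R p ≤ 1 := (deg_mono fun e he =>
      mem_sdiff.2 ⟨ins_sub_A (hR he), fun h => hd e h he⟩).trans_eq
      (deg_third hc ins_sub_A (t2.symm ▸ hp) (t1.2.1 p))
    have h10 : p ∉ G.vs R := fun h => by
      have := deg_pos.2 h
      rw [Nat.even_iff] at h8
      omega
    have h11 := k3 {p} fun e he => iff_of_false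
      (fun h => h10 (mem_singleton.1 h ▸ s_mem_vs he)) fun h => h10 (mem_singleton.1 h ▸ t_mem_vs he)
    simp [iv, h6.symm, h7.symm] at h11
  obtain ⟨r, hr, hr'⟩ := exists_mem_notMem_of_card_lt_card (s := {p, q}) (t := T)
    (by rw [card_pair hpq]; omega)
  have hpr : p ≠ r := fun h => hr' (by simp [h])
  have hrq : r ≠ q := fun h => hr' (by simp [h])
  obtain ⟨e, he, j1⟩ := t3 p hp r hr hpr
  obtain ⟨f, hf, j2⟩ := t3 r hr q hq hrq
  have hef : e ≠ f := Cut_je_ne j1 j2 hpr hpq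
  have ho := ((GXb_jn j1 hpr).union (GXb_jn j2 hrq) (disjoint_singleton.2 hef) hpq).2.1
  have hs : ({e} ∪ {f} : Finset E) ⊆ G.ins T :=
    union_subset (singleton_subset_iff.2 he) (singleton_subset_iff.2 hf)
  obtain ⟨U, P, k4, k5, k6, k7, k8⟩ := GXb_cmp (R := R ∪ ({e} ∪ {f}))
    (union_subset hR (hs.trans (ins_mono hT)))
    (fun x => by
      rw [dg_union (disjoint_right.2 fun y hy => hd y (hs hy)), k1, ho, add_assoc, z2_add_self,
        add_zero]) (GXb_ta hX)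
  have c1 : p ∈ U ↔ r ∈ U := GXb_iff j1 (k7 e (by simp))
  have c2 : r ∈ U ↔ q ∈ U := GXb_iff j2 (k7 f (by simp))
  have hU : r ∈ U := by
    by_contra h
    simpa [iv, c1.not.2 h, c2.not.1 h, k5.2.2.2.1] using
      k3 U fun y hy => k7 y (mem_union_left _ hy)
  have hTU : T ⊆ U := by
    rw [← eq_of_subset_of_card_le (s := insert r {p, q}) (t := T)
      (insert_subset hr (Cut_pair hp hq)) (by rw [card_insert_of_notMem hr', card_pair hpq, hT3])]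
    exact insert_subset hU (Cut_pair (c1.2 hU) (c2.1 hU))
  refine ⟨U, P, k4, k5, hTU, ?_⟩
  have h12 : P ∩ G.ins T = {e} ∪ {f} := Subset.antisymm
    (fun y hy => (mem_union.1 (k6 (mem_inter.1 hy).1)).resolve_left (hd y (mem_inter.1 hy).2))
    fun y hy => mem_inter.2 ⟨k8 y (mem_union_right _ hy) (hTU (mem_ins.1 (hs hy)).2.1), hs hy⟩
  rw [h12, card_union_of_disjoint (disjoint_singleton.2 hef), card_singleton, card_singleton]

/-- A path outside the three-side `T` with two units.  See PROOF.md, lemma XB3. -/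
theorem xb3 (hc : G.Cub) (hX : G.cut X = {a, b}) (hab : a ≠ b)
    (h3 : ∀ Y ⊂ X, Y.Nonempty → 3 ≤ (G.cut Y).card) (hT : T ⊆ X) (hT3 : T.card = 3)
    (hc3 : (G.cut T).card = 3) (ha : a ∉ G.tch T) (hb : b ∉ G.tch T) :
    ∃ U P, U ⊆ X \ T ∧ G.Pp U P (G.ie X a) (G.ie X b) ∧ ∃ e1 ∈ G.cut T, ∃ e2 ∈ G.cut T, e1 ≠ e2 ∧
      ∀ e, e = e1 ∨ e = e2 → G.oe T e ∈ U ∨
        ∀ e' ∈ G.cut T, e' ≠ e → G.oe T e' ∉ G.cmp ((X \ T) \ U) (G.oe T e) := by
  have ta : G.ie X a ∈ X \ T := mem_sdiff.2 ⟨GXb_ta hX, GXb_nt hX ha⟩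
  have tb : G.ie X b ∈ X \ T := mem_sdiff.2 ⟨GXb_ta (hX.trans (pair_comm a b)),
    GXb_nt (hX.trans (pair_comm a b)) hb⟩
  have hTn : T.Nonempty := card_pos.1 (by omega)
  have hu : ∀ e ∈ G.cut T, G.oe T e ∈ X \ T := fun e he => by
    refine mem_sdiff.2 ⟨by_contra fun h => ?_, oe_not_mem he⟩
    have h4 : e ∈ G.cut X := (GXb_je je_ie_oe).2
      ⟨(mem_cut.1 he).1, fun h' => h (h'.1 (hT (ie_mem (cut_sub_tch he))))⟩
    rw [hX] at h4
    rcases mem_insert.1 h4 with rfl | h4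
    · exact ha (cut_sub_tch he)
    · exact hb (mem_singleton.1 h4 ▸ cut_sub_tch he)
  by_contra hno
  have bad : ∀ n v g, G.Pth (G.ins (X \ T)) n v g → v 0 = G.ie X a → v n = G.ie X b →
      ∃ e ∈ G.cut T, G.oe T e ∉ pv n v ∧ ∃ e' ∈ G.cut T, e' ≠ e ∧
        G.oe T e' ∈ G.cmp ((X \ T) \ pv n v) (G.oe T e) := fun n v g hp h0 hn => by
    by_contra h
    obtain ⟨e1, h1, e2, h2, h12⟩ := one_lt_card.1 (show 1 < (G.cut T).card by omega)
    refine hno ⟨pv n v, pe n g, hp.sub_of_ins (h0 ▸ ta), h0 ▸ hn ▸ hp.pp ins_sub_A, e1, h1, e2, h2,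
      h12, fun e he => or_iff_not_imp_left.2 fun h4 e' h5 h6 h7 => h ⟨e, ?_, h4, e', h5, h6, h7⟩⟩
    rcases he with rfl | rfl
    exacts [h1, h2]
  have key : ∀ c n v g, G.Pth (G.ins (X \ T)) n v g → v 0 = G.ie X a → v n = G.ie X b →
      ∀ e ∈ G.cut T, G.oe T e ∉ pv n v → ∀ e' ∈ G.cut T, e' ≠ e →
        G.oe T e' ∈ G.cmp ((X \ T) \ pv n v) (G.oe T e) →
        (G.cmp ((X \ T) \ pv n v) (G.oe T e)).card ≠ c := by
    intro c
    induction c using Nat.strong_induction_on with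
    | _ c ih =>
    intro n v g hp h0 hn e he h1 e' he' hne h2 hcard
    obtain ⟨k1, k2, k3, k4⟩ := cmp_spec (G := G) (mem_sdiff.2 ⟨hu e he, h1⟩)
    obtain ⟨n', v', g', p1, p2, p3, ⟨x, x1, x2⟩, p4⟩ := GXb_rr hp k2 k3 k4 fun i hi =>
      GXb_att hc hX hab h3 hT hc3 (hp.sub_of_ins (h0 ▸ ta)) (mem_pv.2 ⟨0, n.zero_le, h0⟩)
        (mem_pv.2 ⟨n, le_rfl, hn⟩) k2 k3 he he' hne k1 h2 (mem_pv.2 ⟨i, hi, rfl⟩)
    obtain ⟨d, hd, q1, d', hd', q2, q3⟩ := bad n' v' g' p1 (p2.trans h0) (p3.trans hn)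
    have q4 : G.oe T d ∈ G.cmp ((X \ T) \ pv n v) (G.oe T e) \ pv n' v' := by
      have q5 : ∀ f ∈ ({e', e} : Finset E), G.oe T f ∈ G.cmp ((X \ T) \ pv n v) (G.oe T e) :=
        fun f hf => (mem_insert.1 hf).elim (fun h => h ▸ h2) fun h => mem_singleton.1 h ▸ k1
      by_cases q6 : d ∈ ({e', e} : Finset E)
      · exact mem_sdiff.2 ⟨q5 d q6, q1⟩
      · have q7 : insert d {e', e} = G.cut T := eq_of_subset_of_card_le
          (insert_subset hd (insert_subset he' (singleton_subset_iff.2 he)))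
          (by rw [card_insert_of_notMem q6, card_pair hne, hc3])
        rw [← q7] at hd'
        exact (mem_cmp.1 q3).2.symm.closed p4
          (mem_sdiff.2 ⟨q5 d' ((mem_insert.1 hd').resolve_left q2), (mem_sdiff.1 (mem_cmp.1 q3).1).2⟩)
    refine ih _ ?_ n' v' g' p1 (p2.trans h0) (p3.trans hn) d hd q1 d' hd' q2 q3 rfl
    rw [← hcard]
    refine card_lt_card (Finset.ssubset_of_subset_of_ssubset (cmp_min q4 (filter_eq_empty_iff.2
      fun f hf => not_not.2 (p4 f hf))) ?_)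
    exact (ssubset_iff_of_subset sdiff_subset).2 ⟨x, x1, fun h => (mem_sdiff.1 h).2 x2⟩
  obtain ⟨k1, k2, k3, -⟩ := cmp_spec (G := G) ta
  have hr : G.ie X b ∈ G.cmp (X \ T) (G.ie X a) := by
    by_contra h
    have h4 := cut_add (G := G) k2
    have h5 := h3 _ (Finset.ssubset_of_subset_of_ssubset k2 (sdiff_ssubset hT hTn)) ⟨_, k1⟩
    have h6 := h3 (((X \ T)) \ G.cmp (X \ T) (G.ie X a))
      (Finset.ssubset_of_subset_of_ssubset sdiff_subset (sdiff_ssubset hT hTn))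
      ⟨_, mem_sdiff.2 ⟨tb, h⟩⟩
    have h7 := (card_le_card (cut_sdiff_sub (G := G) (X := X) (Y := T))).trans (card_union_le _ _)
    rw [hX, card_pair hab] at h7
    rw [k3, card_empty] at h4
    omega
  obtain ⟨n, v, g, hp, h0, hn⟩ := (mem_cmp.1 hr).2.pth a
  obtain ⟨e, he, h1, e', he', hne, h2⟩ := bad n v g hp h0 hn
  exact key _ n v g hp h0 hn e he h1 e' he' hne h2 rfl

end SG

end Pool.Agent.Work.MP_8c679b_co
end

-- merged part: Pool.Agent.Work.MP_8c679b_co.K1.GT1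
section
/-!
Paths between anchors: existence through a given vertex, exhaustion of small cuts.
-/

set_option autoImplicit false

namespace Pool.Agent.Work.MP_8c679b_co

open Finset

namespace SG

variable {V E : Type} [Fintype V] [DecidableEq V] [DecidableEq E] {G : SG V E}
  {Y A K : Finset V} {n : ℕ} {v : ℕ → V} {g : ℕ → E}

omit [Fintype V] in
theorem K1GT1_cj {S : Finset E} {X : Finset V} {e : E} {x y : V} (he : e ∈ S) (j : G.Je e x y)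
    (hx : x ∈ X) (hy : y ∉ X) : e ∈ G.crs S X := by
  rw [mem_crs]
  rcases j with ⟨rfl, rfl⟩ | ⟨rfl, rfl⟩ <;> tauto

omit [Fintype V] in
theorem K1GT1_jc {S : Finset E} {X : Finset V} {e : E} (he : e ∈ G.crs S X) :
    e ∈ S ∧ ∃ x y, G.Je e x y ∧ x ∈ X ∧ y ∉ X := by
  obtain ⟨h1, h2⟩ := mem_crs.1 he
  by_cases c : G.s e ∈ X
  · exact ⟨h1, _, _, .inl ⟨rfl, rfl⟩, c, by tauto⟩
  · exact ⟨h1, _, _, .inr ⟨rfl, rfl⟩, by tauto, c⟩

omit [Fintype V] in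
theorem K1GT1_deg {S T : Finset E} {m : V} (hT : T ⊆ S) (h : ∀ e ∈ T, G.At e m) :
    T.card ≤ G.deg S m := by
  refine le_trans ?_ (deg_mono hT)
  rw [card_eq_sum_ones]
  exact sum_le_sum fun e he => inc_pos.2 (h e he)

theorem K1GT1_pe {S : Finset E} (hp : G.Pth S n v g) {e : E} (he : e ∈ pe n g) :
    G.s e ∈ pv n v ∧ G.t e ∈ pv n v := by
  obtain ⟨i, hi, rfl⟩ := mem_pe.1 he
  exact (Pth_ends (hp.jn i hi)).2 ⟨mem_pv.2 ⟨i, hi.le, rfl⟩, mem_pv.2 ⟨i + 1, hi, rfl⟩⟩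

/-- A path between two anchors through a given vertex.
HINT: if `x ∈ A`, the component `cmp Y x` has no crossing edge, so it contains a second anchor;
`Rch.pth`.  If `x ∉ A` use `ear_through` with `B = A`.  For `M = ∅` take the component.  For
`M = {m}` let `Z` be the set of vertices reached from `x` in `avo (ins Y) {m}`; if it contains no
anchor, all its crossing edges end at `m`; there are at least two by `h2`, and then
`insert m Z` violates `h2` by the degree bound at `m` (if `m ∉ Y` there is no crossing edge). -/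
theorem tp_thru (e0 : E) (hA : A ⊆ Y)
    (hd : ∀ x ∈ Y, G.deg (G.ins Y) x + iv (x ∈ A) ≤ 3)
    (h2 : ∀ Z ⊆ Y, Z.Nonempty → 2 ≤ (G.crs (G.ins Y) Z).card + (Z ∩ A).card) {x : V}
    (hx : x ∈ Y) :
    ∃ n v g, G.Pth (G.ins Y) n v g ∧ 1 ≤ n ∧ v 0 ∈ A ∧ v n ∈ A ∧ x ∈ pv n v := by
  classical
  by_cases hxA : x ∈ A
  · obtain ⟨c1, c2, c3, -⟩ := cmp_spec (G := G) hx
    have h3 := h2 _ c2 ⟨x, c1⟩
    rw [c3, card_empty, zero_add] at h3
    obtain ⟨a, ha, hax⟩ := exists_mem_ne h3 x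
    obtain ⟨n, v, g, hp, h4, h5⟩ := (mem_cmp.1 (mem_inter.1 ha).1).2.pth e0
    refine ⟨n, v, g, hp, ?_, h4 ▸ hxA, h5 ▸ (mem_inter.1 ha).2, mem_pv.2 ⟨0, Nat.zero_le _, h4⟩⟩
    rcases Nat.eq_zero_or_pos n with rfl | h
    · exact absurd (h5.symm.trans h4) hax
    · exact h
  obtain ⟨n, v, g, hp, h3, h4, h5, h6, -⟩ := ear_through (G := G) (G.ins Y) A e0 hxA
    fun M hM hxM => by
      by_contra hcon
      push Not at hcon
      obtain ⟨Z, mZ⟩ : ∃ Z : Finset V, ∀ y, y ∈ Z ↔ y ∈ Y ∧ G.Rch (G.avo (G.ins Y) M) x y :=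
        ⟨Y.filter fun y => G.Rch (G.avo (G.ins Y) M) x y, fun y => mem_filter⟩
      have zY : Z ⊆ Y := fun y hy => ((mZ y).1 hy).1
      have zM : ∀ y ∈ Z, y ∉ M := fun y hy =>
        ((mZ y).1 hy).2.closed (P := (· ∉ M))
          (fun e he => iff_of_true (mem_avo.1 he).2.1 (mem_avo.1 he).2.2) hxM
      have zA : Z ∩ A = ∅ := eq_empty_of_forall_notMem fun y hy =>
        hcon y (mem_inter.1 hy).2 (zM y (mem_inter.1 hy).1) ((mZ y).1 (mem_inter.1 hy).1).2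
      have stp : ∀ e ∈ G.ins Y, ∀ a b, G.Je e a b → a ∈ Z → b ∉ Z → b ∈ M ∧ b ∈ Y := by
        intro e he a b j ha hb
        have hbY : b ∈ Y := ((Pth_ends j).1 (mem_ins.1 he).2).2
        refine ⟨by_contra fun q => hb ((mZ b).2 ⟨hbY, ((mZ a).1 ha).2.tail
          (adj_iff.2 ⟨e, mem_avo.2 ⟨he, ?_⟩, j⟩)⟩), hbY⟩
        have := zM a ha
        rcases j with ⟨rfl, rfl⟩ | ⟨rfl, rfl⟩ <;> tauto
      have h3 := h2 Z zY ⟨x, (mZ x).2 ⟨hx, Rch.refl _ _⟩⟩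
      rw [zA, card_empty, add_zero] at h3
      obtain ⟨e, he⟩ := card_pos.1 (lt_of_lt_of_le two_pos h3)
      obtain ⟨k1, a, m, k2, k3, k4⟩ := K1GT1_jc he
      obtain ⟨hmM, hmY⟩ := stp e k1 a m k2 k3 k4
      have hM1 : ∀ b ∈ M, b = m := fun b hb => card_le_one.1 (Nat.lt_succ_iff.1 hM) b hb m hmM
      have h4 := h2 (insert m Z) (insert_subset hmY zY) (insert_nonempty _ _)
      have h5 : (insert m Z ∩ A).card ≤ iv (m ∈ A) := by
        by_cases q : m ∈ A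
        · rw [insert_inter_of_mem q, zA]; simp [iv, q]
        · rw [insert_inter_of_notMem q, zA]; simp
      have h6 : ∀ f ∈ G.crs (G.ins Y) (insert m Z), G.At f m ∧ f ∉ G.crs (G.ins Y) Z := by
        intro f hf
        obtain ⟨q1, a, b, j, q2, q3⟩ := K1GT1_jc hf
        have bZ : b ∉ Z := fun q => q3 (mem_insert_of_mem q)
        rcases mem_insert.1 q2 with rfl | q2
        · refine ⟨j.at_iff.2 (.inl rfl), fun q => (mem_crs.1 q).2 ?_⟩
          rcases j with ⟨r1, r2⟩ | ⟨r1, r2⟩ <;> rw [r1, r2] <;> (clear * - bZ k4; tauto)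
        · exact absurd (hM1 b (stp f q1 a b j q2 bZ).1 ▸ mem_insert_self m Z) q3
      have h7 : (G.crs (G.ins Y) (insert m Z) ∪ G.crs (G.ins Y) Z).card ≤ G.deg (G.ins Y) m := by
        refine K1GT1_deg (union_subset (filter_subset _ _) (filter_subset _ _)) fun f hf => ?_
        rcases mem_union.1 hf with hf | hf
        · exact (h6 f hf).1
        · obtain ⟨q1, a, b, j, q2, q3⟩ := K1GT1_jc hf
          exact j.at_iff.2 (.inr (hM1 b (stp f q1 a b j q2 q3).1).symm)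
      rw [card_union_of_disjoint (disjoint_left.2 fun f hf => (h6 f hf).2)] at h7
      have h8 := hd m hmY
      omega
  exact ⟨n, v, g, hp, by omega, h3, h4, h5⟩

/-- A path between two anchors that meets a set with at most two crossing edges and anchors uses
all crossing edges.  HINT: `Pth.od`, `Od.crs_card`: the number of path edges crossing `K` plus
the number of ends of the path in `K` is even, and it is positive (`Pth.rch`, `Rch.closed`);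
the two ends are different anchors. -/
theorem tp_exh (hp : G.Pth (G.ins Y) n v g) (hn : 1 ≤ n) (h0 : v 0 ∈ A) (h1 : v n ∈ A)
    (hK : (G.crs (G.ins Y) K).card + (K ∩ A).card ≤ 2) (hm : ∃ x ∈ K, x ∈ pv n v) :
    ∀ e ∈ G.crs (G.ins Y) K, G.s e ∈ pv n v ∧ G.t e ∈ pv n v := by
  have hne : v 0 ≠ v n := fun q => by
    have := hp.inj 0 (Nat.zero_le _) n le_rfl q
    omega
  have hsub : G.crs (pe n g) K ⊆ G.crs (G.ins Y) K := filter_subset_filter _ hp.pe_sub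
  have hpar := hp.od.crs_card K
  have hA : iv (v 0 ∈ K) + iv (v n ∈ K) ≤ (K ∩ A).card := by
    by_cases q0 : v 0 ∈ K <;> by_cases q1 : v n ∈ K
    · simp only [iv, q0, q1, if_true]
      exact one_lt_card.2 ⟨_, mem_inter.2 ⟨q0, h0⟩, _, mem_inter.2 ⟨q1, h1⟩, hne⟩
    · simp only [iv, q0, q1, if_true, if_false]
      exact card_pos.2 ⟨_, mem_inter.2 ⟨q0, h0⟩⟩
    · simp only [iv, q0, q1, if_true, if_false]
      exact card_pos.2 ⟨_, mem_inter.2 ⟨q1, h1⟩⟩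
    · simp [iv, q0, q1]
  have hev : Even ((G.crs (pe n g) K).card + (iv (v 0 ∈ K) + iv (v n ∈ K))) := by
    rw [← ZMod.natCast_eq_zero_iff_even, Nat.cast_add, hpar]
    have e : ((iv (v 0 ∈ K) + iv (v n ∈ K) : ℕ) : ZMod 2) = iv (v 0 ∈ K) + iv (v n ∈ K) := by
      simp [iv]
    rw [e, z2_add_self]
  have hpos : 0 < (G.crs (pe n g) K).card + (iv (v 0 ∈ K) + iv (v n ∈ K)) := by
    rcases (G.crs (pe n g) K).eq_empty_or_nonempty with q | q
    · obtain ⟨x, hx, hx'⟩ := hm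
      obtain ⟨i, hi, rfl⟩ := mem_pv.1 hx'
      have q0 : v 0 ∈ K := (hp.rch hi (Nat.zero_le _)).closed (P := (· ∈ K))
        (fun e he => not_not.1 (filter_eq_empty_iff.1 q he)) hx
      simp only [iv, q0, if_true]
      omega
    · have := card_pos.2 q
      omega
  have heq : G.crs (pe n g) K = G.crs (G.ins Y) K := eq_of_subset_of_card_le hsub (by
    obtain ⟨r, hr⟩ := hev
    omega)
  intro e he
  rw [← heq] at he
  exact K1GT1_pe hp (mem_crs.1 he).1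

/-- A vertex of a path has at most one edge to a set off the path, and none if it is marked.
HINT: `Pth.deg`, `deg_union` for `pe n g` and the edges into `K`. -/
theorem tp_one {L : Finset V} (hp : G.Pth (G.ins Y) n v g) (hn : 1 ≤ n) (h0 : v 0 ∈ A)
    (h1 : v n ∈ A) (hd : ∀ x ∈ Y, G.deg (G.ins Y) x + iv (x ∈ A) + iv (x ∈ L) ≤ 3)
    (hK : Disjoint K (pv n v)) {i : ℕ} (hi : i ≤ n) {e : E} {x : V} (he : e ∈ G.ins Y)
    (hx : x ∈ K) (hj : G.Je e (v i) x) :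
    v i ∉ L ∧ ∀ f ∈ G.ins Y, ∀ y ∈ K, G.Je f (v i) y → f = e := by
  have hY : v i ∈ Y := ((Pth_ends hj).1 (mem_ins.1 he).2).1
  have h2 : 2 ≤ G.deg (pe n g) (v i) + iv (v i ∈ A) := by
    rw [hp.deg hi]
    rcases Nat.eq_zero_or_pos i with rfl | q
    · simp [iv, h0, show 0 < n from hn]
    · rcases hi.lt_or_eq with q' | rfl
      · simp [iv, q, q']
      · simp [iv, q, h1]
  have h3 : ∀ T ⊆ G.ins Y, (∀ f ∈ T, ∃ y ∈ K, G.Je f (v i) y) →
      G.deg (pe n g) (v i) + T.card ≤ G.deg (G.ins Y) (v i) := by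
    intro T hT h
    have hdj : Disjoint (pe n g) T := disjoint_left.2 fun f hf hf' => by
      obtain ⟨y, hy, j⟩ := h f hf'
      exact disjoint_left.1 hK hy ((Pth_ends j).1 (K1GT1_pe hp hf)).2
    have h4 := K1GT1_deg (G := G) (m := v i) (Subset.refl T) fun f hf => by
      obtain ⟨y, -, j⟩ := h f hf
      exact j.at_iff.2 (.inl rfl)
    have h5 := deg_mono (G := G) (v := v i) (union_subset hp.pe_sub hT)
    rw [deg_union hdj] at h5
    omega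
  have h6 := hd _ hY
  refine ⟨fun q => ?_, fun f hf y hy j => by_contra fun q => ?_⟩
  · have h7 := h3 {e} (singleton_subset_iff.2 he) fun f hf => ⟨x, hx, mem_singleton.1 hf ▸ hj⟩
    have h8 : (iv (v i ∈ L) : ℕ) = 1 := if_pos q
    rw [card_singleton] at h7
    omega
  · have h7 := h3 {f, e} (insert_subset hf (singleton_subset_iff.2 he)) fun f' hf' => by
      rcases mem_insert.1 hf' with rfl | hf'
      · exact ⟨y, hy, j⟩
      · exact ⟨x, hx, mem_singleton.1 hf' ▸ hj⟩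
    rw [card_pair q] at h7
    omega

end SG

end Pool.Agent.Work.MP_8c679b_co
end
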