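import Pool.Agent.Work.MP_8c679b_co.Top.LRad
import Pool.Agent.Work.MP_8c679b_co.Six.AGad
import Pool.Agent.Work.MP_8c679b_co.Cubic
import Pool.Agent.Work.MP_8c679b_co.Six.PAll
import Pool.Agent.Work.MP_8c679b_co.K1.GT1
import Pool.Agent.Work.MP_8c679b_co.Six.GNorm

-- merged part: Pool.Agent.Work.MP_8c679b_co.Six.ABal
section
/-!
Extension into balanced sets; lifting with weights.
-/

set_option autoImplicit false

namespace Pool.Agent.Work.MP_8c679b_co

open Finset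

namespace SG

variable {V E : Type} [Fintype V] [DecidableEq V] [DecidableEq E] {G : SG V E}
  {X U T : Finset V} {O O' P : Finset E} {a b c d : E} {φ ψ : E → ZMod 3} {h : E → ℤ}
  {p : V → ZMod 2}

/-- HINT: `tw_mod4` with a function that equals `h` on the cut and has the parity of `O` inside;
`kap_ins`. -/
theorem not_df (hOA : O ⊆ G.A) (hO : ∀ v ∈ X, G.dg O v = 0) (p : V → ZMod 2) {m : ℤ}
    (ht : G.tw p X h = 2 * m) (hm : (m : ZMod 2) = ∑ e ∈ O ∩ G.ins X, G.sw p e) :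
    ¬ G.Df O φ X h := by
  intro hd
  have h1 := tw_mod4 hOA hO p (fun e => if e ∈ G.cut X then h e else if e ∈ O then 1 else 0)
    fun e _ => by
      split_ifs with k k'
      exacts [(hd.1 e k).2.1, iff_of_true odd_one k', iff_of_false (by decide) k']
  have h7 : ∀ q : V → ZMod 2, ∑ e ∈ G.cut X,
      G.kap q X e * (if e ∈ G.cut X then h e else if e ∈ O then 1 else 0) =
      ∑ e ∈ G.cut X, G.kap q X e * h e := fun q => sum_congr rfl fun e he => by rw [if_pos he]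
  have h2 : ∑ e ∈ G.ins X, G.kap p X e * (if e ∈ G.cut X then h e else if e ∈ O then 1 else 0) =
      2 * ∑ e ∈ G.ins X, (if e ∈ O ∧ G.sw p e = 1 then chi (p (G.s e)) else 0) := by
    rw [mul_sum]
    refine sum_congr rfl fun e he => ?_
    rw [if_neg fun k => not_ins_of_cut k he, kap_ins (mem_ins.1 he).2.1 (mem_ins.1 he).2.2]
    by_cases k : e ∈ O <;> rcases z2 (G.sw p e) with k' | k' <;> simp [k, k']
    ring
  have h3 : (2 : ℤ) ∣
      m + ∑ e ∈ G.ins X, (if e ∈ O ∧ G.sw p e = 1 then chi (p (G.s e)) else 0) := by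
    refine (ZMod.intCast_zmod_eq_zero_iff_dvd _ 2).1 ?_
    rw [Int.cast_add, hm, inter_comm, ← sum_ite_mem, Int.cast_sum, ← sum_add_distrib]
    refine sum_eq_zero fun e _ => ?_
    by_cases k : e ∈ O <;> rcases z2 (G.sw p e) with k' | k' <;>
      rcases z2 (p (G.s e)) with k2 | k2 <;> simp [k, k', k2, z2_add_self]
  simp only [out] at h1
  rw [h2, tw, h7, h7] at h1
  have h5 := hd.2
  simp only [out] at h5
  rw [tw] at ht
  omega

theorem ext_of_av (hφ : G.Sl X O ∅ φ) {f : E → ℤ} (h1 : ∀ e ∈ G.cut X, f e = h e)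
    (h2 : ∀ v ∈ X, G.bd f v = 0) (h3 : ∀ e ∈ G.tch X, Av O φ e (f e)) : G.Ext X h := by
  exact ⟨f, h1, h2, fun e he => ⟨(h3 e (ins_sub_tch he)).ne_zero (hφ.2.1 e (ins_sub_tch he)),
    (h3 e (ins_sub_tch he)).1⟩⟩

/-- HINT: `lift6` with `P = cut X`, `wp e = (h e).natAbs`, `Df.bal`, `sum_split_max`, `not_df`. -/
theorem bal_lift (hc : G.Cub) (hX : X ⊆ G.vs G.A) (hl : ∀ e ∈ G.tch X, G.s e ≠ G.t e)
    (hp : ∀ e ∈ G.ins X, G.sw p e = 0) (hOA : O ⊆ G.A) (hO : ∀ v ∈ X, G.dg O v = 0)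
    (hφ : G.Sl X O ∅ φ) (hh : ∀ e ∈ G.cut X, Av O φ e (h e)) (ht : G.tw p X h = 0)
    (hs : ∑ e ∈ G.cut X, |h e| < 12) : G.Ext X h := by
  obtain ⟨f, f1, f2, f3⟩ := lift6 hc hX hl hOA hO hφ subset_rfl hh (fun _ => 0)
    (fun e => (h e).natAbs) (fun e _ => (Int.natCast_natAbs _).ge)
    (fun K hK _ _ g hd => by
      have k1 := hd.bal hOA (fun v hv => hO v (hK.1 hv)) (fun v hv => hφ.1 v (hK.1 hv))
        ⟨p, fun e he => hp e (ins_mono hK.1 he)⟩
      have k2 := sum_split_max (G := G) K (G.cut X) g fun e => (h e).natAbs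
      simp only [Nat.cast_zero, sum_const_zero, add_zero]
      exact k1.trans k2)
    (Or.inl ⟨rfl, not_df hOA hO p (m := 0) (by rw [ht, mul_zero]) (by
      rw [Int.cast_zero, sum_eq_zero fun e he => hp e (mem_inter.1 he).2]), by
      have k : ((∑ e ∈ G.cut X, (h e).natAbs : ℕ) : ℤ) = ∑ e ∈ G.cut X, |h e| := by
        rw [Nat.cast_sum]
        exact sum_congr rfl fun e _ => Int.natCast_natAbs _
      simp only [sum_const_zero, zero_add]
      omega⟩)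
  exact ext_of_av hφ f1 f2 f3

/-- HINT: `lift6`, `Df.bal`, `Df.four`, `sum_split_max`. -/
theorem w_lift (hc : G.Cub) (hX : X ⊆ G.vs G.A) (hl : ∀ e ∈ G.tch X, G.s e ≠ G.t e)
    (hOA : O ⊆ G.A) (hO : ∀ v ∈ X, G.dg O v = 0) (hφ : G.Sl X O ∅ φ)
    (hh : ∀ e ∈ G.cut X, Av O φ e (h e)) (hD : ¬ G.Df O φ X h)
    (h3 : ∀ K ⊂ X, K.Nonempty → 3 ≤ (G.cut K).card) (w : V → ℕ)
    (hw : ∀ K ⊂ X, ¬ G.Bal (G.ins K) → 2 ≤ ∑ v ∈ K, w v)
    (hs : ∑ v ∈ X, (w v : ℤ) + ∑ e ∈ G.cut X, |h e| < 12) :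
    ∃ f : E → ℤ, (∀ e ∈ G.cut X, f e = h e) ∧ (∀ v ∈ X, G.bd f v = 0) ∧
      ∀ e ∈ G.tch X, Av O φ e (f e) := by
  refine lift6 hc hX hl hOA hO hφ subset_rfl hh w
    (fun e => (h e).natAbs) (fun e _ => (Int.natCast_natAbs _).ge)
    (fun K hK hn _ g hd => ?_) (Or.inl ⟨rfl, hD, ?_⟩)
  · have k2 := sum_split_max (G := G) K (G.cut X) g fun e => (h e).natAbs
    have k3 : ((∑ v ∈ K, w v : ℕ) : ℤ) = ∑ v ∈ K, (w v : ℤ) := Nat.cast_sum _ _
    by_cases hB : G.Bal (G.ins K)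
    · have k1 := hd.bal hOA (fun v hv => hO v (hK.1 hv)) (fun v hv => hφ.1 v (hK.1 hv)) hB
      omega
    · have k1 := hd.four hOA (fun v hv => hO v (hK.1 hv))
        (fun e he => hφ.2.1 e (tch_mono hK.1 (cut_sub_tch he))) (h3 K hK hn)
      have k4 := hw K hK hB
      omega
  · have k : ((∑ e ∈ G.cut X, (h e).natAbs : ℕ) : ℤ) = ∑ e ∈ G.cut X, |h e| := by
      rw [Nat.cast_sum]
      exact sum_congr rfl fun e _ => Int.natCast_natAbs _
    have k3 : ((∑ v ∈ X, w v : ℕ) : ℤ) = ∑ v ∈ X, (w v : ℤ) := Nat.cast_sum _ _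
    omega

/-- A path closes by conservation.  HINT: `ext3` on `U` with `H = P`; `sum_bd` on `X \ U` and the
additivity of `kap`; `St.union`, `Pp.st`. -/
theorem fix_path (ha : a ∈ G.cut X) (hb : b ∈ G.cut X) (hab : a ≠ b) (hU : U ⊆ X)
    (hP : G.Pp U P (G.ie X a) (G.ie X b)) (hp : ∀ e ∈ P, G.sw p e = 0) (h1 : G.St (X \ U) O' ∅)
    (h2 : G.Sl (X \ U) O' ∅ ψ) (h3 : ∀ e ∈ G.tch U, e ∉ P → e ≠ a → e ≠ b → ψ e ≠ 0)
    (hs : ∑ e ∈ G.A, G.kap p X e * ψ e = 0) :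
    G.St X (O' ∪ insert a (insert b P)) {a, b} ∧
      ∃ φ, (∀ e, e ∉ P → φ e = ψ e) ∧ G.Sl X (O' ∪ insert a (insert b P)) ∅ φ := by
  have m1 := hP.2.2.2.1
  have m2 := hP.2.2.2.2
  obtain ⟨a1, a2⟩ := Spl_cut_of hU ha m1
  obtain ⟨b1, b2⟩ := Spl_cut_of hU hb m2
  have na := KBp_out hU ha m1
  have nb := KBp_out hU hb m2
  have hP' := hP
  rw [← a2, ← b2] at hP'
  have k1 := (h1.union (hP'.st a1 b1 hab).1 sdiff_disjoint fun e he _ =>
    iff_of_false (notMem_empty e) fun k => by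
      rcases mem_insert.1 k with k | k
      · exact na (k ▸ he)
      · exact nb (mem_singleton.1 k ▸ he)).1
  rw [sdiff_union_of_subset hU, empty_union, empty_inter, sdiff_empty] at k1
  obtain ⟨φ, k2, k3⟩ := ext3 hP.1 hP.2.1 ψ (Or.inr ⟨p, hp, by
    rw [← sum_bd] at hs ⊢
    rwa [← sum_sdiff hU, sum_eq_zero fun v hv => by rw [h2.1 v hv, mul_zero], zero_add] at hs⟩)
  refine ⟨k1, φ, k2, fun v hv => ?_, fun e he hO => ?_, fun t ht => ht.elim⟩
  · by_cases k : v ∈ U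
    · exact k3 v k
    · rw [← h2.1 v (mem_sdiff.2 ⟨hv, k⟩)]
      refine bd_congr fun e _ hat => k2 e fun k' => k ?_
      rcases hat with rfl | rfl
      exacts [(mem_ins.1 (hP.1 k')).2.1, (mem_ins.1 (hP.1 k')).2.2]
  · simp only [mem_union, mem_insert, not_or] at hO
    rw [k2 e hO.2.2.2]
    rw [← sdiff_union_of_subset hU, tch_union, mem_union] at he
    rcases he with he | he
    · exact h2.2.1 e he hO.1
    · exact h3 e he hO.2.2.2 hO.2.1 hO.2.2.1

theorem bal_rch (h1 : ∀ Y ⊆ X, (G.cut Y).card ≠ 1) (h3 : (G.cut X).card ≤ 3) :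
    ∀ e ∈ G.cut X, ∀ f ∈ G.cut X, G.Rch (G.ins X) (G.ie X e) (G.ie X f) := by
  intro e he f hf
  obtain ⟨k1, k2, k3, -⟩ := cmp_spec (G := G) (Spl_ie he)
  by_contra k
  have k4 : G.ie X f ∈ X \ G.cmp X (G.ie X e) :=
    mem_sdiff.2 ⟨Spl_ie hf, fun k' => k (mem_cmp.1 k').2⟩
  have k5 := card_pos.2 ⟨e, (Spl_cut_of k2 he k1).1⟩
  have k6 := card_pos.2 ⟨f, (Spl_cut_of sdiff_subset hf k4).1⟩
  have k7 := cut_add (G := G) k2
  have k8 := h1 _ k2
  have k9 := h1 (X \ G.cmp X (G.ie X e)) sdiff_subset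
  rw [k3, card_empty] at k7
  omega

omit [Fintype V] [DecidableEq V] in
theorem ABal_card {F : Finset E} (h : F.card ≤ 3) : F = ∅ ∨ (∃ x, F = {x}) ∨
    (∃ x y, x ≠ y ∧ F = {x, y}) ∨ ∃ x y z, x ≠ y ∧ x ≠ z ∧ y ≠ z ∧ F = {x, y, z} := by
  rw [← card_eq_zero, ← card_eq_one, ← card_eq_two, ← card_eq_three]
  omega

omit [Fintype V] [DecidableEq V] in
theorem ABal_abs {F : Finset E} (h : F.card ≤ 3) {u : E → ℤ} (h5 : ∀ e ∈ F, |u e| ≤ 5)
    (h0 : ∑ e ∈ F, u e = 0) : ∑ e ∈ F, |u e| < 12 := by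
  rcases ABal_card h with rfl | ⟨x, rfl⟩ | ⟨x, y, n1, rfl⟩ | ⟨x, y, z, n1, n2, n3, rfl⟩
  · simp
  · have := h5 x (by simp)
    rw [sum_singleton]
    omega
  · have := h5 x (by simp)
    have := h5 y (by simp)
    rw [sum_pair n1]
    omega
  · have := h5 x (by simp)
    have := h5 y (by simp)
    have := h5 z (by simp)
    rw [sum_insert (by simp [n1, n2]), sum_pair n3] at h0 ⊢
    rcases abs_cases (u x) with k1 | k1 <;> rcases abs_cases (u y) with k2 | k2 <;>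
      rcases abs_cases (u z) with k3 | k3 <;> omega

omit [Fintype V] [DecidableEq V] in
theorem ABal_res {F : Finset E} (h : F.card ≤ 3) {u u' : E → ZMod 3} (h1 : ∀ e ∈ F, u e ≠ 0)
    (h2 : ∀ e ∈ F, u' e ≠ 0) (h3 : ∑ e ∈ F, u e = 0) (h4 : ∑ e ∈ F, u' e = 0) :
    (∀ e ∈ F, u' e = u e) ∨ ∀ e ∈ F, -u' e = u e := by
  rcases ABal_card h with rfl | ⟨x, rfl⟩ | ⟨x, y, n1, rfl⟩ | ⟨x, y, z, n1, n2, n3, rfl⟩
  · simp
  · rw [sum_singleton] at h3
    exact absurd h3 (h1 x (by simp))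
  · rw [sum_pair n1] at h3 h4
    have k : ∀ a1 a2 b1 b2 : ZMod 3, a1 ≠ 0 → b1 ≠ 0 → a1 + a2 = 0 → b1 + b2 = 0 →
        (b1 = a1 ∧ b2 = a2) ∨ (-b1 = a1 ∧ -b2 = a2) := by decide
    simpa using k _ _ _ _ (h1 x (by simp)) (h2 x (by simp)) h3 h4
  · rw [sum_insert (by simp [n1, n2]), sum_pair n3] at h3 h4
    obtain ⟨c, c0, c1, c2, c3⟩ := red_three _ _ _ _ _ _ (h1 x (by simp)) (h1 y (by simp))
      (h1 z (by simp)) (h2 x (by simp)) (h2 y (by simp)) (h2 z (by simp)) h3 h4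
    have k : ∀ c : ZMod 3, c ≠ 0 → c = 1 ∨ c = -1 := by decide
    rcases k c c0 with rfl | rfl
    · left
      simpa using ⟨by simpa using c1, by simpa using c2, by simpa using c3⟩
    · right
      simpa using ⟨by simpa using c1, by simpa using c2, by simpa using c3⟩

theorem ABal_ev {x : ℤ} (h0 : x ≠ 0) (h5 : |x| ≤ 5) (he : ¬ Odd x) : (x : ZMod 3) ≠ 0 := by
  intro k
  have k1 := (ZMod.intCast_zmod_eq_zero_iff_dvd x 3).1 k
  rw [Int.not_odd_iff_even] at he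
  have k2 := he.two_dvd
  rw [abs_le] at h5
  omega

theorem ABal_cast (ht : G.tw p X h = 0) :
    ∑ e ∈ G.cut X, G.kap p X e * (h e : ZMod 3) = 0 := by
  have k := congrArg (Int.cast : ℤ → ZMod 3) ht
  rw [tw, Int.cast_sum, Int.cast_zero] at k
  rw [← k]
  exact sum_congr rfl fun e _ => by rw [Int.cast_mul, Def6_cast]

theorem ABal_loop (hc : G.Cub) {e : E} (he : e ∈ G.A) (hl : G.s e = G.t e) :
    (G.cut {G.s e}).card = 1 := by
  have k := deg_sum hc (singleton_subset_iff.2 (s_mem_vs (G := G) he))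
  have k1 : 0 < (G.ins {G.s e}).card :=
    card_pos.2 ⟨e, mem_ins.2 ⟨he, mem_singleton_self _, mem_singleton.2 hl.symm⟩⟩
  rw [card_singleton] at k
  omega

theorem ABal_nl (hc : G.Cub) (h1 : ∀ Y ⊆ X, (G.cut Y).card ≠ 1) :
    ∀ e ∈ G.tch X, G.s e ≠ G.t e := fun _ he k =>
  h1 _ (singleton_subset_iff.2 ((mem_tch.1 he).2.elim id fun k' => k ▸ k'))
    (ABal_loop hc (mem_tch.1 he).1 k)

theorem ABal_two (hc : G.Cub) (hX : X ⊆ G.vs G.A) (h1 : ∀ Y ⊆ X, (G.cut Y).card ≠ 1)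
    (hp : ∀ e ∈ G.ins X, G.sw p e = 0) (hB : G.Bv X h) (ht : G.tw p X h = 0)
    (hs : ∑ e ∈ G.cut X, |h e| < 12) (ha : a ∈ G.cut X) (hb : b ∈ G.cut X) (hab : a ≠ b)
    (ho : ∀ e ∈ G.cut X, Odd (h e) ↔ e = a ∨ e = b) (hU : U ⊆ X)
    (hP : G.Pp U P (G.ie X a) (G.ie X b)) (hd : ∀ e ∈ G.cut X, e ∈ G.tch (X \ U) → e = d) :
    G.Ext X h := by
  obtain ⟨O', k1⟩ := abs_loc (W := X \ U) fun Y hY => h1 Y (hY.trans sdiff_subset)
  obtain ⟨k2, k3, k4⟩ := k1.neg (L := (G.cut (X \ U)).erase d) d fun e he =>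
    (em (e = d)).elim Or.inr fun k => Or.inl (mem_erase.2 ⟨k, he⟩)
  have na := KBp_out hU ha hP.2.2.2.1
  have nb := KBp_out hU hb hP.2.2.2.2
  have k5 : ∀ e, e ≠ a → e ≠ b → (if e ∈ G.cut X then (h e : ZMod 3) else 1) ≠ 0 :=
    fun e e1 e2 => by
      split_ifs with he
      · exact ABal_ev (hB e he).1 (hB e he).2 fun k => ((ho e he).1 k).elim e1 e2
      · decide
  obtain ⟨ψ, k6, k7⟩ := k4 (fun e => if e ∈ G.cut X then (h e : ZMod 3) else 1)
    (fun e he _ _ => k5 e (fun k => na (k ▸ he)) fun k => nb (k ▸ he)) trivial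
  have k8 : ∀ e ∈ G.cut X, ψ e = h e := fun e he => by
    refine (k6 e fun k => ?_).trans (if_pos he)
    have k9 := hd e he (k3 k)
    rcases mem_union.1 k with k | k
    · exact not_ins_of_cut he (ins_mono sdiff_subset k)
    · exact (mem_erase.1 (mem_inter.1 k).2).1 k9
  obtain ⟨s1, φ, s2, s3⟩ := fix_path ha hb hab hU hP (fun e he => hp e (ins_mono hU (hP.1 he)))
    k2 k7 (fun e he _ e1 e2 => by
      by_cases k : e ∈ G.tch (X \ U)
      · exact k7.2.1 e k fun k' => Quo_ins (k2.sub_ins k') disjoint_sdiff he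
      · rw [k6 e fun k' => k (k3 k')]
        exact k5 e e1 e2) (by
      rw [red_sum_cut hp, ← ABal_cast ht]
      exact sum_congr rfl fun e he => by rw [k8 e he])
  refine bal_lift hc hX (ABal_nl hc h1) hp (s1.1.trans Ab_tch_sub) s1.2.1 s3 (fun e he => ?_) ht hs
  refine ⟨(hB e he).2, ?_, ?_⟩
  · have k := Finset.ext_iff.1 s1.2.2 e
    rw [mem_inter, and_iff_left he] at k
    rw [ho e he, k, mem_insert, mem_singleton]
  · rw [s2 e fun k => not_ins_of_cut he (ins_mono hU (hP.1 k)), k8 e he]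

/-- Balanced sets with at most three leaving edges.
HINT: the number of odd values is zero or two.  No odd value: any solution from `abs_loc` or its
negative has the right residues (`sum_bd`, `red_three`).  Two odd values `a, b`: a path between
the terminals (`bal_rch`, `Rch.pth`), `abs_loc` on the rest with the third edge dead
(`Abs0.neg`), `fix_path`.  Then `bal_lift`. -/
theorem b23 (hc : G.Cub) (hX : X ⊆ G.vs G.A) (h1 : ∀ Y ⊆ X, (G.cut Y).card ≠ 1)
    (h3 : (G.cut X).card ≤ 3) (hp : ∀ e ∈ G.ins X, G.sw p e = 0) (hB : G.Bv X h)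
    (ht : G.tw p X h = 0) : G.Ext X h := by
  have hs : ∑ e ∈ G.cut X, |h e| < 12 := by
    have k : ∀ e ∈ G.cut X, |G.kap p X e * h e| = |h e| := fun e he => by
      rcases Def6_kap p he with k | k <;> simp [k]
    rw [← sum_congr rfl k]
    exact ABal_abs h3 (fun e he => (k e he).trans_le (hB e he).2) ht
  have hev : Even ((G.cut X).filter fun e => Odd (h e)).card := by
    have k : (2 : ℤ) ∣ ∑ e ∈ G.cut X, (G.kap p X e * h e - if Odd (h e) then 1 else 0) := by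
      refine dvd_sum fun e he => ?_
      split_ifs with k'
      · rw [Int.odd_iff] at k'
        rcases Def6_kap p he with k | k <;> rw [k] <;> omega
      · rw [Int.odd_iff] at k'
        rcases Def6_kap p he with k | k <;> rw [k] <;> omega
    rw [sum_sub_distrib, sum_boole] at k
    rw [tw] at ht
    rw [Nat.even_iff]
    omega
  have hle := card_filter_le (G.cut X) fun e => Odd (h e)
  have hcase : ((G.cut X).filter fun e => Odd (h e)).card = 0 ∨
      ((G.cut X).filter fun e => Odd (h e)).card = 2 := by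
    obtain ⟨k, hk⟩ := hev
    omega
  rcases hcase with h0 | h0
  · rw [card_eq_zero, filter_eq_empty_iff] at h0
    obtain ⟨O, k1⟩ := abs_loc h1
    obtain ⟨φ, k2⟩ := k1.2.sl
    have k3 : ∀ e ∈ G.cut X, e ∉ O := fun e he => k1.not_mem (not_ins_of_cut he)
    have k4 : ∑ e ∈ G.cut X, G.kap p X e * φ e = 0 := by
      rw [← red_sum_cut hp, ← sum_bd]
      exact sum_eq_zero fun v hv => by rw [k2.1 v hv, mul_zero]
    obtain ⟨ψ, k5, k6⟩ : ∃ ψ, G.Sl X O ∅ ψ ∧ ∀ e ∈ G.cut X, (h e : ZMod 3) = ψ e := by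
      rcases ABal_res h3 (fun e he => mul_ne_zero (red_kap_ne he)
        (ABal_ev (hB e he).1 (hB e he).2 (h0 he))) (fun e he => mul_ne_zero (red_kap_ne he)
          (k2.2.1 e (cut_sub_tch he) (k3 e he))) (ABal_cast ht) k4 with k | k
      · exact ⟨φ, k2, fun e he => (mul_left_cancel₀ (red_kap_ne he) (k e he)).symm⟩
      · exact ⟨_, k2.neg, fun e he =>
          (mul_left_cancel₀ (red_kap_ne (p := p) he) ((mul_neg _ _).trans (k e he))).symm⟩
    exact bal_lift hc hX (ABal_nl hc h1) hp (k1.1.1.trans Ab_tch_sub) k1.1.2.1 k5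
      (fun e he => ⟨(hB e he).2, iff_of_false (h0 he) (k3 e he), k6 e he⟩) ht hs
  · obtain ⟨a, b, hab, he⟩ := card_eq_two.1 h0
    have ho : ∀ e ∈ G.cut X, Odd (h e) ↔ e = a ∨ e = b := fun e k => by
      have k1 := Finset.ext_iff.1 he e
      rwa [mem_filter, and_iff_right k, mem_insert, mem_singleton] at k1
    have ha : a ∈ G.cut X := (mem_filter.1 (he.ge (mem_insert_self _ _))).1
    have hb : b ∈ G.cut X := (mem_filter.1 (he.ge (mem_insert_of_mem (mem_singleton_self _)))).1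
    obtain ⟨n, v, g, q1, q2, q3⟩ := (bal_rch h1 h3 a ha b hb).pth a
    have hU := q1.sub_of_ins (q2 ▸ Spl_ie ha)
    have hP := q1.pp ins_sub_A
    rw [q2, q3] at hP
    obtain ⟨d, hd⟩ : ∃ d, ∀ e ∈ ((G.cut X).erase a).erase b, e = d := by
      have k : (((G.cut X).erase a).erase b).card ≤ 1 := by
        rw [card_erase_of_mem (mem_erase.2 ⟨hab.symm, hb⟩), card_erase_of_mem ha]
        omega
      have : Nonempty E := ⟨a⟩
      obtain ⟨d, hd⟩ := card_le_one_iff_subset_singleton.1 k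
      exact ⟨d, fun e he => mem_singleton.1 (hd he)⟩
    exact ABal_two hc hX h1 hp hB ht hs ha hb hab ho hU hP (d := d) fun e k k' =>
      hd e (mem_erase.2 ⟨fun r => KBp_out hU hb hP.2.2.2.2 (r ▸ k'),
        mem_erase.2 ⟨fun r => KBp_out hU ha hP.2.2.2.1 (r ▸ k'), k⟩⟩)

/-- Balanced sides with two odd and two even values.
HINT: if the terminals of `a, b` are different use `bp`; the relation is total and the second
value is forced by `sum_bd`; `bal_lift`.  Otherwise `X` is a rung (`HT.f2`, `HT.rung`) and the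
value of its edge is forced. -/
theorem b4 (hc : G.Cub) (hT : G.HT X) (hq : G.Q4 X a b c d) (hp : ∀ e ∈ G.ins X, G.sw p e = 0)
    (hB : G.Bv X h) (ht : G.tw p X h = 0) (hs : ∑ e ∈ G.cut X, |h e| < 12) (oa : Odd (h a))
    (ob : Odd (h b)) (ec : Even (h c)) (ed : Even (h d))
    (hv : G.Dv X a b ∨ G.out X h a + G.out X h b ≠ 0) : G.Ext X h := by
  obtain ⟨ha, hb, hc', hd'⟩ := hq.mem
  by_cases hD : G.Dv X a b
  · obtain ⟨U, P, hU, hP, hcU⟩ := bp_path hc hT subset_rfl hq hD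
    refine ABal_two hc hT.act (Loc_ne_one hT subset_rfl) hp hB ht hs ha hb hq.2.1
      (fun e he => ⟨fun k => ?_, ?_⟩) hU hP (hq.dead hP.2.2.2.1 hP.2.2.2.2 hcU)
    · rcases (Spl_mem hq e).1 he with r | r | rfl | rfl
      exacts [Or.inl r, Or.inr r, absurd ec (Int.not_even_iff_odd.2 k),
        absurd ed (Int.not_even_iff_odd.2 k)]
    · rintro (rfl | rfl)
      exacts [oa, ob]
  have hv := hv.resolve_left hD
  have h2 : X.card ≤ 2 := not_lt.1 fun k => hD (hT.f2 hc subset_rfl hq.card k ha hb hq.2.1)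
  have eb : G.ie X b = G.ie X a := (not_not.1 hD).symm
  have ed' : G.ie X d = G.ie X c := (not_not.1 fun k => hD (hT.dv_flip hc subset_rfl hq k)).symm
  have hne : G.ie X a ≠ G.ie X c := fun k => by
    have k1 : G.cut X ⊆ G.cut {G.ie X a} := fun e he => by
      refine (mem_inter.1 (Cut_ie he ?_)).1
      rcases (Spl_mem hq e).1 he with rfl | rfl | rfl | rfl
      exacts [rfl, eb, k.symm, ed'.trans k.symm]
    have k2 := card_le_card k1
    rw [hq.card, (hT.vtx hc (Spl_ie ha)).1] at k2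
    omega
  obtain ⟨x1, m, x2, x3⟩ := Spl_rung hc hT subset_rfl hq.card h2 (Spl_ie ha) (Spl_ie hc') hne
  obtain ⟨_, _, m', -, -, x4, -⟩ := hT.rung hc subset_rfl hq.card h2
  obtain rfl : m = m' := mem_singleton.1 (x4 ▸ x2)
  have hsum : ∀ k : E → ℤ, ∑ e ∈ G.cut X, k e = k a + (k b + (k c + k d)) := fun k => by
    obtain ⟨r0, r1, r2, r3, r4, r5, r6⟩ := hq
    rw [r0, sum_insert (by simp [r1, r2, r3]), sum_insert (by simp [r4, r5]), sum_pair r6]
  obtain ⟨κ, κ1, κ2⟩ : ∃ κ : ℤ, (κ = 1 ∨ κ = -1) ∧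
      iv (G.s m = G.ie X a) - iv (G.t m = G.ie X a) * chi (G.n m) = κ := by
    refine ⟨_, ?_, rfl⟩
    rcases x3 with ⟨r1, r2⟩ | ⟨r1, r2⟩ <;> rcases z2 (G.n m) with k | k <;>
      simp [iv, r1, r2, k, hne.symm]
  have f1 : ∀ x : ℤ, ∀ e ∈ G.cut X, Function.update h m x e = h e := fun x e he =>
    Function.update_of_ne (fun k : e = m => not_ins_of_cut he (k ▸ x2)) _ _
  have f2 : ∀ x : ℤ, G.bd (Function.update h m x) (G.ie X a) =
      κ * x + (G.out X h a + G.out X h b) := fun x => by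
    rw [Def6_bd (Spl_ie ha), x4, sum_singleton, κ2, Function.update_self, hsum, eb, ed']
    simp [iv, hne.symm, out, f1 x a ha, f1 x b hb]
  have f3 : ∀ e ∈ G.cut X, G.kap p X e * h e = chi (p (G.ie X e)) * G.out X h e := fun e he => by
    rw [(kap_sign p he).1, out, mul_assoc]
  have f4 : G.bd (Function.update h m (-κ * (G.out X h a + G.out X h b))) (G.ie X a) = 0 := by
    rw [f2]
    rcases κ1 with rfl | rfl <;> ring
  refine ⟨Function.update h m (-κ * (G.out X h a + G.out X h b)), f1 _, fun v k => ?_,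
    fun e k => ?_⟩
  · have k1 := Def6_split (G := G) p X (Function.update h m (-κ * (G.out X h a + G.out X h b)))
    rw [sum_eq_zero (s := G.ins X) fun e he => by rw [red_kap_zero hp he, zero_mul], add_zero, tw,
      sum_congr (s₁ := G.cut X) rfl fun e he => by rw [f1 _ e he], ← tw, ht] at k1
    have k2 : ∀ F : V → ℤ, ∑ v ∈ X, F v = F (G.ie X a) + F (G.ie X c) := fun F => by
      conv_lhs => rw [x1]
      exact sum_pair hne
    rw [k2, f4, mul_zero, zero_add] at k1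
    rw [x1] at k
    rcases mem_insert.1 k with rfl | k
    · exact f4
    · rw [mem_singleton.1 k]
      exact (mul_eq_zero.1 k1).resolve_left (sol1_chi_ne _)
  · obtain rfl : e = m := mem_singleton.1 (x4 ▸ k)
    rw [Function.update_self]
    rw [tw, hsum, f3 a ha, f3 b hb, f3 c hc', f3 d hd', eb, ed'] at ht
    rw [hsum] at hs
    have o : ∀ e ∈ G.cut X, |G.out X h e| = |h e| := fun e he => by
      rcases Def6_out h he with k | k <;> simp [k]
    rw [← o a ha, ← o b hb, ← o c hc', ← o d hd'] at hs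
    have r1 := le_abs_self (G.out X h a)
    have r2 := neg_abs_le (G.out X h a)
    have r3 := le_abs_self (G.out X h b)
    have r4 := neg_abs_le (G.out X h b)
    have r5 := le_abs_self (G.out X h c)
    have r6 := neg_abs_le (G.out X h c)
    have r7 := le_abs_self (G.out X h d)
    have r8 := neg_abs_le (G.out X h d)
    rw [abs_le]
    rcases κ1 with rfl | rfl <;> rcases Lift6_chi (p (G.ie X a)) with k1 | k1 <;>
      rcases Lift6_chi (p (G.ie X c)) with k2 | k2 <;> rw [k1, k2] at ht <;> omega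

/-- Graphs with a small set of vertices meeting all unbalanced sets.
HINT: `tmain1` for `vs A`, `Sol.abs0`, `w_lift` with weight two on `M`, `not_df` with `p = 0`. -/
theorem tol (hc : G.Cub) (hA : G.Adm2) (h3 : ∀ K ⊂ G.vs G.A, K.Nonempty → 3 ≤ (G.cut K).card)
    (n3 : G.N3) (hu : ¬ G.Bal G.A) {M : Finset V} (hM : M.card ≤ 5)
    (hit : ∀ K, ¬ G.Bal (G.ins K) → ¬ Disjoint K M) : ∃ f, G.Fl6 f := by
  have e1 : G.ins (G.vs G.A) = G.A := ins_sub_A.antisymm (sub_ins_vs subset_rfl)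
  have e2 : G.cut (G.vs G.A) = ∅ :=
    eq_empty_of_forall_notMem fun e he => not_ins_of_cut he (e1.ge (Pure_cutA he))
  have hU : ¬ G.Bal (G.ins (G.vs G.A)) := e1.symm ▸ hu
  have h1 : ∀ Y ⊆ G.vs G.A, (G.cut Y).card ≠ 1 := fun Y hY k => by
    by_cases r : Y = G.vs G.A
    · rw [r, e2, card_empty] at k
      omega
    · have := h3 Y (hY.ssubset_of_ne r) (nonempty_iff_ne_empty.2 fun r' => by
        obtain ⟨e, he⟩ := card_pos.1 (k.ge.trans_lt' zero_lt_one)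
        exact notMem_empty _ (r' ▸ Spl_ie he))
      omega
  obtain ⟨⟨O, o1, o2, o3, φ, o4, o5⟩, -⟩ := tmain1 hc hA.1 (G.vs G.A)
    (fun Y hY hn hne => by
      rw [e1]
      exact (h3 Y (hY.ssubset_of_ne hne) hn).trans' (by norm_num)) hU
    (by
      obtain ⟨e, he⟩ : G.A.Nonempty := nonempty_iff_ne_empty.2 fun k =>
        hu ⟨fun _ => 0, fun e he => absurd (k ▸ he) (notMem_empty e)⟩
      exact ⟨G.s e, s_mem_vs he, e1.symm ▸ hc.deg3 (s_mem_vs he)⟩)
    (fun Y hY y2 _ hB => by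
      have k1 := h3 Y (hY.ssubset_of_ne fun k => hU (k ▸ hB)) (card_pos.1 (by omega))
      have k2 : (G.cut Y).card ≠ 3 := fun k => n3 Y k (by rwa [inter_eq_left.2 hY]) hB
      omega) fun k => hA.2 _ k hU
  have hφ : G.Sl (G.vs G.A) O ∅ φ := ⟨o4, o5, fun t ht => ht.elim⟩
  obtain ⟨f, f1, f2, f3⟩ := w_lift (h := fun _ => 0) hc subset_rfl (ABal_nl hc h1)
    (o1.trans ins_sub_A) (fun v _ => o2 v) hφ (fun e he => absurd (e2 ▸ he) (notMem_empty e))
    (not_df (o1.trans ins_sub_A) (fun v _ => o2 v) (fun _ => 0) (m := 0) (by simp [tw]) (by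
      rw [inter_eq_left.2 o1, ← o2.par_eq, o3, Int.cast_zero])) h3
    (fun v => if v ∈ M then 2 else 0) (fun K _ hB => by
      obtain ⟨v, v1, v2⟩ := not_disjoint_iff.1 (hit K hB)
      have k := single_le_sum (f := fun v => if v ∈ M then 2 else 0) (fun _ _ => Nat.zero_le _) v1
      rwa [if_pos v2] at k) (by
      have k := card_le_card (inter_subset_right (s₁ := G.vs G.A) (s₂ := M))
      simp only [Nat.cast_ite, Nat.cast_ofNat, Nat.cast_zero, sum_ite_mem, sum_const, abs_zero,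
        nsmul_eq_mul, mul_zero, add_zero]
      omega)
  obtain ⟨f', k, -⟩ := Out.glue (h := fun _ => 0) ⟨fun v _ => by simp [bd],
    fun e he k => absurd (e1.ge he) k⟩ (ext_of_av hφ f1 f2 f3)
  exact ⟨f', k⟩

end SG

end Pool.Agent.Work.MP_8c679b_co
end

-- merged part: Pool.Agent.Work.MP_8c679b_co.Six.AX3
section
/-!
Extension into three-sides.
-/

set_option autoImplicit false

namespace Pool.Agent.Work.MP_8c679b_co

open Finset

namespace SG

variable {V E : Type} [Fintype V] [DecidableEq V] [DecidableEq E] {G : SG V E}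
  {T : Finset V} {p p' q q' : V → ZMod 2} {z z' : E} {h : E → ℤ}

theorem AdT.eqv (h : G.AdT T q) (hu : ¬ G.Bal (G.ins T)) (he : G.Eqv T q q') : G.AdT T q' := by
  have _ := hu
  obtain ⟨c, he⟩ := he
  rintro z ⟨p, h1, h2⟩
  refine h z ⟨fun v => p v + c, fun e a b => ?_, fun e a b => by rw [he e a, ← h2 e a b]⟩
  have := h1 e a b
  simp only [sw] at this ⊢
  linear_combination this + z2_add_self c

theorem not_adt (hT : G.T3 T) (h : ¬ G.AdT T q) : ∃ z ∈ G.ins T, ∃ p : V → ZMod 2,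
    (∀ e ∈ G.ins T, e ≠ z → G.sw p e = 0) ∧ ∀ e ∈ G.cut T, p (G.ie T e) = q (G.ie T e) := by
  obtain ⟨z, h⟩ := not_forall.1 h
  obtain ⟨p, h1, h2⟩ := not_not.1 h
  by_cases k : z ∈ G.ins T
  · exact ⟨z, k, p, h1, fun e a => h2 e a fun b => not_ins_of_cut a (b ▸ k)⟩
  · exact absurd ⟨p, fun e a => h1 e a fun b => k (b ▸ a)⟩ hT.2.2

theorem AX3_third {S : Finset V} {a b : E} (h3 : (G.cut S).card = 3) (ha : a ∈ G.cut S)
    (hb : b ∈ G.cut S) (hab : a ≠ b) : ∃ c, G.Q3 S a b c := by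
  obtain ⟨R, h1, h2, h4, h5⟩ := Cut_rest (k := 1) h3 ha hb hab
  obtain ⟨c, rfl⟩ := card_eq_one.1 h1
  exact ⟨c, h2, hab, notMem_singleton.1 h4, notMem_singleton.1 h5⟩

theorem AX3_mem {S : Finset V} {a b c : E} (h : G.Q3 S a b c) :
    a ∈ G.cut S ∧ b ∈ G.cut S ∧ c ∈ G.cut S := by
  rw [h.1]
  simp only [mem_insert, mem_singleton, true_or, or_true, and_self]

theorem AX3_sum {M : Type} [AddCommMonoid M] {S : Finset V} {a b c : E} (h : G.Q3 S a b c)
    (f : E → M) : ∑ e ∈ G.cut S, f e = f a + (f b + f c) := by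
  rw [h.1, sum_insert, sum_pair h.2.2.2]
  simp only [mem_insert, mem_singleton, not_or]
  exact ⟨h.2.1, h.2.2.1⟩

theorem AX3_rot {S : Finset V} {a b c : E} (h : G.Q3 S a b c) : G.Q3 S b c a :=
  ⟨by rw [h.1, insert_comm, pair_comm], h.2.2.2, h.2.1.symm, h.2.2.1.symm⟩

theorem AX3_dv (hc : G.Cub) (hT : G.T3 T) {a b : E} (ha : a ∈ G.cut T) (hb : b ∈ G.cut T)
    (hab : a ≠ b) : G.ie T a ≠ G.ie T b := by
  refine hT.1.f2' hc hT.2.1 (not_le.1 fun k => hT.2.2 ?_) ha hb hab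
  have k1 := ie_mem (cut_sub_tch ha)
  rw [eq_singleton_iff_unique_mem.2 ⟨k1, fun x hx => card_le_one.1 k x hx _ k1⟩,
    (hT.1.vtx hc k1).2.1]
  exact ⟨0, fun e he => absurd he (notMem_empty e)⟩

/-- Two critical edges.
HINT: `T` is two-edge-connected (`HT.f3'`).  If `z = z'` the potentials differ by a constant.
Otherwise the set where `p + p' = 1` is crossed exactly by `z, z'`; by `cut_add` it or its
complement has three leaving edges. -/
theorem crit_pair (hc : G.Cub) (hT : G.T3 T) (hp : ∀ e ∈ G.ins T, e ≠ z → G.sw p e = 0)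
    (hp' : ∀ e ∈ G.ins T, e ≠ z' → G.sw p' e = 0) (hne : ¬ G.Eqv T p p') :
    ∃ e ∈ G.cut T, G.Q3 {G.ie T e} z z' e ∧ ∃ c, ∀ v ∈ T, p v + p' v = c + iv (v = G.ie T e) := by
  have _ := hc
  have k1 : ∀ c : ZMod 2, (T.filter fun v => p v + p' v = c + 1) ≠ T := fun c k =>
    hne ⟨c + 1, fun e a => by
      have := (mem_filter.1 (k.symm ▸ ie_mem (cut_sub_tch a) :
        G.ie T e ∈ T.filter fun v => p v + p' v = c + 1)).2
      linear_combination this - z2_add_self (p' (G.ie T e))⟩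
  have k2 : ∀ c : ZMod 2, (T.filter fun v => p v + p' v = c + 1).Nonempty := fun c =>
    nonempty_iff_ne_empty.2 fun k => k1 (c + 1) (filter_true_of_mem fun v a =>
      (by decide : ∀ x c : ZMod 2, x ≠ c + 1 → x = c + 1 + 1) _ _ (filter_eq_empty_iff.1 k a))
  have k3 : ∀ c : ZMod 2, z ≠ z' ∧
      G.crs (G.ins T) (T.filter fun v => p v + p' v = c + 1) = {z, z'} := fun c => by
    have a : G.crs (G.ins T) (T.filter fun v => p v + p' v = c + 1) ⊆ {z, z'} := fun e a => by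
      by_contra b
      simp only [mem_insert, mem_singleton, not_or] at b
      obtain ⟨a1, a2⟩ := mem_crs.1 a
      have a3 := hp e a1 b.1
      have a4 := hp' e a1 b.2
      simp only [sw] at a3 a4
      simp only [mem_filter, (mem_ins.1 a1).2, true_and] at a2
      refine a2 (Eq.congr_left ?_)
      linear_combination a3 + a4 - z2_add_self (G.n e) - z2_add_self (p (G.t e) + p' (G.t e))
    have b := hT.1.f3' hT.2.1 _ (filter_subset _ _) (k2 c) (k1 c)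
    refine ⟨fun k => ?_, eq_of_subset_of_card_le a (card_le_two.trans b)⟩
    have := card_le_card a
    rw [k, pair_eq_singleton, card_singleton] at this
    omega
  obtain ⟨c, k4⟩ : ∃ c : ZMod 2, (G.cut (T.filter fun v => p v + p' v = c + 1)).card = 3 := by
    have a := cut_add (G := G) (filter_subset (fun v => p v + p' v = 0 + 1) T)
    rw [(k3 0).2, card_pair (k3 0).1, hT.2.1, ← filter_not, filter_congr (q := fun v =>
      p v + p' v = 1 + 1) fun v _ => (by decide : ∀ x : ZMod 2, ¬ x = 0 + 1 ↔ x = 1 + 1) _] at a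
    have b := hT.1.mono3 (filter_subset _ _) (k2 0)
    have d := hT.1.mono3 (filter_subset _ _) (k2 1)
    by_cases k : (G.cut (T.filter fun v => p v + p' v = 0 + 1)).card = 3
    exacts [⟨0, k⟩, ⟨1, by omega⟩]
  obtain ⟨v, hv⟩ := card_eq_one.1
    (((hT.1 _ (filter_subset _ _) (k2 c)).2 k4).resolve_right (k1 c))
  have k5 := (k3 c).2
  rw [crs_ins (filter_subset _ _), hv] at k5
  rw [hv] at k4
  have m : ∀ u, u ∈ T ∧ p u + p' u = c + 1 ↔ u = v := fun u => by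
    rw [← mem_singleton (b := u), ← hv, mem_filter]
  have a1 : z ∈ G.cut {v} \ G.cut T := k5 ▸ mem_insert_self _ _
  have a2 : z' ∈ G.cut {v} \ G.cut T := k5 ▸ mem_insert_of_mem (mem_singleton_self _)
  obtain ⟨e, he⟩ := AX3_third k4 (mem_sdiff.1 a1).1 (mem_sdiff.1 a2).1 (k3 c).1
  have a3 : e ∈ G.cut T := not_not.1 fun k => by
    have : e ∈ ({z, z'} : Finset E) := k5 ▸ mem_sdiff.2 ⟨(AX3_mem he).2.2, k⟩
    simp only [mem_insert, mem_singleton] at this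
    exact this.elim he.2.2.1.symm he.2.2.2.symm
  have a4 : G.ie T e = v := by
    rw [← (cut_of_sub (singleton_subset_iff.2 ((m v).2 rfl).1) a3
      (cut_sub_tch (AX3_mem he).2.2)).2]
    exact mem_singleton.1 (ie_mem (cut_sub_tch (AX3_mem he).2.2))
  refine ⟨e, a3, a4 ▸ he, c, fun u hu => ?_⟩
  rw [a4, iv]
  split_ifs with k
  · exact ((m u).2 k).2
  · exact (by decide : ∀ x c : ZMod 2, x ≠ c + 1 → x = c + 0) _ _ fun b => k ((m u).1 ⟨hu, b⟩)

/-- HINT: the three twists are pairwise not equivalent (`HT.f2'`).  If all are bad, `crit_pair`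
gives three terminals that form a triangle with three leaving edges, so `T` is this triangle.
In an odd triangle one or three edges are inconsistent for `q`; in the first case change `q` at
the opposite vertex. -/
theorem exists_adt (hc : G.Cub) (hT : G.T3 T) (q : V → ZMod 2) :
    (∃ e1 ∈ G.cut T, G.AdT T fun v => q v + iv (v = G.ie T e1)) ∨
      (T.card = 3 ∧ ∀ e ∈ G.ins T, G.sw q e = 1) := by
  refine or_iff_not_imp_left.2 fun hn => ?_
  have key : ∀ a, ∃ z, ∃ p : V → ZMod 2, a ∈ G.cut T → (∀ e ∈ G.ins T, e ≠ z → G.sw p e = 0) ∧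
      ∀ e ∈ G.cut T, p (G.ie T e) = q (G.ie T e) + iv (G.ie T e = G.ie T a) := fun a => by
    by_cases k : a ∈ G.cut T
    · obtain ⟨z, -, p, k1⟩ := not_adt hT fun k' => hn ⟨a, k, k'⟩
      exact ⟨z, p, fun _ => k1⟩
    · exact ⟨a, q, fun k' => absurd k' k⟩
  choose z p hp using key
  have pr : ∀ a b c, G.Q3 T a b c →
      z a ≠ z b ∧ ∀ v ∈ T, p a v + p b v = 1 + iv (v = G.ie T c) := fun a b c k => by
    obtain ⟨ma, mb, mc⟩ := AX3_mem k
    have d1 := AX3_dv hc hT ma mb k.2.1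
    have d2 := AX3_dv hc hT ma mc k.2.2.1
    have d3 := AX3_dv hc hT mb mc k.2.2.2
    have s : ∀ e ∈ G.cut T, p a (G.ie T e) + p b (G.ie T e) =
        iv (G.ie T e = G.ie T a) + iv (G.ie T e = G.ie T b) := fun e m => by
      rw [(hp a ma).2 e m, (hp b mb).2 e m]
      linear_combination z2_add_self (q (G.ie T e))
    have s1 := s a ma
    have s2 := s b mb
    have s3 := s c mc
    simp only [iv, d1, d1.symm, d2.symm, d3.symm, if_true, if_false, add_zero, zero_add] at s1 s2 s3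
    obtain ⟨e, me, k1, x, k2⟩ := crit_pair hc hT (hp a ma).1 (hp b mb).1 fun ⟨x, k1⟩ => by
      rw [k1 a ma] at s1
      rw [k1 c mc] at s3
      refine (one_ne_zero : (1 : ZMod 2) ≠ 0) ?_
      linear_combination s3 - s1 + z2_add_self (p b (G.ie T a)) - z2_add_self (p b (G.ie T c))
    rw [k2 _ (ie_mem (cut_sub_tch ma))] at s1
    rw [k2 _ (ie_mem (cut_sub_tch mb))] at s2
    rw [k.1] at me
    simp only [mem_insert, mem_singleton] at me
    rcases me with rfl | rfl | rfl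
    · simp only [iv, d1.symm, if_true, if_false, add_zero] at s1 s2
      rw [s2] at s1
      exact absurd s1 (by decide)
    · simp only [iv, d1, if_true, if_false, add_zero] at s1 s2
      rw [s1] at s2
      exact absurd s2 (by decide)
    · simp only [iv, d2, if_false, add_zero] at s1
      exact ⟨k1.2.1, s1 ▸ k2⟩
  obtain ⟨a, b, c, k⟩ := exists_q3 hT.2.1
  obtain ⟨ma, mb, mc⟩ := AX3_mem k
  have cv : ∀ v ∈ T, v = G.ie T a ∨ v = G.ie T b ∨ v = G.ie T c := fun v m => by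
    by_contra x
    simp only [not_or] at x
    have s1 := (pr _ _ _ k).2 v m
    have s2 := (pr _ _ _ (AX3_rot k)).2 v m
    have s3 := (pr _ _ _ (AX3_rot (AX3_rot k))).2 v m
    simp only [iv, x, if_false, add_zero] at s1 s2 s3
    refine (one_ne_zero : (1 : ZMod 2) ≠ 0) ?_
    linear_combination s1 - s2 - s3 + z2_add_self (p c v)
  have cv' : ∀ v ∈ T, ∃ e ∈ G.cut T, v = G.ie T e := fun v m =>
    (cv v m).elim (fun x => ⟨a, ma, x⟩) fun x => x.elim (fun x => ⟨b, mb, x⟩) fun x => ⟨c, mc, x⟩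
  refine ⟨card_eq_three.2 ⟨_, _, _, AX3_dv hc hT ma mb k.2.1, AX3_dv hc hT ma mc k.2.2.1,
    AX3_dv hc hT mb mc k.2.2.2, Finset.ext fun v => ?_⟩, fun e m => ?_⟩
  · simp only [mem_insert, mem_singleton]
    refine ⟨cv v, ?_⟩
    rintro (rfl | rfl | rfl)
    exacts [ie_mem (cut_sub_tch ma), ie_mem (cut_sub_tch mb), ie_mem (cut_sub_tch mc)]
  · obtain ⟨x, mx, s1⟩ := cv' _ (mem_ins.1 m).2.1
    obtain ⟨y, my, s2⟩ := cv' _ (mem_ins.1 m).2.2
    have d := hT.1.noloop hc (ins_sub_tch m)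
    rw [s1, s2] at d
    obtain ⟨w, k1⟩ := AX3_third hT.2.1 mx my fun k1 => d (by rw [k1])
    have k2 := (pr _ _ _ k1).1
    by_cases k3 : e = z x
    · have := (hp y my).1 e m fun k4 => k2 (k3.symm.trans k4)
      simp only [sw, s1, s2, (hp y my).2 x mx, (hp y my).2 y my, iv, d, if_true, if_false]
        at this ⊢
      linear_combination this - z2_add_self 1
    · have := (hp x mx).1 e m k3
      simp only [sw, s1, s2, (hp x mx).2 x mx, (hp x mx).2 y my, iv, d.symm, if_true, if_false]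
        at this ⊢
      linear_combination this - z2_add_self 1

theorem AX3_size (h3 : (G.cut T).card = 3) (hB : G.Bv T h) (ht : G.tw q T h = 0) :
    ∑ e ∈ G.cut T, |h e| < 12 := by
  obtain ⟨a, b, c, k⟩ := exists_q3 h3
  obtain ⟨ma, mb, mc⟩ := AX3_mem k
  have k1 := (hB a ma).2
  have k2 := (hB b mb).2
  have k3 := (hB c mc).2
  rw [tw, AX3_sum k] at ht
  rw [AX3_sum k]
  have key : ∀ x y z : ℤ, |x| ≤ 5 → |y| ≤ 5 → |z| ≤ 5 → x + (y + z) = 0 →
      |x| + (|y| + |z|) < 12 := by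
    intro x y z
    rcases abs_cases x with x | x <;> rcases abs_cases y with y | y <;>
      rcases abs_cases z with w | w <;> omega
  have e : ∀ {e : E}, e ∈ G.cut T → |G.kap q T e * h e| = |h e| := fun m => by
    rcases Def6_kap q m with x | x <;> rw [x] <;> simp only [one_mul, neg_mul, abs_neg]
  rw [← e ma] at k1 ⊢
  rw [← e mb] at k2 ⊢
  rw [← e mc] at k3 ⊢
  exact key _ _ _ k1 k2 k3 ht

theorem AX3_two (h3 : (G.cut T).card = 3) (ht : G.tw q T h = 0) (ho : ∃ e ∈ G.cut T, Odd (h e)) :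
    ∃ a b c, G.Q3 T a b c ∧ Odd (h a) ∧ Odd (h b) ∧ ¬ Odd (h c) := by
  obtain ⟨a, b, c, k⟩ := exists_q3 h3
  obtain ⟨ma, mb, mc⟩ := AX3_mem k
  rw [tw, AX3_sum k] at ht
  have k1 : (h a + h b + h c) % 2 = 0 := by
    rcases Def6_kap q ma with x | x <;> rcases Def6_kap q mb with y | y <;>
      rcases Def6_kap q mc with w | w <;> rw [x, y, w] at ht <;> omega
  have k2 : h a % 2 = 1 ∨ h b % 2 = 1 ∨ h c % 2 = 1 := by
    simpa only [k.1, mem_insert, mem_singleton, exists_eq_or_imp, exists_eq_left, Int.odd_iff]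
      using ho
  simp only [Int.odd_iff]
  by_cases x : h a % 2 = 1
  · by_cases y : h b % 2 = 1
    · exact ⟨a, b, c, k, x, y, by omega⟩
    · exact ⟨c, a, b, AX3_rot (AX3_rot k), by omega, x, y⟩
  · exact ⟨b, c, a, AX3_rot k, by omega, by omega, x⟩

theorem AX3_cast : ((G.tw q T h : ℤ) : ZMod 3) = G.tw q T fun e => (h e : ZMod 3) := by
  simp only [tw, Int.cast_sum, Int.cast_mul, Def6_cast]

theorem AX3_res {x : ℤ} (h : x ≠ 0 ∧ |x| ≤ 5) (ho : ¬ Odd x) : (x : ZMod 3) ≠ 0 := by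
  rw [Ne, ZMod.intCast_zmod_eq_zero_iff_dvd, Nat.cast_ofNat]
  rw [Int.odd_iff] at ho
  rcases abs_cases x with k | k <;> omega

theorem AX3_lift {O : Finset E} {φ : E → ZMod 3} (hc : G.Cub) (hT : G.HT T) (hOA : O ⊆ G.A)
    (hO : G.Ev O) (hφ : G.Sl T O ∅ φ) (hh : ∀ e ∈ G.cut T, Av O φ e (h e))
    (hit : ∀ K ⊆ T, G.US K → ∀ g, G.Df O φ K g →
      (∃ e ∈ G.cut K, e ∉ O ∨ φ e = 0) ∨ 6 ≤ ∑ e ∈ G.cut K, |g e|)
    (ht : G.tw q T h = 0) (hm : ∑ e ∈ O ∩ G.ins T, G.sw q e = 0)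
    (hs : ∑ e ∈ G.cut T, |h e| < 12) : G.Ext T h := by
  obtain ⟨f, h1, h2, h3⟩ := lift6 hc hT.act (fun e => hT.noloop hc) hOA (fun v _ => hO v) hφ
    Subset.rfl hh (fun _ => 0) (fun e => (h e).natAbs) (fun e _ => (Int.natCast_natAbs _).ge)
    (fun K a b _ g d => by
      refine ((hT.df hc a b hOA (fun v _ => hO v) ⟨fun v x => hφ.1 v (a.1 x),
        fun e x => hφ.2.1 e (tch_mono a.1 x), fun t x => absurd x (Set.notMem_empty t)⟩
        (fun x => hit K a.1 x g d) d).trans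
        (sum_split_max K (G.cut T) g fun e => (h e).natAbs)).trans_eq ?_
      simp only [Nat.cast_zero, sum_const_zero, add_zero])
    (Or.inl ⟨rfl, not_df hOA (fun v _ => hO v) q (m := 0) (by rw [ht, mul_zero])
      (by rw [hm, Int.cast_zero]), by
        rw [sum_const_zero, zero_add, ← Nat.cast_lt (α := ℤ), Nat.cast_sum]
        simpa only [Int.natCast_natAbs, Nat.cast_ofNat] using hs⟩)
  exact ext_of_av hφ h1 h2 h3

omit [DecidableEq E] in
theorem AX3_oe {e : E} : G.oe (univ \ T) e = G.ie T e := by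
  simp only [oe, ie, mem_sdiff, mem_univ, true_and, ite_not]

/-- HINT: contract the complement of `T` to an outer end `r` (`exists_ce`, `Ce.tw_out`,
`Ce.bal`, `Agr.ht`); exactly two values are odd; `Root` with the residues of `cf`; `lift6` in the
new graph with `P = cut T` (`HT.df`, `Df.cobal`; `not_df` with the potential `q`, `m = 0` and
`Ev.par_eq`; the three values have total size at most ten); `ext_of_av`, `Agr.ext`. -/
theorem x3o_of_root (hR : ∀ G' : SG V E, G'.Root) (hc : G.Cub) : G.X3O := by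
  intro T q h hT hA hB ht ho
  obtain ⟨a, b, c, k, oa, ob, oc⟩ := AX3_two hT.2.1 ht ho
  obtain ⟨ma, mb, mc⟩ := AX3_mem k
  have hr := oe_not_mem ma
  generalize G.oe T a = r at hr
  obtain ⟨G', hC⟩ := exists_ce (G := G) (mem_sdiff.2 ⟨mem_univ r, hr⟩) fun e => q (G.ie T e)
  have hd : Disjoint T (univ \ T) := disjoint_sdiff
  have cc : ∀ e ∈ G.cut T, e ∈ G.cut (univ \ T) := fun e x => by rwa [cut_compl]
  obtain ⟨l1, l2, -⟩ := hC.agr.loc hd
  have hc' := hC.cub hc (by rw [cut_compl, hT.2.1])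
  have hT' := (hC.agr.ht hd).2.2 hT
  have k' : G'.Q3 T a b c := ⟨l2.trans k.1, k.2⟩
  have m : ∀ e ∈ G.tch T, e ∈ G'.A := fun e x => by
    rw [hC.hA, mem_sdiff, mem_ins]
    simp only [mem_sdiff, mem_univ, true_and]
    exact ⟨(mem_tch.1 x).1, fun y => (mem_tch.1 x).2.elim y.2.1 y.2.2⟩
  have ab := cf_abs (G := G) (X := univ \ T) h
  have hB' : G'.Bv T (G.cf (univ \ T) h) := fun e x => by
    rw [← abs_ne_zero, (ab e).1, abs_ne_zero]
    exact hB e (l2 ▸ x)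
  have ht' : G'.tw q T (G.cf (univ \ T) h) = 0 := (hC.agr.tw hd h).trans ht
  obtain ⟨O, o1, o2, o3, o4, o5, φ, p1, p2, p3, p4, p5, p6⟩ := hR G' hc' r T a b c hr
    (by rw [hC.vs ⟨a, cc a ma⟩, sdiff_sdiff_right, sdiff_eq_empty_iff_subset.2
      (subset_univ _), inf_eq_inter, inf_eq_inter, sup_eq_union, empty_union, inter_univ,
      inter_eq_right.2 hT.1.act]) hT' k'
    (fun z x => by
      obtain ⟨p, y, y'⟩ := (hC.bal (erase_subset _ _)).1 x
      rw [cut_compl] at y y'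
      exact hA z ⟨p, fun e u w => y e (mem_erase.2 ⟨w, m e (ins_sub_tch u)⟩)
        fun u' => not_ins_of_cut u' u, fun e u w =>
        ((y' e (mem_erase.2 ⟨w, m e (cut_sub_tch u)⟩) u).trans (congrArg p AX3_oe)).symm⟩)
    (fun e => ((G.cf (univ \ T) h e : ℤ) : ZMod 3))
    (by rw [funext (cf_cast h), hC.tw_out, ← AX3_cast, ht, Int.cast_zero, neg_zero])
    (AX3_res (hB' c (l2 ▸ mc)) fun x => oc ((ab c).2.1.1 x))
  have o6 : c ∉ O := fun x => by
    have y := o2.even_crs T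
    rw [GNorm_crs o1, inter_eq_right.2, hT'.2.1] at y
    · exact absurd y (by decide)
    · rw [k'.1]
      exact insert_subset o4 (insert_subset o5 (singleton_subset_iff.2 x))
  refine (hC.agr.ext hd).1 (AX3_lift hc' hT'.1 o1 o2 ⟨fun v _ => p1 v,
    fun e x => p2 e (Ab_tch_sub x), fun t x => absurd x (Set.notMem_empty t)⟩ (fun e x => ?_)
    (fun K x y g d => (p6 K x y).imp_right fun w => d.cobal o1 o2 o3 p1 w) ht' ?_
    (AX3_size hT'.2.1 hB' ht'))
  · refine ⟨(hB' e x).2, (ab e).2.1.trans ?_, ?_⟩ <;> rw [k'.1] at x <;>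
      simp only [mem_insert, mem_singleton] at x <;> rcases x with rfl | rfl | rfl
    exacts [iff_of_true oa o4, iff_of_true ob o5, iff_of_false oc o6, p3.symm, p4.symm, p5.symm]
  · have s : ∀ e ∈ G.cut T, G'.sw q e = q r := fun e x => by
      have y := hC.ed e (cc e x)
      rw [sw, (hC.agr.cut e (cc e x)).1, y.1, y.2, AX3_oe, z2_add_self, zero_add]
    have y : O \ G'.ins T = {a, b} := by
      ext e
      rw [mem_sdiff]
      simp only [mem_insert, mem_singleton]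
      constructor
      · rintro ⟨x, y⟩
        have w : e ∈ G'.cut T := (mem_tch_iff.1 (not_not.1 fun w => notMem_empty e
          (hC.ins ▸ mem_ins.2 ⟨o1 x, mem_sdiff.2 ⟨mem_univ _, fun u => w (mem_tch.2
            ⟨o1 x, Or.inl u⟩)⟩, mem_sdiff.2 ⟨mem_univ _, fun u => w (mem_tch.2
            ⟨o1 x, Or.inr u⟩)⟩⟩))).resolve_left y
        rw [k'.1] at w
        simp only [mem_insert, mem_singleton] at w
        exact w.imp_right fun w => w.resolve_right fun w => o6 (w ▸ x)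
      · rintro (rfl | rfl)
        exacts [⟨o4, not_ins_of_cut (l2 ▸ ma)⟩, ⟨o5, not_ins_of_cut (l2 ▸ mb)⟩]
    have w := sum_inter_add_sum_sdiff O (G'.ins T) (G'.sw q)
    rwa [y, sum_pair k.2.1, s a ma, s b mb, z2_add_self, add_zero, ← o2.par_eq, o3] at w

/-- HINT: `cse`; choose `q` so that the three switched outflows are one (`HT.f2'`).
Admissibility: by `sum_bd` a critical edge has residue zero, so it lies in `O` and `O` is odd
(`Ev.par_eq`).  All values even: the solution or its negative has the right residues; `lift6`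
with `HT.df`, `not_df`; the total size is eight. -/
theorem x3n (hc : G.Cub) (hO : G.X3O) : G.X3N := by
  intro T hT
  obtain ⟨O, φ, h1, h2, h3⟩ := cse hc hT
  have nO : ∀ e ∈ G.cut T, e ∉ O := fun e a b => not_ins_of_cut a (h1.sub_ins b)
  obtain ⟨q, hq⟩ : ∃ q : V → ZMod 2, ∀ e ∈ G.cut T, G.kap q T e * φ e = 1 := by
    classical
    refine ⟨fun v => if ∃ e ∈ G.cut T, G.ie T e = v ∧ G.out T φ e = -1 then 1 else 0,
      fun e a => ?_⟩
    rw [(kap_sign _ a).1, mul_assoc]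
    change chi _ * G.out T φ e = 1
    split_ifs with k
    · obtain ⟨f, b, c, d⟩ := k
      obtain rfl : f = e := not_not.1 fun x => AX3_dv hc hT b a x c
      rw [d, chi_one, neg_mul_neg, one_mul]
    · rw [chi_zero, one_mul]
      exact (by decide : ∀ x : ZMod 3, x ≠ 0 → x ≠ -1 → x = 1) _
        ((out_ne a).2 (h3.2.1 e (cut_sub_tch a) (nO e a))) fun x => k ⟨e, a, rfl, x⟩
  obtain ⟨a, b, c, k⟩ := exists_q3 hT.2.1
  obtain ⟨ma, mb, mc⟩ := AX3_mem k
  have hA : G.AdT T q := not_not.1 fun x => by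
    obtain ⟨z, mz, p, p1, p2⟩ := not_adt hT x
    have s1 : G.sw p z = 1 := (z2_ne _).1 fun y => hT.2.2 ⟨p, fun e m => by
      by_cases w : e = z
      exacts [w ▸ y, p1 e m w]⟩
    have s2 : ∀ e ∈ G.cut T, G.kap p T e * φ e = 1 := fun e m => by
      rw [(kap_sign _ m).1, p2 e m, ← (kap_sign _ m).1, hq e m]
    have s3 := Def6_split (G := G) p T φ
    rw [sum_eq_zero fun v m => by rw [h3.1 v m, mul_zero], tw, AX3_sum k, s2 a ma, s2 b mb,
      s2 c mc, sum_eq_single_of_mem z mz fun e m w => by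
        rw [sol1_kap_zero m (p1 e m w), zero_mul], show (1 + (1 + 1) : ZMod 3) = 0 from rfl,
      zero_add] at s3
    have s4 : z ∈ O := not_not.1 fun y =>
      mul_ne_zero (Node_chord mz s1) (h3.2.1 z (ins_sub_tch mz) y) s3.symm
    rw [h1.ev.par_eq p, sum_eq_single_of_mem z s4 fun e m => p1 e (h1.sub_ins m), s1] at h2
    exact one_ne_zero h2
  refine ⟨q, hA, fun h hB ht => ?_⟩
  by_cases ho : ∃ e ∈ G.cut T, Odd (h e)
  · exact hO T q h hT hA hB ht ho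
  have r : ∀ e ∈ G.cut T, (G.kap q T e : ZMod 3) * h e ≠ 0 := fun e m =>
    mul_ne_zero (red_kap_ne m) (AX3_res (hB e m) fun x => ho ⟨e, m, x⟩)
  have s := AX3_cast (G := G) (q := q) (T := T) (h := h)
  rw [ht, Int.cast_zero, tw, AX3_sum k] at s
  obtain ⟨x, x0, x1, x2, x3⟩ := red_three _ _ _ 1 1 1 (r a ma) (r b mb) (r c mc) one_ne_zero
    one_ne_zero one_ne_zero s.symm rfl
  refine AX3_lift (φ := fun e => x * φ e) hc hT.1 (h1.sub_ins.trans ins_sub_A) h1.ev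
    ⟨fun v m => by rw [bd_mul, h3.1 v m, mul_zero], fun e m y => mul_ne_zero x0 (h3.2.1 e m y),
      fun t m => absurd m (Set.notMem_empty t)⟩
    (fun e m => ⟨(hB e m).2, iff_of_false (fun y => ho ⟨e, m, y⟩) (nO e m),
      (red_cancel _ _ _ _ (red_kap_ne (p := q) m) ?_).symm⟩)
    (fun K m y _ _ => Or.inl ?_) ht ?_ (AX3_size hT.2.1 hB ht)
  · rw [hq e m]
    rw [k.1] at m
    simp only [mem_insert, mem_singleton] at m
    rcases m with rfl | rfl | rfl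
    exacts [x1, x2, x3]
  · obtain ⟨e, u, -, w⟩ := h3.2.2 _ ⟨K, m, y, rfl⟩
    exact ⟨e, u, w.imp_right fun w => by rw [w, mul_zero]⟩
  · rw [inter_eq_left.2 h1.sub_ins, ← h1.ev.par_eq, h2]

end SG

end Pool.Agent.Work.MP_8c679b_co
end

-- merged part: Pool.Agent.Work.MP_8c679b_co.K1.D0
section
/-!
Three-sides with a critical edge: definitions and basic facts.

Setting `KC T p z i j k`: `T` is a three-side with leaving edges `i, j, k`; the potential `p` makes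
all inner edges except `z` consistent.  For a set `X` and an edge `e` leaving `X` the number
`kap p X e * f e` is the outflow of `f` through `e` (measured in the potential `p`), and
`zv p z f` is the outflow through `z` at each of its two ends.  Conservation on `X`:
the outflows through the cut and twice `zv` (if `z` lies inside `X`) add up to zero.
-/

set_option autoImplicit false

namespace Pool.Agent.Work.MP_8c679b_co

open Finset

namespace SG

variable {V E : Type} [Fintype V] [DecidableEq V] [DecidableEq E] {G : SG V E}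

variable (G) in
/-- a three-side with the critical edge `z`, which is not at the terminal of `i` -/
structure KC (T : Finset V) (p : V → ZMod 2) (z i j k : E) : Prop where
  cub : G.Cub
  ht : G.HT T
  q3 : G.Q3 T i j k
  ub : ¬ G.Bal (G.ins T)
  zi : z ∈ G.ins T
  bal : ∀ e ∈ G.ins T, e ≠ z → G.sw p e = 0
  ni : ¬ G.At z (G.ie T i)

variable (G) in
/-- unbalanced sides without terminal -/
def KA (T X : Finset V) : Prop := X ⊆ T ∧ G.US X ∧ G.cut X ⊆ G.ins T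

variable (G) in
/-- unbalanced sides with exactly the terminal of `m` -/
def KB1 (T : Finset V) (m : E) (X : Finset V) : Prop :=
  X ⊆ T ∧ G.US X ∧ G.cut X ∩ G.cut T = {m}

variable (G) in
/-- a solution on `X` which changes the given values `ψ` only inside `X` -/
def Fil (X : Finset V) (J : Finset E) (K : Set (Finset E)) (ψ : E → ZMod 3) (O : Finset E)
    (φ : E → ZMod 3) : Prop :=
  G.St X O J ∧ G.Re X O (G.ins X) K ψ φ

variable (G) in
/-- the outflow through the critical edge at each of its ends -/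
def zv {R : Type} [Ring R] (p : V → ZMod 2) (z : E) (f : E → R) : R := chi (p (G.s z)) * f z

variable (G) in
/-- the graph without the edge `z` -/
def del (z : E) : SG V E := ⟨G.A.erase z, G.s, G.t, G.n⟩

variable {T X Y W : Finset V} {p : V → ZMod 2} {z i j k m a b e f : E} {O J : Finset E}
  {K : Set (Finset E)} {φ ψ : E → ZMod 3}

theorem del_ins : (G.del z).ins X = (G.ins X).erase z := by
  ext e
  simp only [mem_ins, del, mem_erase, and_assoc]

theorem del_pth {S : Finset E} {n : ℕ} {v : ℕ → V} {g : ℕ → E} :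
    (G.del z).Pth S n v g ↔ G.Pth S n v g := by
  exact ⟨fun h => ⟨h.1, h.2, h.3⟩, fun h => ⟨h.1, h.2, h.3⟩⟩

theorem kap_union {R : Type} [CommRing R] (hd : Disjoint X Y) :
    (G.kap p (X ∪ Y) e : R) = G.kap p X e + G.kap p Y e := by
  have k : ∀ v, (iv (v ∈ X ∪ Y) : R) = iv (v ∈ X) + iv (v ∈ Y) := fun v => by
    have k1 := @disjoint_left.1 hd v
    by_cases h1 : v ∈ X
    · simp [iv, h1, k1 h1]
    · simp [iv, h1]
  unfold kap
  rw [k, k]
  ring

theorem kap_link {R : Type} [CommRing R] (hd : Disjoint X Y) (h1 : e ∈ G.cut X) (h2 : e ∈ G.cut Y)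
    (hs : G.sw p e = 0) : (G.kap p Y e : R) = -G.kap p X e := by
  rw [eq_neg_iff_add_eq_zero, add_comm, ← kap_union hd]
  exact sol1_kap_zero (ie_link hd h1 h2).2 hs

theorem kap_sub {R : Type} [CommRing R] (hX : X ⊆ Y) (h1 : e ∈ G.cut Y) (h2 : e ∈ G.tch X) :
    (G.kap p X e : R) = G.kap p Y e := by
  have k1 := @hX (G.s e)
  have k2 := @hX (G.t e)
  rw [mem_cut] at h1
  rw [mem_tch] at h2
  exact Ab_kap _ (by tauto) (by tauto)

theorem kap_sq {R : Type} [CommRing R] (h : e ∈ G.cut X) :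
    (G.kap p X e : R) * G.kap p X e = 1 := by
  obtain ⟨k1, k2⟩ := kap_sign (R := R) p h
  rw [k1, mul_mul_mul_comm, chi_mul_self, k2, mul_one]

theorem kap_ne3 (h : e ∈ G.cut X) : G.kap p X e * φ e ≠ 0 ↔ φ e ≠ 0 := by
  rw [mul_ne_zero_iff, and_iff_right (red_kap_ne h)]

theorem kap_inj {R : Type} [CommRing R] {x y : R} (h : e ∈ G.cut X)
    (hx : G.kap p X e * x = G.kap p X e * y) : x = y := by
  linear_combination (G.kap p X e : R) * hx - (x - y) * kap_sq (R := R) (p := p) h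

theorem zv_ne : G.zv p z φ ≠ 0 ↔ φ z ≠ 0 := by
  rw [zv, mul_ne_zero_iff, and_iff_right (red_chi_ne _)]

theorem tw_q4 {R : Type} [Ring R] {c d : E} (h : G.Q4 X a b c d) (u : E → R) :
    G.tw p X u = G.kap p X a * u a + G.kap p X b * u b + (G.kap p X c * u c + G.kap p X d * u d) := by
  obtain ⟨h, h1, h2, h3, h4, h5, h6⟩ := h
  rw [tw, h, sum_insert (by simp [h1, h2, h3]), sum_insert (by simp [h4, h5]), sum_pair h6,
    add_assoc]

theorem tw_q3 {R : Type} [Ring R] {c : E} (h : G.Q3 X a b c) (u : E → R) :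
    G.tw p X u = G.kap p X a * u a + (G.kap p X b * u b + G.kap p X c * u c) := by
  obtain ⟨h, h1, h2, h3⟩ := h
  rw [tw, h, sum_insert (by simp [h1, h2]), sum_pair h3]

theorem KC.swap (h : G.KC T p z i j k) : G.KC T p z i k j := by
  obtain ⟨k, h1, h2, h3⟩ := h.q3
  exact ⟨h.cub, h.ht, ⟨by rw [k, pair_comm j], h2, h1, h3.symm⟩, h.ub, h.zi, h.bal, h.ni⟩

theorem KC.t3 (h : G.KC T p z i j k) : G.T3 T := by
  obtain ⟨k, h1, h2, h3⟩ := h.q3
  exact ⟨h.ht, by rw [k, card_insert_of_notMem (by simp [h1, h2]), card_pair h3], h.ub⟩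

theorem KC.neg (h : G.KC T p z i j k) : G.sw p z = 1 := by
  refine (z2 _).resolve_left fun k => h.ub ⟨p, fun e he => ?_⟩
  by_cases k1 : e = z
  exacts [k1 ▸ k, h.bal e he k1]

theorem KC.mem (h : G.KC T p z i j k) : i ∈ G.cut T ∧ j ∈ G.cut T ∧ k ∈ G.cut T := by
  rw [h.q3.1]
  simp

theorem KC.cases (h : G.KC T p z i j k) (he : e ∈ G.cut T) : e = i ∨ e = j ∨ e = k := by
  rw [h.q3.1] at he
  simpa using he

theorem KC.dv (h : G.KC T p z i j k) :
    G.ie T i ≠ G.ie T j ∧ G.ie T i ≠ G.ie T k ∧ G.ie T j ≠ G.ie T k := by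
  have k : 1 < T.card := one_lt_card.2 ⟨_, (mem_ins.1 h.zi).2.1, _, (mem_ins.1 h.zi).2.2,
    h.ht.noloop h.cub (ins_sub_tch h.zi)⟩
  obtain ⟨m1, m2, m3⟩ := h.mem
  obtain ⟨-, h1, h2, h3⟩ := h.q3
  exact ⟨h.ht.f2' h.cub h.t3.2.1 k m1 m2 h1, h.ht.f2' h.cub h.t3.2.1 k m1 m3 h2,
    h.ht.f2' h.cub h.t3.2.1 k m2 m3 h3⟩

theorem KC.st (h : G.KC T p z i j k) : G.s z ∈ T ∧ G.t z ∈ T ∧ G.s z ≠ G.t z := by
  exact ⟨(mem_ins.1 h.zi).2.1, (mem_ins.1 h.zi).2.2, h.ht.noloop h.cub (ins_sub_tch h.zi)⟩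

theorem KC.zin (h : G.KC T p z i j k) (hX : X ⊆ T) (hu : ¬ G.Bal (G.ins X)) : z ∈ G.ins X := by
  exact by_contra fun k => hu ⟨p, fun e he => h.bal e (ins_mono hX he) fun k1 => k (k1 ▸ he)⟩

theorem KC.bal' (h : G.KC T p z i j k) (hX : X ⊆ T) (hz : z ∉ G.ins X) :
    ∀ e ∈ G.ins X, G.sw p e = 0 := by
  exact fun e he => h.bal e (ins_mono hX he) fun k1 => hz (k1 ▸ he)

theorem KC.kapz {R : Type} [CommRing R] (h : G.KC T p z i j k) :
    (z ∈ G.ins X → (G.kap p X z : R) = 2 * chi (p (G.s z))) ∧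
      (z ∈ G.cut X → (G.kap p X z : R) = chi (p (G.s z))) := by
  refine ⟨fun k => ?_, fun k => ?_⟩
  · rw [kap_ins (mem_ins.1 k).2.1 (mem_ins.1 k).2.2, h.neg, chi_one]
    ring
  · have k1 := (mem_cut.1 k).2
    have k2 : (chi (G.sw p z) : R) = -1 := by rw [h.neg, chi_one]
    rw [sw, chi_add, chi_add] at k2
    by_cases k3 : G.s z ∈ X
    · have k4 : G.t z ∉ X := by tauto
      simp [kap, iv, k3, k4]
    · have k4 : G.t z ∈ X := by tauto
      simp only [kap, iv, k3, k4, if_true, if_false]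
      linear_combination (chi (p (G.t z)) * chi (G.n z) : R) * chi_mul_self (R := R) (p (G.s z))
        - (chi (p (G.s z)) : R) * k2

/-- the switched sum over all edges.  HINT: `sum_bd`, `Def6_split`, `sol1_kap_zero`. -/
theorem KC.sumA {R : Type} [CommRing R] (h : G.KC T p z i j k) (hX : X ⊆ T) (u : E → R) :
    (z ∈ G.ins X → ∑ e ∈ G.A, G.kap p X e * u e = G.tw p X u + 2 * G.zv p z u) ∧
      (z ∉ G.ins X → ∑ e ∈ G.A, G.kap p X e * u e = G.tw p X u) := by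
  rw [← sum_bd, Def6_split]
  refine ⟨fun k => ?_, fun k => ?_⟩
  · rw [sum_eq_single_of_mem z k fun e he k1 => by
      rw [sol1_kap_zero he (h.bal e (ins_mono hX he) k1), zero_mul], h.kapz.1 k, zv, mul_assoc]
  · rw [sum_eq_zero fun e he => by rw [sol1_kap_zero he (h.bal' hX k e he), zero_mul], add_zero]

/-- conservation -/
theorem KC.cons {R : Type} [CommRing R] (h : G.KC T p z i j k) (hX : X ⊆ T) {u : E → R}
    (hu : ∀ v ∈ X, G.bd u v = 0) :
    (z ∈ G.ins X → G.tw p X u + 2 * G.zv p z u = 0) ∧ (z ∉ G.ins X → G.tw p X u = 0) := by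
  have k : ∑ e ∈ G.A, G.kap p X e * u e = 0 := by
    rw [← sum_bd]
    exact sum_eq_zero fun v hv => by rw [hu v hv, mul_zero]
  exact ⟨fun k1 => ((h.sumA hX u).1 k1).symm.trans k, fun k1 => ((h.sumA hX u).2 k1).symm.trans k⟩

/-- normalising the values away from `X` -/
theorem fil_of (h1 : G.St X O J) (h2 : G.Sl X O K φ) (h3 : ∀ e ∈ G.cut X, φ e = ψ e) :
    ∃ φ', G.Fil X J K ψ O φ' ∧ ∀ e ∈ G.tch X, φ' e = φ e := by
  refine ⟨fun e => if e ∈ G.tch X then φ e else ψ e, ⟨h1, fun e he => ?_,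
    h2.congr (fun e he => if_pos he) fun _ _ => Iff.rfl⟩, fun e he => if_pos he⟩
  dsimp only
  split_ifs with k
  exacts [h3 e ((mem_tch_iff.1 k).resolve_left he), rfl]

theorem fil_self (h1 : G.St X O J) (h2 : G.Sl X O K φ) (h3 : ∀ e ∈ G.tch X, ψ e = φ e) :
    G.Fil X J K ψ O ψ := by
  exact ⟨h1, fun _ _ => rfl, h2.congr h3 fun _ _ => Iff.rfl⟩

/-- Gluing two filled regions.  HINT: `St.union`, `Sl.congr`, `Ab_glue`, `Ab_link`. -/
theorem Fil.union {X1 X2 : Finset V} {J1 J2 O1 O2 : Finset E} {K1 K2 : Set (Finset E)}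
    {φ1 φ2 : E → ZMod 3} (h1 : G.Fil X1 J1 K1 ψ O1 φ1) (h2 : G.Fil X2 J2 K2 ψ O2 φ2)
    (hd : Disjoint X1 X2) (hJ : ∀ e ∈ G.tch X1, e ∈ G.tch X2 → (e ∈ J1 ↔ e ∈ J2)) :
    ∃ φ, G.Fil (X1 ∪ X2) ((J1 ∪ J2) \ (J1 ∩ J2)) (K1 ∪ K2) ψ (O1 ∪ O2) φ ∧
      (∀ e ∈ G.tch X1, φ e = φ1 e ∧ (e ∈ O1 ∪ O2 ↔ e ∈ O1)) ∧
      (∀ e ∈ G.tch X2, φ e = φ2 e ∧ (e ∈ O1 ∪ O2 ↔ e ∈ O2)) ∧
      ∀ e, e ∉ G.ins X1 → e ∉ G.ins X2 → φ e = ψ e := by
  obtain ⟨k, g1, g2, -⟩ := h1.1.union h2.1 hd hJ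
  obtain ⟨φ, r, c1, c2⟩ := Ab_glue (O := O1 ∪ O2) ⟨h1.2.1, h1.2.2.congr (fun _ _ => rfl) g1⟩
    ⟨h2.2.1, h2.2.2.congr (fun _ _ => rfl) g2⟩ fun e e1 e2 =>
      (h1.2.1 e (not_ins_of_cut (Ab_link hd e1 e2).1)).trans
        (h2.2.1 e (not_ins_of_cut (Ab_link hd e1 e2).2)).symm
  exact ⟨φ, ⟨k, fun e he => r.1 e fun k1 => he (union_subset (ins_mono subset_union_left)
    (ins_mono subset_union_right) k1), r.2⟩, fun e he => ⟨c1 e he, g1 e he⟩,
    fun e he => ⟨c2 e he, g2 e he⟩, fun e e1 e2 => r.1 e fun k1 => (mem_union.1 k1).elim e1 e2⟩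

theorem Fil.mono {K' : Set (Finset E)} (h : G.Fil X J K ψ O φ) (hK : K' ⊆ K) :
    G.Fil X J K' ψ O φ := by
  exact ⟨h.1, h.2.1, h.2.2.1, h.2.2.2.1, fun t ht => h.2.2.2.2 t (hK ht)⟩

/-- changing the given values -/
theorem Fil.congr {ψ' : E → ZMod 3} (h : G.Fil X J K ψ O φ) (h3 : ∀ e ∈ G.cut X, ψ e = ψ' e) :
    ∃ φ', G.Fil X J K ψ' O φ' ∧ ∀ e ∈ G.tch X, φ' e = φ e := by
  exact fil_of h.1 h.2.2 fun e he => (h.2.1 e (not_ins_of_cut he)).trans (h3 e he)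

/-- a single vertex -/
theorem fil_vtx (hc : G.Cub) (hT : G.HT T) {x : V} (hx : x ∈ T) (hJ : J ⊆ G.cut {x})
    (hE : Even J.card) (h0 : G.tw p {x} ψ = 0) (h1 : ∀ e ∈ G.cut {x}, e ∉ J → ψ e ≠ 0) :
    G.Fil {x} J ∅ ψ J ψ := by
  obtain ⟨-, k1, k2⟩ := hT.vtx hc hx
  refine ⟨⟨hJ.trans cut_sub_tch, fun v hv => ?_, inter_eq_left.2 hJ⟩, fun _ _ => rfl,
    fun v hv => ?_, fun e he => h1 e (k2 ▸ he), fun t ht => ht.elim⟩
  · have k3 := sum_dg (G := G) J {x}
    have k4 : G.crs J {x} = J := filter_true_of_mem fun e he => (mem_cut.1 (hJ he)).2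
    rw [sum_singleton, k4, ZMod.natCast_eq_zero_iff_even.2 hE] at k3
    rw [mem_singleton.1 hv, k3]
  · have k3 := Def6_split (G := G) p {x} ψ
    rw [sum_singleton, h0, k1, sum_empty, add_zero] at k3
    rw [mem_singleton.1 hv]
    exact (mul_eq_zero.1 k3).resolve_left (red_chi_ne _)

end SG

end Pool.Agent.Work.MP_8c679b_co
end

-- merged part: Pool.Agent.Work.MP_8c679b_co.A3.YD
section
/-!
Systems of boxes of a three-side.  A dangerous side is an unbalanced side without terminal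
(`KA T S`).  A system is a family of disjoint dangerous sides such that every dangerous side lies
in a box or contains the tolerance vertex and all boxes.
-/

set_option autoImplicit false

namespace Pool.Agent.Work.MP_8c679b_co

open Finset

namespace SG

variable {V E : Type} [Fintype V] [DecidableEq V] [DecidableEq E] (G : SG V E)

/-- a system of boxes with tolerance vertex `v0` -/
structure Sy (T : Finset V) (Bs : Finset (Finset V)) (v0 : V) : Prop where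
  pd : PD Bs
  bx : ∀ B ∈ Bs, G.KA T B
  v0T : v0 ∈ T
  v0x : ¬ G.Ex T v0
  cov : ∀ S, G.KA T S → (∃ B ∈ Bs, S ⊆ B) ∨ (v0 ∈ S ∧ ∀ B ∈ Bs, B ⊆ S)
  m3 : ∀ B ∈ Bs, ∀ B' ∈ Bs, B ≠ B' → (G.cut (B ∪ B')).card ≠ 4

/-- there are two disjoint objects (boxes or odd circuits off the boxes) -/
def To (T : Finset V) (Bs : Finset (Finset V)) : Prop :=
  2 ≤ Bs.card ∨ (∃ B, Bs = {B} ∧ ¬ G.Bal (G.ins (T \ B))) ∨ (Bs = ∅ ∧ ¬ G.K1 T)

/-- a dangerous side with balanced complement that is comparable with all dangerous sides -/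
def Cen (T B : Finset V) : Prop :=
  G.KA T B ∧ G.Bal (G.ins (T \ B)) ∧ ∀ S, G.KA T S → S ⊆ B ∨ B ⊆ S

/-- a chain with two disjoint unbalanced ends -/
structure Ycn (T B : Finset V) (a b c d : E) (A A' : Finset V) : Prop where
  cen : G.Cen T B
  q4 : G.Q4 B a b c d
  sp : G.Sp B a b A
  sp' : G.Sp B c d A'
  dj : Disjoint A A'
  ub : ¬ G.Bal (G.ins A)
  ub' : ¬ G.Bal (G.ins A')

end SG

end Pool.Agent.Work.MP_8c679b_co
end

-- merged part: Pool.Agent.Work.MP_8c679b_co.K1.GX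
section
/-!
A path that separates three marked vertices.

PLAN for `k1_xb3` (compare `xb3` in `Six/GXb`, whose proof can be copied).  Call a path from
`s` to `t` bad if two of the marked vertices (with different indices) lie off the path in the same
component `cmp (U \ pv n v) _`.  Among the bad pairs minimise the card of the component `K`.  By
`h2` the set `K` has two crossing edges; both end on the path (`cmp_spec`), and at different
vertices, because a path vertex has at most one further edge (`hdeg`, `Pth.deg`; `n ≥ 1` since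
`s ≠ t`).  `GXb_rr` gives a new path for which `K \ pv` is closed and smaller.  If the new path is
bad, its pair shares an index with the old pair or contains it (three indices), so its component
lies in `K \ pv`: contradiction.  For a path that is not bad take for `W1`, `W2` the components of
`d1`, `d2` (or the empty set if the vertex is on the path); use `cmp_min` and symmetry of `Rch`.
-/

set_option autoImplicit false

namespace Pool.Agent.Work.MP_8c679b_co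

open Finset

namespace SG

variable {V E : Type} [Fintype V] [DecidableEq V] [DecidableEq E] {G : SG V E}

/-- a closed set with two crossing edges has two attachments -/
theorem K1GX_att {U K : Finset V} {n : ℕ} {v : ℕ → V} {g : ℕ → E} (hp : G.Pth (G.ins U) n v g)
    (hst : v 0 ≠ v n) (hdeg : ∀ x ∈ U, G.deg (G.ins U) x + iv (x = v 0) + iv (x = v n) ≤ 3)
    (k2 : K ⊆ U \ pv n v) (k3 : G.crs (G.ins (U \ pv n v)) K = ∅)
    (h2 : 2 ≤ (G.crs (G.ins U) K).card) {i : ℕ} (hi : i ≤ n) :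
    ∃ z ∈ pv n v, z ≠ v i ∧ ∃ f ∈ G.ins U, ∃ x ∈ K, G.Je f z x := by
  by_contra hno
  have key : ∀ f ∈ G.crs (G.ins U) K, f ∈ G.ins U \ pe n g ∧ G.At f (v i) ∧ v i ∈ U := by
    intro f hf
    obtain ⟨f1, f2⟩ := mem_crs.1 hf
    have f3 : f ∈ G.cut K := mem_cut.2 ⟨ins_sub_A f1, f2⟩
    have j : G.Je f (G.ie K f) (G.oe K f) := je_ie_oe
    have x1 := ie_mem (cut_sub_tch f3)
    have z1 := ((Pth_ends j).1 (mem_ins.1 f1).2).2
    have z2 : G.oe K f ∈ pv n v := by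
      by_contra h
      exact filter_eq_empty_iff.1 k3
        (Cut_je_ins (ins_sub_A f1) j (k2 x1) (mem_sdiff.2 ⟨z1, h⟩)) f2
    have z3 : G.oe K f = v i := by
      by_contra h
      exact hno ⟨_, z2, h, f, f1, _, x1, j.symm⟩
    refine ⟨mem_sdiff.2 ⟨f1, fun h => ?_⟩, j.at_iff.2 (Or.inr z3.symm), z3 ▸ z1⟩
    obtain ⟨l, hl, e⟩ := mem_pe.1 h
    have h3 := Pth_ins hp ins_sub_A hl
    rw [e] at h3
    exact (mem_sdiff.1 (k2 x1)).2 ((Pth_ends j).1 (mem_ins.1 h3).2).1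
  obtain ⟨f, hf, f', hf', hne⟩ := one_lt_card.1 (show 1 < (G.crs (G.ins U) K).card by omega)
  have h3 : G.deg {f, f'} (v i) ≤ G.deg (G.ins U \ pe n g) (v i) :=
    deg_mono (insert_subset (key f hf).1 (singleton_subset_iff.2 (key f' hf').1))
  rw [deg, sum_pair hne] at h3
  have h4 := inc_pos.2 (key f hf).2.1
  have h5 := inc_pos.2 (key f' hf').2.1
  have h6 := deg_sdiff (G := G) (v := v i) hp.pe_sub
  have h7 := hdeg _ (key f hf).2.2
  have hn : n ≠ 0 := fun h => hst (by rw [h])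
  rw [hp.deg hi] at h6
  unfold iv at h6 h7
  by_cases c1 : i = 0
  · rw [if_neg (by omega), if_pos (by omega)] at h6
    rw [if_pos (by rw [c1])] at h7
    omega
  · by_cases c2 : i = n
    · rw [if_pos (by omega), if_neg (by omega)] at h6
      rw [if_pos (c := v i = v n) (by rw [c2])] at h7
      omega
    · rw [if_pos (by omega), if_pos (by omega)] at h6
      omega

theorem K1GX_core {U : Finset V} {s t : V} {d : Fin 3 → V} (e0 : E) (hst : s ≠ t)
    (hr : G.Rch (G.ins U) s t)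
    (hdeg : ∀ x ∈ U, G.deg (G.ins U) x + iv (x = s) + iv (x = t) ≤ 3) (hd : ∀ i, d i ∈ U)
    (h2 : ∀ K ⊆ U, s ∉ K → t ∉ K → ∀ i j, i ≠ j → d i ∈ K → d j ∈ K →
      2 ≤ (G.crs (G.ins U) K).card) :
    ∃ n v g, G.Pth (G.ins U) n v g ∧ v 0 = s ∧ v n = t ∧
      ∀ i j, i ≠ j → d i ∉ pv n v → d j ∉ G.cmp (U \ pv n v) (d i) := by
  by_contra hno
  have bad : ∀ n v g, G.Pth (G.ins U) n v g → v 0 = s → v n = t →
      ∃ i j, i ≠ j ∧ d i ∉ pv n v ∧ d j ∈ G.cmp (U \ pv n v) (d i) := fun n v g hp h0 hn => by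
    by_contra h
    exact hno ⟨n, v, g, hp, h0, hn, fun i j h1 h3 h4 => h ⟨i, j, h1, h3, h4⟩⟩
  have key : ∀ c n v g, G.Pth (G.ins U) n v g → v 0 = s → v n = t →
      ∀ i j, i ≠ j → d i ∉ pv n v → d j ∈ G.cmp (U \ pv n v) (d i) →
        (G.cmp (U \ pv n v) (d i)).card ≠ c := by
    intro c
    induction c using Nat.strong_induction_on with
    | _ c ih =>
    intro n v g hp h0 hn i j hij h1 h3 hcard
    obtain ⟨k1, k2, k3, k4⟩ := cmp_spec (G := G) (mem_sdiff.2 ⟨hd i, h1⟩)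
    have h4 := h2 _ (k2.trans sdiff_subset)
      (fun h => (mem_sdiff.1 (k2 h)).2 (mem_pv.2 ⟨0, n.zero_le, h0⟩))
      (fun h => (mem_sdiff.1 (k2 h)).2 (mem_pv.2 ⟨n, le_rfl, hn⟩)) i j hij k1 h3
    obtain ⟨n', v', g', p1, p2, p3, ⟨x, x1, x2⟩, p4⟩ := GXb_rr hp k2 k3 k4 fun l hl =>
      K1GX_att hp (by rw [h0, hn]; exact hst) (by rw [h0, hn]; exact hdeg) k2 k3 h4 hl
    obtain ⟨a, b, hab, q1, q3⟩ := bad n' v' g' p1 (p2.trans h0) (p3.trans hn)
    have q4 : d a ∈ G.cmp (U \ pv n v) (d i) \ pv n' v' := by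
      have q5 : ∀ f, f = i ∨ f = j → d f ∈ G.cmp (U \ pv n v) (d i) :=
        fun f hf => hf.elim (fun h => h ▸ k1) fun h => h ▸ h3
      by_cases q6 : a = i ∨ a = j
      · exact mem_sdiff.2 ⟨q5 a q6, q1⟩
      · exact (mem_cmp.1 q3).2.symm.closed p4
          (mem_sdiff.2 ⟨q5 b (by omega), (mem_sdiff.1 (mem_cmp.1 q3).1).2⟩)
    refine ih _ ?_ n' v' g' p1 (p2.trans h0) (p3.trans hn) a b hab q1 q3 rfl
    rw [← hcard]
    refine card_lt_card (Finset.ssubset_of_subset_of_ssubset (cmp_min q4 (filter_eq_empty_iff.2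
      fun f hf => not_not.2 (p4 f hf))) ?_)
    exact (ssubset_iff_of_subset sdiff_subset).2 ⟨x, x1, fun h => (mem_sdiff.1 h).2 x2⟩
  obtain ⟨n, v, g, hp, h0, hn⟩ := hr.pth e0
  obtain ⟨i, j, hij, h1, h3⟩ := bad n v g hp h0 hn
  exact key _ n v g hp h0 hn i j hij h1 h3 rfl

theorem k1_xb3 {U : Finset V} {s t d1 d2 d3 : V} (e0 : E) (hs : s ∈ U) (hst : s ≠ t)
    (hr : G.Rch (G.ins U) s t)
    (hdeg : ∀ x ∈ U, G.deg (G.ins U) x + iv (x = s) + iv (x = t) ≤ 3)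
    (h1 : d1 ∈ U) (h1' : d2 ∈ U) (h1'' : d3 ∈ U)
    (h2 : ∀ K ⊆ U, s ∉ K → t ∉ K →
      (d1 ∈ K ∧ d2 ∈ K) ∨ (d1 ∈ K ∧ d3 ∈ K) ∨ (d2 ∈ K ∧ d3 ∈ K) →
      2 ≤ (G.crs (G.ins U) K).card) :
    ∃ n v g, G.Pth (G.ins U) n v g ∧ v 0 = s ∧ v n = t ∧ ∃ W1 W2, W1 ⊆ U \ pv n v ∧
      W2 ⊆ U \ pv n v ∧ Disjoint W1 W2 ∧ G.crs (G.ins (U \ pv n v)) W1 = ∅ ∧
      G.crs (G.ins (U \ pv n v)) W2 = ∅ ∧ (d1 ∈ pv n v ∨ d1 ∈ W1) ∧ (d2 ∈ pv n v ∨ d2 ∈ W2) ∧
      d2 ∉ W1 ∧ d3 ∉ W1 ∧ d1 ∉ W2 ∧ d3 ∉ W2 := by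
  classical
  obtain ⟨n, v, g, hp, h0, hn, h⟩ := K1GX_core (d := ![d1, d2, d3]) e0 hst hr hdeg
    (fun i => by fin_cases i <;> assumption) fun K k1 k2 k3 i j hij q1 q2 => h2 K k1 k2 k3 (by
      fin_cases i <;> fin_cases j <;> simp_all)
  have a12 : d1 ∉ pv n v → d2 ∉ G.cmp (U \ pv n v) d1 := h 0 1 (by decide)
  have a13 : d1 ∉ pv n v → d3 ∉ G.cmp (U \ pv n v) d1 := h 0 2 (by decide)
  have a21 : d2 ∉ pv n v → d1 ∉ G.cmp (U \ pv n v) d2 := h 1 0 (by decide)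
  have a23 : d2 ∉ pv n v → d3 ∉ G.cmp (U \ pv n v) d2 := h 1 2 (by decide)
  have e1 : ∀ S : Finset E, G.crs S ∅ = ∅ := fun S => filter_eq_empty_iff.2 fun e _ => by simp
  refine ⟨n, v, g, hp, h0, hn, ?_⟩
  by_cases c1 : d1 ∈ pv n v <;> by_cases c2 : d2 ∈ pv n v
  · exact ⟨∅, ∅, empty_subset _, empty_subset _, disjoint_empty_left _, e1 _, e1 _, Or.inl c1,
      Or.inl c2, notMem_empty _, notMem_empty _, notMem_empty _, notMem_empty _⟩
  · obtain ⟨k1, k2, k3, -⟩ := cmp_spec (G := G) (mem_sdiff.2 ⟨h1', c2⟩)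
    exact ⟨∅, _, empty_subset _, k2, disjoint_empty_left _, e1 _, k3, Or.inl c1,
      Or.inr k1, notMem_empty _, notMem_empty _, a21 c2, a23 c2⟩
  · obtain ⟨k1, k2, k3, -⟩ := cmp_spec (G := G) (mem_sdiff.2 ⟨h1, c1⟩)
    exact ⟨_, ∅, k2, empty_subset _, disjoint_empty_right _, k3, e1 _, Or.inr k1,
      Or.inl c2, a12 c1, a13 c1, notMem_empty _, notMem_empty _⟩
  · obtain ⟨k1, k2, k3, -⟩ := cmp_spec (G := G) (mem_sdiff.2 ⟨h1, c1⟩)
    obtain ⟨l1, l2, l3, -⟩ := cmp_spec (G := G) (mem_sdiff.2 ⟨h1', c2⟩)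
    exact ⟨_, _, k2, l2, disjoint_left.2 fun x x1 x2 => a12 c1 (mem_cmp.2
      ⟨mem_sdiff.2 ⟨h1', c2⟩, (mem_cmp.1 x1).2.trans (mem_cmp.1 x2).2.symm⟩), k3, l3, Or.inr k1,
      Or.inr l1, a12 c1, a13 c1, a21 c2, a23 c2⟩

end SG

end Pool.Agent.Work.MP_8c679b_co
end

-- merged part: Pool.Agent.Work.MP_8c679b_co.K1.D
section
/-!
Three-sides with a critical edge: cuts and sides.
-/

set_option autoImplicit false

namespace Pool.Agent.Work.MP_8c679b_co

open Finset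

namespace SG

variable {V E : Type} [Fintype V] [DecidableEq V] [DecidableEq E] {G : SG V E}

variable {T X Y W : Finset V} {p : V → ZMod 2} {z i j k m a b e f : E} {O J : Finset E}
  {K : Set (Finset E)} {φ ψ : E → ZMod 3}

/-- sets with at most five leaving edges are connected -/
theorem HT.cn5 (hT : G.HT T) (hY : Y ⊆ T) (h5 : (G.cut Y).card ≤ 5) : G.Cn Y (G.ins Y) := by
  classical
  intro x hx y hy
  by_contra k
  have h1 : Y.filter (G.Rch (G.ins Y) x) ⊆ Y := filter_subset _ _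
  have h2 : G.crs (G.ins Y) (Y.filter (G.Rch (G.ins Y) x)) = ∅ := by
    refine eq_empty_of_forall_notMem fun g hg => ?_
    obtain ⟨g1, g2⟩ := mem_crs.1 hg
    obtain ⟨-, g3, g4⟩ := mem_ins.1 g1
    exact g2 ⟨fun k1 => mem_filter.2 ⟨g4, (mem_filter.1 k1).2.trans (rch_edge g1)⟩,
      fun k1 => mem_filter.2 ⟨g3, (mem_filter.1 k1).2.trans (rch_edge g1).symm⟩⟩
  have h3 := cut_add (G := G) h1
  rw [h2, card_empty] at h3
  have h4 := hT.mono3 (h1.trans hY) ⟨x, mem_filter.2 ⟨hx, Rch.refl _ _⟩⟩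
  have h6 := hT.mono3 ((sdiff_subset (t := Y.filter (G.Rch (G.ins Y) x))).trans hY)
    ⟨y, mem_sdiff.2 ⟨hy, fun k1 => k (mem_filter.1 k1).2⟩⟩
  omega

/-- The outer ends of a side are different.  HINT: otherwise `insert y X` has three leaving
edges (`Cut_vx`, `Cut_two` for the set `insert y X`, or `cut_add`). -/
theorem HT.oe_ne (hc : G.Cub) (hT : G.HT T) (hX : X ⊆ T) (h4 : (G.cut X).card = 4)
    (he : e ∈ G.cut X) (hf : f ∈ G.cut X) (hef : e ≠ f) (ho : G.oe X e ∈ T)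
    (hne : insert (G.oe X e) X ≠ T) : G.oe X e ≠ G.oe X f := by
  intro k
  have h1 := oe_not_mem he
  have h2 : insert (G.oe X e) X \ X = {G.oe X e} := by
    rw [insert_sdiff_of_notMem _ h1, sdiff_self, bot_eq_empty, insert_empty_eq]
  have h3 := cut_add (G := G) (subset_insert (G.oe X e) X)
  rw [h2, h4, (hT.vtx hc ho).1] at h3
  have h5 : ∀ g ∈ G.cut X, G.oe X g = G.oe X e →
      g ∈ G.crs (G.ins (insert (G.oe X e) X)) X := fun g hg k1 =>
    mem_crs.2 ⟨Cut_je_ins (mem_cut.1 hg).1 je_ie_oe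
      (mem_insert_of_mem (ie_mem (cut_sub_tch hg))) (k1 ▸ mem_insert_self _ _), (mem_cut.1 hg).2⟩
  have h6 : 2 ≤ (G.crs (G.ins (insert (G.oe X e) X)) X).card :=
    one_lt_card.2 ⟨e, h5 e he rfl, f, h5 f hf k.symm, hef⟩
  have h7 := card_pos.2 ⟨_, ie_mem (cut_sub_tch he)⟩
  have h8 := hT.four Subset.rfl ((insert_subset ho hX).ssubset_of_ne hne)
    (by rw [card_insert_of_notMem h1]; omega)
  omega

/-- Two-edge-connected sets that contain `z` are unbalanced.  HINT: if `p'` balances `X`, the set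
of vertices of `X` where `p + p'` has the value at `s z` is crossed only by `z`. -/
theorem KC.unb (h : G.KC T p z i j k) (hX : X ⊆ T) (hz : z ∈ G.ins X) (h2 : G.Two X (G.ins X)) :
    ¬ G.Bal (G.ins X) := by
  rintro ⟨q, hq⟩
  obtain ⟨-, z1, z2⟩ := mem_ins.1 hz
  have h3 := h.neg
  have h4 := hq z hz
  have h5 := h2 (X.filter fun v => p v + q v = p (G.s z) + q (G.s z)) (filter_subset _ _)
    ⟨G.s z, mem_filter.2 ⟨z1, rfl⟩⟩ fun k => by
      have k1 := (mem_filter.1 (k.symm ▸ z2 :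
        G.t z ∈ X.filter fun v => p v + q v = p (G.s z) + q (G.s z))).2
      simp only [sw] at h3 h4
      refine (one_ne_zero : (1 : ZMod 2) ≠ 0) ?_
      linear_combination h4 - h3 + k1 - z2_add_self (q (G.t z)) + z2_add_self (p (G.s z))
  have h6 : G.crs (G.ins X) (X.filter fun v => p v + q v = p (G.s z) + q (G.s z)) ⊆ {z} := by
    intro g hg
    by_contra k
    obtain ⟨g1, g2⟩ := mem_crs.1 hg
    have g3 := h.bal g (ins_mono hX g1) (notMem_singleton.1 k)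
    have g4 := hq g g1
    simp only [sw] at g3 g4
    simp only [mem_filter, (mem_ins.1 g1).2, true_and] at g2
    refine g2 (Eq.congr_left ?_)
    linear_combination g3 + g4 - z2_add_self (G.n g) - z2_add_self (p (G.t g) + q (G.t g))
  have h7 := card_le_card h6
  rw [card_singleton] at h7
  omega

theorem KC.us (h : G.KC T p z i j k) (hX : X ⊆ T) (hz : z ∈ G.ins X) (h4 : (G.cut X).card = 4)
    (h2 : 2 < X.card) : G.US X := by
  exact ⟨h4, h.unb hX hz (h.ht.f3 hX h4 h2)⟩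

theorem K1D_od (hS : G.St X O {a, b}) (hab : a ≠ b) :
    G.Od (O ∩ G.ins X) (G.ie X a) (G.ie X b) := by
  obtain ⟨h1, h2, h3⟩ := hS
  have ha : a ∈ O ∩ G.cut X := h3 ▸ mem_insert_self _ _
  have hb : b ∈ O ∩ G.cut X := h3 ▸ mem_insert_of_mem (mem_singleton_self _)
  intro v
  by_cases hv : v ∈ X
  · have h4 : O = O ∩ G.ins X ∪ {a, b} := by
      rw [← h3, ← inter_union_distrib_left]
      refine (inter_eq_left.2 fun g hg => mem_union.2 (mem_tch_iff.1 (h1 hg))).symm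
    have h5 : Disjoint (O ∩ G.ins X) {a, b} := by
      rw [← h3]
      exact disjoint_left.2 fun g g1 g2 => not_ins_of_cut (mem_inter.1 g2).2 (mem_inter.1 g1).2
    have h6 := h2 v hv
    rw [h4, dg_union h5] at h6
    have h7 : G.dg {a, b} v = iv (v = G.ie X a) + iv (v = G.ie X b) := by
      rw [dg, sum_pair hab, Pure_dg (mem_inter.1 ha).2 hv, Pure_dg (mem_inter.1 hb).2 hv]
    rw [← h7]
    exact z2_eq_of_add h6
  · have h4 : v ≠ G.ie X a := fun k => hv (k ▸ ie_mem (cut_sub_tch (mem_inter.1 ha).2))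
    have h5 : v ≠ G.ie X b := fun k => hv (k ▸ ie_mem (cut_sub_tch (mem_inter.1 hb).2))
    rw [dg_of_not_mem fun k => hv ((sub_ins_iff.1 inter_subset_right).2 k)]
    simp [iv, h4, h5]

/-- The parity of a pass tells whether it contains `z`.  HINT: `O ∩ ins X` has the odd vertices
`ie X a`, `ie X b` (`Pure_dg`); `Od.par_eq`. -/
theorem KC.parz (h : G.KC T p z i j k) (hX : X ⊆ T) (hS : G.St X O {a, b}) (hab : a ≠ b) :
    z ∈ O ∩ G.ins X ↔ G.par (O ∩ G.ins X) = p (G.ie X a) + p (G.ie X b) + 1 := by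
  have h1 := (K1D_od hS hab).par_eq p
  have h2 : ∀ g ∈ O ∩ G.ins X, g ≠ z → G.sw p g = 0 := fun g hg =>
    h.bal g (ins_mono hX (mem_inter.1 hg).2)
  constructor
  · intro hz
    rw [sum_eq_single_of_mem z hz h2, h.neg] at h1
    linear_combination -h1 - z2_add_self (p (G.ie X a)) - z2_add_self (p (G.ie X b))
  · intro hp
    by_contra hz
    rw [sum_eq_zero fun g hg => h2 g hg fun k => hz (k ▸ hg), hp] at h1
    refine (one_ne_zero : (1 : ZMod 2) ≠ 0) ?_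
    linear_combination -h1 - z2_add_self (p (G.ie X a)) - z2_add_self (p (G.ie X b))

/-- The twist at the terminal of `i` is admissible.  HINT: `not_adt`, `crit_pair`; compare the
three terminals; `mem_cut_single`. -/
theorem KC.adt (h : G.KC T p z i j k) : G.AdT T fun v => p v + iv (v = G.ie T i) := by
  by_contra x
  obtain ⟨z', -, q, q1, q2⟩ := not_adt h.t3 x
  obtain ⟨mi, mj, mk⟩ := h.mem
  obtain ⟨d1, d2, d3⟩ := h.dv
  have s1 := q2 i mi
  have s2 := q2 j mj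
  have s3 := q2 k mk
  simp only [iv, d1.symm, d2.symm, if_true, if_false, add_zero] at s1 s2 s3
  obtain ⟨g, mg, k1, c, k2⟩ := crit_pair h.cub h.t3 h.bal q1 fun ⟨c, k1⟩ => by
    have t1 := k1 i mi
    have t2 := k1 j mj
    refine (one_ne_zero : (1 : ZMod 2) ≠ 0) ?_
    linear_combination t2 - t1 - s1 + s2
  have t1 := k2 _ (ie_mem (cut_sub_tch mi))
  have t2 := k2 _ (ie_mem (cut_sub_tch mj))
  have t3 := k2 _ (ie_mem (cut_sub_tch mk))
  rcases h.cases mg with rfl | rfl | rfl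
  · exact h.ni ((mem_cut_single h.st.2.2).1 (AX3_mem k1).1).2
  · simp only [iv, d1, d3.symm, if_false, add_zero] at t1 t3
    refine (one_ne_zero : (1 : ZMod 2) ≠ 0) ?_
    linear_combination t1 - t3 - s1 + s3 - z2_add_self (p (G.ie T i)) + z2_add_self (p (G.ie T k))
  · simp only [iv, d2, d3, if_false, add_zero] at t1 t2
    refine (one_ne_zero : (1 : ZMod 2) ≠ 0) ?_
    linear_combination t1 - t2 - s1 + s2 - z2_add_self (p (G.ie T i)) + z2_add_self (p (G.ie T j))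

theorem KB1.mem (h : G.KB1 T m X) : m ∈ G.cut X ∧ m ∈ G.cut T ∧ G.ie T m ∈ X ∧
    G.ie X m = G.ie T m ∧ (∀ e ∈ G.cut T, e ≠ m → G.ie T e ∉ X ∧ e ∉ G.tch X) ∧
    ∀ e ∈ G.cut X, e ≠ m → e ∈ G.ins T ∧ G.oe X e ∈ T \ X := by
  obtain ⟨h1, -, h3⟩ := h
  obtain ⟨m1, m2⟩ := mem_inter.1 (h3 ▸ mem_singleton_self m : m ∈ G.cut X ∩ G.cut T)
  have m3 := (cut_of_sub h1 m2 (cut_sub_tch m1)).2
  refine ⟨m1, m2, m3 ▸ ie_mem (cut_sub_tch m1), m3, fun g g1 g2 => ?_, fun g g1 g2 => ?_⟩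
  · have g3 : g ∉ G.tch X := fun k =>
      g2 (mem_singleton.1 (h3 ▸ mem_inter.2 ⟨(cut_of_sub h1 g1 k).1, g1⟩))
    exact ⟨fun k => g3 (Cut_tch (mem_cut.1 g1).1 ie_at k), g3⟩
  · have g3 : g ∈ G.ins T := (mem_tch_iff.1 (tch_mono h1 (cut_sub_tch g1))).resolve_right fun k =>
      g2 (mem_singleton.1 (h3 ▸ mem_inter.2 ⟨g1, k⟩))
    refine ⟨g3, mem_sdiff.2 ⟨?_, oe_not_mem g1⟩⟩
    rcases oe_at (G := G) (X := X) (e := g) with k | k
    exacts [k ▸ (mem_ins.1 g3).2.1, k ▸ (mem_ins.1 g3).2.2]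

theorem K1D_un (h : G.KC T p z i j k) (hX : X ⊆ T) (hY : Y ⊆ T) (h1 : G.US X) (h2 : G.US Y)
    (he : e ∈ G.cut T) (h3 : e ∉ G.cut X) (h4 : e ∉ G.cut Y) : G.US (X ∪ Y) := by
  have z1 := mem_ins.1 (h.zin hX h1.2)
  have z2 := mem_ins.1 (h.zin hY h2.2)
  have c1 : 2 ≤ (X ∩ Y).card := one_lt_card.2 ⟨G.s z, mem_inter.2 ⟨z1.2.1, z2.2.1⟩, G.t z,
    mem_inter.2 ⟨z1.2.2, z2.2.2⟩, h.st.2.2⟩
  have c2 := card_le_card (inter_subset_union (s := X) (t := Y))
  have c3 := h.ht.four' hX h1.1 (inter_subset_left (s₂ := Y)) c1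
  have c4 := h.ht.four Subset.rfl ((union_subset hX hY).ssubset_of_ne fun k =>
    (mem_union.1 (cut_union_sub (k.symm ▸ he : e ∈ G.cut (X ∪ Y)))).elim h3 h4) (c1.trans c2)
  have c5 := cut_submod (G := G) (X := X) (Y := Y)
  have c6 := h1.1
  have c7 := h2.1
  exact ⟨by omega, fun k => h1.2 (k.mono (ins_mono subset_union_left))⟩

theorem K1D_unB (h : G.KC T p z i j k) (hX : G.KB1 T m X) (hY : Y ⊆ T) (h2 : G.US Y)
    (h3 : G.cut Y ∩ G.cut T ⊆ {m}) : G.KB1 T m (X ∪ Y) := by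
  obtain ⟨g, g1, g2⟩ : ∃ g ∈ G.cut T, g ≠ m := by
    by_cases k1 : i = m
    exacts [⟨j, h.mem.2.1, fun k2 => h.q3.2.1 (k1.trans k2.symm)⟩, ⟨i, h.mem.1, k1⟩]
  obtain ⟨m1, m2, -, -, m3, -⟩ := hX.mem
  refine ⟨union_subset hX.1 hY, K1D_un h hX.1 hY hX.2.1 h2 g1
    (fun k => (m3 g g1 g2).2 (cut_sub_tch k))
    fun k => g2 (mem_singleton.1 (h3 (mem_inter.2 ⟨k, g1⟩))), ?_⟩
  refine Subset.antisymm (fun x hx => ?_) (singleton_subset_iff.2 (mem_inter.2
    ⟨(cut_of_sub (union_subset hX.1 hY) m2 (tch_mono subset_union_left (cut_sub_tch m1))).1, m2⟩))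
  obtain ⟨x1, x2⟩ := mem_inter.1 hx
  rcases mem_union.1 (cut_union_sub x1) with k | k
  exacts [hX.2.2 ▸ mem_inter.2 ⟨k, x2⟩, h3 (mem_inter.2 ⟨k, x2⟩)]

/-- A largest side with one terminal.  HINT: two such sides meet (both contain `z`), so by
`cut_submod` and `HT.four` their union is such a side; take one with the largest card. -/
theorem KC.maxB (h : G.KC T p z i j k) (hX : G.KB1 T m X) :
    ∃ M, G.KB1 T m M ∧ ∀ Y, G.KB1 T m Y → Y ⊆ M := by
  obtain ⟨M, -, k2⟩ := Finite.exists_le_maximal (p := G.KB1 T m) hX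
  refine ⟨M, k2.1, fun Y hY => ?_⟩
  exact subset_union_right.trans
    (k2.2 (K1D_unB h k2.1 hY.1 hY.2.1 hY.2.2.subset) subset_union_left)

theorem KC.maxA (h : G.KC T p z i j k) (hX : G.KA T X) :
    ∃ M, G.KA T M ∧ ∀ Y, G.KA T Y → Y ⊆ M := by
  obtain ⟨M, -, k2⟩ := Finite.exists_le_maximal (p := G.KA T) hX
  refine ⟨M, k2.1, fun Y hY => ?_⟩
  obtain ⟨m1, m2, m3⟩ := k2.1
  have k3 : G.KA T (M ∪ Y) := ⟨union_subset m1 hY.1, K1D_un h m1 hY.1 m2 hY.2.1 h.mem.1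
    (fun k => not_ins_of_cut h.mem.1 (m3 k)) fun k => not_ins_of_cut h.mem.1 (hY.2.2 k),
    cut_union_sub.trans (union_subset m3 hY.2.2)⟩
  exact subset_union_right.trans (k2.2 k3 subset_union_left)

/-- a side without terminal lies in the largest side with one terminal -/
theorem KC.subB (h : G.KC T p z i j k) (hX : G.KB1 T m X) (hM : ∀ Y, G.KB1 T m Y → Y ⊆ X)
    (hY : G.KA T Y) : Y ⊆ X := by
  refine subset_union_right.trans (hM _ (K1D_unB h hX hY.1 hY.2.1 fun x hx => ?_))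
  exact absurd (hY.2.2 (mem_inter.1 hx).1) (not_ins_of_cut (mem_inter.1 hx).2)

end SG

end Pool.Agent.Work.MP_8c679b_co
end

-- merged part: Pool.Agent.Work.MP_8c679b_co.K1.P3
section
/-!
Passing a region with three dead edges.
-/

set_option autoImplicit false

namespace Pool.Agent.Work.MP_8c679b_co

open Finset

namespace SG

variable {V E : Type} [Fintype V] [DecidableEq V] [DecidableEq E] {G : SG V E}
  {T Y : Finset V} {p : V → ZMod 2} {z a b x1 x2 x3 : E} {ψ : E → ZMod 3}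

omit [Fintype V] in
theorem K1P3_disj {X1 X2 : Finset V} {L : Finset E} (hd : Disjoint X1 X2)
    (hF : ∀ e ∈ L, e ∈ G.cut X2 → e ∉ G.tch X1) : Disjoint (G.fr X2 L) (G.tch X1) := by
  rw [disjoint_left]
  intro e he h1
  rcases mem_union.1 he with h | h
  · obtain ⟨-, k1, k2⟩ := mem_ins.1 h
    exact (mem_tch.1 h1).2.elim (fun k => disjoint_left.1 hd k k1) fun k => disjoint_left.1 hd k k2
  · exact hF e (mem_inter.1 h).2 (mem_inter.1 h).1 h1

omit [Fintype V] in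
theorem K1P3_rest {W W1 W2 : Finset V} {e : E} (h1 : W1 ⊆ W) (h2 : W2 ⊆ W)
    (n1 : e ∉ G.crs (G.ins W) W1) (n2 : e ∉ G.crs (G.ins W) W2)
    (he : e ∈ G.cut ((W \ W1) \ W2)) : e ∉ G.tch (W1 ∪ W2) ∧ e ∈ G.cut W := by
  have := @h1 (G.s e)
  have := @h1 (G.t e)
  have := @h2 (G.s e)
  have := @h2 (G.t e)
  simp only [mem_crs, mem_ins, mem_cut, mem_tch, mem_sdiff, mem_union] at he n1 n2 ⊢
  grind

omit [Fintype V] in
theorem K1P3_off {Y U : Finset V} {e : E} (h : e ∈ G.ins (Y \ U)) : e ∉ G.tch U := by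
  intro he
  obtain ⟨-, k1, k2⟩ := mem_ins.1 h
  exact (mem_tch.1 he).2.elim (mem_sdiff.1 k1).2 (mem_sdiff.1 k2).2

/-- Three parts with one dead edge each; `F` is the set of free edges.
HINT: `HT.abs_free`, `Abs0.neg` with live set `F`; `St.union`, `Ab.congrO`, twice `Ab.seq`
(not `Abs0.seq`, which frees all inner edges), `Ab.mono`. -/
theorem k1_parts (hT : G.HT T) {W W1 W2 : Finset V} {F : Finset E} (hW : W ⊆ T) (h1 : W1 ⊆ W)
    (h2 : W2 ⊆ W) (hd : Disjoint W1 W2) (c1 : ∀ e ∈ G.crs (G.ins W) W1, e ∉ F)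
    (c2 : ∀ e ∈ G.crs (G.ins W) W2, e ∉ F) (d1 : ∀ e ∈ G.cut W1, e ∈ F ∨ e = x1)
    (d2 : ∀ e ∈ G.cut W2, e ∈ F ∨ e = x2) (d3 : ∀ e ∈ G.cut ((W \ W1) \ W2), e ∈ F ∨ e = x3) :
    ∃ O, O ⊆ G.ins W1 ∪ G.ins W2 ∪ G.ins ((W \ W1) \ W2) ∧ G.St W O ∅ ∧
      G.Ab W O (G.ins W1 ∪ G.ins W2 ∪ G.ins ((W \ W1) \ W2) ∪ (G.cut W ∩ F)) ∅ fun _ => True := by
  obtain ⟨O1, a1⟩ := hT.abs_free (h1.trans hW)
  obtain ⟨O2, a2⟩ := hT.abs_free (h2.trans hW)
  obtain ⟨O3, a3⟩ := hT.abs_free (W := (W \ W1) \ W2) (sdiff_subset.trans (sdiff_subset.trans hW))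
  have b1 := a1.neg x1 d1
  have b2 := a2.neg x2 d2
  have b3 := a3.neg x3 d3
  have hd3 : Disjoint (W1 ∪ W2) ((W \ W1) \ W2) :=
    disjoint_left.2 fun y k1 k2 => by
      simp only [mem_union, mem_sdiff] at k1 k2
      exact k1.elim k2.1.2 k2.2
  have hU : W1 ∪ W2 ∪ (W \ W1) \ W2 = W := by
    rw [Finset.sdiff_sdiff_left', ← sdiff_union_distrib, union_sdiff_of_subset (union_subset h1 h2)]
  obtain ⟨k1, k2, k3, -⟩ := b1.1.union b2.1 hd (fun _ _ _ => Iff.rfl)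
  simp only [union_empty, inter_empty, sdiff_empty] at k1
  obtain ⟨l1, l2, l3, -⟩ := k1.union b3.1 hd3 (fun _ _ _ => Iff.rfl)
  simp only [union_empty, inter_empty, sdiff_empty] at l1
  have q1 := (b1.2.congrO k2).seq (b2.2.congrO k3) (K1P3_disj hd fun e hF he he' => c2 e
    (mem_crs.2 ⟨ins_mono (union_subset h1 h2) (ie_link hd (Ab_link hd he' (cut_sub_tch he)).1 he).2,
      (mem_cut.1 he).2⟩) hF)
  have hc3 : ∀ e ∈ F, e ∈ G.cut ((W \ W1) \ W2) → e ∉ G.tch (W1 ∪ W2) ∧ e ∈ G.cut W := by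
    intro e hF he
    exact K1P3_rest h1 h2 (fun k => c1 e k hF) (fun k => c2 e k hF) he
  have q2 := (q1.congrO l2).seq (b3.2.congrO l3) (K1P3_disj hd3 fun e hF he => (hc3 e hF he).1)
  rw [hU] at l1 q2
  simp only [Set.union_empty] at q2
  refine ⟨O1 ∪ O2 ∪ O3, union_subset_union (union_subset_union b1.1.sub_ins b2.1.sub_ins)
    b3.1.sub_ins, l1, q2.mono (fun e he => ?_) ?_⟩
  · have n1 : e ∈ F → e ∈ G.cut W1 → e ∈ G.cut W := fun hF k => by
      by_contra k'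
      exact c1 e (by rw [crs_ins h1]; exact mem_sdiff.2 ⟨k, k'⟩) hF
    have n2 : e ∈ F → e ∈ G.cut W2 → e ∈ G.cut W := fun hF k => by
      by_contra k'
      exact c2 e (by rw [crs_ins h2]; exact mem_sdiff.2 ⟨k, k'⟩) hF
    have n3 : e ∈ F → e ∈ G.cut ((W \ W1) \ W2) → e ∈ G.cut W := fun hF k => (hc3 e hF k).2
    simp only [fr, mem_union, mem_inter] at he ⊢
    rcases he with ((k | k) | (k | k)) | (k | k)
    exacts [Or.inl (Or.inl (Or.inl k)), Or.inr ⟨n1 k.2 k.1, k.2⟩, Or.inl (Or.inl (Or.inr k)),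
      Or.inr ⟨n2 k.2 k.1, k.2⟩, Or.inl (Or.inr k), Or.inr ⟨n3 k.2 k.1, k.2⟩]
  · exact union_subset (union_subset (union_subset ((ins_mono h1).trans ins_sub_tch)
      ((ins_mono h2).trans ins_sub_tch))
      ((ins_mono (sdiff_subset.trans sdiff_subset)).trans ins_sub_tch))
      (inter_subset_left.trans cut_sub_tch)

/-- The pass from `a` to `b`; the edges of `L` are live, the value at `b` is chosen last.
HINT: `k1_xb3` in the graph `del z` (`del_ins`, `del_pth`; the degree bound holds since `a`, `b`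
leave `Y`), `Pth.pp`, `k1_parts` for `W = Y \ pv n v` and `F = (ins Y).erase z ∪ L`; no part
contains both ends of `z` (`hx`, `HT.noloop`; note that `z ∈ ins Y` is not in `L`).  Apply the
absorption to the function that is one on `F` and `ψ` elsewhere, update the result at `b` so
that the switched sum over `Y` vanishes (`kap_sq`), and use `fix_path`. -/
theorem path3' (hc : G.Cub) (hT : G.HT T) (hY : Y ⊆ T) (ha : a ∈ G.cut Y) (hb : b ∈ G.cut Y)
    (hab : G.Dv Y a b) {L : Finset E} (hL : L ⊆ G.cut Y) (haL : a ∉ L) {d1 d2 d3 : V}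
    (m1 : d1 ∈ Y) (m2 : d2 ∈ Y) (m3 : d3 ∈ Y)
    (hx : ∀ e ∈ G.tch Y, e ∉ (G.ins Y).erase z → e = a ∨ e = b ∨ e ∈ L ∨ ∀ y ∈ Y, G.At e y →
      (e = x1 ∧ y = d1) ∨ (e = x2 ∧ y = d2) ∨ (e = x3 ∧ y = d3))
    (hr : G.Rch ((G.ins Y).erase z) (G.ie Y a) (G.ie Y b))
    (h2 : ∀ K ⊆ Y, G.ie Y a ∉ K → G.ie Y b ∉ K →
      (d1 ∈ K ∧ d2 ∈ K) ∨ (d1 ∈ K ∧ d3 ∈ K) ∨ (d2 ∈ K ∧ d3 ∈ K) →
      2 ≤ (G.crs ((G.ins Y).erase z) K).card)
    (hp : ∀ e ∈ G.ins Y, e ≠ z → G.sw p e = 0)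
    (hψ : ∀ e ∈ G.tch Y, e ∉ (G.ins Y).erase z → e ≠ a → e ≠ b → e ∉ L → ψ e ≠ 0) :
    ∃ O φ, G.St Y O {a, b} ∧ (z ∈ G.ins Y → z ∉ O) ∧ G.Sl Y O ∅ φ ∧
      ∀ e, e ∉ (G.ins Y).erase z → e ∉ L → e ≠ b → φ e = ψ e := by
  have hab' : a ≠ b := fun k => hab (k ▸ rfl)
  have hSY : (G.ins Y).erase z ⊆ G.ins Y := erase_subset _ _
  have haS : a ∉ (G.ins Y).erase z := fun k => not_ins_of_cut ha (hSY k)
  have hbS : b ∉ (G.ins Y).erase z := fun k => not_ins_of_cut hb (hSY k)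
  have hinc : ∀ e x, iv (x = G.ie Y e) ≤ G.inc e x := by
    intro e x
    unfold iv
    split_ifs with k
    · exact inc_pos.2 (k ▸ ie_at)
    · exact Nat.zero_le _
  obtain ⟨n, v, g, hP, v0, vn, W1, W2, s1, s2, hd, r1, r2, e1, e2, n21, n31, n12, n32⟩ :=
    k1_xb3 (G := G.del z) (U := Y) (s := G.ie Y a) (t := G.ie Y b) a (ie_mem (cut_sub_tch ha)) hab
      (by rw [del_ins]; exact hr) (by
        intro x _
        rw [del_ins]
        have k1 := hc.le3 (S := insert a (insert b ((G.ins Y).erase z)))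
          (insert_subset (mem_cut.1 ha).1 (insert_subset (mem_cut.1 hb).1 (hSY.trans ins_sub_A))) x
        rw [deg, sum_insert (by simp only [mem_insert, not_or]; exact ⟨hab', haS⟩),
          sum_insert hbS] at k1
        have k2 := hinc a x
        have k3 := hinc b x
        change ∑ e ∈ (G.ins Y).erase z, G.inc e x + _ + _ ≤ 3
        omega) m1 m2 m3 (by rw [del_ins]; exact h2)
  rw [del_pth, del_ins] at hP
  rw [del_ins] at r1 r2
  change G.crs _ _ = ∅ at r1 r2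
  have hPS := hP.pe_sub
  have hU : pv n v ⊆ Y :=
    (hP.mono fun i hi => hSY (hP.mem i hi)).sub_of_ins (v0 ▸ ie_mem (cut_sub_tch ha))
  have hPp := hP.pp (hSY.trans ins_sub_A)
  rw [v0, vn] at hPp
  generalize pv n v = U at *
  generalize pe n g = P at *
  have haW : a ∉ G.tch (Y \ U) := fun k =>
    (mem_sdiff.1 ((cut_of_sub sdiff_subset ha k).2 ▸ ie_mem k)).2 hPp.2.2.2.1
  have hbW : b ∉ G.tch (Y \ U) := fun k =>
    (mem_sdiff.1 ((cut_of_sub sdiff_subset hb k).2 ▸ ie_mem k)).2 hPp.2.2.2.2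
  have hdead : ∀ e ∈ G.A, e ∉ (G.ins Y).erase z ∪ L → ∀ y ∈ Y \ U, G.At e y →
      (e = x1 ∧ y = d1) ∨ (e = x2 ∧ y = d2) ∨ (e = x3 ∧ y = d3) := by
    intro e he hF y hy hat
    rw [mem_union, not_or] at hF
    have k := Cut_tch he hat hy
    rcases hx e (tch_mono sdiff_subset k) hF.1 with k1 | k1 | k1 | k1
    · exact absurd (k1 ▸ k) haW
    · exact absurd (k1 ▸ k) hbW
    · exact absurd k1 hF.2
    · exact k1 y (mem_sdiff.1 hy).1 hat
  have hzF : z ∈ G.ins Y → z ∉ (G.ins Y).erase z ∪ L := fun k k' =>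
    (mem_union.1 k').elim (notMem_erase _ _) fun k2 => not_ins_of_cut (hL k2) k
  have hcr : ∀ X, G.crs ((G.ins (Y \ U)).erase z) X = ∅ →
      ∀ e ∈ G.crs (G.ins (Y \ U)) X, e ∉ (G.ins Y).erase z ∪ L := by
    intro X hX e he
    obtain ⟨k1, k2⟩ := mem_crs.1 he
    by_cases k : e = z
    · subst k
      exact hzF (ins_mono sdiff_subset k1)
    · exact absurd (mem_crs.2 ⟨mem_erase.2 ⟨k, k1⟩, k2⟩) (hX ▸ notMem_empty e)
  have s3 : ((Y \ U) \ W1) \ W2 ⊆ Y \ U := sdiff_subset.trans sdiff_subset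
  have n13 : d1 ∉ ((Y \ U) \ W1) \ W2 := fun k => by
    simp only [mem_sdiff] at k
    exact e1.elim k.1.1.2 k.1.2
  have n23 : d2 ∉ ((Y \ U) \ W1) \ W2 := fun k => by
    simp only [mem_sdiff] at k
    exact e2.elim k.1.1.2 k.2
  have o1 : ∀ e ∈ G.A, e ∉ (G.ins Y).erase z ∪ L → ∀ y ∈ W1, G.At e y → e = x1 ∧ y = d1 := by
    intro e he hF y hy hat
    rcases hdead e he hF y (s1 hy) hat with k | k | k
    exacts [k, absurd (k.2 ▸ hy) n21, absurd (k.2 ▸ hy) n31]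
  have o2 : ∀ e ∈ G.A, e ∉ (G.ins Y).erase z ∪ L → ∀ y ∈ W2, G.At e y → e = x2 ∧ y = d2 := by
    intro e he hF y hy hat
    rcases hdead e he hF y (s2 hy) hat with k | k | k
    exacts [absurd (k.2 ▸ hy) n12, k, absurd (k.2 ▸ hy) n32]
  have o3 : ∀ e ∈ G.A, e ∉ (G.ins Y).erase z ∪ L → ∀ y ∈ ((Y \ U) \ W1) \ W2, G.At e y →
      e = x3 ∧ y = d3 := by
    intro e he hF y hy hat
    rcases hdead e he hF y (s3 hy) hat with k | k | k
    exacts [absurd (k.2 ▸ hy) n13, absurd (k.2 ▸ hy) n23, k]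
  have hcut : ∀ X x d, (∀ e ∈ G.A, e ∉ (G.ins Y).erase z ∪ L → ∀ y ∈ X, G.At e y →
      e = x ∧ y = d) → ∀ e ∈ G.cut X, e ∈ (G.ins Y).erase z ∪ L ∨ e = x := by
    intro X x d hX e he
    by_cases k : e ∈ (G.ins Y).erase z ∪ L
    · exact Or.inl k
    · exact Or.inr (hX e (mem_cut.1 he).1 k _ (ie_mem (cut_sub_tch he)) ie_at).1
  have hins : ∀ X x d, X ⊆ Y \ U → (∀ e ∈ G.A, e ∉ (G.ins Y).erase z ∪ L → ∀ y ∈ X, G.At e y →
      e = x ∧ y = d) → G.ins X ⊆ (G.ins Y).erase z := by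
    intro X x d hX' hX e he
    have k0 : e ∈ G.ins Y := ins_mono (hX'.trans sdiff_subset) he
    refine mem_erase.2 ⟨?_, k0⟩
    rintro rfl
    obtain ⟨k1, k2, k3⟩ := mem_ins.1 he
    exact hT.noloop hc (tch_mono hY (ins_sub_tch k0))
      ((hX _ k1 (hzF k0) _ k2 (Or.inl rfl)).2.trans (hX _ k1 (hzF k0) _ k3 (Or.inr rfl)).2.symm)
  obtain ⟨O', t1, t2, t3, t4⟩ := k1_parts hT (sdiff_subset.trans hY) s1 s2 hd (hcr _ r1) (hcr _ r2)
    (hcut _ _ _ o1) (hcut _ _ _ o2) (hcut _ _ _ o3)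
  have hI : G.ins W1 ∪ G.ins W2 ∪ G.ins (((Y \ U) \ W1) \ W2) ⊆ (G.ins Y).erase z :=
    union_subset (union_subset (hins _ _ _ s1 o1) (hins _ _ _ s2 o2)) (hins _ _ _ s3 o3)
  have hFr := union_subset (hI.trans (subset_union_left (s₂ := L)))
    (inter_subset_right (s₁ := G.cut (Y \ U)))
  have hψ0 : ∀ e ∈ G.tch Y, e ≠ a → e ≠ b →
      (if e ∈ (G.ins Y).erase z ∪ L then 1 else ψ e) ≠ 0 := by
    intro e he k1 k2
    split_ifs with k
    · exact one_ne_zero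
    · rw [mem_union, not_or] at k
      exact hψ e he k.1 k1 k2 k.2
  obtain ⟨φ1, f1, f2⟩ := t4 (fun e => if e ∈ (G.ins Y).erase z ∪ L then 1 else ψ e)
    (fun e he _ _ => hψ0 e (tch_mono sdiff_subset he) (fun k => haW (k ▸ he))
      fun k => hbW (k ▸ he)) trivial
  obtain ⟨φ2, g1, g2⟩ : ∃ φ2 : E → ZMod 3, (∀ e, e ≠ b → φ2 e = φ1 e) ∧
      ∑ e ∈ G.A, G.kap p Y e * φ2 e = 0 := by
    refine ⟨fun e => φ1 e - if e = b then G.kap p Y b * ∑ e ∈ G.A, G.kap p Y e * φ1 e else 0,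
      fun e he => by simp only [he, if_false, sub_zero], ?_⟩
    simp only [mul_sub, sum_sub_distrib, mul_ite, mul_zero]
    rw [sum_ite_eq', if_pos (mem_cut.1 hb).1, ← mul_assoc, kap_sq hb, one_mul, sub_self]
  obtain ⟨u1, φ, u2, u3⟩ := fix_path ha hb hab' hU hPp
    (fun e he => hp e (hSY (hPS he)) (mem_erase.1 (hPS he)).1) t2
    (f2.congr (fun e he => g1 e fun k => hbW (k ▸ he)) fun _ _ => Iff.rfl) (by
      intro e he _ k1 k2
      rw [g1 e k2]
      by_cases k : e ∈ G.tch (Y \ U)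
      · exact f2.2.1 e k fun k' => K1P3_off (t2.sub_ins k') he
      · rw [f1 e fun k' => k (t3 k')]
        exact hψ0 e (tch_mono hU he) k1 k2) g2
  refine ⟨_, φ, u1, fun k k' => ?_, u3, fun e k1 k2 k3 => ?_⟩
  · simp only [mem_union, mem_insert] at k'
    rcases k' with k' | k' | k' | k'
    · exact notMem_erase _ _ (hI (t1 k'))
    · exact not_ins_of_cut ha (k' ▸ k)
    · exact not_ins_of_cut hb (k' ▸ k)
    · exact notMem_erase _ _ (hPS k')
  · have k4 : e ∉ (G.ins Y).erase z ∪ L := fun k => (mem_union.1 k).elim k1 k2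
    rw [u2 e fun k => k1 (hPS k), g1 e k3, f1 e fun k => k4 (hFr k)]
    exact if_neg k4

/-- All boundary values prescribed.  HINT: `path3'` with `L = ∅`; the value at `b` agrees by
`sum_bd` and `kap_inj` (`sol1_kap_zero` for the consistent inner edges). -/
theorem path3 (hc : G.Cub) (hT : G.HT T) (hY : Y ⊆ T) (ha : a ∈ G.cut Y) (hb : b ∈ G.cut Y)
    (hab : G.Dv Y a b) {d1 d2 d3 : V} (m1 : d1 ∈ Y) (m2 : d2 ∈ Y) (m3 : d3 ∈ Y)
    (hx : ∀ e ∈ G.tch Y, e ∉ (G.ins Y).erase z → e = a ∨ e = b ∨ ∀ y ∈ Y, G.At e y →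
      (e = x1 ∧ y = d1) ∨ (e = x2 ∧ y = d2) ∨ (e = x3 ∧ y = d3))
    (hr : G.Rch ((G.ins Y).erase z) (G.ie Y a) (G.ie Y b))
    (h2 : ∀ K ⊆ Y, G.ie Y a ∉ K → G.ie Y b ∉ K →
      (d1 ∈ K ∧ d2 ∈ K) ∨ (d1 ∈ K ∧ d3 ∈ K) ∨ (d2 ∈ K ∧ d3 ∈ K) →
      2 ≤ (G.crs ((G.ins Y).erase z) K).card)
    (hp : ∀ e ∈ G.ins Y, e ≠ z → G.sw p e = 0)
    (hψ : ∀ e ∈ G.tch Y, e ∉ (G.ins Y).erase z → e ≠ a → e ≠ b → ψ e ≠ 0)
    (hs : ∑ e ∈ G.tch Y \ (G.ins Y).erase z, G.kap p Y e * ψ e = 0) :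
    ∃ O φ, G.St Y O {a, b} ∧ (z ∈ G.ins Y → z ∉ O) ∧ G.Sl Y O ∅ φ ∧
      ∀ e, e ∉ (G.ins Y).erase z → φ e = ψ e := by
  obtain ⟨O, φ, k1, k2, k3, k4⟩ := path3' (L := ∅) hc hT hY ha hb hab (empty_subset _)
    (notMem_empty _) m1 m2 m3
    (fun e he he' => (hx e he he').imp_right (Or.imp_right Or.inr)) hr h2 hp
    (fun e he k1 k2 k3 _ => hψ e he k1 k2 k3)
  refine ⟨O, φ, k1, k2, k3, fun e he => ?_⟩
  by_cases heb : e = b
  swap
  · exact k4 e he (notMem_empty _) heb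
  subst heb
  have l1 := sum_bd (G := G) p Y φ
  rw [sum_eq_zero fun v hv => by rw [k3.1 v hv, mul_zero],
    ← sum_subset (s₁ := G.tch Y \ (G.ins Y).erase z) (sdiff_subset.trans Ab_tch_sub)
      fun f hf hf' => ?_] at l1
  · have hm : e ∈ G.tch Y \ (G.ins Y).erase z := mem_sdiff.2 ⟨cut_sub_tch hb, he⟩
    rw [← add_sum_erase _ _ hm] at l1 hs
    rw [sum_congr rfl fun f hf => by
      rw [k4 f (mem_sdiff.1 (mem_erase.1 hf).2).2 (notMem_empty _) (mem_erase.1 hf).1]] at l1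
    exact kap_inj (p := p) hb (add_right_cancel (l1.symm.trans hs.symm))
  · by_cases l2 : f ∈ G.tch Y
    · have l3 : f ∈ (G.ins Y).erase z := by
        by_contra l4
        exact hf' (mem_sdiff.2 ⟨l2, l4⟩)
      rw [sol1_kap_zero (mem_erase.1 l3).2 (hp f (mem_erase.1 l3).2 (mem_erase.1 l3).1), zero_mul]
    · rw [kap_out (fun k => l2 (mem_tch.2 ⟨hf, Or.inl k⟩)) fun k => l2 (mem_tch.2 ⟨hf, Or.inr k⟩),
        zero_mul]

/-- A balanced region with five leaving edges.  HINT: `path3` with `z := a` (then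
`(ins Y).erase a = ins Y`), `HT.cn5`; a set `K` with two marked vertices has at least four
leaving edges (`HT.four` with `S = T`; `K ≠ T`), which are crossing edges or `x1, x2, x3`
(`crs_ins`, `cut_of_sub`). -/
theorem out5 (hc : G.Cub) (hT : G.HT T) (hY : Y ⊆ T) (hc5 : G.cut Y = {a, b, x1, x2, x3})
    (hab : G.Dv Y a b) (h12 : G.Dv Y x1 x2) (h13 : G.Dv Y x1 x3) (h23 : G.Dv Y x2 x3)
    (h4 : ∀ K ⊆ Y, G.ie Y a ∉ K → G.ie Y b ∉ K → x1 ∈ G.cut K → x2 ∈ G.cut K → x3 ∈ G.cut K →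
      (G.cut K).card ≠ 4)
    (hp : ∀ e ∈ G.ins Y, G.sw p e = 0) (n1 : ψ x1 ≠ 0) (n2 : ψ x2 ≠ 0) (n3 : ψ x3 ≠ 0)
    (hs : G.tw p Y ψ = 0) : ∃ O φ, G.Fil Y {a, b} ∅ ψ O φ := by
  have hm : ∀ e, e ∈ G.cut Y ↔ e = a ∨ e = b ∨ e = x1 ∨ e = x2 ∨ e = x3 := by
    intro e
    rw [hc5]
    simp only [mem_insert, mem_singleton]
  have ha : a ∈ G.cut Y := by simp [hm]
  have hb : b ∈ G.cut Y := by simp [hm]
  have c1 : x1 ∈ G.cut Y := by simp [hm]
  have c2 : x2 ∈ G.cut Y := by simp [hm]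
  have c3 : x3 ∈ G.cut Y := by simp [hm]
  have he : (G.ins Y).erase a = G.ins Y := erase_eq_of_notMem (not_ins_of_cut ha)
  have hcut : ∀ e ∈ G.tch Y, e ∉ G.ins Y → e ∈ G.cut Y :=
    fun e k1 k2 => (mem_tch_iff.1 k1).resolve_left k2
  have ia := ie_mem (cut_sub_tch ha)
  obtain ⟨O, φ, k1, -, k3, k4⟩ := path3 (z := a) (x1 := x1) (x2 := x2) (x3 := x3) (p := p) (ψ := ψ)
    hc hT hY ha hb hab (ie_mem (cut_sub_tch c1)) (ie_mem (cut_sub_tch c2))
    (ie_mem (cut_sub_tch c3)) (by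
      rw [he]
      intro e k1 k2
      have k3 := hcut e k1 k2
      rcases (hm e).1 k3 with k | k | k
      · exact Or.inl k
      · exact Or.inr (Or.inl k)
      · refine Or.inr (Or.inr fun y hy hat => ?_)
        have k4 := eq_ie k3 hy hat
        rcases k with k | k | k
        · exact Or.inl ⟨k, k ▸ k4⟩
        · exact Or.inr (Or.inl ⟨k, k ▸ k4⟩)
        · exact Or.inr (Or.inr ⟨k, k ▸ k4⟩))
    (by
      rw [he]
      exact hT.cn5 hY (hc5 ▸ card_le_five) _ ia _ (ie_mem (cut_sub_tch hb)))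
    (by
      rw [he]
      intro K hK na nb hd
      have l1 : 2 ≤ K.card := by
        rcases hd with k | k | k
        exacts [one_lt_card.2 ⟨_, k.1, _, k.2, h12⟩, one_lt_card.2 ⟨_, k.1, _, k.2, h13⟩,
          one_lt_card.2 ⟨_, k.1, _, k.2, h23⟩]
      have l2 := hT.four subset_rfl ((hK.trans hY).ssubset_of_ne fun k => na (k ▸ hY ia)) l1
      have l3 := card_sdiff_add_card_inter (G.cut K) (G.cut Y)
      have l4 : ∀ e ∈ G.cut K ∩ G.cut Y, e = x1 ∨ e = x2 ∨ e = x3 := by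
        intro e k
        obtain ⟨k1, k2⟩ := mem_inter.1 k
        have k3 : G.ie Y e ∈ K :=
          (cut_of_sub hK k2 (cut_sub_tch k1)).2 ▸ ie_mem (cut_sub_tch k1)
        rcases (hm e).1 k2 with k4 | k4 | k4
        exacts [absurd (k4 ▸ k3) na, absurd (k4 ▸ k3) nb, k4]
      have l5 : ∀ u w : E, (∀ e ∈ G.cut K ∩ G.cut Y, e = u ∨ e = w) →
          (G.cut K ∩ G.cut Y).card ≤ 2 := fun u w k =>
        (card_le_card (t := {u, w}) fun e k' => by simpa using k e k').trans card_le_two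
      rw [crs_ins hK]
      by_cases q1 : x1 ∈ G.cut K
      · by_cases q2 : x2 ∈ G.cut K
        · by_cases q3 : x3 ∈ G.cut K
          · have := h4 K hK na nb q1 q2 q3
            have : (G.cut K ∩ G.cut Y).card ≤ 3 :=
              (card_le_card (t := {x1, x2, x3}) fun e k' => by simpa using l4 e k').trans
                card_le_three
            omega
          · have := l5 x1 x2 fun e k => by
              rcases l4 e k with k' | k' | k'
              exacts [Or.inl k', Or.inr k', absurd (k' ▸ (mem_inter.1 k).1) q3]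
            omega
        · have := l5 x1 x3 fun e k => by
            rcases l4 e k with k' | k' | k'
            exacts [Or.inl k', absurd (k' ▸ (mem_inter.1 k).1) q2, Or.inr k']
          omega
      · have := l5 x2 x3 fun e k => by
          rcases l4 e k with k' | k' | k'
          exacts [absurd (k' ▸ (mem_inter.1 k).1) q1, Or.inl k', Or.inr k']
        omega)
    (fun e k _ => hp e k)
    (by
      rw [he]
      intro e k1 k2 k3 k4
      rcases (hm e).1 (hcut e k1 k2) with k | k | k | k | k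
      exacts [absurd k k3, absurd k k4, k ▸ n1, k ▸ n2, k ▸ n3])
    (by
      have : G.tch Y \ G.ins Y = G.cut Y := by
        ext e
        rw [mem_sdiff]
        exact ⟨fun k => hcut e k.1 k.2, fun k => ⟨cut_sub_tch k, not_ins_of_cut k⟩⟩
      rw [he, this]
      exact hs)
  rw [he] at k4
  exact ⟨O, φ, k1, k4, k3⟩

end SG

end Pool.Agent.Work.MP_8c679b_co
end

-- merged part: Pool.Agent.Work.MP_8c679b_co.K1.GT2
section
/-!
Rerouting a path through a component of the rest.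
-/

set_option autoImplicit false

namespace Pool.Agent.Work.MP_8c679b_co

open Finset

namespace SG

variable {V E : Type} [Fintype V] [DecidableEq V] [DecidableEq E] {G : SG V E}
  {Y K : Finset V} {n i j : ℕ} {v : ℕ → V} {g : ℕ → E}

theorem K1GT2_cl {P : Finset V} (k2 : K ⊆ Y \ pv n v) (k3 : G.crs (G.ins (Y \ pv n v)) K = ∅)
    (h : ∀ l ≤ n, (∃ f ∈ G.ins Y, ∃ x ∈ K, G.Je f (v l) x) → v l ∈ P) :
    G.crs (G.ins (Y \ P)) (K \ P) = ∅ := by
  have cl : ∀ e ∈ G.ins (Y \ P), ∀ y z, G.Je e y z → y ∈ K \ P → z ∈ K \ P := by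
    intro e he y z j1 hy
    have h9 := ((Pth_ends j1).1 (mem_ins.1 he).2).2
    refine mem_sdiff.2 ⟨by_contra fun h10 => ?_, (mem_sdiff.1 h9).2⟩
    by_cases h11 : z ∈ pv n v
    · obtain ⟨l, hl, rfl⟩ := mem_pv.1 h11
      exact (mem_sdiff.1 h9).2
        (h l hl ⟨e, ins_mono sdiff_subset he, y, (mem_sdiff.1 hy).1, j1.symm⟩)
    · have h12 : e ∈ G.ins (Y \ pv n v) := Cut_je_ins (ins_sub_A he) j1 (k2 (mem_sdiff.1 hy).1)
        (mem_sdiff.2 ⟨(mem_sdiff.1 h9).1, h11⟩)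
      exact h10 ((GXb_iff j1 (not_not.1 (filter_eq_empty_iff.1 k3 h12))).1 (mem_sdiff.1 hy).1)
  exact filter_eq_empty_iff.2 fun e he => not_not.2
    ⟨cl e he _ _ (Or.inl ⟨rfl, rfl⟩), cl e he _ _ (Or.inr ⟨rfl, rfl⟩)⟩

/-- Rerouting between two consecutive attachments `i < j`.
HINT: copy the second half of the proof of `GXb_rr` (`GXb_ear`, `Pth.rr`, `mem_pv_rr`). -/
theorem tp_rr (hp : G.Pth (G.ins Y) n v g) (k2 : K ⊆ Y \ pv n v)
    (k3 : G.crs (G.ins (Y \ pv n v)) K = ∅) (k4 : G.Cn K (G.ins K)) (hij : i < j) (hj : j ≤ n)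
    (ai : ∃ f ∈ G.ins Y, ∃ x ∈ K, G.Je f (v i) x) (aj : ∃ f ∈ G.ins Y, ∃ x ∈ K, G.Je f (v j) x)
    (hc : ∀ l, i < l → l < j → ¬ ∃ f ∈ G.ins Y, ∃ x ∈ K, G.Je f (v l) x) :
    ∃ n' v' g', G.Pth (G.ins Y) n' v' g' ∧ 1 ≤ n' ∧ v' 0 = v 0 ∧ v' n' = v n ∧
      (∃ x ∈ K, x ∈ pv n' v') ∧ (∀ l ≤ n, l ≤ i ∨ j ≤ l → v l ∈ pv n' v') ∧
      G.crs (G.ins (Y \ pv n' v')) (K \ pv n' v') = ∅ := by
  obtain ⟨f, hf, x, hx, j1⟩ := ai
  obtain ⟨f', hf', x', hx', j2⟩ := aj
  have hK : ∀ l ≤ n, v l ∉ K := fun l hl h => (mem_sdiff.1 (k2 h)).2 (mem_pv.2 ⟨l, hl, rfl⟩)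
  obtain ⟨m, w, g', p1, p2, p3, p4, p5⟩ := GXb_ear k4 (ins_mono (k2.trans sdiff_subset)) hf hf'
    j1 j2 hx hx' (hK _ (hij.le.trans hj)) (hK _ hj)
    fun e => hij.ne (hp.inj _ (hij.le.trans hj) _ hj e)
  have hm := fun x => mem_pv_rr (x := x) hij.le hj p2 p3
  have h1 : ∀ l ≤ n, l ≤ i ∨ j ≤ l → v l ∈ pv (i + m + (n - j)) (rrV i j m v w) := fun l hl h =>
    (hm _).2 (h.imp (fun h => ⟨l, h, rfl⟩) fun h => Or.inr ⟨l, h, hl, rfl⟩)
  refine ⟨_, _, _, hp.rr p1 hij hj p2 p3 fun k q1 q2 l hl _ e => hK l hl (e ▸ p5 k q1 q2),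
    by omega, Pth_rr1 (Nat.zero_le _), ?_, ⟨w 1, p5 1 one_pos p4,
      (hm _).2 (Or.inr (Or.inl (mem_pv.2 ⟨1, by omega, rfl⟩)))⟩, h1,
    K1GT2_cl k2 k3 fun l hl h => h1 l hl ?_⟩
  · rw [Pth_rr3 p2 p3 (Nat.le_add_right _ _), Nat.add_sub_cancel_left, Nat.sub_add_cancel hj]
  · by_contra h2
    exact hc l (by omega) (by omega) h

/-- Replacing the start of the path by a path from a vertex `a` of the component to the first
attachment `i`.  HINT: a path inside `K` from `a` to the end of the attaching edge (`Rch.pth`,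
`Pth.sub_of_ins`), `Pth.snoc`, then `Pth.cat` with `Pth.sub`; `mem_pv_cat`. -/
theorem tp_pre (hp : G.Pth (G.ins Y) n v g) (k2 : K ⊆ Y \ pv n v)
    (k3 : G.crs (G.ins (Y \ pv n v)) K = ∅) (k4 : G.Cn K (G.ins K)) (hi : i ≤ n) {a : V}
    (ha : a ∈ K) (ai : ∃ f ∈ G.ins Y, ∃ x ∈ K, G.Je f (v i) x)
    (hc : ∀ l, l < i → ¬ ∃ f ∈ G.ins Y, ∃ x ∈ K, G.Je f (v l) x) :
    ∃ n' v' g', G.Pth (G.ins Y) n' v' g' ∧ 1 ≤ n' ∧ v' 0 = a ∧ v' n' = v n ∧
      (∀ l ≤ n, i ≤ l → v l ∈ pv n' v') ∧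
      G.crs (G.ins (Y \ pv n' v')) (K \ pv n' v') = ∅ := by
  obtain ⟨f, hf, x, hx, j1⟩ := ai
  have hK : ∀ l ≤ n, v l ∉ K := fun l hl h => (mem_sdiff.1 (k2 h)).2 (mem_pv.2 ⟨l, hl, rfl⟩)
  obtain ⟨m, w, h, p1, p2, p3⟩ := (k4 a ha x hx).pth f
  have p4 := p1.sub_of_ins (p2 ▸ ha)
  have p5 := (p1.mono fun k hk => ins_mono (k2.trans sdiff_subset) (p1.mem k hk)).snoc hf
    (p3 ▸ j1.symm) fun h => hK i hi (p4 h)
  have p6 := hp.sub (i := i) (m := n - i) (by omega)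
  have he : (fun k => if k ≤ m then w k else v i) (m + 1) = (fun k => v (i + k)) 0 := by simp
  have p7 := p5.cat p6 he fun k _ l hl e => by
    split_ifs at e with q
    · exact absurd (p4 (mem_pv.2 ⟨k, q, e⟩)) (hK _ (by omega))
    · have := hp.inj _ hi _ (by omega) e
      omega
  have h1 : ∀ l ≤ n, i ≤ l → v l ∈ pv (m + 1 + (n - i))
      (catV (m + 1) (fun k => if k ≤ m then w k else v i) fun k => v (i + k)) := fun l hl q =>
    (mem_pv_cat he).2 (Or.inr (mem_pv.2 ⟨l - i, by omega, congrArg v (by omega)⟩))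
  refine ⟨_, _, _, p7, by omega, ?_, ?_, h1, K1GT2_cl k2 k3 fun l hl q => h1 l hl ?_⟩
  · rw [Pth_catL (Nat.zero_le _), if_pos (Nat.zero_le _), p2]
  · rw [Pth_catR he (Nat.le_add_right _ _)]
    exact congrArg v (by omega)
  · by_contra h2
    exact hc l (by omega) q

end SG

end Pool.Agent.Work.MP_8c679b_co
end

-- merged part: Pool.Agent.Work.MP_8c679b_co.K1.GT3
section
/-!
A path between two anchors with two units.

PLAN for `tpg`.  Assume the conclusion fails.  A state is a path `P` between anchors (`1 ≤ n`)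
with `x1 ∈ L` on it and `x2 ∈ L` off it; `K = cmp (Y \ pv) x2` (`cmp_spec`).  A state exists by
`tp_thru` (if the second live vertex were on the path the conclusion would hold).  Show by strong
induction on `mu = K.card + (if δ ∈ K then Fintype.card V else 0)` that no state exists.  Let
`q` be the index of `x1`; it is no attachment of `K` (`tp_one`).
* Two attachments on the same side of `q`: take two consecutive ones, `tp_rr`; `x2` is off the
  new path (else the conclusion holds) and its new component lies in `K \ pv` (`cmp_min`).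
* `K` contains an anchor `a` and has an attachment: if there is one before `q` take the first
  one and `tp_pre`; otherwise reverse the path (`Pth.rev`, `pv_rev`) first.
* Otherwise `crs (ins Y) K` (every crossing edge ends on the path, different edges at different
  vertices by `tp_one`) and `K ∩ A` have together at most two elements: either `K` has no
  anchor and at most one attachment on each side, or it has no attachment and misses the two
  ends of the path (`hA4`).  If `K = {x2}` then `x2` is no anchor or has no edge at all, which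
  contradicts `h2`; so the second alternative of the conclusion holds.  Otherwise `h3` gives a
  second element of `insert δ L` in `K`.  Take a path `P'` through `x2` (`tp_thru`); by `tp_exh`
  both `K \ pv'` and `(Y \ K) \ pv'` are closed in `Y \ pv'`.  If the second element is a live
  vertex `x3`, the state `(P', x2, x3)` is smaller; otherwise `δ ∈ K` and the state
  `(P', x2, x1)` has a component disjoint from `K`, of card less than `Fintype.card V + 1`.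
-/

set_option autoImplicit false

namespace Pool.Agent.Work.MP_8c679b_co

open Finset

namespace SG

variable {V E : Type} [Fintype V] [DecidableEq V] [DecidableEq E] {G : SG V E}

omit [Fintype V] in
theorem K1GT3_lt {K K' : Finset V} (δ : V) (N : ℕ) (h : K' ⊂ K) :
    K'.card + (if δ ∈ K' then N else 0) < K.card + if δ ∈ K then N else 0 := by
  have k := card_lt_card h
  by_cases k1 : δ ∈ K'
  · rw [if_pos k1, if_pos (h.subset k1)]
    omega
  · rw [if_neg k1]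
    omega

/-- the two end replacements -/
theorem K1GT3_end {Y K : Finset V} {n q i : ℕ} {v : ℕ → V} {g : ℕ → E}
    (hp : G.Pth (G.ins Y) n v g) (k2 : K ⊆ Y \ pv n v) (k3 : G.crs (G.ins (Y \ pv n v)) K = ∅)
    (k4 : G.Cn K (G.ins K)) (hq : q ≤ n) (hi : i ≤ q) {a : V} (ha : a ∈ K)
    (ai : ∃ f ∈ G.ins Y, ∃ x ∈ K, G.Je f (v i) x) :
    ∃ n' v' g', G.Pth (G.ins Y) n' v' g' ∧ 1 ≤ n' ∧ v' 0 = a ∧ v' n' = v n ∧ v q ∈ pv n' v' ∧
      G.crs (G.ins (Y \ pv n' v')) (K \ pv n' v') = ∅ := by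
  classical
  have h2 : ∃ l, ∃ f ∈ G.ins Y, ∃ x ∈ K, G.Je f (v l) x := ⟨i, ai⟩
  have h3 := (Nat.find_min' h2 ai).trans hi
  obtain ⟨n', v', g', p1, p2, p3, p4, p5, p6⟩ := tp_pre hp k2 k3 k4 (h3.trans hq) ha
    (Nat.find_spec h2) fun l hl => Nat.find_min h2 hl
  exact ⟨n', v', g', p1, p2, p3, p4, p5 q hq h3, p6⟩

theorem K1GT3_end' {Y K : Finset V} {n q i : ℕ} {v : ℕ → V} {g : ℕ → E}
    (hp : G.Pth (G.ins Y) n v g) (k2 : K ⊆ Y \ pv n v) (k3 : G.crs (G.ins (Y \ pv n v)) K = ∅)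
    (k4 : G.Cn K (G.ins K)) (hq : q ≤ i) (hi : i ≤ n) {a : V} (ha : a ∈ K)
    (ai : ∃ f ∈ G.ins Y, ∃ x ∈ K, G.Je f (v i) x) :
    ∃ n' v' g', G.Pth (G.ins Y) n' v' g' ∧ 1 ≤ n' ∧ v' 0 = a ∧ v' n' = v 0 ∧ v q ∈ pv n' v' ∧
      G.crs (G.ins (Y \ pv n' v')) (K \ pv n' v') = ∅ := by
  obtain ⟨n', v', g', p1, p2, p3, p4, p5, p6⟩ := K1GT3_end (q := n - q) (i := n - i) hp.rev
    (by rwa [pv_rev]) (by rwa [pv_rev]) k4 (Nat.sub_le _ _) (by omega) ha
    (by rwa [Nat.sub_sub_self hi])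
  rw [Nat.sub_self] at p4
  rw [Nat.sub_sub_self (hq.trans hi)] at p5
  exact ⟨n', v', g', p1, p2, p3, p4, p5, p6⟩

/-- two attachments on the same side -/
theorem K1GT3_two {Y K : Finset V} {n q i j : ℕ} {v : ℕ → V} {g : ℕ → E}
    (hp : G.Pth (G.ins Y) n v g) (k2 : K ⊆ Y \ pv n v) (k3 : G.crs (G.ins (Y \ pv n v)) K = ∅)
    (k4 : G.Cn K (G.ins K)) (hq : q ≤ n) (hij : i < j) (hj : j ≤ n) (hs : j < q ∨ q < i)
    (ai : ∃ f ∈ G.ins Y, ∃ x ∈ K, G.Je f (v i) x) (aj : ∃ f ∈ G.ins Y, ∃ x ∈ K, G.Je f (v j) x) :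
    ∃ n' v' g', G.Pth (G.ins Y) n' v' g' ∧ 1 ≤ n' ∧ v' 0 = v 0 ∧ v' n' = v n ∧
      (∃ x ∈ K, x ∈ pv n' v') ∧ v q ∈ pv n' v' ∧
      G.crs (G.ins (Y \ pv n' v')) (K \ pv n' v') = ∅ := by
  classical
  have h2 : ∃ l, i < l ∧ ∃ f ∈ G.ins Y, ∃ x ∈ K, G.Je f (v l) x := ⟨j, hij, aj⟩
  have h3 := Nat.find_min' h2 ⟨hij, aj⟩
  obtain ⟨n', v', g', p1, p2, p3, p4, p5, p6, p7⟩ := tp_rr hp k2 k3 k4 (Nat.find_spec h2).1
    (h3.trans hj) ai (Nat.find_spec h2).2 fun l l1 l2 l3 => Nat.find_min h2 l2 ⟨l1, l3⟩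
  exact ⟨n', v', g', p1, p2, p3, p4, p5, p6 q hq (by omega), p7⟩

/-- a crossing edge of a component ends on the path -/
theorem K1GT3_crs {Y K : Finset V} {n : ℕ} {v : ℕ → V} (k2 : K ⊆ Y \ pv n v)
    (k3 : G.crs (G.ins (Y \ pv n v)) K = ∅) {e : E} {x y : V} (he : e ∈ G.ins Y) (hx : x ∈ K)
    (hy : y ∉ K) (hj : G.Je e x y) : y ∈ pv n v := by
  by_contra k
  have k1 := ((Pth_ends hj).1 (mem_ins.1 he).2).2
  have k5 : e ∈ G.ins (Y \ pv n v) :=
    Cut_je_ins (ins_sub_A he) hj (k2 hx) (mem_sdiff.2 ⟨k1, k⟩)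
  exact hy ((GXb_iff hj (not_not.1 (filter_eq_empty_iff.1 k3 k5))).1 hx)

theorem K1GT3_crs' {Y K : Finset V} {n : ℕ} {v : ℕ → V} (k2 : K ⊆ Y \ pv n v)
    (k3 : G.crs (G.ins (Y \ pv n v)) K = ∅) {e : E} (he : e ∈ G.crs (G.ins Y) K) :
    ∃ l ≤ n, ∃ x ∈ K, G.Je e (v l) x := by
  obtain ⟨k1, k4⟩ := mem_crs.1 he
  by_cases k : G.s e ∈ K
  · obtain ⟨l, hl, k5⟩ := mem_pv.1 (K1GT3_crs k2 k3 k1 k (fun k' => k4 (iff_of_true k k'))
      (Or.inl ⟨rfl, rfl⟩))
    exact ⟨l, hl, _, k, Or.inr ⟨rfl, k5.symm⟩⟩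
  · have k' : G.t e ∈ K := not_not.1 fun k' => k4 (iff_of_false k k')
    obtain ⟨l, hl, k5⟩ := mem_pv.1 (K1GT3_crs k2 k3 k1 k' k (Or.inr ⟨rfl, rfl⟩))
    exact ⟨l, hl, _, k', Or.inl ⟨k5.symm, rfl⟩⟩

omit [Fintype V] in
/-- a set whose crossing edges end in `P` is closed outside `P` -/
theorem K1GT3_cl {Y K P : Finset V} (h : ∀ e ∈ G.crs (G.ins Y) K, G.s e ∈ P ∧ G.t e ∈ P) :
    G.crs (G.ins (Y \ P)) (K \ P) = ∅ ∧ G.crs (G.ins (Y \ P)) (Y \ K) = ∅ := by
  have k : ∀ e ∈ G.ins (Y \ P), G.s e ∈ K ↔ G.t e ∈ K := fun e he => by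
    by_contra k
    exact (mem_sdiff.1 (mem_ins.1 he).2.1).2
      (h e (mem_crs.2 ⟨ins_mono sdiff_subset he, k⟩)).1
  refine ⟨filter_eq_empty_iff.2 fun e he => not_not.2 ?_,
    filter_eq_empty_iff.2 fun e he => not_not.2 ?_⟩
  · have k1 := (mem_ins.1 he).2
    simp only [mem_sdiff] at k1 ⊢
    simp only [k1, k e he, not_false_eq_true]
  · have k1 := (mem_ins.1 he).2
    simp only [mem_sdiff] at k1 ⊢
    simp only [k1, k e he]

theorem tpg {Y A L : Finset V} (δ : V) (e0 : E) (hA : A ⊆ Y) (hL : L ⊆ Y) (hA4 : A.card ≤ 4)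
    (hL2 : 2 ≤ L.card) (hnl : ∀ e ∈ G.ins Y, G.s e ≠ G.t e)
    (hd : ∀ x ∈ Y, G.deg (G.ins Y) x + iv (x ∈ A) + iv (x ∈ L) ≤ 3)
    (h2 : ∀ Z ⊆ Y, Z.Nonempty → 2 ≤ (G.crs (G.ins Y) Z).card + (Z ∩ A).card)
    (h3 : ∀ Z ⊆ Y, 2 ≤ Z.card → (G.crs (G.ins Y) Z).card + (Z ∩ A).card ≤ 2 →
      2 ≤ (Z ∩ insert δ L).card) :
    ∃ n v g, G.Pth (G.ins Y) n v g ∧ 1 ≤ n ∧ v 0 ∈ A ∧ v n ∈ A ∧ ∃ x1 ∈ L, ∃ x2 ∈ L, x1 ≠ x2 ∧
      x1 ∈ pv n v ∧ (x2 ∈ pv n v ∨
        (x2 ∉ pv n v ∧ x2 ∉ A ∧ ∀ e ∈ G.ins Y, ∀ y, G.Je e x2 y → y ∈ pv n v)) := by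
  by_contra hno
  have hd' : ∀ x ∈ Y, G.deg (G.ins Y) x + iv (x ∈ A) ≤ 3 := fun x hx =>
    (Nat.le_add_right _ _).trans (hd x hx)
  have C1 : ∀ n v g, G.Pth (G.ins Y) n v g → 1 ≤ n → v 0 ∈ A → v n ∈ A → ∀ x1 ∈ L, ∀ x2 ∈ L,
      x1 ≠ x2 → x1 ∈ pv n v → x2 ∉ pv n v := fun n v g a1 a2 a3 a4 x1 a5 x2 a6 a7 a8 a9 =>
    hno ⟨n, v, g, a1, a2, a3, a4, x1, a5, x2, a6, a7, a8, Or.inl a9⟩
  have key : ∀ μ n v g, G.Pth (G.ins Y) n v g → 1 ≤ n → v 0 ∈ A → v n ∈ A → ∀ x1 ∈ L, ∀ x2 ∈ L,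
      x1 ≠ x2 → x1 ∈ pv n v → (G.cmp (Y \ pv n v) x2).card +
        (if δ ∈ G.cmp (Y \ pv n v) x2 then Fintype.card V else 0) ≠ μ := by
    intro μ
    induction μ using Nat.strong_induction_on with
    | _ μ ih =>
    intro n v g hp hn h0 h1 x1 m1 x2 m2 hne hx hμ
    have hx2 := C1 n v g hp hn h0 h1 x1 m1 x2 m2 hne hx
    obtain ⟨k1, k2, k3, k4⟩ := cmp_spec (G := G) (mem_sdiff.2 ⟨hL m2, hx2⟩)
    generalize G.cmp (Y \ pv n v) x2 = K at k1 k2 k3 k4 hμ
    have hKY : K ⊆ Y := k2.trans sdiff_subset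
    have hKd : Disjoint K (pv n v) := disjoint_left.2 fun x a => (mem_sdiff.1 (k2 a)).2
    have sm : ∀ n' v' g', G.Pth (G.ins Y) n' v' g' → 1 ≤ n' → v' 0 ∈ A → v' n' ∈ A →
        ∀ y1 ∈ L, ∀ y2 ∈ L, y1 ≠ y2 → y1 ∈ pv n' v' → y2 ∈ K → (∃ x ∈ K, x ∈ pv n' v') →
        G.crs (G.ins (Y \ pv n' v')) (K \ pv n' v') ≠ ∅ := by
      rintro n' v' g' a1 a2 a3 a4 y1 a5 y2 a6 a7 a8 a9 ⟨x, b1, b2⟩ b3
      refine ih _ ?_ n' v' g' a1 a2 a3 a4 y1 a5 y2 a6 a7 a8 rfl
      rw [← hμ]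
      exact K1GT3_lt δ _ (Finset.ssubset_of_subset_of_ssubset (cmp_min (mem_sdiff.2
        ⟨a9, C1 n' v' g' a1 a2 a3 a4 y1 a5 y2 a6 a7 a8⟩) b3)
        ((ssubset_iff_of_subset sdiff_subset).2 ⟨x, b1, fun h => (mem_sdiff.1 h).2 b2⟩))
    obtain ⟨q, hq, rfl⟩ := mem_pv.1 hx
    have hK : (G.crs (G.ins Y) K).card + (K ∩ A).card ≤ 2 := by
      rcases (K ∩ A).eq_empty_or_nonempty with k5 | ⟨a, k5⟩
      · rw [k5, card_empty, add_zero]
        by_contra k6
        obtain ⟨e1, a1, e2, a2, e3, a3, n1, n2, n3⟩ := two_lt_card.1 (not_le.1 k6)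
        obtain ⟨l1, b1, y1, c1, d1⟩ := K1GT3_crs' k2 k3 a1
        obtain ⟨l2, b2, y2, c2, d2⟩ := K1GT3_crs' k2 k3 a2
        obtain ⟨l3, b3, y3, c3, d3⟩ := K1GT3_crs' k2 k3 a3
        have o1 := tp_one hp hn h0 h1 hd hKd b1 (mem_crs.1 a1).1 c1 d1
        have o2 := tp_one hp hn h0 h1 hd hKd b2 (mem_crs.1 a2).1 c2 d2
        have o3 := tp_one hp hn h0 h1 hd hKd b3 (mem_crs.1 a3).1 c3 d3
        have q1 : l1 ≠ q := fun k => o1.1 (k ▸ m1)
        have q2 : l2 ≠ q := fun k => o2.1 (k ▸ m1)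
        have q3 : l3 ≠ q := fun k => o3.1 (k ▸ m1)
        have r1 : l1 ≠ l2 := fun k => n1 (o2.2 e1 (mem_crs.1 a1).1 y1 c1 (k ▸ d1))
        have r2 : l1 ≠ l3 := fun k => n2 (o3.2 e1 (mem_crs.1 a1).1 y1 c1 (k ▸ d1))
        have r3 : l2 ≠ l3 := fun k => n3 (o3.2 e2 (mem_crs.1 a2).1 y2 c2 (k ▸ d2))
        have tw : ∀ i j, j ≤ n → (∃ f ∈ G.ins Y, ∃ x ∈ K, G.Je f (v i) x) →
            (∃ f ∈ G.ins Y, ∃ x ∈ K, G.Je f (v j) x) → ¬ (i < j ∧ (j < q ∨ q < i)) := by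
          rintro i j u1 u2 u3 ⟨u4, u5⟩
          obtain ⟨n', v', g', p1, p2, p3, p4, p5, p6, p7⟩ :=
            K1GT3_two hp k2 k3 k4 hq u4 u1 u5 u2 u3
          exact sm n' v' g' p1 p2 (p3 ▸ h0) (p4 ▸ h1) _ m1 _ m2 hne p6 k1 p5 p7
        have t1 : ∃ f ∈ G.ins Y, ∃ x ∈ K, G.Je f (v l1) x := ⟨e1, (mem_crs.1 a1).1, y1, c1, d1⟩
        have t2 : ∃ f ∈ G.ins Y, ∃ x ∈ K, G.Je f (v l2) x := ⟨e2, (mem_crs.1 a2).1, y2, c2, d2⟩
        have t3 : ∃ f ∈ G.ins Y, ∃ x ∈ K, G.Je f (v l3) x := ⟨e3, (mem_crs.1 a3).1, y3, c3, d3⟩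
        have := tw l1 l2 b2 t1 t2
        have := tw l2 l1 b1 t2 t1
        have := tw l1 l3 b3 t1 t3
        have := tw l3 l1 b1 t3 t1
        have := tw l2 l3 b3 t2 t3
        have := tw l3 l2 b2 t3 t2
        omega
      · obtain ⟨k6, k7⟩ := mem_inter.1 k5
        have k8 : G.crs (G.ins Y) K = ∅ := eq_empty_of_forall_notMem fun e he => by
          obtain ⟨l, b1, y, c1, d1⟩ := K1GT3_crs' k2 k3 he
          rcases le_total l q with u | u
          · obtain ⟨n', v', g', p1, p2, p3, p4, p5, p6⟩ := K1GT3_end hp k2 k3 k4 hq u k6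
              ⟨e, (mem_crs.1 he).1, y, c1, d1⟩
            exact sm n' v' g' p1 p2 (p3 ▸ k7) (p4 ▸ h1) _ m1 _ m2 hne p5 k1
              ⟨a, k6, mem_pv.2 ⟨0, n'.zero_le, p3⟩⟩ p6
          · obtain ⟨n', v', g', p1, p2, p3, p4, p5, p6⟩ := K1GT3_end' hp k2 k3 k4 u b1 k6
              ⟨e, (mem_crs.1 he).1, y, c1, d1⟩
            exact sm n' v' g' p1 p2 (p3 ▸ k7) (p4 ▸ h0) _ m1 _ m2 hne p5 k1
              ⟨a, k6, mem_pv.2 ⟨0, n'.zero_le, p3⟩⟩ p6
        have k9 : v 0 ≠ v n := fun k => by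
          have := hp.inj 0 n.zero_le n le_rfl k
          omega
        have k10 : K ∩ A ⊆ A \ {v 0, v n} := fun x a => mem_sdiff.2 ⟨(mem_inter.1 a).2, fun b =>
          (mem_sdiff.1 (k2 (mem_inter.1 a).1)).2 (by
            rcases mem_insert.1 b with b | b
            · exact mem_pv.2 ⟨0, n.zero_le, b.symm⟩
            · exact mem_pv.2 ⟨n, le_rfl, (mem_singleton.1 b).symm⟩)⟩
        have k11 := card_le_card k10
        rw [card_sdiff_of_subset (insert_subset h0 (singleton_subset_iff.2 h1)), card_pair k9]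
          at k11
        rw [k8, card_empty]
        omega
    by_cases hK1 : 2 ≤ K.card
    · obtain ⟨n', v', g', p1, p2, p3, p4, p5⟩ := tp_thru e0 hA hd' h2 (hL m2)
      obtain ⟨c1, c2⟩ := K1GT3_cl (tp_exh p1 p2 p3 p4 hK ⟨x2, k1, p5⟩)
      obtain ⟨y, a1, a2⟩ := exists_mem_ne (h3 K hKY hK1 hK) x2
      rcases mem_insert.1 (mem_inter.1 a1).2 with a3 | a3
      · refine ih _ ?_ n' v' g' p1 p2 p3 p4 x2 m2 _ m1 hne.symm p5 rfl
        have a4 : δ ∈ K := a3 ▸ (mem_inter.1 a1).1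
        have a5 := cmp_min (G := G) (mem_sdiff.2 ⟨hL m1, fun k => (mem_sdiff.1 (k2 k)).2 hx⟩) c2
        rw [← hμ, if_pos a4, if_neg fun k => (mem_sdiff.1 (a5 k)).2 a4]
        have := card_le_univ (G.cmp (Y \ pv n' v') (v q))
        omega
      · exact sm n' v' g' p1 p2 p3 p4 x2 m2 y a3 a2.symm p5 (mem_inter.1 a1).1 ⟨x2, k1, p5⟩ c1
    · have a1 : ∀ y ∈ K, y = x2 := fun y a => card_le_one.1 (by omega) y a x2 k1
      refine hno ⟨n, v, g, hp, hn, h0, h1, _, m1, x2, m2, hne, hx, Or.inr ⟨hx2, fun k => ?_,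
        fun e he y hj => K1GT3_crs k2 k3 he k1 (fun k => ?_) hj⟩⟩
      · have a2 := h2 K hKY ⟨x2, k1⟩
        have a3 : (K ∩ A).card ≤ 1 := (card_le_card inter_subset_left).trans (by omega)
        obtain ⟨e, he⟩ : (G.crs (G.ins Y) K).Nonempty := card_pos.1 (by omega)
        obtain ⟨l, b1, y, c1, d1⟩ := K1GT3_crs' k2 k3 he
        rcases le_total l q with u | u
        · obtain ⟨n', v', g', p1, p2, p3, p4, p5, -⟩ := K1GT3_end hp k2 k3 k4 hq u k1
            ⟨e, (mem_crs.1 he).1, y, c1, d1⟩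
          exact C1 n' v' g' p1 p2 (p3 ▸ k) (p4 ▸ h1) _ m1 _ m2 hne p5
            (mem_pv.2 ⟨0, n'.zero_le, p3⟩)
        · obtain ⟨n', v', g', p1, p2, p3, p4, p5, -⟩ := K1GT3_end' hp k2 k3 k4 u b1 k1
            ⟨e, (mem_crs.1 he).1, y, c1, d1⟩
          exact C1 n' v' g' p1 p2 (p3 ▸ k) (p4 ▸ h0) _ m1 _ m2 hne p5
            (mem_pv.2 ⟨0, n'.zero_le, p3⟩)
      · rw [a1 y k] at hj
        exact hnl e he (hj.elim (fun u => u.1.trans u.2.symm) fun u => u.1.trans u.2.symm)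
  obtain ⟨x1, m1, x2, m2, hne⟩ := one_lt_card.1 (show 1 < L.card by omega)
  obtain ⟨n, v, g, p1, p2, p3, p4, p5⟩ := tp_thru e0 hA hd' h2 (hL m1)
  exact key _ n v g p1 p2 p3 p4 x1 m1 x2 m2 hne p5 rfl

end SG

end Pool.Agent.Work.MP_8c679b_co
end

-- merged part: Pool.Agent.Work.MP_8c679b_co.K1.Tp1
section
/-!
Odd rings with two units: the paths.
-/

set_option autoImplicit false

namespace Pool.Agent.Work.MP_8c679b_co

open Finset

namespace SG

variable {V E : Type} [Fintype V] [DecidableEq V] [DecidableEq E] {G : SG V E}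
  {T W : Finset V} {z d : E}

variable (G) in
/-- two units of the set `Y` inside `W`: live edges at `Y`, or at a single vertex all of whose
other edges go to `Y` -/
def Un2 (W Y : Finset V) (d : E) : Prop :=
  ∃ l1 ∈ G.cut W, ∃ l2 ∈ G.cut W, l1 ≠ l2 ∧ l1 ≠ d ∧ l2 ≠ d ∧ G.ie W l1 ∈ Y ∧
    (G.ie W l2 ∈ Y ∨ (G.ie W l2 ∉ Y ∧ ∀ e ∈ G.cut {G.ie W l2}, e ≠ l2 → e ∈ G.cut Y))

/-- In a two-edge-connected set the leaving edges have different inner ends.  HINT: `Cut_two`,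
`crs_ins` for a single vertex, `HT.vtx`. -/
theorem tp_dv (hc : G.Cub) (hT : G.HT T) (hW : W ⊆ T) (h2 : G.Two W (G.ins W)) (h1 : 2 ≤ W.card)
    {e f : E} (he : e ∈ G.cut W) (hf : f ∈ G.cut W) (hef : e ≠ f) : G.Dv W e f := by
  intro h
  have hv : G.ie W e ∈ W := ie_mem (cut_sub_tch he)
  have k1 := Cut_two he hf hef h
  have k2 := (hT.vtx hc (hW hv)).1
  have k3 := h2 {G.ie W e} (singleton_subset_iff.2 hv) (singleton_nonempty _) (by
    intro k
    rw [← k, card_singleton] at h1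
    omega)
  rw [crs_ins (singleton_subset_iff.2 hv)] at k3
  have k4 := card_sdiff_add_card_inter (G.cut {G.ie W e}) (G.cut W)
  omega

/-- `tpg` for an arbitrary edge set inside `Y` -/
theorem K1Tp1_tpg {Y A L : Finset V} {S : Finset E} (hS : S ⊆ G.ins Y) (δ : V) (e0 : E)
    (hA : A ⊆ Y) (hL : L ⊆ Y) (hA4 : A.card ≤ 4) (hL2 : 2 ≤ L.card)
    (hnl : ∀ e ∈ S, G.s e ≠ G.t e)
    (hd : ∀ x ∈ Y, G.deg S x + iv (x ∈ A) + iv (x ∈ L) ≤ 3)
    (h2 : ∀ Z ⊆ Y, Z.Nonempty → 2 ≤ (G.crs S Z).card + (Z ∩ A).card)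
    (h3 : ∀ Z ⊆ Y, 2 ≤ Z.card → (G.crs S Z).card + (Z ∩ A).card ≤ 2 →
      2 ≤ (Z ∩ insert δ L).card) :
    ∃ n v g, G.Pth S n v g ∧ 1 ≤ n ∧ v 0 ∈ A ∧ v n ∈ A ∧ ∃ x1 ∈ L, ∃ x2 ∈ L, x1 ≠ x2 ∧
      x1 ∈ pv n v ∧ (x2 ∈ pv n v ∨
        (x2 ∉ pv n v ∧ x2 ∉ A ∧ ∀ e ∈ S, ∀ y, G.Je e x2 y → y ∈ pv n v)) := by
  have e1 : (⟨S, G.s, G.t, G.n⟩ : SG V E).ins Y = S :=
    filter_true_of_mem fun e he => (mem_ins.1 (hS he)).2
  have k := tpg (G := ⟨S, G.s, G.t, G.n⟩) (Y := Y) (A := A) (L := L) δ e0 hA hL hA4 hL2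
  rw [e1] at k
  obtain ⟨n, v, g, hp, r⟩ := k hnl hd h2 h3
  exact ⟨n, v, g, ⟨hp.inj, hp.mem, hp.jn⟩, r⟩

omit [Fintype V] in
theorem K1Tp1_ins {S : Finset E} {e : E} {x : V} (he : e ∉ S) (ha : G.At e x) :
    G.deg S x + 1 ≤ G.deg (insert e S) x := by
  have h2 : 0 < G.inc e x := inc_pos.2 ha
  unfold deg
  rw [sum_insert he]
  omega

theorem K1Tp1_gen (hc : G.Cub) (hT : G.HT T) (hW : W ⊂ T) (h2 : G.Two W (G.ins W))
    (h1 : 2 ≤ W.card) (d : E) {Y A : Finset V} {S : Finset E} (hY : Y ⊆ W) (hS : S ⊆ G.ins Y)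
    (hA : A ⊆ Y) (hA2 : 2 ≤ A.card) (hA4 : A.card ≤ 4)
    (a1 : ∀ x ∈ A, ∃ e ∈ G.ins W, e ∉ S ∧ G.At e x)
    (a2 : ∀ Z ⊆ Y, (G.crs (G.ins W) Z).card ≤ (G.crs S Z).card + (Z ∩ A).card)
    (a3 : ∀ e ∈ G.cut W, G.ie W e ∈ Y)
    (a4 : ∀ e ∈ G.ins W, ∀ x ∈ Y, G.At e x → x ∉ A → e ∈ S) :
    ∃ n v g, G.Pth S n v g ∧ 1 ≤ n ∧ v 0 ∈ A ∧ v n ∈ A ∧
      ∀ U, pv n v ⊆ U → (∀ x ∈ Y, x ∈ U → x ∈ pv n v) → G.Un2 W U d := by
  have hSW : S ⊆ G.ins W := hS.trans (ins_mono hY)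
  have inj : ∀ e ∈ G.cut W, ∀ f ∈ G.cut W, G.ie W e = G.ie W f → e = f := fun e he f hf h =>
    by_contra fun k => tp_dv hc hT hW.1 h2 h1 he hf k h
  have h4 := hT.four Subset.rfl hW h1
  obtain ⟨n, v, g, hp, hn, v0, vn, x1, m1, x2, m2, hx, p1, p2⟩ := K1Tp1_tpg hS (G.ie W d) d
    (A := A) (L := ((G.cut W).erase d).image (G.ie W)) hA
    (fun x hx => by
      obtain ⟨e, he, rfl⟩ := mem_image.1 hx
      exact a3 e (mem_of_mem_erase he)) hA4
    (by
      rw [card_image_of_injOn fun e he f hf h =>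
        inj e (mem_of_mem_erase he) f (mem_of_mem_erase hf) h]
      have := pred_card_le_card_erase (s := G.cut W) (a := d)
      omega)
    (fun e he => hT.noloop hc (tch_mono hW.1 (ins_sub_tch (hSW he))))
    (fun x _ => by
      have b1 : ∃ S' ⊆ G.ins W, G.deg S x + iv (x ∈ A) ≤ G.deg S' x := by
        by_cases k : x ∈ A
        · obtain ⟨e, e1, e2, e3⟩ := a1 x k
          refine ⟨insert e S, insert_subset e1 hSW, ?_⟩
          rw [iv, if_pos k]
          exact K1Tp1_ins e2 e3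
        · refine ⟨S, hSW, ?_⟩
          rw [iv, if_neg k, add_zero]
      obtain ⟨S', s1, s2⟩ := b1
      have s3 := deg_mono (G := G) (v := x) s1
      by_cases k : x ∈ ((G.cut W).erase d).image (G.ie W)
      · obtain ⟨e, he, he'⟩ := mem_image.1 k
        have s4 := GCpm_degt hc (mem_of_mem_erase he)
        rw [he'] at s4
        have s5 : (iv (x ∈ ((G.cut W).erase d).image (G.ie W)) : ℕ) = 1 := by rw [iv, if_pos k]
        omega
      · have s4 := hc.le3 (ins_sub_A (W := W)) x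
        have s5 : (iv (x ∈ ((G.cut W).erase d).image (G.ie W)) : ℕ) = 0 := by rw [iv, if_neg k]
        omega)
    (fun Z hZ hne => by
      by_cases k : Z = W
      · have : Z ∩ A = A := inter_eq_right.2 (k ▸ hA.trans hY)
        rw [this]
        omega
      · exact (h2 Z (hZ.trans hY) hne k).trans (a2 Z hZ))
    (fun Z hZ z2 z3 => by
      have hZW := hZ.trans hY
      have b1 := hT.four Subset.rfl (Finset.ssubset_of_subset_of_ssubset hZW hW) z2
      have b2 := a2 Z hZ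
      rw [crs_ins hZW] at b2
      have b3 := card_sdiff_add_card_inter (G.cut Z) (G.cut W)
      refine le_trans (by omega : 2 ≤ (G.cut Z ∩ G.cut W).card) ?_
      refine card_le_card_of_injOn (G.ie W) (fun e he => ?_) fun e he f hf h =>
        inj e (mem_inter.1 he).2 f (mem_inter.1 hf).2 h
      obtain ⟨e1, e2⟩ := mem_inter.1 (mem_coe.1 he)
      refine mem_coe.2 (mem_inter.2 ⟨?_, ?_⟩)
      · rw [← (cut_of_sub hZW e2 (cut_sub_tch e1)).2]
        exact ie_mem (cut_sub_tch e1)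
      · by_cases k : e = d
        · rw [k]
          exact mem_insert_self _ _
        · exact mem_insert_of_mem (mem_image_of_mem _ (mem_erase.2 ⟨k, e2⟩)))
  refine ⟨n, v, g, hp, hn, v0, vn, fun U u1 u2 => ?_⟩
  obtain ⟨l1, q1, rfl⟩ := mem_image.1 m1
  obtain ⟨l2, q2, rfl⟩ := mem_image.1 m2
  obtain ⟨q3, q4⟩ := mem_erase.1 q1
  obtain ⟨q5, q6⟩ := mem_erase.1 q2
  refine ⟨l1, q4, l2, q6, fun k => hx (by rw [k]), q3, q5, u1 p1, ?_⟩
  rcases p2 with p2 | ⟨p2, p3, p4⟩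
  · exact Or.inl (u1 p2)
  have hxU : G.ie W l2 ∉ U := fun k => p2 (u2 _ (a3 l2 q6) k)
  refine Or.inr ⟨hxU, fun e he hne => ?_⟩
  have c0 : e ∈ G.A := (mem_cut.1 he).1
  have c1 : G.ie {G.ie W l2} e = G.ie W l2 := mem_singleton.1 (ie_mem (cut_sub_tch he))
  have c2 : G.At e (G.ie W l2) := c1 ▸ ie_at
  have c3 : e ∈ G.ins W := by
    refine (mem_tch_iff.1 (Cut_tch c0 c2 (hY (a3 l2 q6)))).resolve_right fun k => hne ?_
    exact inj e k l2 q6 (eq_ie k (hY (a3 l2 q6)) c2).symm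
  have c4 : G.Je e (G.ie W l2) (G.oe {G.ie W l2} e) := by
    have := je_ie_oe (G := G) (X := {G.ie W l2}) (e := e)
    rwa [c1] at this
  have c5 := u1 (p4 e (a4 e c3 _ (a3 l2 q6) c2 p3) _ c4)
  refine mem_cut.2 ⟨c0, ?_⟩
  rcases c4 with ⟨c6, c7⟩ | ⟨c6, c7⟩ <;> rw [c6, c7] <;> (clear * - c5 hxU; tauto)

/-- The ring through the edge `z`.
HINT: `tpg` in the graph `del z` with `Y = W`, `A = {s z, t z}`,
`L = ((cut W).erase d).image (ie W)`, `δ = ie W d`.  `4 ≤ (cut W).card` by `HT.four`; `tp_dv`.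
For `Z ⊆ W` the cut of `Z` consists of crossing edges, possibly `z`, and edges of `cut W`, whose
inner ends are different elements of `Z ∩ insert δ L`.  Close the path by `z` (`Pth.close`,
`Cyc.cc`; if the path runs from `t z` to `s z` use `Je.symm`).  A unit off the path: its edges
other than `l2` lie in `ins W` (`tp_dv`), are different from `z` and end on the path. -/
theorem tp_ring (hc : G.Cub) (hT : G.HT T) (hW : W ⊂ T) (h2 : G.Two W (G.ins W))
    (hz : z ∈ G.ins W) (d : E) :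
    ∃ C ⊆ G.ins W, G.Cc C ∧ z ∈ C ∧ G.Un2 W (G.vs C) d := by
  obtain ⟨z0, z1, z2⟩ := mem_ins.1 hz
  have z3 : G.s z ≠ G.t z := hT.noloop hc (tch_mono hW.1 (ins_sub_tch hz))
  have hA : ({G.s z, G.t z} : Finset V) ⊆ W := Cut_pair z1 z2
  have hA2 := card_pair z3
  obtain ⟨n, v, g, hp, hn, v0, vn, hU⟩ := K1Tp1_gen hc hT hW h2 (hA2 ▸ card_le_card hA) d
    (Y := W) (A := {G.s z, G.t z}) (S := (G.ins W).erase z) Subset.rfl (erase_subset _ _) hA
    hA2.ge (by omega)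
    (fun x hx => ⟨z, hz, notMem_erase _ _, by
      rcases mem_insert.1 hx with k | k
      exacts [Or.inl k.symm, Or.inr (mem_singleton.1 k).symm]⟩)
    (fun Z _ => by
      by_cases k : z ∈ G.crs (G.ins W) Z
      · have b1 : G.crs (G.ins W) Z ⊆ insert z (G.crs ((G.ins W).erase z) Z) := fun e he => by
          simp only [mem_insert, mem_crs, mem_erase] at he ⊢
          tauto
        have b2 := (card_le_card b1).trans (card_insert_le _ _)
        have b3 : 0 < (Z ∩ {G.s z, G.t z}).card := by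
          refine card_pos.2 ?_
          by_cases k' : G.s z ∈ Z
          · exact ⟨_, mem_inter.2 ⟨k', mem_insert_self _ _⟩⟩
          · have k'' := (mem_crs.1 k).2
            exact ⟨G.t z, mem_inter.2 ⟨by tauto, mem_insert_of_mem (mem_singleton_self _)⟩⟩
        omega
      · have b1 : G.crs (G.ins W) Z ⊆ G.crs ((G.ins W).erase z) Z := fun e he =>
          mem_crs.2 ⟨mem_erase.2 ⟨fun k' => k (k' ▸ he), (mem_crs.1 he).1⟩, (mem_crs.1 he).2⟩
        exact (card_le_card b1).trans (Nat.le_add_right _ _))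
    (fun e he => ie_mem (cut_sub_tch he))
    (fun e he x _ ha hx => mem_erase.2 ⟨fun k => hx (by
      subst k
      rcases ha with k | k
      exacts [k ▸ mem_insert_self _ _, k ▸ mem_insert_of_mem (mem_singleton_self _)]), he⟩)
  have hne : v n ≠ v 0 := fun k => by
    have := hp.inj n le_rfl 0 (Nat.zero_le _) k
    omega
  have hj : G.Je z (v n) (v 0) := by
    simp only [mem_insert, mem_singleton] at v0 vn
    rcases v0 with a | a <;> rcases vn with b | b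
    · exact absurd (b.trans a.symm) hne
    · exact Or.inr ⟨a.symm, b.symm⟩
    · exact Or.inl ⟨b.symm, a.symm⟩
    · exact absurd (b.trans a.symm) hne
  have hp' : G.Pth (G.ins W) n v g := hp.mono fun i hi => mem_of_mem_erase (hp.mem i hi)
  have hcy := hp'.close hn hz hj fun k => (mem_erase.1 (hp.mem 0 hn)).1 k.symm
  obtain ⟨c1, c2, c3, -⟩ := hcy.cc
  refine ⟨_, c3, c1, mem_pe.2 ⟨n, Nat.lt_succ_self n, if_neg (lt_irrefl n)⟩, ?_⟩
  rw [c2]
  exact hU _ Subset.rfl fun _ _ k => k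

/-- The path around a box `w`.
HINT: `tpg` with `Y = W \ w`, `A = (cut w).image (oe w)`, `L`, `δ` as in `tp_ring` (no vertex of
`w` has an edge leaving `W`).  The outer ends are different (`HT.oe_ne`; `insert _ w ⊆ W`).
For `Z ⊆ W \ w` the edges of `ins W` crossing `Z` are crossing edges of `ins (W \ w)` or edges
of `cut w` with outer end in `Z ∩ A`; `Z ≠ W` since `w` is nonempty.  `Pth.pp`. -/
theorem tp_box (hc : G.Cub) (hT : G.HT T) (hW : W ⊂ T) (h2 : G.Two W (G.ins W)) {w : Finset V}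
    (hw : w ⊆ W) (h4 : (G.cut w).card = 4) (hin : G.cut w ⊆ G.ins W) (d : E) :
    ∃ a ∈ G.cut w, ∃ b ∈ G.cut w, a ≠ b ∧ ∃ U P, U ⊆ W \ w ∧ G.Pp U P (G.oe w b) (G.oe w a) ∧
      G.Un2 W U d ∧ ∀ X0 ⊆ w, G.Un2 W (X0 ∪ U) d := by
  have ho : ∀ e ∈ G.cut w, G.oe w e ∈ W \ w := fun e he => by
    refine mem_sdiff.2 ⟨?_, oe_not_mem he⟩
    rcases oe_at (G := G) (X := w) (e := e) with k | k
    exacts [k ▸ (mem_ins.1 (hin he)).2.1, k ▸ (mem_ins.1 (hin he)).2.2]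
  have inj : ∀ e ∈ G.cut w, ∀ f ∈ G.cut w, G.oe w e = G.oe w f → e = f := fun e he f hf h =>
    by_contra fun k => hT.oe_ne hc (hw.trans hW.1) h4 he hf k (hW.1 (mem_sdiff.1 (ho e he)).1)
      (Finset.ssubset_of_subset_of_ssubset (insert_subset (mem_sdiff.1 (ho e he)).1 hw) hW).ne h
  have hA : (G.cut w).image (G.oe w) ⊆ W \ w := fun x hx => by
    obtain ⟨e, he, rfl⟩ := mem_image.1 hx
    exact ho e he
  have hA4 : ((G.cut w).image (G.oe w)).card = 4 := by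
    rw [card_image_of_injOn fun e he f hf h => inj e he f hf h, h4]
  have h1 : 2 ≤ W.card := by
    have := card_le_card (hA.trans sdiff_subset)
    omega
  have hcut : ∀ e ∈ G.ins W, ∀ x ∈ W \ w, G.At e x → e ∉ G.ins (W \ w) →
      e ∈ G.cut w ∧ x = G.oe w e := fun e he x hx ha hn => by
    have k : e ∈ G.cut w := by
      simp only [mem_ins, mem_sdiff, mem_cut] at he hx hn ⊢
      rcases ha with rfl | rfl <;> tauto
    exact ⟨k, eq_oe k (mem_sdiff.1 hx).2 ha⟩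
  obtain ⟨n, v, g, hp, hn, v0, vn, hU⟩ := K1Tp1_gen hc hT hW h2 h1 d
    (Y := W \ w) (A := (G.cut w).image (G.oe w)) (S := G.ins (W \ w)) sdiff_subset Subset.rfl hA
    (by omega) hA4.le
    (fun x hx => by
      obtain ⟨e, he, rfl⟩ := mem_image.1 hx
      refine ⟨e, hin he, fun k => ?_, oe_at⟩
      simp only [mem_ins, mem_sdiff, mem_cut] at he k
      tauto)
    (fun Z hZ => by
      have b1 := card_sdiff_add_card_inter (G.crs (G.ins W) Z) (G.crs (G.ins (W \ w)) Z)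
      have b2 := card_le_card
        (inter_subset_right (s₁ := G.crs (G.ins W) Z) (s₂ := G.crs (G.ins (W \ w)) Z))
      have b3 : ∀ e ∈ G.crs (G.ins W) Z \ G.crs (G.ins (W \ w)) Z,
          e ∈ G.cut w ∧ G.oe w e ∈ Z := fun e he => by
        obtain ⟨e1, e2⟩ := mem_sdiff.1 he
        obtain ⟨e3, e4⟩ := mem_crs.1 e1
        have e5 : e ∉ G.ins (W \ w) := fun k => e2 (mem_crs.2 ⟨k, e4⟩)
        by_cases k : G.s e ∈ Z
        · obtain ⟨e6, e7⟩ := hcut e e3 _ (hZ k) (Or.inl rfl) e5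
          exact ⟨e6, e7 ▸ k⟩
        · have k' : G.t e ∈ Z := by tauto
          obtain ⟨e6, e7⟩ := hcut e e3 _ (hZ k') (Or.inr rfl) e5
          exact ⟨e6, e7 ▸ k'⟩
      have b4 : (G.crs (G.ins W) Z \ G.crs (G.ins (W \ w)) Z).card ≤
          (Z ∩ (G.cut w).image (G.oe w)).card :=
        card_le_card_of_injOn (G.oe w)
          (fun e he => mem_coe.2 (mem_inter.2 ⟨(b3 e he).2, mem_image_of_mem _ (b3 e he).1⟩))
          fun e he f hf h => inj e (b3 e he).1 f (b3 f hf).1 h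
      omega)
    (fun e he => mem_sdiff.2 ⟨ie_mem (cut_sub_tch he), fun k => not_ins_of_cut he
      (hin (cut_of_sub hw he (Cut_tch (mem_cut.1 he).1 ie_at k)).1)⟩)
    (fun e he x hx ha hn => by_contra fun k => hn (by
      obtain ⟨e6, e7⟩ := hcut e he x hx ha k
      exact e7 ▸ mem_image_of_mem _ e6))
  obtain ⟨b, hb, b1⟩ := mem_image.1 v0
  obtain ⟨a, ha, a1⟩ := mem_image.1 vn
  have hsub := hp.sub_of_ins (hA v0)
  refine ⟨a, ha, b, hb, fun k => ?_, pv n v, pe n g, hsub, ?_, hU _ Subset.rfl fun _ _ k => k,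
    fun X0 hX => hU _ subset_union_right fun x hx k => ?_⟩
  · have := hp.inj n le_rfl 0 (Nat.zero_le _) (by rw [← a1, ← b1, k])
    omega
  · rw [a1, b1]
    exact hp.pp ins_sub_A
  · exact (mem_union.1 k).resolve_left fun k' => (mem_sdiff.1 hx).2 (hX k')

end SG

end Pool.Agent.Work.MP_8c679b_co
end

-- merged part: Pool.Agent.Work.MP_8c679b_co.K1.Tp2
section
/-!
Using two units.
-/

set_option autoImplicit false

namespace Pool.Agent.Work.MP_8c679b_co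

open Finset

namespace SG

variable {V E : Type} [Fintype V] [DecidableEq V] [DecidableEq E] {G : SG V E}
  {T W Y : Finset V} {p : V → ZMod 2} {z i j k d : E}

theorem K1Tp2_abs {O : Finset E} {K : Set (Finset E)} (h : G.Abs0 Y O ∅ K) {ψ : E → ZMod 3}
    (hψ : ∀ e ∈ G.cut Y, ψ e ≠ 0) :
    ∃ φ, (∀ e, e ∉ G.ins Y → φ e = ψ e) ∧ G.Sl Y O K φ ∧ G.tw p Y φ = G.tw p Y ψ := by
  have hf : G.fr Y ∅ = G.ins Y := by simp [fr]
  have h2 := h.2
  rw [hf] at h2
  obtain ⟨φ, h3, h4⟩ := h2.2 ψ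
    (fun e he h1 _ => hψ e ((mem_tch_iff.1 he).resolve_left h1)) trivial
  refine ⟨φ, h3, h4, sum_congr rfl fun e he => ?_⟩
  rw [h3 e (not_ins_of_cut he)]

theorem K1Tp2_kap {X : Finset V} {e : E} (h : e ∈ G.cut X) : (G.kap p X e : ZMod 3) ≠ 0 := by
  intro k
  have k1 := kap_sq (R := ZMod 3) (p := p) h
  rw [k, zero_mul] at k1
  exact zero_ne_one k1

theorem K1Tp2_two {g1 g2 : E} (h1 : g1 ∈ G.cut Y) (h2 : g2 ∈ G.cut Y) (hne : g1 ≠ g2)
    (ψ : E → ZMod 3) (c : ZMod 3) : ∃ u1 u2 : ZMod 3, u1 ≠ 0 ∧ u2 ≠ 0 ∧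
      G.tw p Y (Function.update (Function.update ψ g1 u1) g2 u2) = c := by
  obtain ⟨u1, u2, k1, k2, k3⟩ := Pure_two3
    (∑ e ∈ ((G.cut Y).erase g1).erase g2, G.kap p Y e * ψ e - c) _ _
    (K1Tp2_kap (p := p) h1) (K1Tp2_kap (p := p) h2)
  refine ⟨u1, u2, k1, k2, ?_⟩
  unfold tw
  rw [Pure_upd _ _ _ h1 h2 hne]
  linear_combination k3

theorem K1Tp2_upd {ψ : E → ZMod 3} {g e : E} {u : ZMod 3} (hu : u ≠ 0) (h : ψ e ≠ 0) :
    Function.update ψ g u e ≠ 0 := by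
  by_cases k : e = g
  · rw [k, Function.update_self]
    exact hu
  · rw [Function.update_of_ne k]
    exact h

theorem K1Tp2_z3 : ∀ R1 R2 k c : ZMod 3, R1 ≠ R2 → k ≠ 0 →
    ∃ u : ZMod 3, u ≠ 0 ∧ (k * u + R1 = c ∨ k * u + R2 = c) := by decide

theorem K1Tp2_z3a : ∀ a : ZMod 3, a ≠ 0 → 2 * a ≠ 0 := by decide

theorem K1Tp2_z3b : ∀ a x y : ZMod 3, a * a = 1 → -(2 * a * y) + 2 * (a * x) = 0 → x = y := by
  decide

theorem K1Tp2_live (hY : Y ⊆ W) {l : E} (hl : l ∈ G.cut W) (hi : G.ie W l ∈ Y) :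
    l ∈ G.cut Y ∧ l ∉ G.tch (W \ Y) := by
  refine ⟨(cut_of_sub hY hl (sol1_at_tch (mem_cut.1 hl).1 hi ie_at)).1, fun k => ?_⟩
  have k1 := ie_mem k
  rw [(cut_of_sub sdiff_subset hl k).2] at k1
  exact (mem_sdiff.1 k1).2 hi

/-- A set that absorbs all nonzero boundary values contains `z` in its even set.
HINT: `KC.cons`.  `3 ≤ (cut Y).card`; by `Pure_two3`, `Pure_upd` there are nonzero values on the
cut with switched sum zero, and values with a nonzero sum (change one sign, or choose the two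
values for another target). -/
theorem tp_zin (hK : G.KC T p z i j k) (hY : Y ⊆ T) (hn : Y.Nonempty) {O : Finset E}
    {K : Set (Finset E)} (h : G.Abs0 Y O ∅ K) : z ∈ G.ins Y ∧ z ∈ O := by
  obtain ⟨g1, h1, g2, h2, hne⟩ := one_lt_card.1
    (lt_of_lt_of_le (by norm_num) (hK.ht Y hY hn).1 : 1 < (G.cut Y).card)
  have key : ∀ c : ZMod 3, ∃ φ, G.Sl Y O K φ ∧ G.tw p Y φ = c := by
    intro c
    obtain ⟨u1, u2, k1, k2, k3⟩ := K1Tp2_two (p := p) h1 h2 hne (fun _ => 1) c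
    obtain ⟨φ, -, k4, k5⟩ := K1Tp2_abs (p := p) h
      (ψ := Function.update (Function.update (fun _ => 1) g1 u1) g2 u2)
      fun e _ => K1Tp2_upd k2 (K1Tp2_upd k1 one_ne_zero)
    exact ⟨φ, k4, k5.trans k3⟩
  have hz : z ∈ G.ins Y := by
    by_contra k
    obtain ⟨φ, k1, k2⟩ := key 1
    rw [(hK.cons hY k1.1).2 k] at k2
    exact zero_ne_one k2
  refine ⟨hz, ?_⟩
  by_contra k
  obtain ⟨φ, k1, k2⟩ := key 0
  have k3 := (hK.cons hY k1.1).1 hz
  rw [k2, zero_add] at k3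
  exact K1Tp2_z3a _ (zv_ne.2 (k1.2.1 z (ins_sub_tch hz) k)) k3

/-- Using the two units.
HINT: `tp_zin`.  Take a solution `φ0` on `W \ Y` (`Ab.sl`), make it nonzero off `tch (W \ Y)`,
negate or update it so that `φ0 d = δ` (`d` is not in `O'`, `Abs0.not_mem`; `Ab_sgn`).  The edge
`l1` (and `l2` if its end is in `Y`) lies in `cut Y` and does not touch `W \ Y`.  If the end `x`
of `l2` is off `Y`, the values at `x` may be negated (`Sl.negOn` with the set `{x}`); this does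
not change `d`, and the contribution of the two edges from `x` to `Y` to `tw p Y` is
`kap p {x} l2 * φ l2 ≠ 0` (`KC.cons` for `{x}`, `kap_link`, `HT.third`).  So the values can be
chosen with `tw p Y ψ = -(2 * chi (p (s z)) * γ)` (`Pure_two3`).  Absorb `Y`; `KC.cons` gives
the value at `z`.  `St.union`, `Sl.congr`, `Sl.union`, `Sl.cov`. -/
theorem tp_fin (hK : G.KC T p z i j k) (hW : W ⊆ T) (hY : Y ⊆ W) (hd : d ∉ G.ins W)
    {O O' : Finset E} {K K' : Set (Finset E)} (h : G.Abs0 Y O ∅ K)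
    (h' : G.Abs0 (W \ Y) O' (G.cut (W \ Y)) K')
    (hc : ∀ t ∈ G.Kus W, (∃ t' ∈ K ∪ K', t' ⊆ t) ∨
      ∃ e ∈ t, e ∈ G.tch W ∧ e ∉ G.ins Y ∧ e ∉ G.ins (W \ Y))
    (hU : G.Un2 W Y d) (γ : ZMod 3) {δ : ZMod 3} (hδ : δ ≠ 0) :
    ∃ O φ, G.St W O ∅ ∧ z ∈ O ∧ G.Sl W O (G.Kus W) φ ∧ φ z = γ ∧ φ d = δ := by
  obtain ⟨l1, hl1, l2, hl2, hne, hd1, hd2, hi1, hi2⟩ := hU
  have hYT : Y ⊆ T := hY.trans hW
  obtain ⟨hz, hzO⟩ := tp_zin hK hYT ⟨_, hi1⟩ h
  have hdis : Disjoint Y (W \ Y) := disjoint_sdiff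
  have hdX : d ∉ G.ins (W \ Y) := fun k => hd (ins_mono sdiff_subset k)
  have hcY : ∀ e ∈ G.cut Y, e ∉ G.ins (W \ Y) := fun e he k => by
    have k1 := ie_mem (cut_sub_tch he)
    have k2 : G.At e (G.ie Y e) := ie_at
    rw [mem_ins, mem_sdiff, mem_sdiff] at k
    rcases k2 with k2 | k2
    · exact k.2.1.2 (k2 ▸ k1)
    · exact k.2.2.2 (k2 ▸ k1)
  obtain ⟨φ0, s0⟩ := h'.2.sl
  obtain ⟨χ, s1, s2⟩ : ∃ χ, G.Sl (W \ Y) O' K' χ ∧ (d ∈ G.tch (W \ Y) → χ d = δ) := by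
    by_cases k : d ∈ G.tch (W \ Y)
    · rcases Ab_sgn _ _ (s0.2.1 d k (h'.not_mem hdX)) hδ with k1 | k1
      exacts [⟨φ0, s0, fun _ => k1⟩, ⟨_, s0.neg, fun _ => k1⟩]
    · exact ⟨φ0, s0, fun k1 => absurd k1 k⟩
  obtain ⟨φ1, t1, t2, t3⟩ : ∃ φ1, G.Sl (W \ Y) O' K' φ1 ∧ φ1 d = δ ∧
      ∀ e ∈ G.cut Y, φ1 e ≠ 0 := by
    refine ⟨fun e => if e ∈ G.tch (W \ Y) then χ e else δ,
      s1.congr (fun e he => if_pos he) fun _ _ => Iff.rfl, ?_, fun e he => ?_⟩
    · dsimp only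
      split_ifs with k
      exacts [s2 k, rfl]
    · dsimp only
      split_ifs with k
      exacts [s1.2.1 e k (h'.not_mem (hcY e he)), hδ]
  obtain ⟨c1, n1⟩ := K1Tp2_live hY hl1 hi1
  have up : ∀ (ψ : E → ZMod 3) (l : E) (u : ZMod 3), u ≠ 0 → l ≠ d → l ∉ G.tch (W \ Y) →
      (G.Sl (W \ Y) O' K' ψ ∧ ψ d = δ ∧ ∀ e ∈ G.cut Y, ψ e ≠ 0) →
      (G.Sl (W \ Y) O' K' (Function.update ψ l u) ∧ Function.update ψ l u d = δ ∧
        ∀ e ∈ G.cut Y, Function.update ψ l u e ≠ 0) := by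
    intro ψ l u hu k1 k2 k3
    refine ⟨k3.1.congr (fun e he => Function.update_of_ne (fun k : e = l => k2 (k ▸ he)) _ _)
      fun _ _ => Iff.rfl, ?_, fun e he => K1Tp2_upd hu (k3.2.2 e he)⟩
    rw [Function.update_of_ne k1.symm]
    exact k3.2.1
  obtain ⟨ψ, ⟨r1, r2, r3⟩, r4⟩ : ∃ ψ, (G.Sl (W \ Y) O' K' ψ ∧ ψ d = δ ∧
      ∀ e ∈ G.cut Y, ψ e ≠ 0) ∧ G.tw p Y ψ = -(2 * chi (p (G.s z)) * γ) := by
    rcases hi2 with hi2 | ⟨hx, hx2⟩
    · obtain ⟨c2, n2⟩ := K1Tp2_live hY hl2 hi2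
      obtain ⟨u1, u2, k1, k2, k3⟩ := K1Tp2_two (p := p) c1 c2 hne φ1 (-(2 * chi (p (G.s z)) * γ))
      exact ⟨_, up _ _ _ k2 hd2 n2 (up _ _ _ k1 hd1 n1 ⟨t1, t2, t3⟩), k3⟩
    · generalize hxe : G.ie W l2 = x at hx hx2
      have xW : x ∈ W := hxe ▸ ie_mem (cut_sub_tch hl2)
      have xX : x ∈ W \ Y := mem_sdiff.2 ⟨xW, hx⟩
      have xT : x ∈ T := hW xW
      obtain ⟨v1, v2, v3⟩ := hK.ht.vtx hK.cub xT
      have l2t : l2 ∈ G.tch {x} :=
        sol1_at_tch (mem_cut.1 hl2).1 (mem_singleton_self x) (hxe ▸ ie_at)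
      have l2c : l2 ∈ G.cut {x} := v3 ▸ l2t
      have atx : ∀ e ∈ G.tch {x}, G.At e x := fun e he => by
        have k := (mem_tch.1 he).2
        rw [mem_singleton, mem_singleton] at k
        exact k
      have dx : Disjoint {x} Y := disjoint_singleton_left.2 hx
      have lk : ∀ e ∈ G.cut {x}, e ≠ l2 → e ∈ G.ins W := fun e he k =>
        ins_mono (union_subset (singleton_subset_iff.2 xW) hY) (ie_link dx he (hx2 e he k)).2
      have dnx : d ∉ G.tch {x} := fun k => hd (lk d (v3 ▸ k) hd2.symm)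
      have hneg := t1.negOn (Y := {x}) fun e he v hv ha => by
        rw [mem_singleton]
        by_cases k : e = l2
        · rw [k] at ha
          rw [← hxe]
          exact eq_ie hl2 (mem_sdiff.1 hv).1 ha
        · have k1 := hx2 e (v3 ▸ he) k
          rw [eq_oe k1 (mem_sdiff.1 hv).2 ha, ← eq_oe k1 hx (atx e he)]
      have g2 : G.Sl (W \ Y) O' K' (fun e => if e ∈ G.tch {x} then -φ1 e else φ1 e) ∧
          (fun e => if e ∈ G.tch {x} then -φ1 e else φ1 e) d = δ ∧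
          ∀ e ∈ G.cut Y, (fun e => if e ∈ G.tch {x} then -φ1 e else φ1 e) e ≠ 0 := by
        refine ⟨hneg, (if_neg dnx).trans t2, fun e he => ?_⟩
        dsimp only
        split_ifs
        exacts [neg_ne_zero.2 (t3 e he), t3 e he]
      obtain ⟨a, ha, hal⟩ := exists_mem_ne (by omega : 1 < (G.cut {x}).card) l2
      obtain ⟨b, hq⟩ := hK.ht.third hK.cub xT l2c ha hal.symm
      have hb : b ∈ G.cut {x} := by
        rw [hq.1]
        simp
      have hbl : b ≠ l2 := hq.2.2.1.symm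
      have mem : ∀ e ∈ G.cut {x}, e ≠ l2 → e ∈ (G.cut Y).erase l1 ∧
          (G.kap p Y e : ZMod 3) = -G.kap p {x} e := fun e he k => by
        refine ⟨mem_erase.2 ⟨fun k1 => n1 ?_, hx2 e he k⟩, kap_link dx he (hx2 e he k) ?_⟩
        · rw [← k1]
          exact tch_mono (singleton_subset_iff.2 xX) (cut_sub_tch he)
        · refine hK.bal e (ins_mono hW (lk e he k)) fun k1 => ?_
          exact not_ins_of_cut (hx2 e he k) (k1 ▸ hz)
      have cx := (hK.cons (singleton_subset_iff.2 xT) (u := φ1) fun v hv => by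
        rw [mem_singleton.1 hv]
        exact t1.1 x xX).2 (by rw [v2]; exact notMem_empty z)
      rw [tw_q3 hq] at cx
      have nz : G.kap p {x} l2 * φ1 l2 ≠ 0 := (kap_ne3 l2c).2
        (t1.2.1 l2 (tch_mono (singleton_subset_iff.2 xX) l2t)
          (h'.not_mem fun k => not_ins_of_cut hl2 (ins_mono sdiff_subset k)))
      have hR : ∑ e ∈ (G.cut Y).erase l1, G.kap p Y e * φ1 e ≠
          ∑ e ∈ (G.cut Y).erase l1, G.kap p Y e *
            (fun e => if e ∈ G.tch {x} then -φ1 e else φ1 e) e := by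
        intro k
        rw [← sub_eq_zero, ← sum_sub_distrib, sum_eq_add_of_mem a b (mem a ha hal).1
          (mem b hb hbl).1 hq.2.2.2] at k
        · dsimp only at k
          rw [if_pos (cut_sub_tch ha), if_pos (cut_sub_tch hb), (mem a ha hal).2,
            (mem b hb hbl).2] at k
          refine K1Tp2_z3a _ nz ?_
          linear_combination k + 2 * cx
        · intro e he k1
          dsimp only
          rw [if_neg, sub_self]
          intro k2
          rw [v3, hq.1] at k2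
          simp only [mem_insert, mem_singleton] at k2
          rcases k2 with k2 | k2 | k2
          · rw [k2] at he
            have k3 := (cut_of_sub hY hl2 (cut_sub_tch (mem_erase.1 he).2)).2
            exact hx (hxe ▸ k3 ▸ ie_mem (cut_sub_tch (mem_erase.1 he).2))
          exacts [k1.1 k2, k1.2 k2]
      have tu : ∀ (ψ : E → ZMod 3) (u : ZMod 3), G.tw p Y (Function.update ψ l1 u) =
          G.kap p Y l1 * u + ∑ e ∈ (G.cut Y).erase l1, G.kap p Y e * ψ e := fun ψ u => by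
        unfold tw
        rw [← add_sum_erase _ _ c1, Function.update_self, sol1_upd]
      rcases K1Tp2_z3 _ _ _ (-(2 * chi (p (G.s z)) * γ)) hR (K1Tp2_kap (p := p) c1) with
        ⟨u, k1, k2 | k2⟩
      · exact ⟨_, up _ _ _ k1 hd1 n1 ⟨t1, t2, t3⟩, (tu _ _).trans k2⟩
      · exact ⟨_, up _ _ _ k1 hd1 n1 g2, (tu _ _).trans k2⟩
  obtain ⟨φ, f1, f2, f3⟩ := K1Tp2_abs (p := p) h r3
  obtain ⟨w1, w2, w3, -⟩ := h.1.union h'.1 hdis fun _ _ _ => Iff.rfl
  have hun : Y ∪ W \ Y = W := union_sdiff_of_subset hY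
  have f4 : G.Sl (W \ Y) (O ∪ O') K' φ := r1.congr (fun e he => f1 e fun k => by
    have k1 := ie_mem he
    have k2 : G.At e (G.ie (W \ Y) e) := ie_at
    rw [mem_ins] at k
    rcases k2 with k2 | k2
    · exact (mem_sdiff.1 k1).2 (k2 ▸ k.2.1)
    · exact (mem_sdiff.1 k1).2 (k2 ▸ k.2.2)) w3
  have f5 := (f2.congr (fun _ _ => rfl) w2).union f4
  simp only [union_empty, inter_empty, sdiff_empty] at w1
  rw [hun] at w1 f5
  refine ⟨O ∪ O', φ, w1, mem_union_left _ hzO, f5.cov fun t ht => ?_, ?_, ?_⟩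
  · refine (hc t ht).imp id ?_
    rintro ⟨e, k1, k2, k3, k4⟩
    exact ⟨e, k1, k2, fun k => (mem_union.1 k).elim (h.not_mem k3) (h'.not_mem k4)⟩
  · have k := (hK.cons hYT f2.1).1 hz
    rw [f3, r4] at k
    exact K1Tp2_z3b _ _ _ (chi_mul_self _) k
  · rw [f1 d fun k => hd (ins_mono hY k), r2]

end SG

end Pool.Agent.Work.MP_8c679b_co
end
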