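import Pool.Agent.Work.MP_8c679b_co.K1.Tp2

/-!
Balanced sides with prescribed boundary residues.
-/

set_option autoImplicit false

namespace Pool.Agent.Work.MP_8c679b_co

open Finset

namespace SG

variable {V E : Type} [Fintype V] [DecidableEq V] [DecidableEq E] {G : SG V E}
  {T D : Finset V} {p : V → ZMod 2} {a b c d : E} {ψ : E → ZMod 3}

theorem K1B4_tw {φ : E → ZMod 3} (h : ∀ v ∈ D, G.bd φ v = 0) (hp : ∀ e ∈ G.ins D, G.sw p e = 0) :
    G.tw p D φ = 0 := by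
  have a1 := Def6_split (G := G) p D φ
  rw [sum_eq_zero fun v hv => by rw [h v hv, mul_zero],
    sum_eq_zero fun e he => by rw [sol1_kap_zero he (hp e he), zero_mul], add_zero] at a1
  exact a1.symm

theorem K1B4_eq (hc : G.Cub) (hT : G.HT T) {x : V} (hx : x ∈ T) {φ : E → ZMod 3}
    (h0 : G.bd φ x = 0) (h1 : ∀ e ∈ G.cut {x}, φ e ≠ 0) (ha : a ∈ G.cut {x}) (hb : b ∈ G.cut {x}) :
    G.kap p {x} a * φ a = G.kap p {x} b * φ b := by
  by_cases hab : a = b
  · rw [hab]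
  obtain ⟨g, hg⟩ := hT.third hc hx ha hb hab
  have hg' : g ∈ G.cut {x} := by rw [hg.1]; simp
  have a1 : G.tw p {x} φ = 0 := K1B4_tw (fun v hv => by rwa [mem_singleton.1 hv])
    (by rw [(hT.vtx hc hx).2.1]; simp)
  rw [tw_q3 hg] at a1
  have k : ∀ x y z : ZMod 3, x ≠ 0 → y ≠ 0 → z ≠ 0 → x + (y + z) = 0 → x = y := by decide +kernel
  exact k _ _ _ ((kap_ne3 ha).2 (h1 a ha)) ((kap_ne3 hb).2 (h1 b hb)) ((kap_ne3 hg').2 (h1 g hg'))
    a1

theorem K1B4_str (hc : G.Cub) (hT : G.HT T) (hD : D ⊆ T) (h2 : D.card ≤ 2)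
    (h4 : (G.cut D).card = 4) {u w : V} (hu : u ∈ D) (hw : w ∈ D) (huw : u ≠ w) :
    D = {u} ∪ {w} ∧ ∃ m ∈ G.ins D, m ∈ G.cut {u} ∧ m ∈ G.cut {w} := by
  obtain ⟨x, y, m, hxy, hD', hi, hj⟩ := hT.rung hc hD h4 h2
  have hm : m ∈ G.ins D := by rw [hi]; exact mem_singleton_self m
  have hl : G.s m ≠ G.t m := hT.noloop hc (tch_mono hD (ins_sub_tch hm))
  have hA : ∀ v ∈ D, m ∈ G.cut {v} := fun v hv => by
    refine (mem_cut_single hl).2 ⟨ins_sub_A hm, ?_⟩
    rw [hD', mem_insert, mem_singleton] at hv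
    unfold At
    rcases hj with ⟨k1, k2⟩ | ⟨k1, k2⟩ <;> rcases hv with rfl | rfl <;> simp [k1, k2]
  refine ⟨?_, m, hm, hA u hu, hA w hw⟩
  symm
  refine eq_of_subset_of_card_le (union_subset (singleton_subset_iff.2 hu)
    (singleton_subset_iff.2 hw)) ?_
  rw [card_union_of_disjoint (disjoint_singleton.2 huw)]
  simpa using h2

theorem K1B4_ie (h : c ∈ G.cut D) : G.ie D c ∈ D ∧ c ∈ G.cut {G.ie D c} ∧
    (G.kap p {G.ie D c} c : ZMod 3) = G.kap p D c := by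
  have a1 := ie_mem (cut_sub_tch h)
  have a2 := (mem_inter.1 (Cut_ie h rfl)).1
  exact ⟨a1, a2, kap_sub (singleton_subset_iff.2 a1) h (cut_sub_tch a2)⟩

theorem K1B4_q3 (hc : G.Cub) (hT : G.HT T) {u : V} (hu : u ∈ T) {m : E} (ha : a ∈ G.cut {u})
    (hb : b ∈ G.cut {u}) (hm : m ∈ G.cut {u}) (hab : a ≠ b) (h1 : m ≠ a) (h2 : m ≠ b) :
    G.Q3 {u} a b m := by
  obtain ⟨g, hg⟩ := hT.third hc hu ha hb hab
  rw [hg.1] at hm
  simp only [mem_insert, mem_singleton, h1, h2, false_or] at hm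
  rwa [hm]

theorem K1B4_fr (hq : G.Q4 D a b c d) {L : Finset E} (hL : ∀ e, e ∈ L ↔ e = a ∨ e = b) :
    (∀ e ∈ G.tch D, e ∉ G.fr D L → e = c ∨ e = d) ∧ c ∉ G.fr D L ∧ d ∉ G.fr D L := by
  obtain ⟨-, -, mc, md⟩ := hq.mem
  obtain ⟨h0, -, ac, ad, bc, bd, -⟩ := hq
  refine ⟨fun e he hn => ?_, ?_, ?_⟩
  · rw [fr, mem_union, mem_inter, hL] at hn
    have a1 := (mem_tch_iff.1 he).resolve_left fun h => hn (Or.inl h)
    have a2 := a1
    rw [h0] at a2
    simp only [mem_insert, mem_singleton] at a2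
    tauto
  · rw [fr, mem_union, mem_inter, hL]
    rintro (h | ⟨-, h | h⟩)
    exacts [not_ins_of_cut mc h, ac h.symm, bc h.symm]
  · rw [fr, mem_union, mem_inter, hL]
    rintro (h | ⟨-, h | h⟩)
    exacts [not_ins_of_cut md h, ad h.symm, bd h.symm]

/-- A rung has a solution without even set.  HINT: `HT.abs_free`, `Ab.sl`; the even set is
contained in the single rung edge (`HT.rung`) which is no loop, so it is empty. -/
theorem k1_rung0 (hc : G.Cub) (hT : G.HT T) (hD : D ⊆ T) (h2 : D.card ≤ 2)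
    (h4 : D.Nonempty → (G.cut D).card = 4) : ∃ φ, G.Sl D ∅ ∅ φ := by
  obtain ⟨O, hS, hA⟩ := hT.abs_free hD
  obtain ⟨φ, hφ⟩ := hA.sl
  suffices h : O = ∅ from ⟨φ, h ▸ hφ⟩
  refine eq_empty_of_forall_notMem fun e he => ?_
  have a1 := hS.sub_ins he
  obtain ⟨x, y, m, -, -, hi, -⟩ := hT.rung hc hD (h4 ⟨_, (mem_ins.1 a1).2.1⟩) h2
  have a2 : O = {e} := by
    refine eq_singleton_iff_unique_mem.2 ⟨he, fun f hf => ?_⟩
    have a3 := hS.sub_ins hf
    rw [hi, mem_singleton] at a1 a3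
    rw [a1, a3]
  have a4 := hS.ev (G.s e)
  have a5 := hT.noloop hc (tch_mono hD (ins_sub_tch a1))
  rw [a2, dg_singleton] at a4
  simp [iv, a5.symm] at a4

/-- A consistent rung with opposite outflows at its two vertices.  HINT: `k1_rung0`; at each
vertex the three nonzero outflows are equal; `kap_link` for the rung edge; `Sl.neg`. -/
theorem k1_rung (hc : G.Cub) (hT : G.HT T) (hD : D ⊆ T) (h2 : D.card ≤ 2)
    (h4 : (G.cut D).card = 4) (hp : ∀ e ∈ G.ins D, G.sw p e = 0) (h1 : c ∈ G.cut D)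
    (h1' : d ∈ G.cut D) (hv : G.Dv D c d) (n1 : ψ c ≠ 0)
    (ho : G.kap p D c * ψ c = -(G.kap p D d * ψ d)) :
    ∃ φ, G.Sl D ∅ ∅ φ ∧ φ c = ψ c ∧ φ d = ψ d := by
  obtain ⟨φ, hφ⟩ := k1_rung0 hc hT hD h2 fun _ => h4
  obtain ⟨u1, u2, u3⟩ := K1B4_ie (p := p) h1
  obtain ⟨w1, w2, w3⟩ := K1B4_ie (p := p) h1'
  obtain ⟨-, m, hm, m1, m2⟩ := K1B4_str hc hT hD h2 h4 u1 w1 hv
  have hn : ∀ x ∈ D, ∀ e ∈ G.cut {x}, φ e ≠ 0 := fun x hx e he =>
    hφ.2.1 e (tch_mono (singleton_subset_iff.2 hx) (cut_sub_tch he)) (notMem_empty e)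
  have a1 := K1B4_eq (p := p) hc hT (hD u1) (hφ.1 _ u1) (hn _ u1) u2 m1
  have a2 := K1B4_eq (p := p) hc hT (hD w1) (hφ.1 _ w1) (hn _ w1) w2 m2
  rw [kap_link (disjoint_singleton.2 hv) m1 m2 (hp m hm), neg_mul, ← a1, u3, w3] at a2
  rcases Ab_sgn _ _ (hn _ u1 c u2) n1 with k | k
  · refine ⟨φ, hφ, k, kap_inj (p := p) h1' ?_⟩
    rw [a2, k, ho, neg_neg]
  · refine ⟨_, hφ.neg, k, kap_inj (p := p) h1' ?_⟩
    rw [mul_neg, a2, ← mul_neg, k, ho, neg_neg]

/-- The pass of a balanced side.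
HINT: if the terminals of `a, b` differ use `bp`; the relation is total (`P.tt`), take the given
value at `a`; the value at `b` follows from conservation (`Def6_split`, `kap_inj`, `out_inj`);
`fil_of`.  Otherwise `D` is a rung (`HT.f2`, `HT.rung`) with `a, b` at one vertex `u` and `c, d` at
the other vertex `w` (`HT.dv_flip` or counting); give the rung edge the value that makes the
three outflows at `w` equal; `fil_vtx` twice and `Fil.union`, `Fil.congr`. -/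
theorem k1_bp (hc : G.Cub) (hT : G.HT T) (hD : D ⊆ T) (hq : G.Q4 D a b c d)
    (hp : ∀ e ∈ G.ins D, G.sw p e = 0) (n1 : ψ c ≠ 0) (n2 : ψ d ≠ 0) (hs : G.tw p D ψ = 0)
    (hv : G.Dv D a b ∨ G.kap p D c * ψ c = G.kap p D d * ψ d) :
    ∃ O φ, G.Fil D {a, b} ∅ ψ O φ := by
  obtain ⟨ma, mb, mc, md⟩ := hq.mem
  by_cases hd : G.Dv D a b
  · obtain ⟨O, -, -, hS, -, hP⟩ := bp hc hT hD a b c d hq hd p hp
    obtain ⟨f1, f2, f3⟩ := K1B4_fr hq (L := insert a (insert b ∅)) (by simp)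
    obtain ⟨R, hR, hR'⟩ := hP ψ fun e he hn _ => by
      rcases f1 e he hn with rfl | rfl <;> assumption
    obtain ⟨y, hy⟩ := hR.tt.1 (G.out D ψ a)
    obtain ⟨φ, ⟨r1, r2⟩, r3, -⟩ := hR' _ _ hy
    have a1 := out_inj ma r3
    have a2 := K1B4_tw r2.1 hp
    rw [tw_q4 hq, a1, r1 c f2, r1 d f3] at a2
    rw [tw_q4 hq] at hs
    have a3 : φ b = ψ b := kap_inj (p := p) mb (by linear_combination a2 - hs)
    obtain ⟨φ', h, -⟩ := fil_of (ψ := ψ) hS r2 fun e he => by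
      rw [hq.1] at he
      simp only [mem_insert, mem_singleton] at he
      rcases he with rfl | rfl | rfl | rfl
      exacts [a1, a3, r1 _ f2, r1 _ f3]
    exact ⟨O, φ', h⟩
  have hv := hv.resolve_left hd
  have h2 : D.card ≤ 2 := not_lt.1 fun h => hd (hT.f2 hc hD hq.card h ma mb hq.2.1)
  have e1 : G.ie D b = G.ie D a := (not_not.1 hd).symm
  have e2 : G.ie D d = G.ie D c := (not_not.1 fun h => hd (hT.dv_flip hc hD hq h)).symm
  obtain ⟨a1, a2, a3⟩ := K1B4_ie (p := p) ma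
  obtain ⟨-, b2, b3⟩ := K1B4_ie (p := p) mb
  obtain ⟨c1, c2, c3⟩ := K1B4_ie (p := p) mc
  obtain ⟨-, d2, d3⟩ := K1B4_ie (p := p) md
  rw [e1] at b2 b3
  rw [e2] at d2 d3
  generalize G.ie D a = u at *
  generalize G.ie D c = w at *
  obtain ⟨h0, ab, ac, ad, bc, bd, cd⟩ := id hq
  have huw : u ≠ w := by
    rintro rfl
    have k := K1B4_q3 hc hT (hD a1) a2 b2 c2 ab ac.symm bc.symm
    rw [k.1] at d2
    simp [ad.symm, bd.symm, cd.symm] at d2
  obtain ⟨hD', m, hm, m1, m2⟩ := K1B4_str hc hT hD h2 hq.card a1 c1 huw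
  have hne : ∀ e ∈ G.cut D, e ≠ m := fun e he h => not_ins_of_cut he (h ▸ hm)
  have q1 := K1B4_q3 hc hT (hD a1) a2 b2 m1 ab (hne a ma).symm (hne b mb).symm
  have q2 := K1B4_q3 hc hT (hD c1) c2 d2 m2 cd (hne c mc).symm (hne d md).symm
  obtain ⟨χ, x1, x2⟩ : ∃ χ : E → ZMod 3, (∀ e ∈ G.cut D, χ e = ψ e) ∧
      G.kap p {w} m * χ m = G.kap p D c * ψ c :=
    ⟨Function.update ψ m (G.kap p {w} m * (G.kap p D c * ψ c)),
      fun e he => Function.update_of_ne (hne e he) _ _,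
      by rw [Function.update_self, ← mul_assoc, kap_sq m2, one_mul]⟩
  have x3 : χ m ≠ 0 := (kap_ne3 (p := p) m2).1 (x2 ▸ (kap_ne3 mc).2 n1)
  have k3 : (3 : ZMod 3) = 0 := by decide +kernel
  have x4 := kap_link (R := ZMod 3) (disjoint_singleton.2 huw.symm) m2 m1 (hp m hm)
  rw [tw_q4 hq] at hs
  have F1 := fil_vtx (p := p) (ψ := χ) (J := {a, b}) hc hT (hD a1) (by rw [q1.1]; intro e; simp; tauto)
    (by rw [card_pair ab]; exact even_two)
    (by rw [tw_q3 q1, x1 a ma, x1 b mb, a3, b3, x4, neg_mul, x2]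
        linear_combination hs + hv - G.kap p D c * ψ c * k3)
    (fun e he hn => by
      rw [q1.1] at he
      simp only [mem_insert, mem_singleton] at he hn
      obtain rfl : e = m := by tauto
      exact x3)
  have F2 := fil_vtx (p := p) (ψ := χ) (J := ∅) hc hT (hD c1) (empty_subset _) (by simp)
    (by rw [tw_q3 q2, x1 c mc, x1 d md, c3, d3, x2]
        linear_combination G.kap p D c * ψ c * k3 - hv)
    (fun e he _ => by
      rw [q2.1] at he
      simp only [mem_insert, mem_singleton] at he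
      rcases he with rfl | rfl | rfl
      exacts [x1 _ mc ▸ n1, x1 _ md ▸ n2, x3])
  obtain ⟨φ, F, -⟩ := F1.union F2 (disjoint_singleton.2 huw) fun e _ he => by
    rw [(hT.vtx hc (hD c1)).2.2, q2.1] at he
    simp only [mem_insert, mem_singleton, notMem_empty, iff_false] at he ⊢
    rintro (rfl | rfl)
    · rcases he with h | h | h
      exacts [ac h, ad h, hne _ ma h]
    · rcases he with h | h | h
      exacts [bc h, bd h, hne _ mb h]
  rw [← hD', union_empty, inter_empty, sdiff_empty, Set.union_empty] at F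
  obtain ⟨φ', F', -⟩ := F.congr x1
  exact ⟨_, φ', F'⟩

/-- Two dead edges with opposite outflows.
HINT: `swp` (its hypotheses come from `kb`) gives `X, O` with `Rg D X c d` and
`Abs0 X O {a, b} _`.  If `X = D` apply it to `ψ` overwritten by one on the free edges.  Otherwise
`ρ = D \ X` is a rung (`HT.rung'`); solve it by `k1_rung`, overwrite by one off `tch ρ`, absorb
`X` (its free edges do not touch `ρ` unless `X = ∅`; in that case `D = ρ`), `Sl.union`. -/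
theorem k1_sw (hc : G.Cub) (hT : G.HT T) (hD : D ⊆ T) (hq : G.Q4 D a b c d)
    (hp : ∀ e ∈ G.ins D, G.sw p e = 0) (hv : G.Dv D c d) (n1 : ψ c ≠ 0)
    (ho : G.kap p D c * ψ c = -(G.kap p D d * ψ d)) :
    ∃ O φ, G.St D O ∅ ∧ G.Sl D O ∅ φ ∧ φ c = ψ c ∧ φ d = ψ d := by
  obtain ⟨ma, mb, mc, md⟩ := hq.mem
  obtain ⟨X, O, hR, hS, -, hA⟩ := swp hc hT hD (fun S h =>
    have k := kb hc hT S (h.trans hD)
    ⟨k.2.2.2.1, k.2.2.2.2.1, k.1⟩) a b c d hq hv
  have n2 : ψ d ≠ 0 := (kap_ne3 (p := p) md).1 fun h =>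
    (kap_ne3 (p := p) mc).2 n1 (by rw [ho, h, neg_zero])
  rcases hR with rfl | ⟨hX, hρ, -, hadj⟩
  · obtain ⟨f1, f2, f3⟩ := K1B4_fr hq (L := {a, b}) (by simp)
    obtain ⟨φ, r1, r2⟩ := hA ψ (fun e he hn _ => by
      rcases f1 e he hn with rfl | rfl <;> assumption) trivial
    exact ⟨O, φ, hS, ⟨r2.1, r2.2.1, fun t ht => ht.elim⟩, r1 c f2, r1 d f3⟩
  have c1 := ie_mem (cut_sub_tch mc)
  have d1 := ie_mem (cut_sub_tch md)
  have h4 := (hT.rung' hc (hD c1) (hD d1) hv hadj).1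
  have h2 : (D \ X).card ≤ 2 := by rw [hρ]; exact card_le_two
  have tc : c ∈ G.tch (D \ X) := Cut_tch (mem_cut.1 mc).1 (ie_at (X := D)) (by rw [hρ]; simp)
  have td : d ∈ G.tch (D \ X) := Cut_tch (mem_cut.1 md).1 (ie_at (X := D)) (by rw [hρ]; simp)
  rw [← hρ] at h4
  have hs : D \ X ⊆ D := sdiff_subset
  obtain ⟨c2, c3⟩ := cut_of_sub hs mc tc
  obtain ⟨d2, d3⟩ := cut_of_sub hs md td
  obtain ⟨χ, x1, x2, x3⟩ := k1_rung (ψ := ψ) hc hT (hs.trans hD) h2 h4
    (fun e he => hp e (ins_mono hs he)) c2 d2 (by rw [Dv, c3, d3]; exact hv) n1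
    (by rw [kap_sub hs mc tc, kap_sub hs md td]; exact ho)
  have hd : Disjoint (D \ X) X := sdiff_disjoint
  have hU : D \ X ∪ X = D := sdiff_union_of_subset hX
  have hi : ∀ e ∈ G.tch (D \ X), e ∉ G.ins X := fun e he h =>
    not_ins_of_cut (Ab_link hd he (ins_sub_tch h)).2 h
  have hF : Disjoint (G.fr X {a, b}) (G.tch (D \ X)) := by
    refine disjoint_left.2 fun e h he => ?_
    rw [fr, mem_union, mem_inter] at h
    rcases h with h | ⟨h, h'⟩
    · exact hi e he h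
    · have k := (ie_link hd (Ab_link hd he (cut_sub_tch h)).1 h).2
      rw [hU] at k
      simp only [mem_insert, mem_singleton] at h'
      rcases h' with rfl | rfl
      exacts [not_ins_of_cut ma k, not_ins_of_cut mb k]
  obtain ⟨φ, hφ⟩ := hA (fun e => if e ∈ G.tch (D \ X) then χ e else 1) (fun e _ _ _ => by
    dsimp only
    split_ifs with h
    exacts [x1.2.1 e h (notMem_empty e), one_ne_zero]) trivial
  have y1 : ∀ e ∈ G.tch (D \ X), φ e = χ e := fun e he =>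
    (hφ.1 e (disjoint_right.1 hF he)).trans (if_pos he)
  have y2 := (x1.congr (O' := O) y1 fun e he =>
    iff_of_false (fun h => hi e he (hS.sub_ins h)) (notMem_empty e)).union hφ.2
  rw [hU] at y2
  exact ⟨O, φ, st_of_ev (hS.sub_ins.trans (ins_mono hX)) hS.ev,
    ⟨y2.1, y2.2.1, fun t ht => ht.elim⟩, (y1 c tc).trans x2, (y1 d td).trans x3⟩

end SG

end Pool.Agent.Work.MP_8c679b_co
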