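import Pool.Agent.Work.MP_8c679b_co.K1.Tp2

/-!
Solutions with a prescribed value on the critical edge.
-/

set_option autoImplicit false

namespace Pool.Agent.Work.MP_8c679b_co

open Finset

namespace SG

variable {V E : Type} [Fintype V] [DecidableEq V] [DecidableEq E] {G : SG V E}
  {T W Y : Finset V} {p : V → ZMod 2} {z i j k d : E}

theorem K1Tp3_cl : ∀ (s ta tb : ZMod 2) (c1 c2 : ZMod 3), ∃ x y u : ZMod 3,
    x + chi (s + ta + tb + 1) * y = c1 ∧ -(chi tb) * y + chi s * u = c2 ∧ x = -(chi ta) * u := by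
  decide +kernel

/-- a solution with a prescribed nonzero value on an edge that is not an inner edge -/
theorem K1Tp3_val {X : Finset V} {O L : Finset E} {K : Set (Finset E)} (h : G.Abs0 X O L K) {g : E}
    (hg : g ∉ G.ins X) {v : ZMod 3} (hv : v ≠ 0) : ∃ φ, G.Sl X O K φ ∧ φ g = v := by
  obtain ⟨φ, hφ⟩ := h.2.sl
  by_cases ht : g ∈ G.tch X
  · rcases Ab_sgn _ _ (hφ.2.1 g ht (h.not_mem hg)) hv with k | k
    · exact ⟨φ, hφ, k⟩
    · exact ⟨_, hφ.neg, k⟩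
  · refine ⟨Function.update φ g v, hφ.congr (fun e he => ?_) fun _ _ => Iff.rfl,
      Function.update_self _ _ _⟩
    exact Function.update_of_ne (fun k : e = g => ht (k ▸ he)) _ _

/-- unbalanced sides lie on one side of a cut with at most one edge -/
theorem K1Tp3_kus (hK : G.KC T p z i j k) (hW : W ⊆ T) (h1 : (G.crs (G.ins W) Y).card ≤ 1)
    (hz : z ∈ G.ins Y) : G.Kus W ⊆ G.Kus Y := by
  rintro t ⟨S, hS, hu, rfl⟩
  refine ⟨S, ?_, hu, rfl⟩
  by_contra hn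
  have hT := hS.trans hW
  have zS := hK.zin hT hu.2
  have c1 := cut_add (G := G) (inter_subset_left : S ∩ Y ⊆ S)
  have c2 : G.crs (G.ins S) (S ∩ Y) ⊆ G.crs (G.ins W) Y := by
    intro e he
    obtain ⟨e1, e2⟩ := mem_crs.1 he
    refine mem_crs.2 ⟨ins_mono hS e1, fun k => e2 ?_⟩
    rw [mem_inter, mem_inter, k]
    exact ⟨fun x => ⟨(mem_ins.1 e1).2.2, x.2⟩, fun x => ⟨(mem_ins.1 e1).2.1, x.2⟩⟩
  have c3 := (card_le_card c2).trans h1
  have c4 : 4 ≤ (G.cut (S ∩ Y)).card := by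
    refine hK.ht.four hT (Finset.ssubset_iff_subset_ne.2
      ⟨inter_subset_left, fun k => hn (inter_eq_left.1 k)⟩) (one_lt_card.2 ?_)
    exact ⟨G.s z, mem_inter.2 ⟨(mem_ins.1 zS).2.1, (mem_ins.1 hz).2.1⟩, G.t z,
      mem_inter.2 ⟨(mem_ins.1 zS).2.2, (mem_ins.1 hz).2.2⟩, hK.st.2.2⟩
  have c5 : 3 ≤ (G.cut (S \ (S ∩ Y))).card := by
    refine hK.ht.mono3 (sdiff_subset.trans hT) ?_
    obtain ⟨v, v1, v2⟩ := not_subset.1 hn
    exact ⟨v, mem_sdiff.2 ⟨v1, fun k => v2 (mem_inter.1 k).2⟩⟩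
  have c6 := hu.1
  omega

/-- gluing a solution on the unbalanced part to a solution on the rest -/
theorem K1Tp3_glue (hK : G.KC T p z i j k) (hW : W ⊆ T) (hY : Y ⊆ W)
    (h1 : (G.crs (G.ins W) Y).card ≤ 1) (hz : z ∈ G.ins Y) (hd : d ∉ G.ins W)
    (ih : ∀ g, g ∉ G.ins Y → ∀ γ δ : ZMod 3, δ ≠ 0 →
      ∃ O φ, G.St Y O ∅ ∧ z ∈ O ∧ G.Sl Y O (G.Kus Y) φ ∧ φ z = γ ∧ φ g = δ)
    (γ : ZMod 3) {δ : ZMod 3} (hδ : δ ≠ 0) :
    ∃ O φ, G.St W O ∅ ∧ z ∈ O ∧ G.Sl W O (G.Kus W) φ ∧ φ z = γ ∧ φ d = δ := by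
  obtain ⟨O2, h2⟩ := hK.ht.abs_free (W := W \ Y) (sdiff_subset.trans hW)
  have hdj : Disjoint Y (W \ Y) := disjoint_sdiff
  have hun : Y ∪ (W \ Y) = W := union_sdiff_of_subset hY
  have d1 : d ∉ G.ins Y := fun k => hd (ins_mono hY k)
  have d2 : d ∉ G.ins (W \ Y) := fun k => hd (ins_mono sdiff_subset k)
  have lk : ∀ e ∈ G.tch Y, e ∈ G.tch (W \ Y) → e ∈ G.crs (G.ins W) Y := by
    intro e e1 e2
    obtain ⟨k1, k2⟩ := Ab_link hdj e1 e2
    have k3 := (ie_link hdj k1 k2).2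
    rw [hun] at k3
    exact mem_crs.2 ⟨k3, (mem_cut.1 k1).2⟩
  have key : ∃ O1 φ1 φ2, G.St Y O1 ∅ ∧ z ∈ O1 ∧ G.Sl Y O1 (G.Kus Y) φ1 ∧ φ1 z = γ ∧
      G.Sl (W \ Y) O2 ∅ φ2 ∧ (∀ e ∈ G.tch Y, e ∈ G.tch (W \ Y) → φ1 e = φ2 e) ∧
      (if d ∈ G.tch Y then φ1 d else φ2 d) = δ := by
    by_cases hf : ∃ f ∈ G.tch Y, f ∈ G.tch (W \ Y)
    · obtain ⟨f, f1, f2⟩ := hf
      have uq : ∀ e ∈ G.tch Y, e ∈ G.tch (W \ Y) → e = f := fun e e1 e2 =>
        card_le_one.1 h1 e (lk e e1 e2) f (lk f f1 f2)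
      obtain ⟨k1, k2⟩ := Ab_link hdj f1 f2
      by_cases hdY : d ∈ G.tch Y
      · obtain ⟨O1, φ1, s1, s2, s3, s4, s5⟩ := ih d d1 γ δ hδ
        obtain ⟨φ2, r1, r2⟩ := K1Tp3_val h2 (not_ins_of_cut k2)
          (s3.2.1 f f1 fun k => not_ins_of_cut k1 (s1.sub_ins k))
        refine ⟨O1, φ1, φ2, s1, s2, s3, s4, r1, fun e e1 e2 => ?_, by rw [if_pos hdY, s5]⟩
        rw [uq e e1 e2, r2]
      · obtain ⟨φ2, r1, r2⟩ := K1Tp3_val h2 d2 hδ
        obtain ⟨O1, φ1, s1, s2, s3, s4, s5⟩ := ih f (not_ins_of_cut k1) γ (φ2 f)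
          (r1.2.1 f f2 (h2.not_mem (not_ins_of_cut k2)))
        refine ⟨O1, φ1, φ2, s1, s2, s3, s4, r1, fun e e1 e2 => ?_, by rw [if_neg hdY, r2]⟩
        rw [uq e e1 e2, s5]
    · obtain ⟨O1, φ1, s1, s2, s3, s4, s5⟩ := ih d d1 γ δ hδ
      obtain ⟨φ2, r1, r2⟩ := K1Tp3_val h2 d2 hδ
      refine ⟨O1, φ1, φ2, s1, s2, s3, s4, r1, fun e e1 e2 => (hf ⟨e, e1, e2⟩).elim, ?_⟩
      rw [s5, r2, ite_self]
  obtain ⟨O1, φ1, φ2, s1, s2, s3, s4, r1, r2, r3⟩ := key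
  obtain ⟨u1, u2, u3, -⟩ := St.union s1 h2.1 hdj fun _ _ _ => Iff.rfl
  have v1 : G.Sl Y (O1 ∪ O2) (G.Kus Y) fun e => if e ∈ G.tch Y then φ1 e else φ2 e :=
    s3.congr (fun e he => if_pos he) u2
  have v2 : G.Sl (W \ Y) (O1 ∪ O2) ∅ fun e => if e ∈ G.tch Y then φ1 e else φ2 e := by
    refine r1.congr (fun e he => ?_) u3
    by_cases k : e ∈ G.tch Y
    · exact (if_pos k).trans (r2 e k he)
    · exact if_neg k
  have v3 := v1.union v2
  rw [hun] at u1 v3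
  rw [empty_union, sdiff_eq_empty_iff_subset.2 (empty_subset _)] at u1
  refine ⟨O1 ∪ O2, _, u1, mem_union_left _ s2, v3.cov fun t ht => Or.inl
    ⟨t, Or.inl (K1Tp3_kus hK hW h1 hz ht), subset_rfl⟩, ?_, r3⟩
  exact (if_pos (ins_sub_tch hz)).trans s4

/-- The two-edge-connected case.
HINT: boxes `Bs` for `J = ∅` (`HT.boxes`).  No box: `tp_ring`; the ring is odd (`Ev.par_eq` with
`p`, `KC.neg`), `pure_odd`, `HT.abs_free`, `Bx.free`.  Otherwise take a box `w`; it is the only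
one (all contain `z`, `KC.zin`).  `tp_box`, `exists_q4`, `PS w` from `kb` with the sign that makes
the ring odd, `pure_p` for the path from `b` to `a` (`z ∉ P`, `ie U a = oe w a` by `eq_ie`),
`close_two` with `L = ∅` (two permutations with odd total sign close up: `decide`-style lemma or
`Rl.cl_odd`), `BS` for the single box, `finc`, `Fo.vd0`, `CS` from `kb`, `Fo.cover`,
`tg_empty`; `tp_fin`. -/
theorem tp_two (hK : G.KC T p z i j k) (hW : W ⊂ T) (h2 : G.Two W (G.ins W)) (hz : z ∈ G.ins W)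
    (hd : d ∉ G.ins W) (γ : ZMod 3) {δ : ZMod 3} (hδ : δ ≠ 0) :
    ∃ O φ, G.St W O ∅ ∧ z ∈ O ∧ G.Sl W O (G.Kus W) φ ∧ φ z = γ ∧ φ d = δ := by
  have hT := hW.subset
  obtain ⟨Bs, hB⟩ := hK.ht.boxes hK.cub hT (J := ∅) (by rw [card_empty]; omega)
  rcases Bs.eq_empty_or_nonempty with rfl | ⟨w, hw⟩
  · obtain ⟨C, hC, cC, zC, hU⟩ := tp_ring hK.cub hK.ht hW h2 hz d
    have ho : G.par C = 1 := by
      rw [cC.2.1.par_eq p, sum_eq_single_of_mem z zC
        fun e he hne => hK.bal e (ins_mono hT (hC he)) hne, hK.neg]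
    have hY := (sub_ins_iff.1 hC).2
    obtain ⟨O', h'⟩ := hK.ht.abs_free (W := W \ G.vs C) (sdiff_subset.trans hT)
    refine tp_fin hK hT hY hd (pure_odd (L := ∅) (hC.trans ins_sub_A) cC ho).2.2 h'
      (fun t ht => Or.inr ?_) hU γ hδ
    obtain ⟨e, e1, e2, -⟩ := hB.free t ht
    exact ⟨e, e1, cut_sub_tch e2, fun h => not_ins_of_cut e2 (ins_mono hY h),
      fun h => not_ins_of_cut e2 (ins_mono sdiff_subset h)⟩
  · have hin : ∀ B ∈ Bs, G.cut B ⊆ G.ins W := fun B hb => by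
      have h := (hB.1 B hb).2.2
      rwa [union_empty] at h
    have zB : ∀ B ∈ Bs, z ∈ G.ins B := fun B hb =>
      hK.zin ((hB.1 B hb).2.1.trans hT) (show G.US B from (hB.1 B hb).1).2
    have uq : ∀ B ∈ Bs, B = w := fun B hb => by
      by_contra hne
      exact disjoint_left.1 (hB.2.1 B hb w hw hne) (mem_ins.1 (zB B hb)).2.1
        (mem_ins.1 (zB w hw)).2.1
    have hus : G.US w := (hB.1 w hw).1
    have hwW := (hB.1 w hw).2.1
    obtain ⟨a, ha, b, hb, hab, U, P, hU, hP, -, hU2⟩ :=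
      tp_box hK.cub hK.ht hW h2 hwW hus.1 (hin w hw) d
    obtain ⟨c, c', hq⟩ := exists_q4 hus.1 ha hb hab
    have hUW : U ⊆ W := hU.trans sdiff_subset
    have hwU : Disjoint w U := disjoint_left.2 fun v v1 v2 => (mem_sdiff.1 (hU v2)).2 v1
    have aU : a ∈ G.cut U :=
      (Ab_link hwU (cut_sub_tch ha) (Cut_tch (mem_cut.1 ha).1 oe_at hP.2.2.2.2)).2
    have bU : b ∈ G.cut U :=
      (Ab_link hwU (cut_sub_tch hb) (Cut_tch (mem_cut.1 hb).1 oe_at hP.2.2.2.1)).2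
    rw [← (ie_link hwU ha aU).1, ← (ie_link hwU hb bU).1] at hP
    have zU : z ∉ G.ins U := fun h =>
      disjoint_left.1 hwU (mem_ins.1 (zB w hw)).2.1 (mem_ins.1 h).2.1
    have q2 := pure_p (L := ∅) hP bU aU hab.symm
      fun e he => hK.bal' (hUW.trans hT) zU e (hP.1 he)
    obtain ⟨X, O, hr, q1⟩ := (kb hK.cub hK.ht w (hwW.trans hT)).2.2.2.2.2.2.2 hus a b c c' hq
      (p (G.ie U b) + p (G.ie U a) + G.n a + G.n b + 1)
    have hXw : X ⊆ w := by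
      rcases hr with h | h
      · exact h.subset
      · exact h.1
    have q3 := (close_two (Y := W) q1 q2 (hwU.mono_left hXw) (empty_subset _) (hXw.trans hwW) hUW
      (by
        rintro R1 R2 ⟨c1, r1⟩ ⟨c2, r2⟩
        obtain ⟨x, y, u, k1, k2, k3⟩ :=
          K1Tp3_cl (p (G.ie U b) + p (G.ie U a)) (G.n a) (G.n b) c1 c2
        exact ⟨x, y, u, r1 _ _ k1, r2 _ _ k2, k3⟩)).1
    have hX : w ∩ (X ∪ U) = X := by
      rw [inter_union_distrib_left, inter_eq_right.2 hXw, disjoint_iff_inter_eq_empty.1 hwU,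
        union_empty]
    have hS : G.BS W Bs ∅ (X ∪ U) (G.Kp w X c c' ∪ ∅) := by
      refine ⟨union_subset (hXw.trans hwW) hUW, fun B hb' => Or.inr ⟨a, b, c, c', ?_⟩,
        fun ρ h => absurd h (notMem_empty _)⟩
      rw [uq B hb', hX]
      exact ⟨hq, hr, Set.subset_union_left⟩
    obtain ⟨Ds', hF⟩ := finc hK.cub hK.ht hT subset_rfl hB vd_empty hS
      fun B hb' e he => Or.inl (hin B hb' he)
    obtain ⟨ε, O', -, h'⟩ := (kb hK.cub hK.ht (W \ (X ∪ U))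
      (sdiff_subset.trans hT)).2.2.2.2.2.2.1 Ds' (hF.vd0 (empty_subset _))
    have hc := hF.cover (fun B hb' => (hB.1 B hb').2.1) hS.1 (empty_subset _)
    rw [tg_empty] at hc
    exact tp_fin hK hT hS.1 hd q3 h' (fun t ht => (hc t ht).imp id
      fun ⟨e, e1, e2, e3, e4, _⟩ => ⟨e, e1, e2, e3, e4⟩) (hU2 X hXw) γ hδ

/-- HINT: strong induction on `W`, for all `d, γ, δ`.  If `W` is not two-edge-connected take
`X ⊆ W` with at most one crossing edge `f`; one of `X`, `W \ X` is unbalanced (otherwise switch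
one part: `W` would be balanced; or use `split` of an odd circuit, `exists_odd_cc`, `cc_split`);
call it `W1` and the other `W2` (`crs_sdiff`); `W2` is balanced since `z ∈ ins W1`.  If `d`
touches `W2`, solve `W2` first (`HT.abs_free`, `Abs0.neg`) and use the induction hypothesis for
`W1` with the dead edge `f`; otherwise solve `W1` first and then `W2` with the dead edge `f`.
Targets: `split_cov` with `Ds = ∅`-like reasoning (`tg_empty`, `kus_bal`; the families it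
returns consist of rungs, use `CS` from `kb` or show directly that every unbalanced side of `W`
lies in `W1`: otherwise `cut_add` splits it into two sets with three leaving edges, i.e. two
vertices, and a rung is balanced). -/
theorem tpw (hK : G.KC T p z i j k) (hW : W ⊂ T) (hu : ¬ G.Bal (G.ins W)) (hd : d ∉ G.ins W)
    (γ : ZMod 3) {δ : ZMod 3} (hδ : δ ≠ 0) :
    ∃ O φ, G.St W O ∅ ∧ z ∈ O ∧ G.Sl W O (G.Kus W) φ ∧ φ z = γ ∧ φ d = δ := by
  induction W using Finset.strongInduction generalizing d γ δ with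
  | H W ih =>
    by_cases h2 : G.Two W (G.ins W)
    · exact tp_two hK hW h2 (hK.zin hW.subset hu) hd γ hδ
    have hx : ∃ Y ⊂ W, (G.crs (G.ins W) Y).card ≤ 1 ∧ ¬ G.Bal (G.ins Y) := by
      obtain ⟨X, hX, hn, hne, h1⟩ : ∃ X ⊆ W, X.Nonempty ∧ X ≠ W ∧
          (G.crs (G.ins W) X).card ≤ 1 := by
        by_contra hc
        refine h2 fun X x1 x2 x3 => ?_
        by_contra x4
        exact hc ⟨X, x1, x2, x3, by omega⟩
      obtain ⟨C, c1, c2, c3⟩ := exists_odd_cc hu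
      have nb : ∀ Y, C ⊆ G.ins Y → ¬ G.Bal (G.ins Y) := fun Y y1 y2 => by
        rw [y2.par_zero y1 c2.2.1] at c3
        exact zero_ne_one c3
      rcases cc_split hX h1 c1 c2 with h | h
      · exact ⟨X, Finset.ssubset_iff_subset_ne.2 ⟨hX, hne⟩, h1, nb X h⟩
      · exact ⟨W \ X, sdiff_ssubset hX hn, by rwa [crs_sdiff hX], nb _ h⟩
    obtain ⟨Y, hY, h1, hb⟩ := hx
    have hYT : Y ⊂ T := hY.trans hW
    exact K1Tp3_glue hK hW.subset hY.subset h1 (hK.zin hYT.subset hb) hd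
      (fun g hg γ' δ' h' => ih Y hY hYT hb hg γ' h') γ hδ

end SG

end Pool.Agent.Work.MP_8c679b_co
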