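import Pool.Agent.Work.MP_8c679b_co.K1.Tp2
import Pool.Agent.Work.MP_8c679b_co.K1.B4
import Pool.Agent.Work.MP_8c679b_co.K1.Tp3

-- merged part: Pool.Agent.Work.MP_8c679b_co.K1.Hall
section
/-!
Lifting residues to integers on a balanced edge set.
-/

set_option autoImplicit false

namespace Pool.Agent.Work.MP_8c679b_co

open Finset

/-- Orientations with prescribed in-degrees.
HINT: Hall's theorem (`Finset.all_card_le_biUnion_card_iff_exists_injective`) for the edges of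
`F` (as a subtype) and the slots `(v, l)`, `l < d v`, of their ends; a set of edges lies inside
the set of its ends.  The injection is onto the slots by counting. -/
theorem hall_or {V E : Type} [DecidableEq V] [DecidableEq E] (F : Finset E) (T : Finset V)
    (s t : E → V) (d : V → ℕ) (hF : ∀ e ∈ F, s e ∈ T ∧ t e ∈ T) (ht : ∑ v ∈ T, d v = F.card)
    (hX : ∀ X ⊆ T, (F.filter fun e => s e ∈ X ∧ t e ∈ X).card ≤ ∑ v ∈ X, d v) :
    ∃ hd : E → V, (∀ e ∈ F, hd e = s e ∨ hd e = t e) ∧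
      ∀ v ∈ T, (F.filter fun e => hd e = v).card = d v := by
  obtain ⟨f, f1, f2⟩ := (Finset.all_card_le_biUnion_card_iff_exists_injective
    (fun e : {e // e ∈ F} => ({s e.1, t e.1} : Finset V).sigma fun v => range (d v))).1 (by
      intro S
      let X : Finset V := S.biUnion fun e => {s e.1, t e.1}
      have hXT : X ⊆ T := biUnion_subset.2 fun e _ =>
        insert_subset (hF e.1 e.2).1 (singleton_subset_iff.2 (hF e.1 e.2).2)
      calc S.card = (S.map (Function.Embedding.subtype _)).card := (card_map _).symm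
        _ ≤ (F.filter fun e => s e ∈ X ∧ t e ∈ X).card := by
          refine card_le_card fun e he => ?_
          obtain ⟨x, hx, rfl⟩ := mem_map.1 he
          exact mem_filter.2 ⟨x.2, mem_biUnion.2 ⟨x, hx, mem_insert_self _ _⟩,
            mem_biUnion.2 ⟨x, hx, mem_insert_of_mem (mem_singleton_self _)⟩⟩
        _ ≤ ∑ v ∈ X, d v := hX X hXT
        _ = (X.sigma fun v => range (d v)).card := by simp only [card_sigma, card_range]
        _ ≤ _ := by
          refine card_le_card fun q hq => ?_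
          obtain ⟨h1, h2⟩ := mem_sigma.1 hq
          obtain ⟨x, hx, h3⟩ := mem_biUnion.1 h1
          exact mem_biUnion.2 ⟨x, hx, mem_sigma.2 ⟨h3, h2⟩⟩)
  let g : E → Σ _ : V, ℕ := fun e => if h : e ∈ F then f ⟨e, h⟩ else ⟨s e, 0⟩
  have g1 : ∀ e ∈ F, ((g e).1 = s e ∨ (g e).1 = t e) ∧ (g e).2 < d (g e).1 := fun e he => by
    have := mem_sigma.1 (f2 ⟨e, he⟩)
    simp only [g, dif_pos he]
    simpa using this
  have g2 : ∀ e ∈ F, ∀ e' ∈ F, g e = g e' → e = e' := fun e he e' he' h => by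
    simp only [g, dif_pos he, dif_pos he'] at h
    exact congrArg Subtype.val (f1 h)
  refine ⟨fun e => (g e).1, fun e he => (g1 e he).1, ?_⟩
  refine (sum_eq_sum_iff_of_le fun v _ => ?_).1 ?_
  · rw [← card_range (d v)]
    refine card_le_card_of_injOn (fun e => (g e).2) (fun e he => ?_) fun e he e' he' h => ?_
    · obtain ⟨h1, h2⟩ := mem_filter.1 (mem_coe.1 he)
      exact mem_coe.2 (mem_range.2 (h2 ▸ (g1 e h1).2))
    · obtain ⟨h1, h2⟩ := mem_filter.1 (mem_coe.1 he)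
      obtain ⟨h3, h4⟩ := mem_filter.1 (mem_coe.1 he')
      exact g2 e h1 e' h3 (Sigma.ext (h2.trans h4.symm) (heq_of_eq h))
  · rw [ht]
    refine (card_eq_sum_card_fiberwise fun e he => ?_).symm
    rcases (g1 e he).1 with h | h
    exacts [h ▸ (hF e he).1, h ▸ (hF e he).2]

namespace SG

variable {V E : Type} [Fintype V] [DecidableEq V] [DecidableEq E] {G : SG V E}

omit [Fintype V] [DecidableEq E] in
theorem K1Hall_kap {p : V → ZMod 2} {e : E} (X : Finset V) (h : G.sw p e = 0) :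
    (G.kap p X e : ℤ) = (iv (G.s e ∈ X) - iv (G.t e ∈ X)) * chi (p (G.s e)) := by
  have k : (chi (p (G.t e)) : ℤ) * chi (G.n e) = chi (p (G.s e)) := by
    rw [← chi_add]
    congr 1
    rw [sw] at h
    exact z2_eq_of_add (by rw [← h]; ring)
  rw [kap, mul_assoc, k, sub_mul]

omit [Fintype V] in
theorem K1Hall_sum {T X : Finset V} {F : Finset E} {p : V → ZMod 2} {f f0 : E → ℤ}
    (hF : F ⊆ G.ins T) (hp : ∀ e ∈ F, G.sw p e = 0) (hX : X ⊆ T) (hf : ∀ e, e ∉ F → f e = f0 e) :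
    ∑ v ∈ X, chi (p v) * G.bd f v = ∑ e ∈ G.tch T \ F, G.kap p X e * f0 e +
      ∑ e ∈ F, (iv (G.s e ∈ X) - iv (G.t e ∈ X)) * (chi (p (G.s e)) * f e) := by
  have h1 : F ⊆ G.tch T := fun e he =>
    mem_tch.2 ⟨(mem_ins.1 (hF he)).1, Or.inl (mem_ins.1 (hF he)).2.1⟩
  rw [sum_bd, ← sum_subset (show G.tch T ⊆ G.A from filter_subset _ _), ← sum_sdiff h1]
  · congr 1
    · exact sum_congr rfl fun e he => by rw [hf e (mem_sdiff.1 he).2]
    · exact sum_congr rfl fun e he => by rw [K1Hall_kap X (hp e he), mul_assoc]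
  · intro e he h
    rw [kap_out (fun k => h (mem_tch.2 ⟨he, Or.inl (hX k)⟩))
      (fun k => h (mem_tch.2 ⟨he, Or.inr (hX k)⟩)), zero_mul]

theorem K1Hall_u {r η : ℤ} (h1 : 1 ≤ r) (h5 : r ≤ 5) (hη : η = 1 ∨ η = -1) :
    0 < η * Lift6_u r η ∧ η * Lift6_u r η < 6 ∧ η * Lift6_u r (-η) = η * Lift6_u r η - 6 := by
  rcases hη with rfl | rfl <;> simp [Lift6_u] <;> omega

/-- Hoffman's condition.
HINT: `Lift6_r` gives for each edge `r e` in `1..5` with the admissible values `r e`, `r e - 6`.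
For `e ∈ F` let `a e` be the admissible value with `0 < chi (p (s e)) * a e` and `b e` the other
one; `chi (p (s e)) * (a e - b e) = 6`, and `kap p {t e} e = -kap p {s e} e` since `e` is
consistent.  Let `u` be the function that is `f0` off `F` and `a` on `F`, and put
`D v = chi (p v) * bd u v + 6 * #(e ∈ F with t e = v)`; this is the outflow at `v` if every edge
of `F` at `v` carries its positive outflow.  `6 ∣ D v` (`Lift6_six`).  For `X ⊆ T` (`sum_bd`)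
`∑ v ∈ X, D v` equals the left side of `hH` (with `g = a` or `b` according to which end lies in
`X`) plus `6 * #(F inside X)`, so `hall_or` applies to `d v = (D v / 6).toNat` (`X = {v}` gives
`0 ≤ D v`, `X = T` the total).  The head of an edge receives the negative outflow: `f e = b e` if
`hd e = s e`, else `a e`. -/
theorem lift0 {T : Finset V} {F O : Finset E} {p : V → ZMod 2} {φ : E → ZMod 3} {f0 : E → ℤ}
    (hl : ∀ e ∈ G.tch T, G.s e ≠ G.t e) (hF : F ⊆ G.ins T) (hp : ∀ e ∈ F, G.sw p e = 0)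
    (hOA : O ⊆ G.A) (hO : ∀ v ∈ T, G.dg O v = 0) (hφ : G.Sl T O ∅ φ)
    (h0 : ∀ e ∈ G.tch T, e ∉ F → Av O φ e (f0 e))
    (ht : ∑ e ∈ G.tch T \ F, G.kap p T e * f0 e = 0)
    (hH : ∀ X ⊆ T, ∀ g : E → ℤ, (∀ e ∈ G.crs F X, Av O φ e (g e) ∧ 0 < G.kap p X e * g e) →
      -6 < ∑ e ∈ G.tch T \ F, G.kap p X e * f0 e + ∑ e ∈ G.crs F X, G.kap p X e * g e) :
    ∃ f : E → ℤ, (∀ e, e ∉ F → f e = f0 e) ∧ (∀ v ∈ T, G.bd f v = 0) ∧
      ∀ e ∈ G.tch T, Av O φ e (f e) := by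
  choose r r1 r5 r0 using fun e => Lift6_r (O := O) (φ := φ) e
  have h1 : F ⊆ G.tch T := fun e he =>
    mem_tch.2 ⟨(mem_ins.1 (hF he)).1, Or.inl (mem_ins.1 (hF he)).2.1⟩
  let a : E → ℤ := fun e => Lift6_u (r e) (chi (p (G.s e)))
  let b : E → ℤ := fun e => Lift6_u (r e) (-chi (p (G.s e)))
  have ab : ∀ e, 0 < chi (p (G.s e)) * a e ∧ chi (p (G.s e)) * a e < 6 ∧
      chi (p (G.s e)) * b e = chi (p (G.s e)) * a e - 6 := fun e =>
    K1Hall_u (r1 e) (r5 e) (Lift6_chi _)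
  have ha : ∀ e ∈ F, Av O φ e (a e) := fun e he =>
    (r0 e (hφ.2.1 e (h1 he)) _).2 (Lift6_u1 (r1 e) (r5 e) (Lift6_chi _)).1
  have hb : ∀ e ∈ F, Av O φ e (b e) := fun e he =>
    (r0 e (hφ.2.1 e (h1 he)) _).2 (Lift6_u1 (r1 e) (r5 e) (Lift6_chi _)).2.1
  let u : E → ℤ := fun e => if e ∈ F then a e else f0 e
  have hu : ∀ e, e ∉ F → u e = f0 e := fun e he => if_neg he
  let D : V → ℤ := fun v => chi (p v) * G.bd u v + 6 * ∑ e ∈ F, iv (G.t e = v)
  have sD : ∀ X ⊆ T, ∑ v ∈ X, D v = ∑ e ∈ G.tch T \ F, G.kap p X e * f0 e +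
      ∑ e ∈ F, ((iv (G.s e ∈ X) - iv (G.t e ∈ X)) * (chi (p (G.s e)) * a e) +
        6 * iv (G.t e ∈ X)) := fun X hX => by
    rw [sum_add_distrib, K1Hall_sum hF hp hX hu, sum_add_distrib, add_assoc, ← mul_sum, ← mul_sum,
      sum_comm]
    congr 2
    · exact sum_congr rfl fun e he => by simp only [u, if_pos he]
    · congr 1
      exact sum_congr rfl fun e _ => by simp only [iv, sum_ite_eq]
  have dv : ∀ v ∈ T, D v = 6 * (D v / 6) := fun v hv => by
    have k : (6 : ℤ) ∣ G.bd u v := Lift6_six hOA (hO v hv) (hφ.1 v hv) fun e he k => by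
      by_cases k1 : e ∈ F
      · simp only [u, if_pos k1]
        exact ha e k1
      · rw [hu e k1]
        refine h0 e (mem_tch.2 ⟨he, ?_⟩) k1
        rcases k with k | k
        exacts [Or.inl (k ▸ hv), Or.inr (k ▸ hv)]
    exact (Int.mul_ediv_cancel' ((k.mul_left _).add (dvd_mul_right _ _))).symm
  have sX : ∀ X ⊆ T, ((F.filter fun e => G.s e ∈ X ∧ G.t e ∈ X).card : ℤ) ≤ ∑ v ∈ X, D v / 6 := by
    intro X hX
    have k1 := hH X hX (fun e => if G.s e ∈ X then a e else b e) fun e he => by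
      obtain ⟨k1, k2⟩ := mem_crs.1 he
      have k3 := ab e
      rw [K1Hall_kap X (hp e k1)]
      by_cases k : G.s e ∈ X
      · have k' : G.t e ∉ X := fun k' => k2 (iff_of_true k k')
        simp only [iv, if_pos k, if_neg k']
        exact ⟨ha e k1, by linarith [k3.1]⟩
      · have k' : G.t e ∈ X := by
          by_contra k'
          exact k2 (iff_of_false k k')
        simp only [iv, if_neg k, if_pos k']
        exact ⟨hb e k1, by linarith [k3.2.1, k3.2.2]⟩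
    have k2 : ∑ e ∈ F, ((iv (G.s e ∈ X) - iv (G.t e ∈ X)) * (chi (p (G.s e)) * a e) +
        6 * iv (G.t e ∈ X)) =
        ∑ e ∈ G.crs F X, G.kap p X e * (if G.s e ∈ X then a e else b e) +
          6 * ((F.filter fun e => G.s e ∈ X ∧ G.t e ∈ X).card : ℤ) := by
      rw [crs, sum_filter, card_filter, Nat.cast_sum, mul_sum, ← sum_add_distrib]
      refine sum_congr rfl fun e he => ?_
      have k3 := (ab e).2.2
      rw [K1Hall_kap X (hp e he)]
      by_cases k : G.s e ∈ X <;> by_cases k' : G.t e ∈ X <;> simp [iv, k, k']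
      linarith
    have k3 := sD X hX
    rw [k2, sum_congr rfl fun v hv => dv v (hX hv), ← mul_sum] at k3
    omega
  have d0 : ∀ v ∈ T, (((D v / 6).toNat : ℕ) : ℤ) = D v / 6 := fun v hv => by
    have := sX {v} (singleton_subset_iff.2 hv)
    rw [sum_singleton] at this
    exact Int.toNat_of_nonneg ((Nat.cast_nonneg _).trans this)
  obtain ⟨hd, hd1, hd2⟩ := hall_or F T G.s G.t (fun v => (D v / 6).toNat)
    (fun e he => (mem_ins.1 (hF he)).2) (by
      have k := sD T Subset.rfl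
      rw [ht, zero_add, sum_congr rfl dv, ← mul_sum, ← sum_congr rfl d0,
        sum_congr (s₁ := F) rfl (g := fun _ => (6 : ℤ)) fun e he => by
          simp [iv, (mem_ins.1 (hF he)).2.1, (mem_ins.1 (hF he)).2.2], sum_const,
        ← Nat.cast_sum, nsmul_eq_mul] at k
      omega)
    fun X hX => by
      have k := sX X hX
      rw [← sum_congr rfl fun v hv => d0 v (hX hv), ← Nat.cast_sum] at k
      exact_mod_cast k
  refine ⟨fun e => if e ∈ F then (if hd e = G.s e then b e else a e) else f0 e,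
    fun e he => if_neg he, fun v hv => ?_, fun e he => ?_⟩
  · have k1 := K1Hall_sum hF hp (singleton_subset_iff.2 hv)
      (f := fun e => if e ∈ F then (if hd e = G.s e then b e else a e) else f0 e) (f0 := f0)
      fun e he => if_neg he
    have k2 := sD {v} (singleton_subset_iff.2 hv)
    rw [sum_singleton] at k1 k2
    have k3 : D v = ∑ e ∈ F, 6 * iv (hd e = v) := by
      rw [dv v hv, ← d0 v hv, ← hd2 v hv, card_filter, Nat.cast_sum, mul_sum]
      exact sum_congr rfl fun e _ => by simp [iv]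
    have k4 : ∑ e ∈ F, ((iv (G.s e ∈ ({v} : Finset V)) - iv (G.t e ∈ ({v} : Finset V))) *
        (chi (p (G.s e)) * a e) + 6 * iv (G.t e ∈ ({v} : Finset V))) =
        ∑ e ∈ F, (iv (G.s e ∈ ({v} : Finset V)) - iv (G.t e ∈ ({v} : Finset V))) *
          (chi (p (G.s e)) * if e ∈ F then (if hd e = G.s e then b e else a e) else f0 e) +
        ∑ e ∈ F, (6 : ℤ) * iv (hd e = v) := by
      rw [← sum_add_distrib]
      refine sum_congr rfl fun e he => ?_
      simp only [if_pos he, mem_singleton]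
      by_cases k : hd e = G.s e
      · rw [if_pos k, (ab e).2.2, k]
        ring
      · rw [if_neg k, (hd1 e he).resolve_left k]
    have k5 : chi (p v) * G.bd (fun e => if e ∈ F then (if hd e = G.s e then b e else a e)
        else f0 e) v = 0 := by linarith
    rcases Lift6_chi (p v) with k | k <;> rw [k] at k5 <;> linarith
  · by_cases k : e ∈ F
    · simp only [if_pos k]
      split_ifs
      exacts [hb e k, ha e k]
    · simp only [if_neg k]
      exact h0 e he k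

end SG

end Pool.Agent.Work.MP_8c679b_co
end

-- merged part: Pool.Agent.Work.MP_8c679b_co.K1.Lift
section
/-!
The lift for a three-side with a critical edge.

PLAN for `lift1`.  Write `Hi, Hj, Hk` for the integer outflows `kap p T e * h e` (each is `± h e`,
`Def6_kap`), `c = Hi = Hj + Hk`.  Use `lift0` with `F = (ins T).erase z` and `f0 = h` updated at
`z` by `-(chi (p (s z))) * c`; `Av` at `z`: the residue follows from `KC.cons` for `T` (cast with
`Def6_cast`), the parity from `hz`.  `tch T \ F = {i, j, k, z}`.  For `X ⊆ T` the first sum `B` is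
the sum of the `Hm` with terminal in `X` (`kap_sub`, `Pure_kap0`-like for the others) minus `c`
times the number of ends of `z` in `X` (`KC.kapz`).  Every term of the second sum is at least
one.  If exactly one end of `z` lies in `X` then `|B| ≤ 5`.  Otherwise let `X'` be the one of `X`,
`T \ X` that contains `z`; `crs F X = crs F X' = cut X' \ cut T`.  If `X'` contains the terminal
of `i`, or both other terminals, `|B| ≤ 5`.  Otherwise `X' ≠ T`, so `4 ≤ (cut X').card`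
(`HT.four`), and a violation forces `(cut X').card = 4`, all terms of the second sum equal to
one, and `|c| = 5` (no terminal) or `|c| ≥ 4`, `|Hm| = 1` (one terminal `m`, and `Hm = -c` modulo three).
A term equal to one means `g e = ± 1`, so `e ∈ O`, `φ e ≠ 0` and `kap p X' e * φ e` is the sign
of `c`.  If `2 < X'.card` then `US X'` (`KC.us`) and `kA`, `kB` give a contradiction.  Otherwise
`X' = {s z, t z}` (`HT.rung`); `k1_rungA`, `k1_rungB`.  Finish with `ext_of_av`.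
-/

set_option autoImplicit false

namespace Pool.Agent.Work.MP_8c679b_co

open Finset

namespace SG

variable {V E : Type} [Fintype V] [DecidableEq V] [DecidableEq E] {G : SG V E}
  {T X : Finset V} {p : V → ZMod 2} {z i j k m : E} {O J : Finset E} {φ : E → ZMod 3}

theorem K1Lift_zA (hK : G.KC T p z i j k) : z ∈ G.A := (mem_ins.1 hK.zi).1

theorem K1Lift_zcut (hK : G.KC T p z i j k) {u : V} (hu : u = G.s z ∨ u = G.t z) :
    u ∈ T ∧ z ∈ G.cut {u} := by
  obtain ⟨h1, h2, h3⟩ := hK.st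
  rw [mem_cut_single h3]
  rcases hu with rfl | rfl
  exacts [⟨h1, K1Lift_zA hK, Or.inl rfl⟩, ⟨h2, K1Lift_zA hK, Or.inr rfl⟩]

theorem K1Lift_rung (hK : G.KC T p z i j k) {u : V} (hu : u = G.s z ∨ u = G.t z) {e : E}
    (he : e ∈ G.cut {u}) (hez : e ≠ z) : e ∈ G.cut {G.s z, G.t z} := by
  obtain ⟨h1, h2, h3⟩ := hK.st
  obtain ⟨-, -, e', h4, -⟩ := hK.ht.rung' hK.cub h1 h2 h3 ⟨z, K1Lift_zA hK, Or.inl ⟨rfl, rfl⟩⟩
  have h5 : z ∈ G.ins {G.s z, G.t z} := mem_ins.2 ⟨K1Lift_zA hK, by simp, by simp⟩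
  have h6 : e ∉ G.ins {G.s z, G.t z} := by
    rw [h4, mem_singleton] at h5 ⊢
    rw [← h5]
    exact hez
  have h7 : u ∈ ({G.s z, G.t z} : Finset V) := by simpa using hu
  obtain ⟨h8, h9⟩ := mem_cut.1 he
  refine mem_cut.2 ⟨h8, fun h => h6 (mem_ins.2 ⟨h8, ?_⟩)⟩
  simp only [mem_singleton] at h9
  by_cases h10 : G.s e = u
  · exact ⟨h10 ▸ h7, h.1 (h10 ▸ h7)⟩
  · have h11 : G.t e = u := by
      by_contra h11
      exact h9 (iff_of_false h10 h11)
    exact ⟨h.2 (h11 ▸ h7), h11 ▸ h7⟩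

/-- A rung with the edge `z ∈ O` has a leaving edge off `O`.  HINT: at the end `s z` the degree
of `O` is even (`HT.vtx`, `HT.third`). -/
theorem k1_rungA (hK : G.KC T p z i j k) (hOA : O ⊆ G.A) (hO : ∀ v ∈ T, G.dg O v = 0)
    (hz : z ∈ O) : ∃ e ∈ G.cut {G.s z, G.t z}, e ∉ O := by
  obtain ⟨h1, h2⟩ := K1Lift_zcut hK (Or.inl rfl)
  have h3 := (hK.ht.vtx hK.cub h1).1
  have h4 : ∃ e ∈ G.cut {G.s z}, e ∉ O := by
    by_contra hcon
    push Not at hcon
    have h5 : G.crs O {G.s z} = G.cut {G.s z} := by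
      ext e
      constructor
      · intro he
        exact mem_cut.2 ⟨hOA (mem_crs.1 he).1, (mem_crs.1 he).2⟩
      · intro he
        exact mem_crs.2 ⟨hcon e he, (mem_cut.1 he).2⟩
    have h6 := sum_dg (G := G) O {G.s z}
    rw [sum_singleton, hO _ h1, h5, h3] at h6
    exact absurd h6 (by decide)
  obtain ⟨e, he, heO⟩ := h4
  exact ⟨e, K1Lift_rung hK (Or.inl rfl) he fun h => heO (h ▸ hz), heO⟩

/-- the third edge at the end of `z` that carries `m`.  HINT: `KC.cons` for the single vertex,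
`tw_q3`, `KC.kapz`, `kap_sub`. -/
theorem k1_rungB (hK : G.KC T p z i j k) (hφ : ∀ v ∈ T, G.bd φ v = 0)
    (hm : m ∈ G.cut {G.s z, G.t z}) (h1 : G.kap p {G.s z, G.t z} m * φ m = G.zv p z φ) :
    ∃ e ∈ G.cut {G.s z, G.t z}, e ≠ m ∧ G.kap p {G.s z, G.t z} e * φ e = G.zv p z φ := by
  obtain ⟨s1, s2, s3⟩ := hK.st
  obtain ⟨u, hu, hmu⟩ := Sol_cut_end hm
  have hu' : u = G.s z ∨ u = G.t z := by simpa using hu
  obtain ⟨h2, h3⟩ := K1Lift_zcut hK hu'
  have hsub : ({u} : Finset V) ⊆ {G.s z, G.t z} := singleton_subset_iff.2 hu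
  have hmA : m ∈ G.A := (mem_cut.1 hm).1
  have hml : G.s m ≠ G.t m := fun h => (mem_cut.1 hm).2 (by rw [h])
  have h4 : m ∈ G.cut {u} := (mem_cut_single hml).2 ⟨hmA, hmu⟩
  have hmz : m ≠ z := by
    rintro rfl
    exact (mem_cut.1 hm).2 (by simp)
  obtain ⟨g, hg⟩ := hK.ht.third hK.cub h2 h4 h3 hmz
  have hgc : g ∈ G.cut {u} := by rw [hg.1]; simp
  have hg' := K1Lift_rung hK hu' hgc hg.2.2.2.symm
  have hT : ({u} : Finset V) ⊆ T := singleton_subset_iff.2 h2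
  have h5 := (hK.cons hT (u := φ) fun v hv => hφ v (hT hv)).2 (by
    rw [(hK.ht.vtx hK.cub h2).2.1]
    exact notMem_empty z)
  rw [tw_q3 hg, (hK.kapz (X := {u})).2 h3, kap_sub hsub hm (cut_sub_tch h4),
    kap_sub hsub hg' (cut_sub_tch hgc), h1] at h5
  refine ⟨g, hg', hg.2.2.1.symm, ?_⟩
  have h6 : (3 : ZMod 3) = 0 := rfl
  unfold zv at h5 ⊢
  linear_combination h5 - chi (p (G.s z)) * φ z * h6

theorem K1Lift_sum (hK : G.KC T p z i j k) (u : E → ℤ) :
    ∑ e ∈ G.tch T \ (G.ins T).erase z, u e = u i + u j + u k + u z := by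
  have h1 : G.tch T \ (G.ins T).erase z = insert z (G.cut T) := by
    ext e
    simp only [mem_sdiff, mem_erase, mem_insert, mem_tch, mem_ins, mem_cut]
    have := mem_ins.1 hK.zi
    by_cases h : e = z
    · subst h
      grind
    · grind
  have h2 : z ∉ G.cut T := fun h => (mem_cut.1 h).2 (iff_of_true hK.st.1 hK.st.2.1)
  obtain ⟨q1, q2, q3, q4⟩ := hK.q3
  rw [h1, sum_insert h2, q1, sum_insert (by simp [q2, q3]), sum_pair q4]
  ring

theorem K1Lift_term (hX : X ⊆ T) {e : E} (he : e ∈ G.cut T) :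
    (e ∈ G.cut X ∧ (G.kap p X e : ℤ) = G.kap p T e) ∨ (e ∉ G.cut X ∧ (G.kap p X e : ℤ) = 0) := by
  obtain ⟨h1, h2⟩ := mem_cut.1 he
  by_cases h : e ∈ G.tch X
  · refine Or.inl ⟨mem_cut.2 ⟨h1, fun h3 => h2 ?_⟩, kap_sub hX he h⟩
    rcases (mem_tch.1 h).2 with h4 | h4
    · exact iff_of_true (hX h4) (hX (h3.1 h4))
    · exact iff_of_true (hX (h3.2 h4)) (hX h4)
  · refine Or.inr ⟨fun h3 => h (cut_sub_tch h3), kap_out (fun h3 => h ?_) fun h3 => h ?_⟩
    exacts [mem_tch.2 ⟨h1, Or.inl h3⟩, mem_tch.2 ⟨h1, Or.inr h3⟩]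

theorem K1Lift_one {e : E} {x σ : ℤ} (he : e ∈ G.cut X) (hx : Av O φ e x) (hσ : σ = 1 ∨ σ = -1)
    (h1 : σ * (G.kap p X e * x) = 1) : e ∈ O ∧ φ e ≠ 0 ∧ G.kap p X e * φ e = (σ : ZMod 3) := by
  have h2 : G.kap p X e * x = σ := by rcases hσ with rfl | rfl <;> omega
  have h3 : G.kap p X e * φ e = (σ : ZMod 3) := by
    rw [← h2, Int.cast_mul, Def6_cast, hx.2.2]
  refine ⟨hx.2.1.1 ?_, fun h => ?_, h3⟩
  · have : x = 1 ∨ x = -1 := by
      rcases Def6_kap p he with h | h <;> rw [h] at h2 <;> omega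
    rcases this with rfl | rfl <;> decide
  · rw [h, mul_zero] at h3
    rcases hσ with rfl | rfl <;> exact absurd h3 (by decide)

omit [Fintype V] [DecidableEq V] [DecidableEq E] in
theorem K1Lift_ge (S : Finset E) (t : E → ℤ) (h : ∀ e ∈ S, 0 < t e) :
    (S.card : ℤ) ≤ ∑ e ∈ S, t e ∧ (∑ e ∈ S, t e ≤ S.card → ∀ e ∈ S, t e = 1) := by
  have h1 : ∑ e ∈ S, (t e - 1) = ∑ e ∈ S, t e - S.card := by
    rw [sum_sub_distrib]
    simp
  have h2 : ∀ e ∈ S, 0 ≤ t e - 1 := fun e he => by have := h e he; omega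
  refine ⟨by have := sum_nonneg h2; omega, fun h3 e he => ?_⟩
  have h4 := single_le_sum h2 he
  have h5 := h2 e he
  omega

theorem K1Lift_crs (hX : X ⊆ T) (hz : z ∈ G.ins X) :
    G.crs ((G.ins T).erase z) X = G.cut X \ G.cut T := by
  ext e
  simp only [mem_crs, mem_sdiff, mem_erase, mem_ins, mem_cut]
  have h1 := mem_ins.1 hz
  have h2 := @hX (G.s e)
  have h3 := @hX (G.t e)
  by_cases h : e = z
  · subst h
    grind
  · grind

theorem K1Lift_pair (hK : G.KC T p z i j k) (hz : z ∈ G.ins X) (h2 : ¬ 2 < X.card) :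
    X = {G.s z, G.t z} := by
  refine (eq_of_subset_of_card_le ?_ ?_).symm
  · exact Cut_pair (mem_ins.1 hz).2.1 (mem_ins.1 hz).2.2
  · rw [card_pair hK.st.2.2]
    omega

theorem K1Lift_zv (hK : G.KC T p z i j k) {h : E → ℤ}
    (hs : G.kap p T j * h j + G.kap p T k * h k = G.kap p T i * h i)
    (hF : G.Fil T J ∅ (fun e => (h e : ZMod 3)) O φ) :
    (∀ e ∈ G.cut T, φ e = (h e : ZMod 3)) ∧ G.zv p z φ = -(G.kap p T i * (h i : ZMod 3)) := by
  have h1 : ∀ e ∈ G.cut T, φ e = (h e : ZMod 3) := fun e he => hF.2.1 e fun h2 =>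
    (mem_cut.1 he).2 (iff_of_true (mem_ins.1 h2).2.1 (mem_ins.1 h2).2.2)
  refine ⟨h1, ?_⟩
  have h2 := (hK.cons Subset.rfl (u := φ) hF.2.2.1).1 hK.zi
  obtain ⟨m1, m2, m3⟩ := hK.mem
  rw [tw_q3 hK.q3, h1 i m1, h1 j m2, h1 k m3] at h2
  have h3 := congrArg (Int.cast : ℤ → ZMod 3) hs
  simp only [Int.cast_add, Int.cast_mul, Def6_cast] at h3
  have h6 : (3 : ZMod 3) = 0 := rfl
  linear_combination 2 * h2 - 2 * h3 - (G.zv p z φ + G.kap p T i * (h i : ZMod 3)) * h6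

theorem K1Lift_key (hK : G.KC T p z i j k) {h : E → ℤ} (hB : G.Bv T h)
    (hs : G.kap p T j * h j + G.kap p T k * h k = G.kap p T i * h i)
    (hF : G.Fil T J ∅ (fun e => (h e : ZMod 3)) O φ) (hJ : ∀ e ∈ G.cut T, e ∈ J ↔ Odd (h e))
    (hz : z ∈ O ↔ Odd (h i))
    (kA : |h i| = 5 → ∀ X, G.KA T X → ∃ e ∈ G.cut X, e ∉ O ∨ φ e = 0)
    (kB : ∀ m, m = j ∨ m = k → |h m| = 1 → 4 ≤ |h i| →
      G.kap p T m * (h m : ZMod 3) = -(G.kap p T i * (h i : ZMod 3)) → ∀ X, G.KB1 T m X →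
      ∃ e ∈ G.cut X, e ≠ m ∧ (e ∉ O ∨ φ e = 0 ∨
        (Odd (h i) ∧ G.kap p X e * φ e ≠ G.kap p T m * (h m : ZMod 3))))
    (hX : X ⊆ T) (hzX : z ∈ G.ins X) {σ : ℤ} (hσ : σ = 1 ∨ σ = -1) (g : E → ℤ)
    (hg : ∀ e ∈ G.cut X \ G.cut T, Av O φ e (g e) ∧ 0 < σ * (G.kap p X e * g e)) :
    -6 < σ * (G.kap p X i * h i + G.kap p X j * h j + G.kap p X k * h k - 2 * (G.kap p T i * h i))
      + ∑ e ∈ G.cut X \ G.cut T, σ * (G.kap p X e * g e) := by
  obtain ⟨m1, m2, m3⟩ := hK.mem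
  obtain ⟨hφ, hzv⟩ := K1Lift_zv hK hs hF
  have hOA : O ⊆ G.A := hF.1.1.trans (filter_subset _ _)
  have habs : ∀ e ∈ G.cut T, |G.kap p T e * h e| = |h e| := fun e he => by
    rcases Def6_kap p he with h1 | h1 <;> simp [h1]
  have hne : ∀ e ∈ G.cut T, G.kap p T e * h e ≠ 0 := fun e he h1 => by
    have h2 := habs e he
    rw [h1, abs_zero] at h2
    exact (hB e he).1 (abs_eq_zero.1 h2.symm)
  have hle : ∀ e ∈ G.cut T, -5 ≤ G.kap p T e * h e ∧ G.kap p T e * h e ≤ 5 := fun e he =>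
    abs_le.1 ((habs e he).trans_le (hB e he).2)
  obtain ⟨hS1, hS2⟩ := K1Lift_ge (G.cut X \ G.cut T) (fun e => σ * (G.kap p X e * g e))
    fun e he => (hg e he).2
  have hone : ∑ e ∈ G.cut X \ G.cut T, σ * (G.kap p X e * g e) ≤ (G.cut X \ G.cut T).card →
      ∀ e ∈ G.cut X, e ∉ G.cut T → e ∈ O ∧ φ e ≠ 0 ∧ G.kap p X e * φ e = (σ : ZMod 3) :=
    fun h1 e h2 h3 => K1Lift_one h2 (hg e (mem_sdiff.2 ⟨h2, h3⟩)).1 hσ
      (hS2 h1 e (mem_sdiff.2 ⟨h2, h3⟩))
  have hcard := card_sdiff_add_card_inter (G.cut X) (G.cut T)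
  have bi := hle i m1
  have bj := hle j m2
  have bk := hle k m3
  have nj := hne j m2
  have nk := hne k m3
  by_contra hcon
  push Not at hcon
  generalize ∑ e ∈ G.cut X \ G.cut T, σ * (G.kap p X e * g e) = S at hS1 hone hcon
  clear hS2
  rcases K1Lift_term (p := p) hX m1 with ⟨-, ei⟩ | ⟨ci, ei⟩
  · rcases K1Lift_term (p := p) hX m2 with ⟨-, ej⟩ | ⟨-, ej⟩ <;>
      rcases K1Lift_term (p := p) hX m3 with ⟨-, ek⟩ | ⟨-, ek⟩ <;>
      rw [ei, ej, ek] at hcon <;> rcases hσ with rfl | rfl <;> omega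
  have h4 : 4 ≤ (G.cut X).card := by
    refine hK.ht.four Subset.rfl (Finset.ssubset_iff_subset_ne.2 ⟨hX, fun h1 => ci (h1 ▸ m1)⟩) ?_
    rw [← card_pair hK.st.2.2]
    exact card_le_card (Cut_pair (mem_ins.1 hzX).2.1 (mem_ins.1 hzX).2.2)
  have hi' : ∀ c : ℤ, σ * (G.kap p T i * h i) = c → 0 ≤ c → |h i| = c := by
    intro c h1 h2
    rw [← habs i m1, ← abs_of_nonneg h2, ← h1]
    rcases hσ with rfl | rfl <;> simp
  have hB1 : ∀ m, m = j ∨ m = k → G.cut X ∩ G.cut T = {m} →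
      G.kap p T i * h i - G.kap p T m * h m ≤ 5 → -5 ≤ G.kap p T i * h i - G.kap p T m * h m →
      σ * (G.kap p T m * h m - 2 * (G.kap p T i * h i)) + S ≤ -6 → False := by
    intro m hm hc b1 b2 b3
    have hmm := mem_inter.1 (hc ▸ mem_singleton_self m : m ∈ G.cut X ∩ G.cut T)
    have nm := hne m hmm.2
    rw [hc, card_singleton] at hcard
    have hout : ∀ e ∈ G.cut X, e ≠ m → e ∉ G.cut T := fun e h1 h2 h3 =>
      h2 (mem_singleton.1 (hc ▸ mem_inter.2 ⟨h1, h3⟩))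
    have hcase : (σ * (G.kap p T i * h i) = 5 ∧ G.kap p T m * h m = σ ∨
        σ * (G.kap p T i * h i) = 4 ∧ G.kap p T m * h m = -σ) ∧ (G.cut X).card = 4 ∧
        S ≤ (G.cut X \ G.cut T).card := by
      rcases hσ with rfl | rfl <;> omega
    obtain ⟨h5, h6, h7⟩ := hcase
    have h8 := hone h7
    have h9 : |h m| = 1 := by
      rw [← habs m hmm.2]
      rcases h5 with ⟨-, h5⟩ | ⟨-, h5⟩ <;> rw [h5] <;> rcases hσ with rfl | rfl <;> simp
    have h10 : 4 ≤ |h i| := by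
      rcases h5 with ⟨h5, -⟩ | ⟨h5, -⟩ <;> rw [hi' _ h5 (by norm_num)] <;> norm_num
    have h11 : G.kap p T m * (h m : ZMod 3) = -(G.kap p T i * (h i : ZMod 3)) := by
      have h12 : (3 : ℤ) ∣ G.kap p T m * h m + G.kap p T i * h i := by
        rcases hσ with rfl | rfl <;> omega
      have h13 := (ZMod.intCast_zmod_eq_zero_iff_dvd _ 3).2 h12
      simp only [Int.cast_add, Int.cast_mul, Def6_cast] at h13
      linear_combination h13
    have h14 : Odd (h i) → G.kap p T m * (h m : ZMod 3) = (σ : ZMod 3) := by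
      intro ho
      rcases h5 with ⟨-, h5⟩ | ⟨h5, -⟩
      · rw [← h5, Int.cast_mul, Def6_cast]
      · have h15 := hi' _ h5 (by norm_num)
        rw [← odd_abs, h15] at ho
        exact absurd ho (by decide)
    by_cases h2 : 2 < X.card
    · obtain ⟨e, h15, h16, h17⟩ := kB m hm h9 h10 h11 X ⟨hX, hK.us hX hzX h6 h2, hc⟩
      obtain ⟨h18, h19, h20⟩ := h8 e h15 (hout e h15 h16)
      rcases h17 with h17 | h17 | ⟨h17, h21⟩
      exacts [h17 h18, h19 h17, h21 (h20.trans (h14 h17).symm)]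
    · have hXe := K1Lift_pair hK hzX h2
      rcases h5 with ⟨h5, -⟩ | ⟨-, h5⟩
      · have h15 : Odd (h i) := by
          rw [← odd_abs, hi' _ h5 (by norm_num)]
          decide
        obtain ⟨e, h16, h17⟩ := k1_rungA hK hOA hF.1.2.1 (hz.2 h15)
        rw [← hXe] at h16
        by_cases h18 : e = m
        · have h19 : m ∈ J := (hJ m hmm.2).2 (by rw [← odd_abs, h9]; decide)
          rw [← hF.1.2.2] at h19
          exact h17 (h18 ▸ (mem_inter.1 h19).1)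
        · exact h17 (h8 e h16 (hout e h16 h18)).1
      · have h15 : G.kap p X m * φ m = G.zv p z φ := by
          rw [kap_sub hX hmm.2 (cut_sub_tch hmm.1), hφ m hmm.2, h11, hzv]
        obtain ⟨e, h16, h17, h18⟩ := k1_rungB hK hF.2.2.1 (hXe ▸ hmm.1) (hXe ▸ h15)
        rw [← hXe] at h16 h18
        have h19 := (h8 e h16 (hout e h16 h17)).2.2
        have h20 : G.kap p T m * (h m : ZMod 3) = -(σ : ZMod 3) := by
          rw [← Int.cast_neg, ← h5, Int.cast_mul, Def6_cast]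
        rw [h19, hzv, ← h11, h20] at h18
        rcases hσ with rfl | rfl <;> exact absurd h18 (by decide)
  rcases K1Lift_term (p := p) hX m2 with ⟨cj, ej⟩ | ⟨cj, ej⟩ <;>
    rcases K1Lift_term (p := p) hX m3 with ⟨ck, ek⟩ | ⟨ck, ek⟩ <;> rw [ei, ej, ek] at hcon
  · rcases hσ with rfl | rfl <;> omega
  · refine hB1 j (Or.inl rfl) ?_ (by omega) (by omega) (by linarith)
    refine eq_singleton_iff_unique_mem.2 ⟨mem_inter.2 ⟨cj, m2⟩, fun e he => ?_⟩
    rcases hK.cases (mem_inter.1 he).2 with rfl | rfl | rfl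
    exacts [absurd (mem_inter.1 he).1 ci, rfl, absurd (mem_inter.1 he).1 ck]
  · refine hB1 k (Or.inr rfl) ?_ (by omega) (by omega) (by linarith)
    refine eq_singleton_iff_unique_mem.2 ⟨mem_inter.2 ⟨ck, m3⟩, fun e he => ?_⟩
    rcases hK.cases (mem_inter.1 he).2 with rfl | rfl | rfl
    exacts [absurd (mem_inter.1 he).1 ci, absurd (mem_inter.1 he).1 cj, rfl]
  · have hout : ∀ e ∈ G.cut X, e ∉ G.cut T := fun e h1 h2 => by
      rcases hK.cases h2 with rfl | rfl | rfl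
      exacts [ci h1, cj h1, ck h1]
    have hc : G.cut X ∩ G.cut T = ∅ :=
      eq_empty_of_forall_notMem fun e he => hout e (mem_inter.1 he).1 (mem_inter.1 he).2
    rw [hc, card_empty] at hcard
    have hcase : σ * (G.kap p T i * h i) = 5 ∧ (G.cut X).card = 4 ∧
        S ≤ (G.cut X \ G.cut T).card := by
      rcases hσ with rfl | rfl <;> omega
    obtain ⟨h5, h6, h7⟩ := hcase
    have h8 := hone h7
    have h9 := hi' _ h5 (by norm_num)
    by_cases h2 : 2 < X.card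
    · have hin : G.cut X ⊆ G.ins T := by
        intro e he
        obtain ⟨h10, h11⟩ := mem_cut.1 he
        have h12 : G.s e ∈ T ↔ G.t e ∈ T := by
          by_contra h12
          exact hout e he (mem_cut.2 ⟨h10, h12⟩)
        have h13 := @hX (G.s e)
        have h14 := @hX (G.t e)
        exact mem_ins.2 ⟨h10, by (clear * - h11 h12 h13 h14; grind), by grind⟩
      obtain ⟨e, h10, h11⟩ := kA h9 X ⟨hX, hK.us hX hzX h6 h2, hin⟩
      obtain ⟨h12, h13, -⟩ := h8 e h10 (hout e h10)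
      rcases h11 with h11 | h11
      exacts [h11 h12, h13 h11]
    · obtain ⟨e, h16, h17⟩ := k1_rungA hK hOA hF.1.2.1
        (hz.2 (by rw [← odd_abs, h9]; decide))
      rw [← K1Lift_pair hK hzX h2] at h16
      exact h17 (h8 e h16 (hout e h16)).1

theorem lift1 (hK : G.KC T p z i j k) {h : E → ℤ} (hB : G.Bv T h)
    (hs : G.kap p T j * h j + G.kap p T k * h k = G.kap p T i * h i)
    (hF : G.Fil T J ∅ (fun e => (h e : ZMod 3)) O φ) (hJ : ∀ e ∈ G.cut T, e ∈ J ↔ Odd (h e))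
    (hz : z ∈ O ↔ Odd (h i))
    (kA : |h i| = 5 → ∀ X, G.KA T X → ∃ e ∈ G.cut X, e ∉ O ∨ φ e = 0)
    (kB : ∀ m, m = j ∨ m = k → |h m| = 1 → 4 ≤ |h i| →
      G.kap p T m * (h m : ZMod 3) = -(G.kap p T i * (h i : ZMod 3)) → ∀ X, G.KB1 T m X →
      ∃ e ∈ G.cut X, e ≠ m ∧ (e ∉ O ∨ φ e = 0 ∨
        (Odd (h i) ∧ G.kap p X e * φ e ≠ G.kap p T m * (h m : ZMod 3)))) : G.Ext T h := by
  obtain ⟨m1, m2, m3⟩ := hK.mem
  obtain ⟨hφ, hzv⟩ := K1Lift_zv hK hs hF
  have hOA : O ⊆ G.A := hF.1.1.trans (filter_subset _ _)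
  have hzc : ∀ e ∈ G.cut T, e ≠ z := by
    rintro e he rfl
    exact (mem_cut.1 he).2 (iff_of_true hK.st.1 hK.st.2.1)
  have hχ : (chi (p (G.s z)) : ℤ) * chi (p (G.s z)) = 1 := chi_mul_self _
  have hχ' : (chi (p (G.s z)) : ℤ) = 1 ∨ (chi (p (G.s z)) : ℤ) = -1 := by
    rcases z2 (p (G.s z)) with h1 | h1 <;> simp [h1]
  have hsum : ∀ Y : Finset V, ∑ e ∈ G.tch T \ (G.ins T).erase z, G.kap p Y e *
      Function.update h z (-chi (p (G.s z)) * (G.kap p T i * h i)) e =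
      G.kap p Y i * h i + G.kap p Y j * h j + G.kap p Y k * h k +
        G.kap p Y z * (-chi (p (G.s z)) * (G.kap p T i * h i)) := by
    intro Y
    rw [K1Lift_sum hK, Function.update_self, Function.update_of_ne (hzc i m1),
      Function.update_of_ne (hzc j m2), Function.update_of_ne (hzc k m3)]
  have hle : ∀ e ∈ G.cut T, -5 ≤ G.kap p T e * h e ∧ G.kap p T e * h e ≤ 5 := fun e he => by
    have := abs_le.1 (hB e he).2
    rcases Def6_kap p he with h1 | h1 <;> rw [h1] <;> omega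
  obtain ⟨f, f1, f2, f3⟩ := lift0 (G := G) (T := T) (F := (G.ins T).erase z) (O := O) (p := p)
    (φ := φ) (f0 := Function.update h z (-chi (p (G.s z)) * (G.kap p T i * h i)))
    (fun e he => hK.ht.noloop hK.cub he) (erase_subset _ _)
    (fun e he => hK.bal e (mem_erase.1 he).2 (mem_erase.1 he).1) hOA hF.1.2.1 hF.2.2
    (by
      intro e h1 h2
      by_cases h3 : e = z
      · subst h3
        rw [Function.update_self]
        refine ⟨?_, ?_, ?_⟩
        · have := hle i m1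
          rw [abs_le]
          rcases hχ' with h4 | h4 <;> rw [h4] <;> omega
        · rw [hz]
          rcases hχ' with h4 | h4 <;> rcases Def6_kap p m1 with h5 | h5 <;> simp [h4, h5]
        · have h4 : ((chi (p (G.s e)) : ℤ) : ZMod 3) = chi (p (G.s e)) := by
            rcases z2 (p (G.s e)) with h1 | h1 <;> simp [h1]
          have h5 : (chi (p (G.s e)) : ZMod 3) * chi (p (G.s e)) = 1 := chi_mul_self _
          simp only [Int.cast_mul, Int.cast_neg, Def6_cast, h4]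
          unfold zv at hzv
          linear_combination -chi (p (G.s e)) * hzv + φ e * h5
      · rw [Function.update_of_ne h3]
        have h4 : e ∈ G.cut T := by
          obtain ⟨h5, h6⟩ := mem_tch.1 h1
          refine mem_cut.2 ⟨h5, fun h7 => h2 (mem_erase.2 ⟨h3, mem_ins.2 ⟨h5, ?_⟩⟩)⟩
          grind
        refine ⟨(hB e h4).2, ?_, (hφ e h4).symm⟩
        rw [← hJ e h4, ← hF.1.2.2, mem_inter]
        exact and_iff_left h4)
    (by
      rw [hsum, (hK.kapz (X := T)).1 hK.zi]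
      linear_combination hs - 2 * (G.kap p T i * h i) * hχ)
    (by
      intro X hX g hg
      rw [hsum]
      by_cases h1 : z ∈ G.ins X
      · rw [K1Lift_crs hX h1] at hg ⊢
        have h2 := K1Lift_key hK hB hs hF hJ hz kA kB hX h1 (Or.inl rfl) g
          fun e he => by simpa using hg e he
        simp only [one_mul] at h2
        rw [(hK.kapz (X := X)).1 h1]
        have h3 : 2 * chi (p (G.s z)) * (-chi (p (G.s z)) * (G.kap p T i * h i))
            = -2 * (G.kap p T i * h i) := by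
          linear_combination -2 * (G.kap p T i * h i) * hχ
        rw [h3]
        linarith
      by_cases h2 : z ∈ G.cut X
      · have h3 : chi (p (G.s z)) * (-chi (p (G.s z)) * (G.kap p T i * h i))
            = -(G.kap p T i * h i) := by
          linear_combination -(G.kap p T i * h i) * hχ
        rw [(hK.kapz (X := X)).2 h2, h3]
        have h4 : 0 ≤ ∑ e ∈ G.crs ((G.ins T).erase z) X, G.kap p X e * g e :=
          sum_nonneg fun e he => (hg e he).2.le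
        have bi := hle i m1
        have bj := hle j m2
        have bk := hle k m3
        rcases K1Lift_term (p := p) hX m1 with ⟨-, ei⟩ | ⟨-, ei⟩ <;>
          rcases K1Lift_term (p := p) hX m2 with ⟨-, ej⟩ | ⟨-, ej⟩ <;>
          rcases K1Lift_term (p := p) hX m3 with ⟨-, ek⟩ | ⟨-, ek⟩ <;>
          rw [ei, ej, ek] <;> omega
      · have hzA := K1Lift_zA hK
        have h3 : G.s z ∉ X ∧ G.t z ∉ X := by
          have a1 := mt (mem_ins (G := G) (W := X) (e := z)).2 h1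
          have a2 := mt (mem_cut (G := G) (W := X) (e := z)).2 h2
          grind
        have h4 : z ∈ G.ins (T \ X) :=
          mem_ins.2 ⟨hzA, mem_sdiff.2 ⟨hK.st.1, h3.1⟩, mem_sdiff.2 ⟨hK.st.2.1, h3.2⟩⟩
        have h5 : G.crs ((G.ins T).erase z) X = G.crs ((G.ins T).erase z) (T \ X) := by
          ext e
          simp only [mem_crs, mem_erase, mem_ins, mem_sdiff]
          grind
        have h6 : ∀ e, (G.kap p T e : ℤ) = G.kap p X e + G.kap p (T \ X) e := fun e => by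
          rw [← kap_union disjoint_sdiff, union_sdiff_of_subset hX]
        have h7 : ∀ e ∈ G.crs ((G.ins T).erase z) X,
            G.kap p X e * g e = -1 * (G.kap p (T \ X) e * g e) := by
          intro e he
          obtain ⟨a1, a2⟩ := mem_erase.1 (mem_crs.1 he).1
          have a3 := h6 e
          rw [sol1_kap_zero a2 (hK.bal e a2 a1)] at a3
          linear_combination -g e * a3
        have h8 := K1Lift_key hK hB hs hF hJ hz kA kB sdiff_subset h4 (Or.inr rfl) g (by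
          rw [← K1Lift_crs sdiff_subset h4, ← h5]
          intro e he
          rw [← h7 e he]
          exact hg e he)
        rw [← K1Lift_crs sdiff_subset h4, ← h5, ← sum_congr rfl h7] at h8
        rw [kap_out h3.1 h3.2]
        have h9 : G.kap p X i * h i + G.kap p X j * h j + G.kap p X k * h k
            = -1 * (G.kap p (T \ X) i * h i + G.kap p (T \ X) j * h j + G.kap p (T \ X) k * h k
              - 2 * (G.kap p T i * h i)) := by
          linear_combination hs - h i * h6 i - h j * h6 j - h k * h6 k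
        rw [h9]
        linarith)
  refine ext_of_av hF.2.2 (fun e he => ?_) f2 f3
  rw [f1 e, Function.update_of_ne (hzc e he)]
  intro h1
  have h2 := mem_ins.1 (mem_erase.1 h1).2
  exact (mem_cut.1 he).2 (iff_of_true h2.2.1 h2.2.2)

end SG

end Pool.Agent.Work.MP_8c679b_co
end

-- merged part: Pool.Agent.Work.MP_8c679b_co.K1.S0
section
/-!
The structure of a three-side with sides at two different terminals.
-/

set_option autoImplicit false

namespace Pool.Agent.Work.MP_8c679b_co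

open Finset

namespace SG

variable {V E : Type} [Fintype V] [DecidableEq V] [DecidableEq E] {G : SG V E}
  {T X Y : Finset V} {p : V → ZMod 2} {z i j k : E}

variable (G) in
/-- the chain `Dj, A, Di` closed by the terminal of `k` -/
structure Chn (T : Finset V) (z i j k : E) (A Di Dj : Finset V) (fi fj g g' h h' : E) : Prop where
  un : A ∪ Dj ∪ Di ∪ {G.ie T k} = T
  d1 : Disjoint A Dj
  d2 : Disjoint A Di
  d3 : Disjoint Dj Di
  d4 : G.ie T k ∉ A ∪ Dj ∪ Di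
  zi : z ∈ G.ins A
  qa : G.Q4 A g g' h h'
  qj : G.Q4 Dj j fj g g'
  qi : G.Q4 Di i fi h h'
  qk : G.Q3 {G.ie T k} k fi fj
  ne : j ≠ i ∧ j ≠ fi ∧ fj ≠ i ∧ fj ≠ fi ∧ k ≠ i ∧ k ≠ j
  n1 : ∀ e ∈ G.cut A, e ≠ i ∧ e ≠ j ∧ e ≠ k ∧ e ≠ fi ∧ e ≠ fj

omit [Fintype V] [DecidableEq V] in
theorem K1S0_side {a x : Finset E} (hx : x.card = 4) (h2 : (a ∩ x).card = 2) (hi : i ∈ x)
    (hi' : i ∉ a) : ∃ f g g', g ≠ g' ∧ i ≠ f ∧ f ∉ a ∧ g ∈ a ∧ g' ∈ a ∧
      ∀ e, e ∈ x ↔ e = i ∨ e = f ∨ e = g ∨ e = g' := by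
  have h3 := card_sdiff_add_card_inter x a
  rw [inter_comm, hx, h2] at h3
  obtain ⟨g, g', hg, e1⟩ := card_eq_two.1 h2
  obtain ⟨u, v, huv, e2⟩ := card_eq_two.1 (show (x \ a).card = 2 by omega)
  have m1 : ∀ e, e ∈ a ∧ e ∈ x ↔ e = g ∨ e = g' := fun e => by
    rw [← mem_inter, e1, mem_insert, mem_singleton]
  have m2 : ∀ e, e ∈ x ∧ e ∉ a ↔ e = u ∨ e = v := fun e => by
    rw [← mem_sdiff, e2, mem_insert, mem_singleton]
  have m3 : ∀ e, e ∈ x ↔ (e = u ∨ e = v) ∨ e = g ∨ e = g' := fun e => by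
    rw [← m1, ← m2]
    tauto
  have a1 := ((m1 g).2 (.inl rfl)).1
  have a2 := ((m1 g').2 (.inr rfl)).1
  rcases (m2 i).1 ⟨hi, hi'⟩ with rfl | rfl
  · exact ⟨v, g, g', hg, huv, ((m2 v).2 (.inr rfl)).2, a1, a2, fun e => by rw [m3, or_assoc]⟩
  · exact ⟨u, g, g', hg, huv.symm, ((m2 u).2 (.inl rfl)).2, a1, a2,
      fun e => by rw [m3, or_comm (a := e = u), or_assoc]⟩

omit [Fintype V] [DecidableEq V] in
theorem K1S0_sym {a x d : Finset E} {f g g' h h' : E} (ha : a = {g, g', h, h'})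
    (hx : ∀ e, e ∈ x ↔ e = i ∨ e = f ∨ e = g ∨ e = g') (hi : i ∉ a) (hf : f ∉ a)
    (h1 : h ∉ x) (h2 : h' ∉ x) (hd : ∀ e, e ∈ d ↔ ¬ (e ∈ x ↔ e ∈ a)) : d = {i, f, h, h'} := by
  ext e
  have h3 := hx e
  have h4 := hx h
  have h5 := hx h'
  rw [hd]
  simp only [ha, mem_insert, mem_singleton] at hi hf ⊢
  grind

omit [Fintype V] [DecidableEq V] in
theorem K1S0_four (a b c d : E) : ({a, b, c, d} : Finset E) = {c, d, a, b} := by
  grind

omit [Fintype V] in
theorem K1S0_un (X Y : Finset V) : X ∩ Y ∪ Y \ X ∪ X \ Y = X ∪ Y := by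
  grind

omit [Fintype V] [DecidableEq V] in
theorem K1S0_vtx {t d y u w : Finset E} {fi fj h h' : E} (ht : t = {i, j, k})
    (hd : d = {i, fi, h, h'}) (hy : ∀ e, e ∈ y ↔ e = j ∨ e = fj ∨ e = h ∨ e = h')
    (s3 : ∀ e, e ∈ d ↔ ¬ (e ∈ u ↔ e ∈ y)) (s4 : ∀ e, e ∈ w ↔ ¬ (e ∈ t ↔ e ∈ u))
    (t1 : fi ∉ t) (t2 : fj ∉ t) (b2 : h ≠ i ∧ h ≠ j ∧ h ≠ k ∧ h ≠ fi ∧ h ≠ fj)
    (b3 : h' ≠ i ∧ h' ≠ j ∧ h' ≠ k ∧ h' ≠ fi ∧ h' ≠ fj) (n1 : i ≠ j) (n2 : i ≠ k) (n3 : j ≠ k)
    (n4 : fj ≠ fi) : w = {k, fi, fj} := by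
  ext e
  have b1 := s3 e
  rw [hy] at b1
  rw [s4]
  simp only [ht, hd, mem_insert, mem_singleton] at t1 t2 b1 ⊢
  grind

/-- HINT: `HT.f4` for `X`, `Y` (`HT.us_card`; the union misses `ie T k`, so `HT.four` applies).
`T \ (X ∪ Y)` has three leaving edges (`Spl_card`), so it is the vertex `ie T k`.  Put
`A = X ∩ Y`, `Di = X \ Y`, `Dj = Y \ X`.  Let the two inner edges at `ie T k` go `αi` times to `Di`
and `αj` times to `Dj` (never to `A`), and the edges of `cut A` go `βi`, `βj` times to `Di`, `Dj`.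
There is no edge between `Di` and `Dj`.  The cuts of `X`, `Y`, `Di` give `αi + βj = 3`,
`αj + βi = 3`, `αi + βi = 3`, with `αi + αj = 2`.  One way to organise this: `A` is a subset of
`X` with complement `Di` (`Spl_card` gives `(cut A ∩ cut X).card = 2`), and likewise for `Y`. -/
theorem k1_chain (hK : G.KC T p z i j k) (hX : G.KB1 T i X) (hY : G.KB1 T j Y) :
    ∃ fi fj g g' h h', G.Chn T z i j k (X ∩ Y) (X \ Y) (Y \ X) fi fj g g' h h' := by
  obtain ⟨mi, mj, mk⟩ := hK.mem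
  have c3 : (G.cut T).card = 3 := card_eq_three.2 ⟨i, j, k, hK.q3.2.1, hK.q3.2.2.1, hK.q3.2.2.2,
    hK.q3.1⟩
  obtain ⟨qt, nij, nik, njk⟩ := hK.q3
  obtain ⟨i1, -, i2, -, i3, -⟩ := hX.mem
  obtain ⟨j1, -, j2, -, j3, -⟩ := hY.mem
  have zx := mem_ins.1 (hK.zin hX.1 hX.2.1.2)
  have zy := mem_ins.1 (hK.zin hY.1 hY.2.1.2)
  have hU : X ∪ Y ⊆ T := union_subset hX.1 hY.1
  have cx := hK.ht.us_card hK.cub hX.1 hX.2.1
  have cy := hK.ht.us_card hK.cub hY.1 hY.2.1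
  have w1 : G.ie T k ∉ X ∪ Y := fun h =>
    (mem_union.1 h).elim (i3 k mk nik.symm).1 (j3 k mk njk.symm).1
  have w2 : G.ie T k ∈ T \ (X ∪ Y) := mem_sdiff.2 ⟨Spl_ie mk, w1⟩
  have c1 := hK.ht.four Subset.rfl (Finset.ssubset_iff_subset_ne.2
    ⟨hU, fun h => w1 (h.symm ▸ Spl_ie mk)⟩)
    (le_trans (by omega) (card_le_card (subset_union_left (s₁ := X) (s₂ := Y))))
  obtain ⟨ca, cu, ci, cj, dd, au⟩ := hK.ht.f4 hK.cub hX.1 hY.1 hX.2.1.1 hY.2.1.1 (by omega)
    (by omega) (by omega) ⟨_, mem_inter.2 ⟨zx.2.1, zy.2.1⟩⟩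
    ⟨_, mem_sdiff.2 ⟨i2, (j3 i mi nij).1⟩⟩ ⟨_, mem_sdiff.2 ⟨j2, (i3 j mj nij.symm).1⟩⟩
  have ui := Spl_mid (subset_union_left (s₂ := Y)) hU i1 mi
  have uj := Spl_mid (subset_union_right (s₁ := X)) hU j1 mj
  have uk : k ∉ G.cut (X ∪ Y) := fun h => by
    have := cut_sub_tch h
    rw [tch_union, mem_union] at this
    exact this.elim (i3 k mk nik.symm).2 (j3 k mk njk.symm).2
  have ut : G.cut (X ∪ Y) ∩ G.cut T = {i, j} := by
    rw [qt, inter_insert_of_mem ui, inter_insert_of_mem uj, inter_singleton_of_notMem uk]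
    rfl
  have c2 := Spl_card (G := G) hU
  rw [ut, card_pair nij, c3, cu] at c2
  have ew : T \ (X ∪ Y) = {G.ie T k} := by
    rcases (hK.ht _ sdiff_subset ⟨_, w2⟩).2 (by omega) with h | h
    · obtain ⟨v, hv⟩ := card_eq_one.1 h
      rw [hv] at w2 ⊢
      rw [mem_singleton.1 w2]
    · exact absurd (mem_union_left _ i2) (mem_sdiff.1 (h.ge (hX.1 i2))).2
  have au' : ∀ e ∈ G.cut (X ∩ Y), e ∉ G.cut (X ∪ Y) := fun e h h' =>
    notMem_empty e (au ▸ mem_inter.2 ⟨h, h'⟩)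
  have dd' : ∀ e ∈ G.cut (X \ Y), e ∉ G.cut (Y \ X) := fun e h h' =>
    notMem_empty e (dd ▸ mem_inter.2 ⟨h, h'⟩)
  have c4 := Spl_card (G := G) (inter_subset_left (s₁ := X) (s₂ := Y))
  have c5 := Spl_card (G := G) (inter_subset_right (s₁ := X) (s₂ := Y))
  rw [sdiff_inter_self_left, ci, hX.2.1.1, ca] at c4
  rw [sdiff_inter_self_right, cj, hY.2.1.1, ca] at c5
  have s1 := Spl_sd (G := G) (inter_subset_left (s₁ := X) (s₂ := Y))
  have s2 := Spl_sd (G := G) (inter_subset_right (s₁ := X) (s₂ := Y))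
  have s3 := Spl_sd (G := G) (subset_union_right (s₁ := X) (s₂ := Y))
  have s4 := Spl_sd (G := G) hU
  rw [sdiff_inter_self_left] at s1
  rw [sdiff_inter_self_right] at s2
  rw [union_sdiff_right] at s3
  rw [ew] at s4
  have ia := fun h => au' i h ui
  have ja := fun h => au' j h uj
  have ka : k ∉ G.cut (X ∩ Y) := fun h =>
    uk (Spl_mid (inter_subset_left.trans subset_union_left) hU h mk)
  obtain ⟨fi, g, g', n1, n2, fa, ga, ga', mx⟩ := K1S0_side hX.2.1.1 (by omega) i1 ia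
  obtain ⟨fj, h, h', n3, n4, fa', ha, ha', my⟩ := K1S0_side hY.2.1.1 (by omega) j1 ja
  have xy : ∀ e ∈ G.cut (X ∩ Y), e ∈ G.cut X → e ∉ G.cut Y := fun e h1 h2 h3 =>
    ((s3 e).2 fun h4 => au' e h1 (h4.2 h3)) |> (s1 e).1 <| iff_of_true h2 h1
  have gy := xy g ga ((mx g).2 (by simp))
  have gy' := xy g' ga' ((mx g').2 (by simp))
  have hx := fun k => xy h ha k ((my h).2 (by simp))
  have hx' := fun k => xy h' ha' k ((my h').2 (by simp))
  have n5 : g ≠ h ∧ g ≠ h' ∧ g' ≠ h ∧ g' ≠ h' := by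
    simp only [my, not_or] at gy gy'
    exact ⟨gy.2.2.1, gy.2.2.2, gy'.2.2⟩
  have qa : G.cut (X ∩ Y) = {g, g', h, h'} := by
    refine (eq_of_subset_of_card_le (by simp [insert_subset_iff, ga, ga', ha, ha']) ?_).symm
    rw [ca, card_insert_of_notMem (by simp [n1, n5]), card_insert_of_notMem (by simp [n5]),
      card_pair n3]
  have qi := K1S0_sym qa mx ia fa hx hx' s1
  have qj := K1S0_sym (h := g) (h' := g') (g := h) (g' := h')
    (qa.trans (K1S0_four ..)) my ja fa' gy gy' s2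
  have n6 : j ≠ fi ∧ fj ≠ i ∧ fj ≠ fi := by
    have b1 := dd' i (by simp [qi])
    have b2 := dd' fi (by simp [qi])
    simp only [qj, mem_insert, not_or] at b1 b2
    exact ⟨Ne.symm b2.1, Ne.symm b1.2.1, Ne.symm b2.2.1⟩
  have t1 : fi ∉ G.cut T := fun k => n2 (mem_singleton.1
    (hX.2.2 ▸ mem_inter.2 ⟨(mx fi).2 (by simp), k⟩)).symm
  have t2 : fj ∉ G.cut T := fun k => n4 (mem_singleton.1
    (hY.2.2 ▸ mem_inter.2 ⟨(my fj).2 (by simp), k⟩)).symm
  have na : ∀ e ∈ G.cut (X ∩ Y), e ≠ i ∧ e ≠ j ∧ e ≠ k ∧ e ≠ fi ∧ e ≠ fj := fun e he =>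
    ⟨ne_of_mem_of_not_mem he ia, ne_of_mem_of_not_mem he ja, ne_of_mem_of_not_mem he ka,
      ne_of_mem_of_not_mem he fa, ne_of_mem_of_not_mem he fa'⟩
  have eu := K1S0_un X Y
  refine ⟨fi, fj, g, g', h, h', ?_, ?_, ?_, disjoint_sdiff_sdiff, eu ▸ w1,
    mem_ins.2 ⟨zx.1, mem_inter.2 ⟨zx.2.1, zy.2.1⟩, mem_inter.2 ⟨zx.2.2, zy.2.2⟩⟩,
    ⟨qa, n1, n5.1, n5.2.1, n5.2.2.1, n5.2.2.2, n3⟩,
    ⟨qj, n4, (na g ga).2.1.symm, (na g' ga').2.1.symm, (na g ga).2.2.2.2.symm,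
      (na g' ga').2.2.2.2.symm, n1⟩,
    ⟨qi, n2, (na h ha).1.symm, (na h' ha').1.symm, (na h ha).2.2.2.1.symm,
      (na h' ha').2.2.2.1.symm, n3⟩,
    ⟨?_, ne_of_mem_of_not_mem mk t1, ne_of_mem_of_not_mem mk t2, n6.2.2.symm⟩,
    ⟨nij.symm, n6.1, n6.2.1, n6.2.2, nik.symm, njk.symm⟩, na⟩
  · rw [eu, ← ew, union_sdiff_of_subset hU]
  · exact disjoint_of_subset_left inter_subset_left disjoint_sdiff
  · exact disjoint_of_subset_left inter_subset_right disjoint_sdiff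
  · exact K1S0_vtx qt qi my s3 s4 t1 t2 (na h ha) (na h' ha') nij nik njk n6.2.2

end SG

end Pool.Agent.Work.MP_8c679b_co
end

-- merged part: Pool.Agent.Work.MP_8c679b_co.K1.S1
section
/-!
Consequences of the chain structure.
-/

set_option autoImplicit false

namespace Pool.Agent.Work.MP_8c679b_co

open Finset

namespace SG

variable {V E : Type} [Fintype V] [DecidableEq V] [DecidableEq E] {G : SG V E}
  {T X Y : Finset V} {p : V → ZMod 2} {z i j k : E}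

variable {A Di Dj : Finset V} {fi fj g g' h h' : E}

theorem K1S1_l {P Q : Finset E} {e : E} (h : e ∉ Q) : e ∈ (P ∪ Q) \ (P ∩ Q) ↔ e ∈ P := by
  simp only [mem_sdiff, mem_union, mem_inter, h, or_false, and_false, not_false_eq_true, and_true]

theorem K1S1_r {P Q : Finset E} {e : E} (h : e ∉ P) : e ∈ (P ∪ Q) \ (P ∩ Q) ↔ e ∈ Q := by
  simp only [mem_sdiff, mem_union, mem_inter, h, false_or, false_and, not_false_eq_true, and_true]

theorem K1S1_cc {X1 X2 : Finset V} {e : E} (hd : Disjoint X1 X2) (h1 : e ∈ G.tch X1)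
    (h2 : e ∈ G.tch X2) : e ∈ G.cut X1 ∧ e ∈ G.cut X2 ∧
      ((G.s e ∈ X1 ∧ G.t e ∈ X2) ∨ (G.s e ∈ X2 ∧ G.t e ∈ X1)) := by
  have k1 := @disjoint_left.1 hd (G.s e)
  have k2 := @disjoint_left.1 hd (G.t e)
  rw [mem_tch] at h1 h2
  rw [mem_cut, mem_cut]
  tauto

theorem K1S1_three {X1 X2 X3 : Finset V} {e : E} (h12 : Disjoint X1 X2) (h13 : Disjoint X1 X3)
    (h23 : Disjoint X2 X3) (h1 : e ∈ G.tch X1) (h2 : e ∈ G.tch X2) : e ∉ G.tch X3 := by
  intro h3
  obtain ⟨-, -, k⟩ := K1S1_cc h12 h1 h2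
  have k1 := @disjoint_left.1 h13 (G.s e)
  have k2 := @disjoint_left.1 h13 (G.t e)
  have k3 := @disjoint_left.1 h23 (G.s e)
  have k4 := @disjoint_left.1 h23 (G.t e)
  rw [mem_tch] at h3
  (clear * - h3 k k1 k2 k3 k4; tauto)

theorem K1S1_sub (hC : G.Chn T z i j k A Di Dj fi fj g g' h h') :
    A ⊆ T ∧ Di ⊆ T ∧ Dj ⊆ T ∧ A ∪ Dj ∪ Di ⊆ T := by
  have h0 : A ∪ Dj ∪ Di ⊆ T := subset_union_left.trans hC.un.le
  exact ⟨(subset_union_left.trans subset_union_left).trans h0, subset_union_right.trans h0,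
    (subset_union_right.trans subset_union_left).trans h0, h0⟩

theorem K1S1_dw (hC : G.Chn T z i j k A Di Dj fi fj g g' h h') :
    Disjoint A {G.ie T k} ∧ Disjoint Di {G.ie T k} ∧ Disjoint Dj {G.ie T k} ∧
      Disjoint (A ∪ Dj ∪ Di) {G.ie T k} := by
  have h0 := hC.d4
  simp only [disjoint_singleton_right]
  refine ⟨fun k => h0 ?_, fun k => h0 ?_, fun k => h0 ?_, h0⟩
  exacts [mem_union_left _ (mem_union_left _ k), mem_union_right _ k,
    mem_union_left _ (mem_union_right _ k)]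

theorem K1S1_dv (hK : G.KC T p z i j k) {D : Finset V} {m f : E} (hD : D ⊆ T) (hA : A ⊆ T)
    (hz : z ∈ G.ins A) (d1 : Disjoint A D) (d2 : Disjoint A {G.ie T k})
    (d3 : Disjoint D {G.ie T k}) (hm : m ∈ G.cut T) (hmk : m ≠ k)
    (hf : f ∈ G.cut D) (hfw : f ∈ G.cut {G.ie T k}) : G.Dv D m f := by
  intro h0
  have hk := hK.mem.2.2
  have hu : G.ie D f ∈ D := ie_mem (cut_sub_tch hf)
  have hw : G.ie T k ∈ T := ie_mem (cut_sub_tch hk)
  have hne : G.ie D f ≠ G.ie T k := fun k => disjoint_singleton_right.1 d3 (k ▸ hu)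
  have ho : G.oe D f = G.ie T k := by
    rw [← (ie_link d3 hf hfw).1]
    exact mem_singleton.1 (ie_mem (cut_sub_tch hfw))
  have hadj : G.Adj G.A (G.ie D f) (G.ie T k) := ⟨f, (mem_cut.1 hf).1, ho ▸ je_ie_oe⟩
  have hp := Cut_pair (hD hu) hw
  obtain ⟨h4, -, -⟩ := hK.ht.rung' hK.cub (hD hu) hw hne hadj
  have h5 := Spl_card (G := G) hp
  have h3 := hK.t3.2.1
  have h6 : 1 < (G.cut {G.ie D f, G.ie T k} ∩ G.cut T).card := by
    refine one_lt_card.2 ⟨m, mem_inter.2 ⟨(cut_of_sub hp hm ?_).1, hm⟩, k,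
      mem_inter.2 ⟨(cut_of_sub hp hk ?_).1, hk⟩, hmk⟩
    · exact Cut_tch (mem_cut.1 hm).1 (ie_at (X := D)) (by rw [h0]; exact mem_insert_self _ _)
    · exact Cut_tch (mem_cut.1 hk).1 (ie_at (X := T)) (mem_insert_of_mem (mem_singleton_self _))
  have hin : ∀ v ∈ A, v ∈ T \ {G.ie D f, G.ie T k} := fun v hv => by
    refine mem_sdiff.2 ⟨hA hv, fun k => ?_⟩
    rcases mem_insert.1 k with k | k
    exacts [disjoint_left.1 d1 hv (k ▸ hu), disjoint_left.1 d2 hv k]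
  have h7 : 1 < (T \ {G.ie D f, G.ie T k}).card :=
    one_lt_card.2 ⟨_, hin _ (mem_ins.1 hz).2.1, _, hin _ (mem_ins.1 hz).2.2, hK.st.2.2⟩
  have h8 := hK.ht.four Subset.rfl (sdiff_ssubset hp (insert_nonempty _ _)) h7
  omega

theorem Chn.swapg (hC : G.Chn T z i j k A Di Dj fi fj g g' h h') :
    G.Chn T z i j k A Di Dj fi fj g' g h h' := by
  refine ⟨hC.un, hC.d1, hC.d2, hC.d3, hC.d4, hC.zi, hC.qa.swap1, hC.qj.swap2, hC.qi, hC.qk, hC.ne,
    hC.n1⟩

theorem Chn.swaph (hC : G.Chn T z i j k A Di Dj fi fj g g' h h') :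
    G.Chn T z i j k A Di Dj fi fj g g' h' h := by
  refine ⟨hC.un, hC.d1, hC.d2, hC.d3, hC.d4, hC.zi, hC.qa.swap2, hC.qj, hC.qi.swap2, hC.qk, hC.ne,
    hC.n1⟩

/-- The terminals are not adjacent to the last terminal.  HINT: otherwise `{ie T j, ie T k}` is a
rung (`HT.rung'`) whose complement in `T` has three leaving edges (`Spl_card`) and contains the
two ends of `z`. -/
theorem Chn.dv (hK : G.KC T p z i j k) (hC : G.Chn T z i j k A Di Dj fi fj g g' h h') :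
    G.Dv Dj j fj ∧ G.Dv Di i fi := by
  obtain ⟨s1, s2, s3, -⟩ := K1S1_sub hC
  obtain ⟨w1, w2, w3, -⟩ := K1S1_dw hC
  obtain ⟨-, q2, q3⟩ := AX3_mem hC.qk
  exact ⟨K1S1_dv hK s3 s1 hC.zi hC.d1 w1 w3 hK.mem.2.1 hC.ne.2.2.2.2.2.symm hC.qj.mem.2.1 q3,
    K1S1_dv hK s2 s1 hC.zi hC.d2 w1 w2 hK.mem.1 hC.ne.2.2.2.2.1.symm hC.qi.mem.2.1 q2⟩

/-- the inner edges of the chain are consistent and the parts are balanced -/
theorem Chn.sw (hK : G.KC T p z i j k) (hC : G.Chn T z i j k A Di Dj fi fj g g' h h') :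
    (A ⊆ T ∧ Di ⊆ T ∧ Dj ⊆ T) ∧ (∀ e ∈ G.ins Di, G.sw p e = 0) ∧ (∀ e ∈ G.ins Dj, G.sw p e = 0) ∧
      (∀ e ∈ G.cut A, G.sw p e = 0) ∧ G.sw p fi = 0 ∧ G.sw p fj = 0 := by
  obtain ⟨s1, s2, s3, -⟩ := K1S1_sub hC
  obtain ⟨w1, w2, w3, -⟩ := K1S1_dw hC
  obtain ⟨-, q2, q3⟩ := AX3_mem hC.qk
  have hw : {G.ie T k} ⊆ T := singleton_subset_iff.2 (ie_mem (cut_sub_tch hK.mem.2.2))
  have hz : ∀ D : Finset V, Disjoint A D → z ∉ G.tch D := fun D hd k =>
    not_ins_of_cut (K1S1_cc hd (ins_sub_tch hC.zi) k).1 hC.zi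
  have hf : ∀ (D : Finset V) (f : E), D ⊆ T → Disjoint D {G.ie T k} → f ∈ G.cut D →
      f ∈ G.cut {G.ie T k} → G.sw p f = 0 := fun D f k1 k2 k3 k4 =>
    hK.bal f (ins_mono (union_subset k1 hw) (ie_link k2 k3 k4).2) fun k5 =>
      hz _ w1 (k5 ▸ cut_sub_tch k4)
  refine ⟨⟨s1, s2, s3⟩, hK.bal' s2 fun k => hz _ hC.d2 (ins_sub_tch k),
    hK.bal' s3 fun k => hz _ hC.d1 (ins_sub_tch k), fun e he => ?_,
    hf _ _ s2 w2 hC.qi.mem.2.1 q2, hf _ _ s3 w3 hC.qj.mem.2.1 q3⟩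
  obtain ⟨n1, n2, n3, -⟩ := hC.n1 e he
  refine hK.bal e ((mem_tch_iff.1 (tch_mono s1 (cut_sub_tch he))).resolve_right fun k => ?_)
    fun k => not_ins_of_cut he (k ▸ hC.zi)
  rcases hK.cases k with k | k | k
  exacts [n1 k, n2 k, n3 k]

/-- Gluing the four parts.  HINT: three times `Fil.union`. -/
theorem Chn.glue (hK : G.KC T p z i j k)
    (hC : G.Chn T z i j k A Di Dj fi fj g g' h h') {ψ φ1 φ2 φ3 φ4 : E → ZMod 3}
    {J1 J2 J3 J4 O1 O2 O3 O4 : Finset E} {K : Set (Finset E)} (h1 : G.Fil A J1 K ψ O1 φ1)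
    (h2 : G.Fil Dj J2 ∅ ψ O2 φ2) (h3 : G.Fil Di J3 ∅ ψ O3 φ3)
    (h4 : G.Fil {G.ie T k} J4 ∅ ψ O4 φ4) (c1 : ∀ e, e = g ∨ e = g' → (e ∈ J1 ↔ e ∈ J2))
    (c2 : ∀ e, e = h ∨ e = h' → (e ∈ J1 ↔ e ∈ J3)) (c3 : fj ∈ J2 ↔ fj ∈ J4)
    (c4 : fi ∈ J3 ↔ fi ∈ J4) (c5 : j ∈ J2) (c6 : i ∈ J3) (c7 : k ∉ J4) :
    ∃ O φ, G.Fil T {i, j} K ψ O φ ∧ (∀ e ∈ G.tch A, e ∈ O ↔ e ∈ O1) ∧ (fj ∈ O ↔ fj ∈ J4) ∧
      φ fj = ψ fj := by
  obtain ⟨s1, s2, s3, s4⟩ := K1S1_sub hC
  obtain ⟨w1, w2, w3, w4⟩ := K1S1_dw hC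
  obtain ⟨q1, q2, q3⟩ := AX3_mem hC.qk
  obtain ⟨e1, e2, e3, e4, e5, e6⟩ := hC.ne
  obtain ⟨a1, a2, a3, a4⟩ := hC.qa.mem
  have j1 : J1 ⊆ G.cut A := h1.1.2.2 ▸ inter_subset_right
  have j2 : J2 ⊆ G.cut Dj := h2.1.2.2 ▸ inter_subset_right
  have j3 : J3 ⊆ G.cut Di := h3.1.2.2 ▸ inter_subset_right
  have j4 : J4 ⊆ G.cut {G.ie T k} := h4.1.2.2 ▸ inter_subset_right
  have mj : ∀ e ∈ G.cut Dj, e = j ∨ e = fj ∨ e = g ∨ e = g' := fun e he => by
    simpa only [hC.qj.1, mem_insert, mem_singleton] using he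
  have mi : ∀ e ∈ G.cut Di, e = i ∨ e = fi ∨ e = h ∨ e = h' := fun e he => by
    simpa only [hC.qi.1, mem_insert, mem_singleton] using he
  have mk : ∀ e ∈ G.cut {G.ie T k}, e = k ∨ e = fi ∨ e = fj := fun e he => by
    simpa only [hC.qk.1, mem_insert, mem_singleton] using he
  have mj' : ∀ e ∈ G.cut Dj, e ∉ G.cut A → e = j ∨ e = fj := fun e he hn => by
    rcases mj e he with k | k | k | k
    exacts [Or.inl k, Or.inr k, absurd (k ▸ a1) hn, absurd (k ▸ a2) hn]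
  have mi' : ∀ e ∈ G.cut Di, e ∉ G.cut A → e = i ∨ e = fi := fun e he hn => by
    rcases mi e he with k | k | k | k
    exacts [Or.inl k, Or.inr k, absurd (k ▸ a3) hn, absurd (k ▸ a4) hn]
  have nA : i ∉ G.cut A ∧ j ∉ G.cut A ∧ fi ∉ G.cut A ∧ fj ∉ G.cut A :=
    ⟨fun k => (hC.n1 _ k).1 rfl, fun k => (hC.n1 _ k).2.1 rfl, fun k => (hC.n1 _ k).2.2.2.1 rfl,
      fun k => (hC.n1 _ k).2.2.2.2 rfl⟩
  have nj : i ∉ G.cut Dj ∧ fi ∉ G.cut Dj :=
    ⟨fun k => (mj' _ k nA.1).elim e1.symm e3.symm,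
      fun k => (mj' _ k nA.2.2.1).elim e2.symm e4.symm⟩
  have ni : j ∉ G.cut Di ∧ fj ∉ G.cut Di :=
    ⟨fun k => (mi' _ k nA.2.1).elim e1 e2, fun k => (mi' _ k nA.2.2.2).elim e3 e4⟩
  have nk : k ∉ G.tch (A ∪ Dj ∪ Di) := fun k0 => by
    have k1 := (cut_of_sub s4 hK.mem.2.2 k0).2
    exact hC.d4 (k1 ▸ ie_mem k0)
  have nw : i ∉ G.cut {G.ie T k} ∧ j ∉ G.cut {G.ie T k} :=
    ⟨fun k0 => (mk _ k0).elim e5.symm fun k1 => k1.elim hC.qi.2.1 e3.symm,
      fun k0 => (mk _ k0).elim e6.symm fun k1 => k1.elim e2 hC.qj.2.1⟩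
  obtain ⟨ψ1, f1, u1, -, -⟩ := h1.union h2 hC.d1 fun e k1 k2 => by
    obtain ⟨k3, k4, -⟩ := K1S1_cc hC.d1 k1 k2
    obtain ⟨-, n2, -, -, n5⟩ := hC.n1 e k3
    exact c1 e (((mj e k4).resolve_left n2).resolve_left n5)
  obtain ⟨ψ2, f2, u2, -, -⟩ := f1.union h3 (disjoint_union_left.2 ⟨hC.d2, hC.d3⟩) fun e k1 k2 => by
    rw [tch_union, mem_union] at k1
    rcases k1 with k1 | k1
    · obtain ⟨k3, k4, -⟩ := K1S1_cc hC.d2 k1 k2
      obtain ⟨n1, -, -, n4, -⟩ := hC.n1 e k3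
      have k5 := c2 e (((mi e k4).resolve_left n1).resolve_left n4)
      exact (K1S1_l fun k => K1S1_three hC.d2 hC.d1 hC.d3.symm k1 k2 (cut_sub_tch (j2 k))).trans k5
    · obtain ⟨k3, k4, -⟩ := K1S1_cc hC.d3 k1 k2
      have k5 : e ∉ G.cut A := fun k =>
        K1S1_three hC.d3 hC.d1.symm hC.d2.symm k1 k2 (cut_sub_tch k)
      rcases mj' e k3 k5 with rfl | rfl
      exacts [absurd k4 ni.1, absurd k4 ni.2]
  obtain ⟨ψ3, f3, u3, u4, -⟩ := f2.union h4 w4 fun e k1 k2 => by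
    rcases mk e (K1S1_cc w4 k1 k2).2.1 with rfl | rfl | rfl
    · exact absurd k1 nk
    · have k3 : e ∉ J1 := fun k => nA.2.2.1 (j1 k)
      exact (K1S1_r fun k => nj.2 (j2 ((K1S1_r k3).1 k))).trans c4
    · have k3 : e ∉ J1 := fun k => nA.2.2.2 (j1 k)
      exact ((K1S1_l fun k => ni.2 (j3 k)).trans (K1S1_r k3)).trans c3
  rw [hC.un] at f3
  have hJ : ((((J1 ∪ J2) \ (J1 ∩ J2) ∪ J3) \ ((J1 ∪ J2) \ (J1 ∩ J2) ∩ J3)) ∪ J4) \
      ((((J1 ∪ J2) \ (J1 ∩ J2) ∪ J3) \ ((J1 ∪ J2) \ (J1 ∩ J2) ∩ J3)) ∩ J4) = {i, j} := by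
    refine Subset.antisymm (fun e he => ?_) (insert_subset ?_ (singleton_subset_iff.2 ?_))
    · have k1 : e ∈ G.cut T := (mem_inter.1 (f3.1.2.2.ge he)).2
      rcases hK.cases k1 with rfl | rfl | rfl
      · exact mem_insert_self _ _
      · exact mem_insert_of_mem (mem_singleton_self _)
      · rw [tch_union, tch_union, mem_union, mem_union, not_or, not_or] at nk
        rw [K1S1_l c7, K1S1_l fun k => nk.2 (cut_sub_tch (j3 k)),
          K1S1_l fun k => nk.1.2 (cut_sub_tch (j2 k))] at he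
        exact absurd (cut_sub_tch (j1 he)) nk.1.1
    · have k1 : i ∉ J1 := fun k => nA.1 (j1 k)
      exact (K1S1_l fun k => nw.1 (j4 k)).2
        ((K1S1_r fun k => nj.1 (j2 ((K1S1_r k1).1 k))).2 c6)
    · have k1 : j ∉ J1 := fun k => nA.2.1 (j1 k)
      exact (K1S1_l fun k => nw.2 (j4 k)).2
        ((K1S1_l fun k => ni.1 (j3 k)).2 ((K1S1_r k1).2 c5))
  rw [hJ] at f3
  obtain ⟨v1, v2⟩ := u4 fj (cut_sub_tch q3)
  refine ⟨_, ψ3, f3.mono fun t ht => Or.inl (Or.inl (Or.inl ht)), fun e he => ?_, ?_, ?_⟩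
  · have k1 := tch_mono (subset_union_left (s₂ := Dj)) he
    exact ((u3 e (tch_mono subset_union_left k1)).2.trans (u2 e k1).2).trans (u1 e he).2
  · rw [v2, ← h4.1.2.2, mem_inter]
    exact ⟨fun k => ⟨k, q3⟩, fun k => k.1⟩
  · exact v1.trans (h4.2.1 fj (not_ins_of_cut q3))

/-- every side with the terminal of `j` is left by `fj`.  HINT: `k1_chain` for `X` and `Z`
shows `X ∪ Z = T \ {ie T k}`, so `Y \ X ⊆ Z`; `kap` depends only on which ends lie in the set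
(`Ab_kap`). -/
theorem Chn.cutj (hK : G.KC T p z i j k) (hX : G.KB1 T i X)
    (hC : G.Chn T z i j k (X ∩ Y) (X \ Y) (Y \ X) fi fj g g' h h') {Z : Finset V}
    (hZ : G.KB1 T j Z) :
    fj ∈ G.cut Z ∧ (G.kap p Z fj : ZMod 3) = G.kap p (Y \ X) fj := by
  obtain ⟨_, _, _, _, _, _, hC'⟩ := k1_chain hK hX hZ
  obtain ⟨-, -, s3, -⟩ := K1S1_sub hC
  obtain ⟨-, -, w3, -⟩ := K1S1_dw hC
  have q3 := (AX3_mem hC.qk).2.2
  have hw : G.ie T k ∉ Z := fun k0 => hC'.d4 (by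
    simp only [mem_union, mem_inter, mem_sdiff]
    tauto)
  have hu : ∀ v ∈ Y \ X, v ∈ Z := fun v hv => by
    have k1 := hC'.un.ge (s3 hv)
    have k2 := disjoint_left.1 w3 hv
    have k3 := (mem_sdiff.1 hv).2
    simp only [mem_union, mem_inter, mem_sdiff] at k1
    tauto
  have hw' := disjoint_singleton_right.1 w3
  obtain ⟨-, -, ⟨k1, k2⟩ | ⟨k2, k1⟩⟩ := K1S1_cc w3 (cut_sub_tch hC.qj.mem.2.1) (cut_sub_tch q3)
  · rw [mem_singleton] at k2
    have k3 := hu _ k1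
    rw [← k2] at hw hw'
    exact ⟨mem_cut.2 ⟨(mem_cut.1 q3).1, by tauto⟩, Ab_kap p (by tauto) (by tauto)⟩
  · rw [mem_singleton] at k2
    have k3 := hu _ k1
    rw [← k2] at hw hw'
    exact ⟨mem_cut.2 ⟨(mem_cut.1 q3).1, by tauto⟩, Ab_kap p (by tauto) (by tauto)⟩

end SG

end Pool.Agent.Work.MP_8c679b_co
end

-- merged part: Pool.Agent.Work.MP_8c679b_co.K1.S3
section
/-!
The chain case with a rung in the middle.
-/

set_option autoImplicit false

namespace Pool.Agent.Work.MP_8c679b_co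

open Finset

namespace SG

variable {V E : Type} [Fintype V] [DecidableEq V] [DecidableEq E] {G : SG V E}
  {T X Y A Di Dj : Finset V} {p : V → ZMod 2} {z i j k fi fj g g' h h' : E} {ψ : E → ZMod 3}

theorem K1S3_q3 (hc : G.Cub) (hT : G.HT T) {x : V} (hx : x ∈ T) {a b c : E} (ha : a ∈ G.cut {x})
    (hb : b ∈ G.cut {x}) (hc' : c ∈ G.cut {x}) (h1 : a ≠ b) (h2 : a ≠ c) (h3 : b ≠ c) :
    G.Q3 {x} a b c := by
  refine ⟨(eq_of_subset_of_card_le ?_ ?_).symm, h1, h2, h3⟩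
  · simp only [insert_subset_iff, singleton_subset_iff]
    exact ⟨ha, hb, hc'⟩
  · rw [(hT.vtx hc hx).1, card_eq_three.2 ⟨a, b, c, h1, h2, h3, rfl⟩]

theorem K1S3_shape (hK : G.KC T p z i j k) (hC : G.Chn T z i j k A Di Dj fi fj g g' h h')
    {u v : V} (hA : A = {u, v}) (e1 : G.ie A g = u) (e2 : G.ie A g' = v)
    (e3 : G.ie A h = u) (e4 : G.ie A h' = v) : G.Q3 {u} g z h ∧ G.Q3 {v} z h' g' := by
  have hs := (hC.sw hK).1.1
  obtain ⟨m1, m2, m3, m4⟩ := hC.qa.mem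
  obtain ⟨-, n1, n2, n3, n4, n5, n6⟩ := hC.qa
  obtain ⟨z1, z2, z3⟩ := mem_ins.1 hC.zi
  have z4 := hK.st.2.2
  have hz : ∀ e ∈ G.cut A, e ≠ z := fun e he k => (mem_cut.1 he).2 (by rw [k]; exact iff_of_true z2 z3)
  have hu : u ∈ T := hs (hA ▸ mem_insert_self _ _)
  have hv : v ∈ T := hs (hA ▸ mem_insert_of_mem (mem_singleton_self _))
  have ha : G.At z u ∧ G.At z v := by
    rw [hA, mem_insert, mem_singleton] at z2 z3
    rcases z2 with k1 | k1 <;> rcases z3 with k2 | k2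
    exacts [absurd (k1.trans k2.symm) z4, ⟨Or.inl k1, Or.inr k2⟩, ⟨Or.inr k2, Or.inl k1⟩,
      absurd (k1.trans k2.symm) z4]
  exact ⟨K1S3_q3 hK.cub hK.ht hu (mem_inter.1 (Cut_ie m1 e1)).1 ((mem_cut_single z4).2 ⟨z1, ha.1⟩)
      (mem_inter.1 (Cut_ie m3 e3)).1 (hz g m1) n2 (hz h m3).symm,
    K1S3_q3 hK.cub hK.ht hv ((mem_cut_single z4).2 ⟨z1, ha.2⟩) (mem_inter.1 (Cut_ie m4 e4)).1
      (mem_inter.1 (Cut_ie m2 e2)).1 (hz h' m4).symm (hz g' m2).symm n5.symm⟩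

theorem K1S3_dv (hK : G.KC T p z i j k) (hC : G.Chn T z i j k A Di Dj fi fj g g' h h') :
    G.Dv A g g' := by
  obtain ⟨s1, -, s3⟩ := (hC.sw hK).1
  obtain ⟨m1, m2, -, -⟩ := hC.qa.mem
  obtain ⟨-, -, m3, m4⟩ := hC.qj.mem
  have e1 := (ie_link hC.d1.symm m3 m1).1
  have e2 := (ie_link hC.d1.symm m4 m2).1
  have a1 : G.ie A g ∈ A := ie_mem (cut_sub_tch m1)
  rw [Dv, e1, e2]
  refine hK.ht.oe_ne hK.cub s3 hC.qj.card m3 m4 hC.qa.2.1 (e1 ▸ s1 a1) fun k => hC.d4 ?_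
  have a2 := k.ge (ie_mem (cut_sub_tch hK.mem.2.2))
  rw [← e1, mem_insert] at a2
  rw [mem_union, mem_union]
  exact Or.inl (a2.imp (fun k' => by rw [k']; exact a1) id)

theorem K1S3_shape2 (hK : G.KC T p z i j k) (hC : G.Chn T z i j k A Di Dj fi fj g g' h h')
    (h2 : A.card ≤ 2) : ∃ h h' u v, G.Chn T z i j k A Di Dj fi fj g g' h h' ∧
      u ≠ v ∧ A = {u, v} ∧ G.Q3 {u} g z h ∧ G.Q3 {v} z h' g' := by
  have d1 := K1S3_dv hK hC
  have d2 : G.ie A h ≠ G.ie A h' := hK.ht.dv_flip hK.cub (hC.sw hK).1.1 hC.qa.flip d1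
  obtain ⟨m1, m2, m3, m4⟩ := hC.qa.mem
  have hA : A = {G.ie A g, G.ie A g'} := by
    refine (eq_of_subset_of_card_le ?_ (h2.trans (card_pair d1).ge)).symm
    simp only [insert_subset_iff, singleton_subset_iff]
    exact ⟨ie_mem (cut_sub_tch m1), ie_mem (cut_sub_tch m2)⟩
  have a3 : G.ie A h ∈ ({G.ie A g, G.ie A g'} : Finset V) := hA ▸ ie_mem (cut_sub_tch m3)
  have a4 : G.ie A h' ∈ ({G.ie A g, G.ie A g'} : Finset V) := hA ▸ ie_mem (cut_sub_tch m4)
  rw [mem_insert, mem_singleton] at a3 a4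
  rcases a3 with k1 | k1 <;> rcases a4 with k2 | k2
  · exact absurd (k1.trans k2.symm) d2
  · exact ⟨h, h', _, _, hC, d1, hA, K1S3_shape hK hC hA rfl rfl k1 k2⟩
  · exact ⟨h', h, _, _, hC.swaph, d1, hA, K1S3_shape hK hC.swaph hA rfl rfl k2 k1⟩
  · exact absurd (k1.trans k2.symm) d2

/-- The shape of a middle part that is a rung.
HINT: `A = {s z, t z}`, `ins A = {z}` (`HT.rung`).  If `g, g'` had the same end `u` in `A`, then
`insert u Dj` would have the three leaving edges `j, fj, z`.  So `Dv A g g'`, and each vertex of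
`A` carries one of `g, g'` and one of `h, h'`.  Not both `g` and `g'` end at `ie Dj j` (otherwise
`Dj` without this vertex has only the leaving edge `fj`, or `Dj` is a single vertex).  Rename with
`Chn.swapg`, `Chn.swaph`. -/
theorem Chn.shape (hK : G.KC T p z i j k) (hC : G.Chn T z i j k A Di Dj fi fj g g' h h')
    (h2 : A.card ≤ 2) : ∃ g g' h h' u v, G.Chn T z i j k A Di Dj fi fj g g' h h' ∧ G.Dv Dj j g ∧
      u ≠ v ∧ A = {u, v} ∧ G.Q3 {u} g z h ∧ G.Q3 {v} z h' g' := by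
  have d : G.ie Dj g ≠ G.ie Dj g' :=
    hK.ht.dv_flip hK.cub (hC.sw hK).1.2.2 hC.qj.flip (hC.dv hK).1
  by_cases k : G.ie Dj j = G.ie Dj g
  · obtain ⟨h, h', u, v, a1, a2⟩ := K1S3_shape2 hK hC.swapg h2
    exact ⟨g', g, h, h', u, v, a1, fun k' => d (k.symm.trans k'), a2⟩
  · obtain ⟨h, h', u, v, a1, a2⟩ := K1S3_shape2 hK hC h2
    exact ⟨g, g', h, h', u, v, a1, k, a2⟩

/-- The middle part is a rung.  Write `Hm = kap p T m * ψ m`.
HINT: `Chn.shape`.  Prescribe `ψ'`: `ψ` on `i, j, k`; outflow `Hk` at `ie T k` through `fi` and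
`fj`; `zv = -Hi`; outflows from `A`: `Hj` through `g`, `Hk` through `h`, `-Hk` through `g'`,
`Hk + Hi` through `h'` (a value `kap * x` has outflow `x`, `kap_sq`).  `fil_vtx` for `u` with
`J = {g, z}`, for `v` with `J = {z, h'}` (`KC.kapz`, `kap_sub`), `Fil.union` gives `A` with
`J = {g, h'}`; `k1_bp` for `Dj` (edges `j, g, fj, g'`) and for `Di` (edges `i, h', fi, h`, second
alternative: both outflows are `-Hk`); `fil_vtx` for `ie T k` with `J = ∅`; `Chn.glue`,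
`Fil.congr`. -/
theorem Chn.rung (hK : G.KC T p z i j k) (hC : G.Chn T z i j k A Di Dj fi fj g g' h h')
    (h2 : A.card ≤ 2) (n1 : ψ k ≠ 0)
    (hs : G.kap p T j * ψ j + G.kap p T k * ψ k = G.kap p T i * ψ i) :
    ∃ O φ, G.Fil T {i, j} ∅ ψ O φ ∧ z ∈ O ∧ fj ∉ O := by
  obtain ⟨g, g', h, h', u, v, hC, dv, huv, hA, qu, qv⟩ := hC.shape hK h2
  obtain ⟨⟨s1, s2, s3⟩, w1, w2, w3, w4, w5⟩ := hC.sw hK
  obtain ⟨mg, mg', mh, mh'⟩ := hC.qa.mem
  obtain ⟨mj, mfj, jg, jg'⟩ := hC.qj.mem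
  obtain ⟨mi, mfi, ih, ih'⟩ := hC.qi.mem
  obtain ⟨ti, tj, tk⟩ := hK.mem
  obtain ⟨z1, z2, z3⟩ := mem_ins.1 hC.zi
  have hx : G.ie T k ∈ T := ie_mem (cut_sub_tch tk)
  have d4 := hC.d4
  rw [mem_union, mem_union, not_or, not_or] at d4
  have dj : Disjoint {G.ie T k} Dj := disjoint_singleton_left.2 d4.1.2
  have di : Disjoint {G.ie T k} Di := disjoint_singleton_left.2 d4.2
  have xk : k ∈ G.cut {G.ie T k} := hC.qk.1 ▸ by simp
  have xi : fi ∈ G.cut {G.ie T k} := hC.qk.1 ▸ by simp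
  have xj : fj ∈ G.cut {G.ie T k} := hC.qk.1 ▸ by simp
  have zT : ∀ e ∈ G.cut T, e ≠ z := fun e he k =>
    (mem_cut.1 he).2 (by rw [k]; exact iff_of_true (s1 z2) (s1 z3))
  have zx : ∀ e ∈ G.cut {G.ie T k}, e ≠ z := fun e he k' => (mem_cut.1 he).2 (by
    rw [k', mem_singleton, mem_singleton]
    exact iff_of_false (fun k => d4.1.1 (k ▸ z2)) fun k => d4.1.1 (k ▸ z3))
  have uA : ({u} : Finset V) ⊆ A := hA ▸ by simp
  have vA : ({v} : Finset V) ⊆ A := hA ▸ by simp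
  have hu : u ∈ T := s1 (uA (mem_singleton_self _))
  have hv : v ∈ T := s1 (vA (mem_singleton_self _))
  have ug : g ∈ G.cut {u} := qu.1 ▸ by simp
  have uz : z ∈ G.cut {u} := qu.1 ▸ by simp
  have uh : h ∈ G.cut {u} := qu.1 ▸ by simp
  have vz : z ∈ G.cut {v} := qv.1 ▸ by simp
  have vh : h' ∈ G.cut {v} := qv.1 ▸ by simp
  have vg : g' ∈ G.cut {v} := qv.1 ▸ by simp
  obtain ⟨-, n01, n02, n03, n04, n05, n06⟩ := hC.qa
  obtain ⟨g1, g2, g3, g4, g5⟩ := hC.n1 g mg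
  obtain ⟨g6, g7, g8, g9, g10⟩ := hC.n1 g' mg'
  obtain ⟨h1, h2, h3, h4, h5⟩ := hC.n1 h mh
  obtain ⟨h6, h7, h8, h9, h10⟩ := hC.n1 h' mh'
  obtain ⟨-, k1, k2, k3⟩ := hC.qk
  obtain ⟨-, k4, k5, -, -, -⟩ := hC.ne
  have k6 := hC.qi.2.1
  have k7 := hC.qj.2.1
  have y1 := qu.2.1
  have y2 := qu.2.2.2
  have y3 := qv.2.1
  have y4 := qv.2.2.1
  have y5 := zT i ti
  have y6 := zT j tj
  have y7 := zT k tk
  have y8 := zx fi xi
  have y9 := zx fj xj
  generalize hi : G.kap p T i * ψ i = Hi at hs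
  generalize hj : G.kap p T j * ψ j = Hj at hs
  have nk := (kap_ne3 (p := p) tk).2 n1
  generalize hk : G.kap p T k * ψ k = Hk at hs nk
  obtain ⟨χ, ci, cj, ck, cfi, cfj, cz, cg, ch, cg', ch'⟩ : ∃ χ : E → ZMod 3, χ i = ψ i ∧
      χ j = ψ j ∧ χ k = ψ k ∧ χ fi = G.kap p {G.ie T k} fi * Hk ∧
      χ fj = G.kap p {G.ie T k} fj * Hk ∧ χ z = chi (p (G.s z)) * -Hi ∧
      χ g = G.kap p A g * Hj ∧ χ h = G.kap p A h * Hk ∧ χ g' = G.kap p A g' * -Hk ∧
      χ h' = G.kap p A h' * (Hk + Hi) := by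
    refine ⟨fun e => if e = fi then G.kap p {G.ie T k} fi * Hk else if e = fj then
      G.kap p {G.ie T k} fj * Hk else if e = z then chi (p (G.s z)) * -Hi else if e = g then
      G.kap p A g * Hj else if e = h then G.kap p A h * Hk else if e = g' then
      G.kap p A g' * -Hk else if e = h' then G.kap p A h' * (Hk + Hi) else ψ e,
      ?_, ?_, ?_, ?_, ?_, ?_, ?_, ?_, ?_, ?_⟩
    · simp only [if_neg k6, if_neg k5.symm, if_neg y5, if_neg g1.symm, if_neg h1.symm,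
        if_neg g6.symm, if_neg h6.symm]
    · simp only [if_neg k4, if_neg k7, if_neg y6, if_neg g2.symm, if_neg h2.symm,
        if_neg g7.symm, if_neg h7.symm]
    · simp only [if_neg k1, if_neg k2, if_neg y7, if_neg g3.symm, if_neg h3.symm,
        if_neg g8.symm, if_neg h8.symm]
    · simp only [if_true]
    · simp only [if_neg k3.symm, if_true]
    · simp only [if_neg y8.symm, if_neg y9.symm, if_true]
    · simp only [if_neg g4, if_neg g5, if_neg y1, if_true]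
    · simp only [if_neg h4, if_neg h5, if_neg y2.symm, if_neg n02.symm, if_true]
    · simp only [if_neg g9, if_neg g10, if_neg y4.symm, if_neg n01.symm, if_neg n04, if_true]
    · simp only [if_neg h9, if_neg h10, if_neg y3.symm, if_neg n03.symm, if_neg n06.symm,
        if_neg n05.symm, if_true]
  have out : ∀ {X : Finset V} {e : E} {x : ZMod 3}, e ∈ G.cut X → χ e = G.kap p X e * x →
      G.kap p X e * χ e = x := fun he hx => by rw [hx, ← mul_assoc, kap_sq he, one_mul]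
  have og := out mg cg
  have oh := out mh ch
  have og' := out mg' cg'
  have oh' := out mh' ch'
  have ofi := out xi cfi
  have ofj := out xj cfj
  have oz : (chi (p (G.s z)) : ZMod 3) * χ z = -Hi := by
    rw [cz, ← mul_assoc, chi_mul_self, one_mul]
  have nh : χ h ≠ 0 := (kap_ne3 (p := p) mh).1 (oh ▸ nk)
  have ng' : χ g' ≠ 0 := (kap_ne3 (p := p) mg').1 (og' ▸ neg_ne_zero.2 nk)
  have nfi : χ fi ≠ 0 := (kap_ne3 (p := p) xi).1 (ofi ▸ nk)
  have nfj : χ fj ≠ 0 := (kap_ne3 (p := p) xj).1 (ofj ▸ nk)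
  have three : Hk + Hk + Hk = 0 := (by decide : ∀ x : ZMod 3, x + x + x = 0) Hk
  have F1 : G.Fil {u} {g, z} ∅ χ {g, z} χ := by
    refine fil_vtx (p := p) hK.cub hK.ht hu ?_ (by rw [card_pair y1]; decide) ?_ fun e he ne => ?_
    · simp only [insert_subset_iff, singleton_subset_iff]
      exact ⟨ug, uz⟩
    · rw [tw_q3 qu, kap_sub uA mg (cut_sub_tch ug), kap_sub uA mh (cut_sub_tch uh),
        hK.kapz.2 uz, og, oh, oz]
      linear_combination hs
    · rw [qu.1] at he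
      simp only [mem_insert, mem_singleton, not_or] at he ne
      rcases he with k | k | k
      exacts [absurd k ne.1, absurd k ne.2, k ▸ nh]
  have F2 : G.Fil {v} {z, h'} ∅ χ {z, h'} χ := by
    refine fil_vtx (p := p) hK.cub hK.ht hv ?_ (by rw [card_pair y3]; decide) ?_ fun e he ne => ?_
    · simp only [insert_subset_iff, singleton_subset_iff]
      exact ⟨vz, vh⟩
    · rw [tw_q3 qv, kap_sub vA mg' (cut_sub_tch vg), kap_sub vA mh' (cut_sub_tch vh),
        hK.kapz.2 vz, og', oh', oz]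
      ring
    · rw [qv.1] at he
      simp only [mem_insert, mem_singleton, not_or] at he ne
      rcases he with k | k | k
      exacts [absurd k ne.1, absurd k ne.2, k ▸ ng']
  obtain ⟨φ1, F3, -⟩ := F1.union F2 (disjoint_singleton.2 huv) fun e e1 e2 => by
    rw [(hK.ht.vtx hK.cub hu).2.2, qu.1] at e1
    rw [(hK.ht.vtx hK.cub hv).2.2, qv.1] at e2
    simp only [mem_insert, mem_singleton] at e1 e2 ⊢
    rcases e1 with rfl | rfl | rfl
    · exact absurd e2 (by simp [y1, n03, n01])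
    · simp
    · exact absurd e2 (by simp [y2.symm, n06, n04.symm])
  rw [← insert_eq, ← hA, Set.union_empty] at F3
  obtain ⟨O2, φ2, F4⟩ := k1_bp (ψ := χ) hK.cub hK.ht s3 hC.qj.mid w2 nfj ng' (by
    rw [tw_q4 hC.qj.mid, kap_sub s3 tj (cut_sub_tch mj), kap_link hC.d1 mg jg (w3 g mg),
      kap_link hC.d1 mg' jg' (w3 g' mg'), kap_link dj xj mfj w5, neg_mul, neg_mul, neg_mul, og,
      og', ofj, cj, hj]
    ring) (Or.inl dv)
  obtain ⟨O3, φ3, F5⟩ := k1_bp (ψ := χ) hK.cub hK.ht s2 hC.qi.swap2.mid w1 nfi nh (by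
    rw [tw_q4 hC.qi.swap2.mid, kap_sub s2 ti (cut_sub_tch mi), kap_link hC.d2 mh ih (w3 h mh),
      kap_link hC.d2 mh' ih' (w3 h' mh'), kap_link di xi mfi w4, neg_mul, neg_mul, neg_mul, oh,
      oh', ofi, ci, hi]
    linear_combination -three) (Or.inr (by
    rw [kap_link hC.d2 mh ih (w3 h mh), kap_link di xi mfi w4, neg_mul, neg_mul, oh, ofi]))
  have F6 : G.Fil {G.ie T k} ∅ ∅ χ ∅ χ := by
    refine fil_vtx (p := p) hK.cub hK.ht hx (empty_subset _) (by simp) ?_ fun e he _ => ?_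
    · rw [tw_q3 hC.qk, kap_sub (singleton_subset_iff.2 hx) tk (cut_sub_tch xk), ofi, ofj, ck, hk]
      linear_combination three
    · rw [hC.qk.1] at he
      simp only [mem_insert, mem_singleton] at he
      rcases he with k | k | k
      exacts [k ▸ ck ▸ n1, k ▸ nfi, k ▸ nfj]
  obtain ⟨O, φ, F7, a1, a2, -⟩ := hC.glue hK F3 F4 F5 F6
    (by rintro e (rfl | rfl) <;> simp [y1, n03, n01.symm, y4.symm, n05, g7])
    (by rintro e (rfl | rfl) <;> simp [y2.symm, n02.symm, n06, h1, y3.symm, n03.symm])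
    (by simp [k7.symm, g5.symm]) (by simp [k6.symm, h9.symm]) (by simp) (by simp) (by simp)
  obtain ⟨φ', F8, -⟩ := F7.congr (ψ' := ψ) fun e he => by
    rcases hK.cases he with rfl | rfl | rfl
    exacts [ci, cj, ck]
  exact ⟨O, φ', F8, (a1 z (ins_sub_tch hC.zi)).2 (by simp), fun k => by simpa using a2.1 k⟩

end SG

end Pool.Agent.Work.MP_8c679b_co
end

-- merged part: Pool.Agent.Work.MP_8c679b_co.K1.S2
section
/-!
The chain case: the values at `i` and `j` are odd.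
-/

set_option autoImplicit false

namespace Pool.Agent.Work.MP_8c679b_co

open Finset

namespace SG

variable {V E : Type} [Fintype V] [DecidableEq V] [DecidableEq E] {G : SG V E}
  {T X Y A Di Dj : Finset V} {p : V → ZMod 2} {z i j k fi fj g g' h h' : E} {ψ : E → ZMod 3}

theorem K1S2_z3 : ∀ x y : ZMod 3, y ≠ 0 → -(x + (- -x + -y)) ≠ x := by decide

theorem K1S2_k3 {x : ℤ} (h0 : x ≠ 0) (h5 : |x| ≤ 5) (he : ¬ Odd x) : (x : ZMod 3) ≠ 0 := by
  intro h
  have h1 := (ZMod.intCast_zmod_eq_zero_iff_dvd x 3).1 h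
  have h2 := abs_le.1 h5
  rw [Int.odd_iff] at he
  omega

/-- The middle part is unbalanced.  Write `Hm = kap p T m * ψ m`.
HINT: `tpw` for `W = A` with the dead edge `g`, `zv p z φ = -Hi`, and `kap p A g * φ g = -Hj` if
`Hj ≠ 0` (any nonzero value otherwise).  Let `ψ'` be `φ` on `tch A`, `ψ` on `i, j, k`, and on `fj`,
`fi` the values that make `tw p Dj ψ' = 0 = tw p Di ψ'`.  `fil_self` for `A`, `k1_bp` for `Dj`
(edges `j, fj, g, g'`) and `Di`, `fil_vtx` for `ie T k` with `J = {fi, fj}`: its switched sum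
vanishes by `KC.cons` for `A`, `kap_link`, `kap_sub`, `tw_q3`, `tw_q4`.  `Chn.glue`, `Fil.congr`.
Finally `kap p Dj fj * φ fj = -Hj + kap p A g * φ g + kap p A g' * φ g'`, which equals
`Hj + kap p A g' * φ g' ≠ Hj`. -/
theorem Chn.unb (hK : G.KC T p z i j k) (hC : G.Chn T z i j k A Di Dj fi fj g g' h h')
    (hu : ¬ G.Bal (G.ins A)) (n1 : ψ k ≠ 0)
    (hs : G.kap p T j * ψ j + G.kap p T k * ψ k = G.kap p T i * ψ i) :
    ∃ O φ, G.Fil T {i, j} (G.Kus A) ψ O φ ∧ z ∈ O ∧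
      (ψ j ≠ 0 → G.kap p Dj fj * φ fj ≠ G.kap p T j * ψ j) := by
  obtain ⟨⟨sA, sI, sJ⟩, bI, bJ, bA, bi, bj⟩ := hC.sw hK
  have xT : G.ie T k ∈ T := ie_mem (cut_sub_tch hK.mem.2.2)
  have xn := hC.d4
  simp only [mem_union, not_or] at xn
  obtain ⟨a1, a2, a3, a4⟩ := hC.qa.mem
  obtain ⟨j1, j2, j3, j4⟩ := hC.qj.mem
  obtain ⟨i1, i2, i3, i4⟩ := hC.qi.mem
  have k1 : k ∈ G.cut {G.ie T k} := by rw [hC.qk.1]; simp
  have k2 : fi ∈ G.cut {G.ie T k} := by rw [hC.qk.1]; simp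
  have k3 : fj ∈ G.cut {G.ie T k} := by rw [hC.qk.1]; simp
  have dA : Disjoint A {G.ie T k} := disjoint_singleton_right.2 xn.1.1
  have dJ : Disjoint Dj {G.ie T k} := disjoint_singleton_right.2 xn.1.2
  have dI : Disjoint Di {G.ie T k} := disjoint_singleton_right.2 xn.2
  have nj : j ∉ G.tch A := fun t => (hC.n1 j (Ab_link hC.d1 t (cut_sub_tch j1)).1).2.1 rfl
  have nfj : fj ∉ G.tch A := fun t => (hC.n1 fj (Ab_link hC.d1 t (cut_sub_tch j2)).1).2.2.2.2 rfl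
  have ni : i ∉ G.tch A := fun t => (hC.n1 i (Ab_link hC.d2 t (cut_sub_tch i1)).1).1 rfl
  have nfi : fi ∉ G.tch A := fun t => (hC.n1 fi (Ab_link hC.d2 t (cut_sub_tch i2)).1).2.2.2.1 rfl
  have nk : k ∉ G.tch A := fun t => (hC.n1 k (Ab_link dA t (cut_sub_tch k1)).1).2.2.1 rfl
  obtain ⟨δ, δ0, δ1⟩ : ∃ δ : ZMod 3, δ ≠ 0 ∧
      (ψ j ≠ 0 → G.kap p A g * δ = -(G.kap p T j * ψ j)) := by
    by_cases c : ψ j = 0
    · exact ⟨1, one_ne_zero, fun c' => absurd c c'⟩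
    · have e : G.kap p A g * (G.kap p A g * -(G.kap p T j * ψ j)) = -(G.kap p T j * ψ j) := by
        rw [← mul_assoc, kap_sq a1, one_mul]
      refine ⟨_, fun c' => ?_, fun _ => e⟩
      rw [c', mul_zero] at e
      exact (kap_ne3 hK.mem.2.1).2 c (neg_eq_zero.1 e.symm)
  obtain ⟨O1, φ1, s1, z1, l1, v1, v2⟩ := tpw hK (W := A) ⟨sA, fun t => xn.1.1 (t xT)⟩ hu
    (not_ins_of_cut a1) (-(chi (p (G.s z)) * (G.kap p T i * ψ i))) δ0
  obtain ⟨ψ', p1, p2, p3, p4⟩ : ∃ ψ' : E → ZMod 3, (∀ e ∈ G.tch A, ψ' e = φ1 e) ∧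
      ψ' fj = G.kap p Dj fj * -(G.kap p Dj j * ψ j + (G.kap p Dj g * φ1 g + G.kap p Dj g' * φ1 g')) ∧
      ψ' fi = G.kap p Di fi * -(G.kap p Di i * ψ i + (G.kap p Di h * φ1 h + G.kap p Di h' * φ1 h')) ∧
      ∀ e, e ∉ G.tch A → e ≠ fj → e ≠ fi → ψ' e = ψ e :=
    ⟨fun e => if e ∈ G.tch A then φ1 e else if e = fj then _ else if e = fi then _ else ψ e,
      fun e he => if_pos he, (if_neg nfj).trans (if_pos rfl),
      (if_neg nfi).trans ((if_neg hC.ne.2.2.2.1.symm).trans (if_pos rfl)),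
      fun e h1 h2 h3 => (if_neg h1).trans ((if_neg h2).trans (if_neg h3))⟩
  have qj := p4 j nj hC.qj.2.1 hC.ne.2.1
  have qi := p4 i ni hC.ne.2.2.1.symm hC.qi.2.1
  have qk := p4 k nk hC.qk.2.2.1 hC.qk.2.1
  have nz : ∀ e ∈ G.cut A, φ1 e ≠ 0 := fun e he => l1.2.1 e (cut_sub_tch he) fun t =>
    notMem_empty e (s1.2.2 ▸ mem_inter.2 ⟨t, he⟩)
  have pc : ∀ e ∈ G.cut A, ψ' e = φ1 e := fun e he => p1 e (cut_sub_tch he)
  have ej : G.kap p Dj fj * ψ' fj =
      -(G.kap p Dj j * ψ j + (G.kap p Dj g * φ1 g + G.kap p Dj g' * φ1 g')) := by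
    rw [p2, ← mul_assoc, kap_sq j2, one_mul]
  have ei : G.kap p Di fi * ψ' fi =
      -(G.kap p Di i * ψ i + (G.kap p Di h * φ1 h + G.kap p Di h' * φ1 h')) := by
    rw [p3, ← mul_assoc, kap_sq i2, one_mul]
  obtain ⟨O2, φ2, f2⟩ := k1_bp (ψ := ψ') hK.cub hK.ht sJ hC.qj bJ (pc g a1 ▸ nz g a1)
    (pc g' a2 ▸ nz g' a2) (by rw [tw_q4 hC.qj, ej, qj, pc g a1, pc g' a2]; ring)
    (Or.inl (hC.dv hK).1)
  obtain ⟨O3, φ3, f3⟩ := k1_bp (ψ := ψ') hK.cub hK.ht sI hC.qi bI (pc h a3 ▸ nz h a3)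
    (pc h' a4 ▸ nz h' a4) (by rw [tw_q4 hC.qi, ei, qi, pc h a3, pc h' a4]; ring)
    (Or.inl (hC.dv hK).2)
  rw [kap_sub sJ hK.mem.2.1 (cut_sub_tch j1), kap_link hC.d1 a1 j3 (bA g a1),
    kap_link hC.d1 a2 j4 (bA g' a2)] at ej
  rw [kap_sub sI hK.mem.1 (cut_sub_tch i1), kap_link hC.d2 a3 i3 (bA h a3),
    kap_link hC.d2 a4 i4 (bA h' a4)] at ei
  have co := (hK.cons sA l1.1).1 hC.zi
  rw [tw_q4 hC.qa, zv, v1] at co
  have f4 := fil_vtx (p := p) (ψ := ψ') (J := {fi, fj}) hK.cub hK.ht xT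
    (insert_subset k2 (singleton_subset_iff.2 k3)) (by rw [card_pair hC.qk.2.2.2]; exact even_two)
    (by
      rw [tw_q3 hC.qk, qk, kap_sub (singleton_subset_iff.2 xT) hK.mem.2.2 (cut_sub_tch k1),
        kap_link dI i2 k2 bi, kap_link dJ j2 k3 bj]
      linear_combination hs - ei - ej - co -
        2 * (G.kap p T i * ψ i) * chi_mul_self (R := ZMod 3) (p (G.s z)))
    (fun e he he' => by
      rw [hC.qk.1] at he
      rw [(mem_insert.1 he).resolve_right he', qk]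
      exact n1)
  obtain ⟨-, -, b1, b2, b3, b4, -⟩ := hC.qj
  obtain ⟨-, -, b5, b6, b7, b8, -⟩ := hC.qi
  obtain ⟨O, φ, f, o1, -, o2⟩ := hC.glue hK (fil_self s1 l1 p1) f2 f3 f4
    (by rintro e (rfl | rfl) <;> simp [b1.symm, b2.symm, b3.symm, b4.symm])
    (by rintro e (rfl | rfl) <;> simp [b5.symm, b6.symm, b7.symm, b8.symm])
    (by simp) (by simp) (by simp) (by simp) (by simp [hC.qk.2.1, hC.qk.2.2.1])
  obtain ⟨φ', f', o3⟩ := f.congr (ψ' := ψ) fun e he => by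
    rcases hK.cases he with rfl | rfl | rfl
    exacts [qi, qj, qk]
  refine ⟨O, φ', f', (o1 z (mem_tch.2 ⟨(mem_ins.1 hC.zi).1, Or.inl (mem_ins.1 hC.zi).2.1⟩)).2 z1,
    fun c => ?_⟩
  rw [o3 fj (tch_mono sJ (cut_sub_tch j2)), o2, ej, neg_mul, neg_mul, v2, δ1 c]
  exact K1S2_z3 _ _ ((kap_ne3 a2).2 (nz g' a2))

/-- HINT: enlarge `X`, `Y` to the largest sides (`KC.maxB`), `k1_chain`.  Every side without
terminal lies in `A = X ∩ Y` (`KC.subB`).  If `2 < A.card` then `A` is unbalanced (`KC.us`):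
`Chn.unb`, `Chn.cutj`; otherwise `Chn.rung`, and there is no side without terminal
(`HT.us_card`).  `lift1`; `h k` is even. -/
theorem k1_two (hK : G.KC T p z i j k) {u : E → ℤ} (hB : G.Bv T u)
    (hs : G.kap p T j * u j + G.kap p T k * u k = G.kap p T i * u i) (hi : Odd (u i))
    (hj : Odd (u j)) (hX : G.KB1 T i X) (hY : G.KB1 T j Y) : G.Ext T u := by
  obtain ⟨X, hX, mX⟩ := hK.maxB hX
  obtain ⟨Y, hY, mY⟩ := hK.maxB hY
  obtain ⟨fi, fj, g, g', h, h', hC⟩ := k1_chain hK hX hY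
  obtain ⟨m1, m2, m3⟩ := hK.mem
  have hk : ¬ Odd (u k) := by
    rw [Int.odd_iff] at hi hj ⊢
    rcases Def6_kap p m1 with e1 | e1 <;> rcases Def6_kap p m2 with e2 | e2 <;>
      rcases Def6_kap p m3 with e3 | e3 <;> rw [e1, e2, e3] at hs <;> omega
  have n1 := K1S2_k3 (hB k m3).1 (hB k m3).2 hk
  have hs' : G.kap p T j * (u j : ZMod 3) + G.kap p T k * (u k : ZMod 3) =
      G.kap p T i * (u i : ZMod 3) := by
    have := congrArg (Int.cast : ℤ → ZMod 3) hs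
    simpa only [Int.cast_add, Int.cast_mul, Def6_cast] using this
  have hJ : ∀ e ∈ G.cut T, e ∈ ({i, j} : Finset E) ↔ Odd (u e) := fun e he => by
    rcases hK.cases he with rfl | rfl | rfl
    · simpa using hi
    · simpa using hj
    · simpa [hC.ne.2.2.2.2.1, hC.ne.2.2.2.2.2] using hk
  have sub : ∀ Z, G.KA T Z → Z ⊆ X ∩ Y := fun Z hZ =>
    subset_inter (hK.subB hX mX hZ) (hK.subB hY mY hZ)
  have nk : |u k| ≠ 1 := fun e => hk (odd_abs.1 (e ▸ odd_one))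
  rcases lt_or_ge 2 (X ∩ Y).card with c | c
  · obtain ⟨O, φ, f, o1, o2⟩ := hC.unb (ψ := fun e => (u e : ZMod 3)) hK
      (hK.us (hC.sw hK).1.1 hC.zi hC.qa.card c).2 n1 hs'
    refine lift1 hK hB hs (f.mono (Set.empty_subset _)) hJ (iff_of_true o1 hi)
      (fun _ Z hZ => ?_) fun m hm e1 _ _ Z hZ => ?_
    · obtain ⟨e, h1, -, h2⟩ := f.2.2.2.2 _ ⟨Z, sub Z hZ, hZ.2.1, rfl⟩
      exact ⟨e, h1, h2⟩
    · obtain rfl | rfl := hm
      · obtain ⟨h1, h2⟩ := hC.cutj hK hX hZ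
        refine ⟨fj, h1, hC.qj.2.1.symm, Or.inr (Or.inr ⟨hi, h2 ▸ o2 fun t => ?_⟩)⟩
        have := (ZMod.intCast_zmod_eq_zero_iff_dvd _ 3).1 t
        rcases (abs_eq zero_le_one).1 e1 with e | e <;> omega
      · exact absurd e1 nk
  · obtain ⟨O, φ, f, o1, o2⟩ := hC.rung (ψ := fun e => (u e : ZMod 3)) hK c n1 hs'
    refine lift1 hK hB hs f hJ (iff_of_true o1 hi) (fun _ Z hZ => ?_) fun m hm e1 _ _ Z hZ => ?_
    · have h1 := hK.ht.us_card hK.cub hZ.1 hZ.2.1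
      have h2 := card_le_card (sub Z hZ)
      omega
    · obtain rfl | rfl := hm
      · exact ⟨fj, (hC.cutj hK hX hZ).1, hC.qj.2.1.symm, Or.inl o2⟩
      · exact absurd e1 nk

end SG

end Pool.Agent.Work.MP_8c679b_co
end

-- merged part: Pool.Agent.Work.MP_8c679b_co.K1.Ev
section
/-!
All values even, with a side at the terminal of `i`.
-/

set_option autoImplicit false

namespace Pool.Agent.Work.MP_8c679b_co

open Finset

namespace SG

variable {V E : Type} [Fintype V] [DecidableEq V] [DecidableEq E] {G : SG V E}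
  {T X : Finset V} {p : V → ZMod 2} {z i j k a b c : E} {ψ : E → ZMod 3}

/-- a two-edge-connected set stays connected after deleting an edge -/
theorem K1Ev_cn {W : Finset V} (h : G.Two W (G.ins W)) : G.Cn W ((G.ins W).erase z) := by
  classical
  intro x hx y hy
  by_contra k0
  obtain ⟨e, he, hez⟩ := exists_mem_ne (lt_of_lt_of_le one_lt_two
    (h (W.filter (G.Rch ((G.ins W).erase z) x))
    (filter_subset _ _) ⟨x, mem_filter.2 ⟨hx, Rch.refl _ _⟩⟩
    fun k1 => k0 (mem_filter.1 (k1.symm ▸ hy : y ∈ W.filter (G.Rch ((G.ins W).erase z) x))).2)) z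
  obtain ⟨h1, h2⟩ := mem_crs.1 he
  obtain ⟨-, h3, h4⟩ := mem_ins.1 h1
  have h5 : e ∈ (G.ins W).erase z := mem_erase.2 ⟨hez, h1⟩
  exact h2 ⟨fun k1 => mem_filter.2 ⟨h4, (mem_filter.1 k1).2.trans (rch_edge h5)⟩,
    fun k1 => mem_filter.2 ⟨h3, (mem_filter.1 k1).2.trans (rch_edge h5).symm⟩⟩

/-- the given values with the required value at `z` -/
theorem K1Ev_upd (hiz : i ≠ z) (r : ZMod 3) :
    ∃ ψ' : E → ZMod 3, ψ' i = ψ i ∧ G.zv p z ψ' = r := by
  refine ⟨Function.update ψ z (chi (p (G.s z)) * r), Function.update_of_ne hiz _ _, ?_⟩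
  rw [zv, Function.update_self, ← mul_assoc, chi_mul_self, one_mul]

/-- The obstruction: a subset `K` of `X` with the cut `{c, g, i, z}`.
HINT: `k1_sw` for `K` (balanced by `KC.bal'`; `Dv K i z` by `KC.ni`; `KC.kapz`) with `ψ` updated at
`z`.  `X \ K` has the cut `{a, b, z, g}` (`Spl_sd`; `g = a` or `g = b` would leave only two edges); choose the value at `b` so that its switched
sum vanishes; `k1_bp` (`HT.f2` for `X`, `cut_of_sub`); `fil_self`, `Fil.union`. -/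
theorem k1_evK (hK : G.KC T p z i j k) (hX : G.KB1 T i X) (hq : G.Q4 X a b i c) {K : Finset V}
    {g : E} (hKX : K ⊆ X) (hk : G.Q4 K c g i z) (n1 : ψ i ≠ 0) :
    ∃ O φ, G.St X O {a, b} ∧ z ∉ O ∧ G.Sl X O ∅ φ ∧ φ i = ψ i ∧
      G.zv p z φ = -(G.kap p T i * ψ i) := by
  have hc := hK.cub
  have hT := hK.ht
  have hXT := hX.1
  have hKT := hKX.trans hXT
  have zX : z ∈ G.ins X := hK.zin hXT hX.2.1.2
  obtain ⟨cK, gK, iK, zK⟩ := hk.mem
  obtain ⟨aX, bX, iX, cX⟩ := hq.mem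
  have hab : a ≠ b := hq.2.1
  have hai : a ≠ i := hq.2.2.1
  have hac : a ≠ c := hq.2.2.2.1
  have hbi : b ≠ i := hq.2.2.2.2.1
  have hbc : b ≠ c := hq.2.2.2.2.2.1
  have hcg : c ≠ g := hk.2.1
  have hgi : g ≠ i := hk.2.2.2.2.1
  have hgz : g ≠ z := hk.2.2.2.2.2.1
  have hiz : i ≠ z := hk.2.2.2.2.2.2
  have zn : z ∉ G.cut X := fun k0 => not_ins_of_cut k0 zX
  have haz : a ≠ z := fun k0 => zn (k0 ▸ aX)
  have hbz : b ≠ z := fun k0 => zn (k0 ▸ bX)
  have iT := hK.mem.1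
  have hp : ∀ e ∈ G.ins K, G.sw p e = 0 := hK.bal' hKT (not_ins_of_cut zK)
  have ieK : G.ie K i = G.ie T i := (cut_of_sub hKT iT (cut_sub_tch iK)).2
  have hv : G.Dv K i z := fun k0 => hK.ni (by rw [← ieK, k0]; exact ie_at)
  obtain ⟨ψ', e1, e2⟩ := K1Ev_upd (G := G) (p := p) (ψ := ψ) hiz (-(G.kap p T i * ψ i))
  have ho : G.kap p K i * ψ' i = -(G.kap p K z * ψ' z) := by
    rw [kap_sub hKT iT (cut_sub_tch iK), hK.kapz.2 zK, e1]
    have := e2
    rw [zv] at this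
    rw [this, neg_neg]
  obtain ⟨O1, φ1, s1, l1, f1, f2⟩ := k1_sw hc hT hKT hk hp hv (e1 ▸ n1) ho
  have hDT : X \ K ⊆ T := sdiff_subset.trans hXT
  have zD : z ∈ G.cut (X \ K) := (Spl_sd hKX z).2 fun k0 => zn (k0.2 zK)
  have hD : ∀ e, e ∈ G.cut (X \ K) ↔
      ¬ ((e = a ∨ e = b ∨ e = i ∨ e = c) ↔ (e = c ∨ e = g ∨ e = i ∨ e = z)) := by
    intro e
    rw [Spl_sd hKX, Spl_mem hq, Spl_mem hk]
  have h3 : 3 ≤ (G.cut (X \ K)).card := hT.mono3 hDT ⟨_, ie_mem (cut_sub_tch zD)⟩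
  have hga : g ≠ a := by
    rintro rfl
    have : G.cut (X \ K) ⊆ {b, z} := by
      intro e he
      rw [hD] at he
      rw [mem_insert, mem_singleton]
      (clear * - he; tauto)
    have := (card_le_card this).trans card_le_two
    omega
  have hgb : g ≠ b := by
    rintro rfl
    have : G.cut (X \ K) ⊆ {a, z} := by
      intro e he
      rw [hD] at he
      rw [mem_insert, mem_singleton]
      (clear * - he; tauto)
    have := (card_le_card this).trans card_le_two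
    omega
  have aK : a ∉ G.cut K := by
    rw [Spl_mem hk]
    rintro (k0 | k0 | k0 | k0)
    exacts [hac k0, hga k0.symm, hai k0, haz k0]
  have bK : b ∉ G.cut K := by
    rw [Spl_mem hk]
    rintro (k0 | k0 | k0 | k0)
    exacts [hbc k0, hgb k0.symm, hbi k0, hbz k0]
  have gX : g ∉ G.cut X := by
    rw [Spl_mem hq]
    rintro (k0 | k0 | k0 | k0)
    exacts [hga k0, hgb k0, hgi k0, hcg k0.symm]
  have aD : a ∈ G.cut (X \ K) := (Spl_sd hKX a).2 fun k0 => aK (k0.1 aX)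
  have bD : b ∈ G.cut (X \ K) := (Spl_sd hKX b).2 fun k0 => bK (k0.1 bX)
  have gD : g ∈ G.cut (X \ K) := (Spl_sd hKX g).2 fun k0 => gX (k0.2 gK)
  have hqD : G.Q4 (X \ K) a b z g := by
    refine ⟨?_, hab, haz, hga.symm, hbz, hgb.symm, hgz.symm⟩
    ext e
    simp only [mem_insert, mem_singleton]
    refine ⟨fun he => ?_, ?_⟩
    · rw [hD] at he
      (clear * - he; tauto)
    · rintro (rfl | rfl | rfl | rfl)
      exacts [aD, bD, zD, gD]
  have hpD : ∀ e ∈ G.ins (X \ K), G.sw p e = 0 := hK.bal' hDT (not_ins_of_cut zD)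
  have aT : a ∉ G.tch K := fun k0 => aK (cut_of_sub hKX aX k0).1
  have bT : b ∉ G.tch K := fun k0 => bK (cut_of_sub hKX bX k0).1
  have hO : ∀ e ∈ G.cut K, e ∉ O1 := fun e he k0 => not_ins_of_cut he (s1.sub_ins k0)
  obtain ⟨ψ2, g1, g2⟩ : ∃ ψ2 : E → ZMod 3, (∀ e, e ≠ b → ψ2 e = φ1 e) ∧
      G.tw p (X \ K) ψ2 = 0 := by
    refine ⟨Function.update φ1 b (-(G.kap p (X \ K) b * (G.kap p (X \ K) a * φ1 a +
      (G.kap p (X \ K) z * φ1 z + G.kap p (X \ K) g * φ1 g)))),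
      fun e he => Function.update_of_ne he _ _, ?_⟩
    rw [tw_q4 hqD, Function.update_self, Function.update_of_ne hab,
      Function.update_of_ne hbz.symm, Function.update_of_ne hgb]
    have := kap_sq (R := ZMod 3) (p := p) bD
    linear_combination (-(G.kap p (X \ K) a * φ1 a +
      (G.kap p (X \ K) z * φ1 z + G.kap p (X \ K) g * φ1 g))) * this
  have hvD : G.Dv (X \ K) a b := by
    have := hT.f2 hc hXT hq.card (lt_of_lt_of_le (by norm_num) (hT.us_card hc hXT hX.2.1)) aX bX hab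
    unfold Dv at this ⊢
    rwa [(cut_of_sub sdiff_subset aX (cut_sub_tch aD)).2,
      (cut_of_sub sdiff_subset bX (cut_sub_tch bD)).2]
  obtain ⟨O2, φ2, F2⟩ := k1_bp (ψ := ψ2) hc hT hDT hqD hpD
    (by rw [g1 z hbz.symm]; exact l1.2.1 z (cut_sub_tch zK) (hO z zK))
    (by rw [g1 g hgb]; exact l1.2.1 g (cut_sub_tch gK) (hO g gK)) g2 (Or.inl hvD)
  have F1 : G.Fil K ∅ ∅ ψ2 O1 ψ2 := fil_self s1 l1 fun e he => g1 e fun k0 => bT (k0 ▸ he)
  obtain ⟨φ, F, u1, -, -⟩ := F1.union F2 disjoint_sdiff (by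
    intro e he _
    simp only [notMem_empty, mem_insert, mem_singleton, false_iff]
    rintro (rfl | rfl)
    exacts [aT he, bT he])
  rw [union_sdiff_of_subset hKX, empty_union, empty_inter, sdiff_empty, Set.empty_union] at F
  refine ⟨O1 ∪ O2, φ, F.1, fun k0 => hO z zK ((u1 z (cut_sub_tch zK)).2.1 k0), F.2.2, ?_, ?_⟩
  · rw [(u1 i (cut_sub_tch iK)).1, g1 i hbi.symm, f1, e1]
  · rw [← e2, zv, zv, (u1 z (cut_sub_tch zK)).1, g1 z hbz.symm, f2]

/-- HINT: if some `K ⊆ X` has a cut `{c, g, i, z}` use `k1_evK`.  Otherwise `path3'` with `Y = X`,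
`L = {c}`, `x1 = i`, `x2 = x3 = z`, marked vertices `ie X i`, `s z`, `t z`, and `ψ` updated at `z`.
`HT.f3`, `HT.f2` (`HT.us_card`); a set with two marked vertices has at least four leaving edges,
which are crossing edges or `i, z, c`. -/
theorem k1_evX (hK : G.KC T p z i j k) (hX : G.KB1 T i X) (hq : G.Q4 X a b i c) (n1 : ψ i ≠ 0) :
    ∃ O φ, G.St X O {a, b} ∧ z ∉ O ∧ G.Sl X O ∅ φ ∧ φ i = ψ i ∧
      G.zv p z φ = -(G.kap p T i * ψ i) := by
  by_cases hex : ∃ K ⊆ X, ∃ g, G.Q4 K c g i z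
  · obtain ⟨K, hKX, g, hk⟩ := hex
    exact k1_evK hK hX hq hKX hk n1
  have hc := hK.cub
  have hT := hK.ht
  have hXT := hX.1
  have zX : z ∈ G.ins X := hK.zin hXT hX.2.1.2
  obtain ⟨aX, bX, iX, cX⟩ := hq.mem
  have hab : a ≠ b := hq.2.1
  have hac : a ≠ c := hq.2.2.2.1
  have hbi : b ≠ i := hq.2.2.2.2.1
  have hic : i ≠ c := hq.2.2.2.2.2.2
  have zn : z ∉ G.cut X := fun k0 => not_ins_of_cut k0 zX
  have hiz : i ≠ z := fun k0 => zn (k0 ▸ iX)
  have hbz : b ≠ z := fun k0 => zn (k0 ▸ bX)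
  have hcz : c ≠ z := fun k0 => zn (k0 ▸ cX)
  have iT := hK.mem.1
  have h2X : 2 < X.card := lt_of_lt_of_le (by norm_num) (hT.us_card hc hXT hX.2.1)
  have ieX : G.ie X i = G.ie T i := hX.mem.2.2.2.1
  have d12 : G.ie X i ≠ G.s z := fun k0 => hK.ni (Or.inl (k0.symm.trans ieX))
  have d13 : G.ie X i ≠ G.t z := fun k0 => hK.ni (Or.inr (k0.symm.trans ieX))
  have d23 : G.s z ≠ G.t z := hK.st.2.2
  obtain ⟨ψ', e1, e2⟩ := K1Ev_upd (G := G) (p := p) (ψ := ψ) hiz (-(G.kap p T i * ψ i))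
  have nz : ψ' z ≠ 0 := by
    rw [← zv_ne (G := G) (p := p), e2]
    exact neg_ne_zero.2 ((kap_ne3 iT).2 n1)
  have hcs : ∀ e ∈ G.tch X, e ∉ (G.ins X).erase z →
      e = z ∨ e = a ∨ e = b ∨ e = i ∨ e = c := by
    intro e he hn
    rcases mem_tch_iff.1 he with k0 | k0
    · exact Or.inl (by_contra fun k1 => hn (mem_erase.2 ⟨k1, k0⟩))
    · exact Or.inr ((Spl_mem hq e).1 k0)
  obtain ⟨O, φ, s1, s2, s3, s4⟩ := path3' (ψ := ψ') (p := p) (z := z) (x1 := i) (x2 := z)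
    (x3 := z) hc hT hXT aX bX (hT.f2 hc hXT hq.card h2X aX bX hab) (L := {c})
    (singleton_subset_iff.2 cX) (notMem_singleton.2 hac) (ie_mem (cut_sub_tch iX))
    (mem_ins.1 zX).2.1 (mem_ins.1 zX).2.2
    (by
      intro e he hn
      rcases hcs e he hn with k0 | k0 | k0 | k0 | k0
      · refine Or.inr (Or.inr (Or.inr fun y _ hy => Or.inr ?_))
        rw [k0] at hy
        exact hy.imp (fun k1 => ⟨k0, k1.symm⟩) fun k1 => ⟨k0, k1.symm⟩
      · exact Or.inl k0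
      · exact Or.inr (Or.inl k0)
      · refine Or.inr (Or.inr (Or.inr fun y hy hy' => Or.inl ⟨k0, ?_⟩))
        rw [k0] at hy'
        exact eq_ie iX hy hy'
      · exact Or.inr (Or.inr (Or.inl (mem_singleton.2 k0))))
    (K1Ev_cn (hT.f3 hXT hq.card h2X) _ (ie_mem (cut_sub_tch aX)) _ (ie_mem (cut_sub_tch bX)))
    (by
      intro K hKX ka kb hm
      by_contra k0
      have h2K : 2 ≤ K.card := by
        rcases hm with k1 | k1 | k1
        · exact one_lt_card.2 ⟨_, k1.1, _, k1.2, d12⟩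
        · exact one_lt_card.2 ⟨_, k1.1, _, k1.2, d13⟩
        · exact one_lt_card.2 ⟨_, k1.1, _, k1.2, d23⟩
      have h4K := hT.four' hXT hq.card hKX h2K
      have hsub : G.cut K ⊆ G.crs ((G.ins X).erase z) K ∪ {i, z, c} := by
        intro e he
        have he' := cut_sub_tch he
        rw [mem_union, mem_insert, mem_insert, mem_singleton]
        by_cases k1 : e ∈ (G.ins X).erase z
        · exact Or.inl (mem_crs.2 ⟨k1, (mem_cut.1 he).2⟩)
        · rcases hcs e (tch_mono hKX he') k1 with k2 | k2 | k2 | k2 | k2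
          · exact Or.inr (Or.inr (Or.inl k2))
          · rw [k2] at he'
            exact absurd ((cut_of_sub hKX aX he').2 ▸ ie_mem he') ka
          · rw [k2] at he'
            exact absurd ((cut_of_sub hKX bX he').2 ▸ ie_mem he') kb
          · exact Or.inr (Or.inl k2)
          · exact Or.inr (Or.inr (Or.inr k2))
      have hcd : (G.crs ((G.ins X).erase z) K ∪ {i, z, c}).card ≤ 4 := by
        have k1 := card_union_le (G.crs ((G.ins X).erase z) K) {i, z, c}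
        have k2 : ({i, z, c} : Finset E).card ≤ 3 := card_le_three
        omega
      have heq := eq_of_subset_of_card_le hsub (hcd.trans h4K)
      have h4 : (G.cut K).card = 4 := le_antisymm ((card_le_card hsub).trans hcd) h4K
      have mi : i ∈ G.cut K := by
        rw [heq]
        simp
      have mz : z ∈ G.cut K := by
        rw [heq]
        simp
      have mc : c ∈ G.cut K := by
        rw [heq]
        simp
      obtain ⟨x, y, hk⟩ := exists_q4 h4 mc mi hic.symm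
      rcases (Spl_mem hk z).1 mz with k1 | k1 | k1 | k1
      · exact hcz k1.symm
      · exact hiz k1.symm
      · rw [← k1] at hk
        exact hex ⟨K, hKX, y, hk.swap2.mid⟩
      · rw [← k1] at hk
        exact hex ⟨K, hKX, x, hk.mid⟩)
    (fun e he => hK.bal e (ins_mono hXT he))
    (by
      intro e he hn k1 k2 k3
      rcases hcs e he hn with k0 | k0 | k0 | k0 | k0
      · rwa [k0]
      · exact absurd k0 k1
      · exact absurd k0 k2
      · rwa [k0, e1]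
      · exact absurd (mem_singleton.2 k0) k3)
  refine ⟨O, φ, s1, s2 zX, s3, ?_, ?_⟩
  · rw [s4 i (fun k0 => not_ins_of_cut iX (mem_of_mem_erase k0)) (notMem_singleton.2 hic) hbi.symm,
      e1]
  · rw [← e2, zv, zv, s4 z (notMem_erase _ _) (notMem_singleton.2 hcz.symm) hbz.symm]

/-- HINT: the three edges of `cut X` other than `i` have different outer ends (`HT.oe_ne`,
`KB1.mem`); take `c` with outer end different from `ie T j`, `ie T k`.  `k1_evX`; let `ψ'` be `φ`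
on `tch X` and `ψ` elsewhere; `out5` for `T \ X` with the edges `a, b, j, k, c` (if `K ⊆ T \ X` had
four leaving edges among which `j, k`, then `T \ K ⊇ X` would have three, `Spl_card`).  The
switched sum vanishes by `KC.cons` for `X`.  `fil_self`, `Fil.union`, `Fil.congr`. -/
theorem k1_ev0 (hK : G.KC T p z i j k) (hX : G.KB1 T i X) (n1 : ψ i ≠ 0) (n2 : ψ j ≠ 0)
    (n3 : ψ k ≠ 0) (hs : G.kap p T j * ψ j + G.kap p T k * ψ k = G.kap p T i * ψ i) :
    ∃ O φ, G.Fil T ∅ ∅ ψ O φ ∧ z ∉ O := by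
  have hc := hK.cub
  have hT := hK.ht
  have hXT := hX.1
  have h4 := hX.2.1.1
  have zX : z ∈ G.ins X := hK.zin hXT hX.2.1.2
  obtain ⟨iX, iT, -, -, mT, mX⟩ := hX.mem
  obtain ⟨-, jT, kT⟩ := hK.mem
  have hij : i ≠ j := hK.q3.2.1
  have hik : i ≠ k := hK.q3.2.2.1
  have hjk : j ≠ k := hK.q3.2.2.2
  have hoe : ∀ e ∈ G.cut X, e ≠ i → ∀ f ∈ G.cut X, e ≠ f → G.oe X e ≠ G.oe X f := by
    intro e he hei f hf hef
    refine hT.oe_ne hc hXT h4 he hf hef (mem_sdiff.1 (mX e he hei).2).1 fun k0 => ?_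
    have k1 : G.ie T j ∈ insert (G.oe X e) X := k0.symm ▸ ie_mem (cut_sub_tch jT)
    have k2 : G.ie T k ∈ insert (G.oe X e) X := k0.symm ▸ ie_mem (cut_sub_tch kT)
    exact hK.dv.2.2 (((mem_insert.1 k1).resolve_right (mT j jT hij.symm).1).trans
      ((mem_insert.1 k2).resolve_right (mT k kT hik.symm).1).symm)
  obtain ⟨a, b, c, hq, cj, ck⟩ : ∃ a b c, G.Q4 X a b i c ∧ G.oe X c ≠ G.ie T j ∧
      G.oe X c ≠ G.ie T k := by
    obtain ⟨x, hx, hxi⟩ := exists_mem_ne (s := G.cut X) (by omega) i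
    obtain ⟨y, w, hq⟩ := exists_q4 h4 iX hx hxi.symm
    have k1 := hoe x hx hxi y hq.mem.2.2.1 hq.2.2.2.2.1
    have k2 := hoe x hx hxi w hq.mem.2.2.2 hq.2.2.2.2.2.1
    have k3 := hoe y hq.mem.2.2.1 hq.2.2.1.symm w hq.mem.2.2.2 hq.2.2.2.2.2.2
    by_cases c1 : G.oe X x ≠ G.ie T j ∧ G.oe X x ≠ G.ie T k
    · exact ⟨y, w, x, hq.flip, c1⟩
    by_cases c2 : G.oe X y ≠ G.ie T j ∧ G.oe X y ≠ G.ie T k
    · exact ⟨x, w, y, hq.swap2.swap1.mid, c2⟩
    refine ⟨x, y, w, hq.swap1.mid, ?_⟩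
    rw [not_and_or, not_not, not_not] at c1 c2
    rcases c1 with c1 | c1 <;> rcases c2 with c2 | c2
    · exact absurd (c1.trans c2.symm) k1
    · exact ⟨fun k0 => k2 (c1.trans k0.symm), fun k0 => k3 (c2.trans k0.symm)⟩
    · exact ⟨fun k0 => k3 (c2.trans k0.symm), fun k0 => k2 (c1.trans k0.symm)⟩
    · exact absurd (c1.trans c2.symm) k1
  obtain ⟨O1, φ1, s1, zO, l1, f1, f2⟩ := k1_evX hK hX hq n1
  obtain ⟨aX, bX, -, cX⟩ := hq.mem
  have hab : a ≠ b := hq.2.1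
  have hai : a ≠ i := hq.2.2.1
  have hac : a ≠ c := hq.2.2.2.1
  have hbi : b ≠ i := hq.2.2.2.2.1
  have hbc : b ≠ c := hq.2.2.2.2.2.1
  have hci : c ≠ i := hq.2.2.2.2.2.2.symm
  have jX : j ∉ G.tch X := (mT j jT hij.symm).2
  have kX : k ∉ G.tch X := (mT k kT hik.symm).2
  have nT : ∀ e ∈ G.cut X, e ≠ i → e ∉ G.cut T := fun e he hei k0 =>
    not_ins_of_cut k0 (mX e he hei).1
  have mY : ∀ e ∈ G.cut X, e ≠ i → e ∈ G.cut (T \ X) := fun e he hei =>
    (Spl_sd hXT e).2 fun k0 => nT e he hei (k0.2 he)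
  have jY : j ∈ G.cut (T \ X) := (Spl_sd hXT j).2 fun k0 => jX (cut_sub_tch (k0.1 jT))
  have kY : k ∈ G.cut (T \ X) := (Spl_sd hXT k).2 fun k0 => kX (cut_sub_tch (k0.1 kT))
  have hc5 : G.cut (T \ X) = {a, b, j, k, c} := by
    ext e
    simp only [mem_insert, mem_singleton]
    refine ⟨fun he => ?_, ?_⟩
    · rw [Spl_sd hXT] at he
      by_cases k1 : e ∈ G.cut T
      · rcases hK.cases k1 with k2 | k2 | k2
        · exact absurd (iff_of_true k1 (k2 ▸ iX)) he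
        · exact Or.inr (Or.inr (Or.inl k2))
        · exact Or.inr (Or.inr (Or.inr (Or.inl k2)))
      · rcases (Spl_mem hq e).1 (by (clear * - he k1; tauto)) with k2 | k2 | k2 | k2
        · exact Or.inl k2
        · exact Or.inr (Or.inl k2)
        · exact absurd (k2 ▸ iT) k1
        · exact Or.inr (Or.inr (Or.inr (Or.inr k2)))
    · rintro (k0 | k0 | k0 | k0 | k0) <;> rw [k0]
      exacts [mY a aX hai, mY b bX hbi, jY, kY, mY c cX hci]
  have hd : Disjoint X (T \ X) := disjoint_sdiff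
  have iY : ∀ e ∈ G.cut X, e ≠ i → G.ie (T \ X) e = G.oe X e := fun e he hei =>
    (ie_link hd he (mY e he hei)).1
  have kY' : ∀ e ∈ G.cut X, e ≠ i → (G.kap p (T \ X) e : ZMod 3) = -G.kap p X e := fun e he hei =>
    kap_link hd he (mY e he hei)
      (hK.bal e (mX e he hei).1 fun k0 => not_ins_of_cut he (k0 ▸ zX))
  have ij : G.ie (T \ X) j = G.ie T j := (cut_of_sub sdiff_subset jT (cut_sub_tch jY)).2
  have ik : G.ie (T \ X) k = G.ie T k := (cut_of_sub sdiff_subset kT (cut_sub_tch kY)).2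
  have ne1 : ∀ e ∈ G.cut X, e ≠ j := fun e he k0 => jX (k0 ▸ cut_sub_tch he)
  have ne2 : ∀ e ∈ G.cut X, e ≠ k := fun e he k0 => kX (k0 ▸ cut_sub_tch he)
  obtain ⟨ψ', g1, g2⟩ : ∃ ψ' : E → ZMod 3, (∀ e ∈ G.tch X, ψ' e = φ1 e) ∧
      ∀ e, e ∉ G.tch X → ψ' e = ψ e :=
    ⟨fun e => if e ∈ G.tch X then φ1 e else ψ e, fun e he => if_pos he, fun e he => if_neg he⟩
  have cO : c ∉ O1 := by
    intro k0
    have k1 : c ∈ ({a, b} : Finset E) := s1.2.2 ▸ mem_inter.2 ⟨k0, cX⟩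
    rcases mem_insert.1 k1 with k2 | k2
    exacts [hac k2.symm, hbc (mem_singleton.1 k2).symm]
  have htw : G.tw p (T \ X) ψ' = 0 := by
    have k1 := (hK.cons hXT l1.1).1 zX
    rw [tw_q4 hq, f1, f2, kap_sub hXT iT (cut_sub_tch iX)] at k1
    rw [tw, hc5, sum_insert (by simp [hab, ne1 a aX, ne2 a aX, hac]),
      sum_insert (by simp [ne1 b bX, ne2 b bX, hbc]),
      sum_insert (by simp [hjk, (ne1 c cX).symm]), sum_pair (ne2 c cX).symm,
      kY' a aX hai, kY' b bX hbi, kY' c cX hci, kap_sub sdiff_subset jT (cut_sub_tch jY),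
      kap_sub sdiff_subset kT (cut_sub_tch kY), g1 a (cut_sub_tch aX), g1 b (cut_sub_tch bX),
      g1 c (cut_sub_tch cX), g2 j jX, g2 k kX]
    linear_combination hs - k1
  obtain ⟨O2, φ2, F2⟩ := out5 (ψ := ψ') (p := p) hc hT sdiff_subset hc5
    (by
      unfold Dv
      rw [iY a aX hai, iY b bX hbi]
      exact hoe a aX hai b bX hab)
    (by
      unfold Dv
      rw [ij, ik]
      exact hK.dv.2.2)
    (by
      unfold Dv
      rw [ij, iY c cX hci]
      exact cj.symm)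
    (by
      unfold Dv
      rw [ik, iY c cX hci]
      exact ck.symm)
    (by
      intro K hKY _ _ k1 k2 _ k4
      have hKT : K ⊆ T := hKY.trans sdiff_subset
      have k5 := Spl_card (G := G) hKT
      have k6 : 2 ≤ (G.cut K ∩ G.cut T).card :=
        one_lt_card.2 ⟨j, mem_inter.2 ⟨k1, jT⟩, k, mem_inter.2 ⟨k2, kT⟩, hjk⟩
      have k7 : (G.cut T).card = 3 := hK.t3.2.1
      have k8 : X ⊆ T \ K := fun v hv =>
        mem_sdiff.2 ⟨hXT hv, fun k0 => (mem_sdiff.1 (hKY k0)).2 hv⟩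
      have k9 := hT.four subset_rfl (sdiff_ssubset hKT ⟨_, ie_mem (cut_sub_tch k1)⟩)
        ((Spl_two hc hT hXT h4).trans (card_le_card k8))
      omega)
    (hK.bal' sdiff_subset fun k0 => (mem_sdiff.1 (mem_ins.1 k0).2.1).2 (mem_ins.1 zX).2.1)
    (by rwa [g2 j jX]) (by rwa [g2 k kX])
    (by rw [g1 c (cut_sub_tch cX)]; exact l1.2.1 c (cut_sub_tch cX) cO) htw
  have F1 : G.Fil X {a, b} ∅ ψ' O1 ψ' := fil_self s1 l1 g1
  obtain ⟨φ, F, u1, -, -⟩ := F1.union F2 hd fun _ _ _ => Iff.rfl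
  rw [union_sdiff_of_subset hXT, union_self, inter_self, sdiff_self, Set.empty_union] at F
  obtain ⟨φ', F', -⟩ := F.congr (ψ' := ψ) (by
    intro e he
    by_cases k0 : e = i
    · rw [k0, g1 i (cut_sub_tch iX), f1]
    · exact g2 e (mT e he k0).2)
  exact ⟨O1 ∪ O2, φ', F', fun k0 => zO ((u1 z (ins_sub_tch zX)).2.1 k0)⟩

/-- HINT: `k1_ev0`, `AX3_res`, `lift1` (both hitting conditions are void by parity). -/
theorem k1_alleven (hK : G.KC T p z i j k) (hX : G.KB1 T i X) {h : E → ℤ} (hB : G.Bv T h)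
    (hs : G.kap p T j * h j + G.kap p T k * h k = G.kap p T i * h i)
    (he : ∀ e ∈ G.cut T, ¬ Odd (h e)) : G.Ext T h := by
  obtain ⟨iT, jT, kT⟩ := hK.mem
  have hs' := congrArg (Int.cast : ℤ → ZMod 3) hs
  simp only [Int.cast_add, Int.cast_mul, Def6_cast] at hs'
  obtain ⟨O, φ, F, hz⟩ := k1_ev0 (ψ := fun e => (h e : ZMod 3)) hK hX
    (AX3_res (hB i iT) (he i iT)) (AX3_res (hB j jT) (he j jT)) (AX3_res (hB k kT) (he k kT)) hs'
  refine lift1 hK hB hs F (fun e h1 => iff_of_false (notMem_empty e) (he e h1))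
    (iff_of_false hz (he i iT)) (fun k0 => ?_) fun m hm k0 => ?_
  · have k1 := he i iT
    rw [Int.odd_iff] at k1
    rcases abs_cases (h i) with k2 | k2 <;> omega
  · have k1 := he m (by rcases hm with rfl | rfl <;> assumption)
    rw [Int.odd_iff] at k1
    rcases abs_cases (h m) with k2 | k2 <;> omega

end SG

end Pool.Agent.Work.MP_8c679b_co
end
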